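import Pool.Agent.SSC3N.Defs

/-! Elementary bounds for `cF`, `LF`, `cP`. -/

set_option autoImplicit false
open MeasureTheory ProbabilityTheory Set Real
open scoped ENNReal

namespace Pool.Agent.SSC3N
open Pool.Agent.SSC3

theorem cb_cos_ge {t : ℝ} (h0 : 0 ≤ t) (h1 : t ≤ 1 / 3) : -(1 / 2) ≤ Real.cos (2 * π * t) := by
  have hpi := Real.pi_pos
  have h2 : Real.cos (2 * π / 3) = -(1 / 2) := by
    rw [show 2 * π / 3 = π - π / 3 by ring, Real.cos_pi_sub, Real.cos_pi_div_three]
  rw [← h2]
  apply Real.cos_le_cos_of_nonneg_of_le_pi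
  · positivity
  · linarith
  · nlinarith

theorem cb_cos_nonneg {t : ℝ} (h0 : 0 ≤ t) (h1 : t ≤ 1 / 4) : 0 ≤ Real.cos (2 * π * t) := by
  have hpi := Real.pi_pos
  apply Real.cos_nonneg_of_mem_Icc
  constructor
  · have : 0 ≤ 2 * π * t := by positivity
    linarith
  · nlinarith

theorem cb_sin_nonneg {t : ℝ} (h0 : 0 ≤ t) (h1 : t ≤ 1 / 3) : 0 ≤ Real.sin (2 * π * t) := by
  have hpi := Real.pi_pos
  apply Real.sin_nonneg_of_nonneg_of_le_pi
  · positivity
  · nlinarith

theorem cb_vt_nonneg {t : ℝ} (h0 : 0 ≤ t) (h1 : t ≤ 1 / 3) : 0 ≤ vt t := by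
  unfold vt
  nlinarith

theorem cb_vt_le (t : ℝ) : vt t ≤ 4 / 21 := by
  unfold vt
  nlinarith [sq_nonneg (t - 4 / 21)]

theorem cb_exp_le {t l : ℝ} (hl : 0 ≤ l) (h0 : 0 ≤ t) (h1 : t ≤ 1 / 3) :
    Real.exp (-(l * Real.cos (2 * π * t))) ≤ Real.exp (l / 2) := by
  apply Real.exp_le_exp.mpr
  have := cb_cos_ge h0 h1
  nlinarith

theorem cb_cont1 (l : ℝ) :
    Continuous fun t : ℝ => (2 + 3 * t) * Real.exp (-(l * Real.cos (2 * π * t))) := by fun_prop

theorem cb_cont2 (l : ℝ) :
    Continuous fun t : ℝ => 2 * π * Real.sin (2 * π * t) * vt t *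
      Real.exp (-(l * Real.cos (2 * π * t))) := by
  unfold vt
  fun_prop

theorem continuous_cF : Continuous cF := by
  unfold cF
  have h : Continuous (Function.uncurry fun l t : ℝ =>
      (2 + 3 * t) * Real.exp (-(l * Real.cos (2 * π * t)))) := by
    unfold Function.uncurry
    fun_prop
  have := intervalIntegral.continuous_parametric_intervalIntegral_of_continuous' (μ := volume) h
    0 (1 / 3)
  fun_prop

theorem continuous_LF : Continuous LF := by
  unfold LF
  have h : Continuous (Function.uncurry fun l t : ℝ =>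
      2 * π * Real.sin (2 * π * t) * vt t * Real.exp (-(l * Real.cos (2 * π * t)))) := by
    unfold Function.uncurry vt
    fun_prop
  exact intervalIntegral.continuous_parametric_intervalIntegral_of_continuous' (μ := volume) h
    0 (1 / 3)

theorem cF_nonneg (l : ℝ) : 0 ≤ cF l := by
  unfold cF
  have h1 : 0 ≤ ∫ t in (0:ℝ)..(1 / 3), (2 + 3 * t) * Real.exp (-(l * Real.cos (2 * π * t))) := by
    apply intervalIntegral.integral_nonneg (by norm_num)
    intro t ht
    have := ht.1
    positivity
  positivity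

theorem cF_le (l : ℝ) (hl : 0 ≤ l) : cF l ≤ Real.exp (l / 2) := by
  unfold cF
  have h1 : ∫ t in (0:ℝ)..(1 / 3), (2 + 3 * t) * Real.exp (-(l * Real.cos (2 * π * t)))
      ≤ ∫ t in (0:ℝ)..(1 / 3), (2 + 3 * t) * Real.exp (l / 2) := by
    apply intervalIntegral.integral_mono_on (by norm_num)
    · exact (cb_cont1 l).intervalIntegrable _ _
    · exact Continuous.intervalIntegrable (by fun_prop) _ _
    · intro t ht
      apply mul_le_mul_of_nonneg_left (cb_exp_le hl ht.1 ht.2)
      have := ht.1
      positivity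
  have h2 : ∫ t in (0:ℝ)..(1 / 3), (2 + 3 * t) * Real.exp (l / 2) = 5 / 6 * Real.exp (l / 2) := by
    rw [intervalIntegral.integral_mul_const, intervalIntegral.integral_add
      (by exact Continuous.intervalIntegrable (by fun_prop) _ _)
      (by exact Continuous.intervalIntegrable (by fun_prop) _ _),
      intervalIntegral.integral_const, intervalIntegral.integral_const_mul, integral_id]
    norm_num
  linarith

theorem LF_nonneg (l : ℝ) : 0 ≤ LF l := by
  unfold LF
  apply intervalIntegral.integral_nonneg (by norm_num)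
  intro t ht
  have h1 := cb_sin_nonneg ht.1 ht.2
  have h2 := cb_vt_nonneg ht.1 ht.2
  have h3 := Real.pi_pos
  positivity

theorem LF_le (l : ℝ) (hl : 0 ≤ l) : LF l ≤ Real.exp (l / 2) := by
  unfold LF
  have h1 : ∫ t in (0:ℝ)..(1 / 3), 2 * π * Real.sin (2 * π * t) * vt t *
      Real.exp (-(l * Real.cos (2 * π * t)))
      ≤ ∫ t in (0:ℝ)..(1 / 3), 3 * Real.exp (l / 2) := by
    apply intervalIntegral.integral_mono_on (by norm_num)
    · exact (cb_cont2 l).intervalIntegrable _ _
    · exact Continuous.intervalIntegrable (by fun_prop) _ _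
    · intro t ht
      have h1 := cb_sin_nonneg ht.1 ht.2
      have h1' := Real.sin_le_one (2 * π * t)
      have h2 := cb_vt_nonneg ht.1 ht.2
      have h2' := cb_vt_le t
      have h3 := Real.pi_pos
      have h3' := Real.pi_lt_four
      have h4 : 2 * π * Real.sin (2 * π * t) * vt t ≤ 3 := by
        have e1 : Real.sin (2 * π * t) * vt t ≤ 1 * (4 / 21) := mul_le_mul h1' h2' h2 zero_le_one
        have e2 : 0 ≤ Real.sin (2 * π * t) * vt t := mul_nonneg h1 h2
        have e3 : 2 * π * Real.sin (2 * π * t) * vt t = 2 * π * (Real.sin (2 * π * t) * vt t) := by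
          ring
        rw [e3]
        nlinarith
      exact mul_le_mul h4 (cb_exp_le hl ht.1 ht.2) (Real.exp_pos _).le (by norm_num)
  have h2 : ∫ t in (0:ℝ)..(1 / 3), 3 * Real.exp (l / 2) = Real.exp (l / 2) := by
    rw [intervalIntegral.integral_const, smul_eq_mul]
    ring
  linarith

theorem cF_split (l : ℝ) : cF l = cP l + cM l := by
  unfold cF cP cM
  rw [← intervalIntegral.integral_add_adjacent_intervals
    ((cb_cont1 l).intervalIntegrable 0 (1 / 4)) ((cb_cont1 l).intervalIntegrable (1 / 4) (1 / 3))]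
  ring

theorem cP_nonneg (l : ℝ) : 0 ≤ cP l := by
  unfold cP
  apply intervalIntegral.integral_nonneg (by norm_num)
  intro t ht
  have := ht.1
  positivity

theorem cP_anti (l l' : ℝ) (h : l ≤ l') : cP l' ≤ cP l := by
  unfold cP
  apply intervalIntegral.integral_mono_on (by norm_num)
  · exact (cb_cont1 l').intervalIntegrable _ _
  · exact (cb_cont1 l).intervalIntegrable _ _
  · intro t ht
    apply mul_le_mul_of_nonneg_left
    · apply Real.exp_le_exp.mpr
      have := cb_cos_nonneg ht.1 ht.2
      nlinarith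
    · have := ht.1
      positivity

end Pool.Agent.SSC3N
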