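import Pool.Agent.SSC3N.Defs

/-!
[N5a] explicit trigonometric moments on `[0,1/4]`.
-/

set_option autoImplicit false
open MeasureTheory ProbabilityTheory Set Real
open scoped ENNReal

namespace Pool.Agent.SSC3N
open Pool.Agent.SSC3

/-- antiderivative of `(2+3t) cos (2πjt)` -/
private noncomputable def FJ (j t : ℝ) : ℝ :=
  (2 + 3 * t) * Real.sin (2 * π * j * t) / (2 * π * j) +
    3 * Real.cos (2 * π * j * t) / (2 * π * j) ^ 2

private theorem int_FJ (j : ℝ) (hj : j ≠ 0) (a b : ℝ) :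
    ∫ t in a..b, (2 + 3 * t) * Real.cos (2 * π * j * t) = FJ j b - FJ j a := by
  have hp : (2 * π * j) ≠ 0 := mul_ne_zero (by positivity) hj
  apply intervalIntegral.integral_eq_sub_of_hasDerivAt
  · intro t _
    have h1 : HasDerivAt (fun t : ℝ => 2 * π * j * t) (2 * π * j) t := by
      simpa using (hasDerivAt_id t).const_mul (2 * π * j)
    have h2 : HasDerivAt (fun t : ℝ => 2 + 3 * t) 3 t := by
      simpa using ((hasDerivAt_id t).const_mul (3:ℝ)).const_add 2
    have h3 := ((h2.mul h1.sin).div_const (2 * π * j)).add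
      ((h1.cos.const_mul 3).div_const ((2 * π * j) ^ 2))
    refine h3.congr_deriv ?_
    field_simp
    ring
  · exact (by fun_prop : Continuous fun t : ℝ => (2 + 3 * t) * Real.cos (2 * π * j * t)).intervalIntegrable _ _

private theorem ii (j : ℝ) (a b : ℝ) :
    IntervalIntegrable (fun t : ℝ => (2 + 3 * t) * Real.cos (2 * π * j * t)) volume a b :=
  (by fun_prop : Continuous fun t : ℝ => (2 + 3 * t) * Real.cos (2 * π * j * t)).intervalIntegrable _ _

private theorem int_0 : ∫ t in (0:ℝ)..(1 / 4), (2 + 3 * t) = 0.59375 := by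
  have : ∫ t in (0:ℝ)..(1 / 4), (2 + 3 * t) = (2 * (1/4) + 3 / 2 * (1/4) ^ 2) - (2 * 0 + 3 / 2 * 0 ^ 2) := by
    apply intervalIntegral.integral_eq_sub_of_hasDerivAt (f := fun t : ℝ => 2 * t + 3 / 2 * t ^ 2)
    · intro t _
      have h := ((hasDerivAt_id t).const_mul (2:ℝ)).add (((hasDerivAt_id t).pow 2).const_mul (3 / 2 : ℝ))
      refine h.congr_deriv ?_
      simp; ring
    · exact (by fun_prop : Continuous fun t : ℝ => (2 + 3 * t)).intervalIntegrable _ _
  rw [this]; norm_num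

private theorem cos4 (x : ℝ) : Real.cos (4 * x) = 8 * Real.cos x ^ 4 - 8 * Real.cos x ^ 2 + 1 := by
  rw [show 4 * x = 2 * (2 * x) by ring, Real.cos_two_mul, Real.cos_two_mul]; ring

private theorem cos5 (x : ℝ) :
    Real.cos (5 * x) = 16 * Real.cos x ^ 5 - 20 * Real.cos x ^ 3 + 5 * Real.cos x := by
  have h4 := cos4 x
  have hs4 : Real.sin (4 * x) = 4 * Real.sin x * Real.cos x * (2 * Real.cos x ^ 2 - 1) := by
    rw [show 4 * x = 2 * (2 * x) by ring, Real.sin_two_mul, Real.sin_two_mul, Real.cos_two_mul]; ring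
  rw [show 5 * x = 4 * x + x by ring, Real.cos_add, h4, hs4]
  have hs : Real.sin x ^ 2 = 1 - Real.cos x ^ 2 := by
    have := Real.sin_sq_add_cos_sq x; linarith
  linear_combination (-(4 * Real.cos x * (2 * Real.cos x ^ 2 - 1))) * hs

/-- bounds for `1/π` -/
private theorem pinv : (0.318309886 : ℝ) < 1 / π ∧ 1 / π < (0.318309887 : ℝ) := by
  have h1 := Real.pi_gt_d20
  have h2 := Real.pi_lt_d20
  have hp := Real.pi_pos
  constructor
  · rw [lt_div_iff₀ hp]; nlinarith
  · rw [div_lt_iff₀ hp]; nlinarith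

private theorem pinv2 : (0.1013211835 : ℝ) < (1 / π) ^ 2 ∧ (1 / π) ^ 2 < (0.1013211842 : ℝ) := by
  obtain ⟨h1, h2⟩ := pinv
  constructor <;> nlinarith

private theorem sin_h : Real.sin (2 * π * 1 * (1 / 4)) = 1 ∧ Real.cos (2 * π * 1 * (1 / 4)) = 0 := by
  rw [show 2 * π * 1 * (1 / 4) = π / 2 by ring]
  exact ⟨Real.sin_pi_div_two, Real.cos_pi_div_two⟩

private theorem J1 : ∫ t in (0:ℝ)..(1 / 4), (2 + 3 * t) * Real.cos (2 * π * 1 * t) =
    11 / 8 * (1 / π) - 3 / 4 * (1 / π) ^ 2 := by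
  rw [int_FJ 1 (by norm_num)]
  unfold FJ
  rw [show 2 * π * 1 * (1 / 4) = π / 2 by ring, Real.sin_pi_div_two, Real.cos_pi_div_two]
  simp only [mul_zero, Real.sin_zero, Real.cos_zero]
  have hp := Real.pi_ne_zero
  field_simp
  ring

private theorem J2 : ∫ t in (0:ℝ)..(1 / 4), (2 + 3 * t) * Real.cos (2 * π * 2 * t) =
    - 3 / 8 * (1 / π) ^ 2 := by
  rw [int_FJ 2 (by norm_num)]
  unfold FJ
  rw [show 2 * π * 2 * (1 / 4) = π by ring, Real.sin_pi, Real.cos_pi]
  simp only [mul_zero, Real.sin_zero, Real.cos_zero]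
  have hp := Real.pi_ne_zero
  field_simp
  ring

private theorem s3 : Real.sin (3 * (π / 2)) = -1 ∧ Real.cos (3 * (π / 2)) = 0 := by
  rw [show 3 * (π / 2) = π / 2 + π by ring, Real.sin_add_pi, Real.cos_add_pi, Real.sin_pi_div_two,
    Real.cos_pi_div_two]
  simp

private theorem s5 : Real.sin (5 * (π / 2)) = 1 ∧ Real.cos (5 * (π / 2)) = 0 := by
  rw [show 5 * (π / 2) = π / 2 + 2 * π by ring, Real.sin_add_two_pi, Real.cos_add_two_pi,
    Real.sin_pi_div_two, Real.cos_pi_div_two]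
  simp

private theorem J3 : ∫ t in (0:ℝ)..(1 / 4), (2 + 3 * t) * Real.cos (2 * π * 3 * t) =
    - 11 / 24 * (1 / π) - 1 / 12 * (1 / π) ^ 2 := by
  rw [int_FJ 3 (by norm_num)]
  unfold FJ
  rw [show 2 * π * 3 * (1 / 4) = 3 * (π / 2) by ring, s3.1, s3.2]
  simp only [mul_zero, Real.sin_zero, Real.cos_zero]
  have hp := Real.pi_ne_zero
  field_simp
  ring

private theorem J4 : ∫ t in (0:ℝ)..(1 / 4), (2 + 3 * t) * Real.cos (2 * π * 4 * t) = 0 := by
  rw [int_FJ 4 (by norm_num)]
  unfold FJ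
  rw [show 2 * π * 4 * (1 / 4) = 2 * π by ring, Real.sin_two_pi, Real.cos_two_pi]
  simp only [mul_zero, Real.sin_zero, Real.cos_zero]
  have hp := Real.pi_ne_zero
  field_simp
  ring

private theorem J5 : ∫ t in (0:ℝ)..(1 / 4), (2 + 3 * t) * Real.cos (2 * π * 5 * t) =
    11 / 40 * (1 / π) - 3 / 100 * (1 / π) ^ 2 := by
  rw [int_FJ 5 (by norm_num)]
  unfold FJ
  rw [show 2 * π * 5 * (1 / 4) = 5 * (π / 2) by ring, s5.1, s5.2]
  simp only [mul_zero, Real.sin_zero, Real.cos_zero]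
  have hp := Real.pi_ne_zero
  field_simp
  ring

private theorem mG1 : mG 1 = 11 / 8 * (1 / π) - 3 / 4 * (1 / π) ^ 2 := by
  rw [← J1]
  unfold mG
  refine intervalIntegral.integral_congr (fun t _ => ?_)
  simp

private theorem mG2 : mG 2 = 0.59375 / 2 + (- 3 / 8 * (1 / π) ^ 2) / 2 := by
  rw [← J2, ← int_0]
  unfold mG
  rw [← intervalIntegral.integral_div, ← intervalIntegral.integral_div,
    ← intervalIntegral.integral_add]
  · refine intervalIntegral.integral_congr (fun t _ => ?_)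
    rw [show 2 * π * 2 * t = 2 * (2 * π * t) by ring, Real.cos_two_mul]
    ring
  · exact (by fun_prop : Continuous fun t : ℝ => (2 + 3 * t) / 2).intervalIntegrable _ _
  · exact (ii 2 _ _).div_const 2

private theorem mG3 : mG 3 = 3 / 4 * (11 / 8 * (1 / π) - 3 / 4 * (1 / π) ^ 2) +
    1 / 4 * (- 11 / 24 * (1 / π) - 1 / 12 * (1 / π) ^ 2) := by
  rw [← J1, ← J3]
  unfold mG
  rw [← intervalIntegral.integral_const_mul, ← intervalIntegral.integral_const_mul,
    ← intervalIntegral.integral_add]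
  · refine intervalIntegral.integral_congr (fun t _ => ?_)
    rw [show 2 * π * 3 * t = 3 * (2 * π * t) by ring, Real.cos_three_mul,
      show 2 * π * 1 * t = 2 * π * t by ring]
    ring
  · exact (ii 1 _ _).const_mul _
  · exact (ii 3 _ _).const_mul _

private theorem mG4 : mG 4 = 3 / 8 * 0.59375 + 1 / 2 * (- 3 / 8 * (1 / π) ^ 2) + 1 / 8 * 0 := by
  rw [← J4, ← J2, ← int_0]
  unfold mG
  rw [← intervalIntegral.integral_const_mul, ← intervalIntegral.integral_const_mul,
    ← intervalIntegral.integral_const_mul, ← intervalIntegral.integral_add,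
    ← intervalIntegral.integral_add]
  · refine intervalIntegral.integral_congr (fun t _ => ?_)
    rw [show 2 * π * 4 * t = 4 * (2 * π * t) by ring, cos4,
      show 2 * π * 2 * t = 2 * (2 * π * t) by ring, Real.cos_two_mul]
    ring
  · exact ((by fun_prop : Continuous fun t : ℝ => 3 / 8 * (2 + 3 * t)).intervalIntegrable _ _).add
      ((ii 2 _ _).const_mul _)
  · exact (ii 4 _ _).const_mul _
  · exact (by fun_prop : Continuous fun t : ℝ => 3 / 8 * (2 + 3 * t)).intervalIntegrable _ _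
  · exact (ii 2 _ _).const_mul _

private theorem mG5 : mG 5 = 5 / 8 * (11 / 8 * (1 / π) - 3 / 4 * (1 / π) ^ 2) +
    5 / 16 * (- 11 / 24 * (1 / π) - 1 / 12 * (1 / π) ^ 2) +
    1 / 16 * (11 / 40 * (1 / π) - 3 / 100 * (1 / π) ^ 2) := by
  rw [← J1, ← J3, ← J5]
  unfold mG
  rw [← intervalIntegral.integral_const_mul, ← intervalIntegral.integral_const_mul,
    ← intervalIntegral.integral_const_mul, ← intervalIntegral.integral_add,
    ← intervalIntegral.integral_add]
  · refine intervalIntegral.integral_congr (fun t _ => ?_)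
    rw [show 2 * π * 5 * t = 5 * (2 * π * t) by ring, cos5,
      show 2 * π * 3 * t = 3 * (2 * π * t) by ring, Real.cos_three_mul,
      show 2 * π * 1 * t = 2 * π * t by ring]
    ring
  · exact ((ii 1 _ _).const_mul _).add ((ii 3 _ _).const_mul _)
  · exact (ii 5 _ _).const_mul _
  · exact (ii 1 _ _).const_mul _
  · exact (ii 3 _ _).const_mul _

theorem mG_bounds : mG 0 = 0.59375 ∧ |mG 1 - 0.361685| ≤ 0.000001 ∧
    |mG 2 - 0.277877| ≤ 0.000001 ∧ |mG 3 - 0.232680| ≤ 0.000001 ∧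
    |mG 4 - 0.203659| ≤ 0.000001 ∧ |mG 5 - 0.183104| ≤ 0.000001 := by
  obtain ⟨p1, p2⟩ := pinv
  obtain ⟨p3, p4⟩ := pinv2
  refine ⟨?_, ?_, ?_, ?_, ?_, ?_⟩
  · rw [← int_0]; unfold mG
    refine intervalIntegral.integral_congr (fun t _ => ?_)
    simp
  · rw [mG1, abs_le]; constructor <;> linarith
  · rw [mG2, abs_le]; constructor <;> linarith
  · rw [mG3, abs_le]; constructor <;> linarith
  · rw [mG4, abs_le]; constructor <;> linarith
  · rw [mG5, abs_le]; constructor <;> linarith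

end Pool.Agent.SSC3N
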