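import Pool.Agent.SSC3N.MomB
import Pool.Agent.SSC3N.MomG
import Pool.Agent.SSC3N.CBasic

set_option autoImplicit false
open MeasureTheory ProbabilityTheory Set Real
open scoped ENNReal

namespace Pool.Agent.SSC3N
open Pool.Agent.SSC3

private lemma q3_nonneg_left {F G : ℝ → ℝ} (h : ∀ x, HasDerivAt F (G x) x) (h0 : F 0 = 0)
    (hG : ∀ x ≤ 0, G x ≤ 0) : ∀ x ≤ 0, 0 ≤ F x := by
  intro x hx
  have hanti : AntitoneOn F (Iic 0) := by
    apply antitoneOn_of_deriv_nonpos (convex_Iic 0)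
    · exact fun y _ => (h y).continuousAt.continuousWithinAt
    · exact fun y _ => (h y).differentiableAt.differentiableWithinAt
    · intro y hy
      rw [interior_Iic] at hy
      rw [(h y).deriv]
      exact hG y (le_of_lt hy)
  have := hanti (Set.mem_Iic.mpr hx) (Set.mem_Iic.mpr (le_refl (0:ℝ))) hx
  rw [h0] at this
  exact this

private lemma q3_nonpos_left {F G : ℝ → ℝ} (h : ∀ x, HasDerivAt F (G x) x) (h0 : F 0 = 0)
    (hG : ∀ x ≤ 0, 0 ≤ G x) : ∀ x ≤ 0, F x ≤ 0 := by
  intro x hx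
  have := q3_nonneg_left (F := fun y => -F y) (G := fun y => -G y) (fun y => (h y).neg) (by simp [h0])
    (fun y hy => by have := hG y hy; linarith) x hx
  linarith

private lemma q3_exp_ge (y : ℝ) :
    1 + y + y ^ 2 / 2 + y ^ 3 / 6 + y ^ 4 / 24 + y ^ 5 / 120 ≤ Real.exp y := by
  rcases le_total 0 y with hy | hy
  · have := Real.sum_le_exp_of_nonneg hy 6
    simp only [Finset.sum_range_succ, Finset.sum_range_zero, Nat.factorial] at this
    norm_num at this
    linarith
  · have d1 : ∀ x : ℝ, HasDerivAt (fun y => Real.exp y - (1 + y)) (Real.exp x - 1) x := by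
      intro x
      have := (Real.hasDerivAt_exp x).sub ((hasDerivAt_id x).const_add 1)
      exact this
    have s1 : ∀ x ≤ (0:ℝ), 0 ≤ Real.exp x - (1 + x) := by
      intro x _
      have := Real.add_one_le_exp x
      linarith
    have d2 : ∀ x : ℝ, HasDerivAt (fun y => Real.exp y - (1 + y + y ^ 2 / 2))
        (Real.exp x - (1 + x)) x := by
      intro x
      have := (Real.hasDerivAt_exp x).sub
        (((hasDerivAt_id x).const_add 1).add (((hasDerivAt_id x).pow 2).div_const 2))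
      refine this.congr_deriv ?_
      simp; 
    have s2 := q3_nonpos_left d2 (by simp) s1
    have d3 : ∀ x : ℝ, HasDerivAt (fun y => Real.exp y - (1 + y + y ^ 2 / 2 + y ^ 3 / 6))
        (Real.exp x - (1 + x + x ^ 2 / 2)) x := by
      intro x
      have := (Real.hasDerivAt_exp x).sub
        ((((hasDerivAt_id x).const_add 1).add (((hasDerivAt_id x).pow 2).div_const 2)).add
          (((hasDerivAt_id x).pow 3).div_const 6))
      refine this.congr_deriv ?_
      simp; ring
    have s3 := q3_nonneg_left d3 (by simp) s2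
    have d4 : ∀ x : ℝ, HasDerivAt (fun y => Real.exp y - (1 + y + y ^ 2 / 2 + y ^ 3 / 6 + y ^ 4 / 24))
        (Real.exp x - (1 + x + x ^ 2 / 2 + x ^ 3 / 6)) x := by
      intro x
      have := (Real.hasDerivAt_exp x).sub
        (((((hasDerivAt_id x).const_add 1).add (((hasDerivAt_id x).pow 2).div_const 2)).add
          (((hasDerivAt_id x).pow 3).div_const 6)).add (((hasDerivAt_id x).pow 4).div_const 24))
      refine this.congr_deriv ?_
      simp; ring
    have s4 := q3_nonpos_left d4 (by simp) s3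
    have d5 : ∀ x : ℝ, HasDerivAt
        (fun y => Real.exp y - (1 + y + y ^ 2 / 2 + y ^ 3 / 6 + y ^ 4 / 24 + y ^ 5 / 120))
        (Real.exp x - (1 + x + x ^ 2 / 2 + x ^ 3 / 6 + x ^ 4 / 24)) x := by
      intro x
      have := (Real.hasDerivAt_exp x).sub
        ((((((hasDerivAt_id x).const_add 1).add (((hasDerivAt_id x).pow 2).div_const 2)).add
          (((hasDerivAt_id x).pow 3).div_const 6)).add (((hasDerivAt_id x).pow 4).div_const 24)).add
          (((hasDerivAt_id x).pow 5).div_const 120))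
      refine this.congr_deriv ?_
      simp; ring
    have s5 := q3_nonneg_left d5 (by simp) s4 y hy
    linarith

private lemma q3_cP_lower (l : ℝ) :
    mG 0 - l * mG 1 + l ^ 2 / 2 * mG 2 - l ^ 3 / 6 * mG 3 + l ^ 4 / 24 * mG 4 - l ^ 5 / 120 * mG 5
      ≤ cP l := by
  have hc : ∀ k : ℕ, IntervalIntegrable (fun t : ℝ => (2 + 3 * t) * Real.cos (2 * π * t) ^ k)
      volume 0 (1 / 4) := fun k => (by fun_prop : Continuous fun t : ℝ =>
        (2 + 3 * t) * Real.cos (2 * π * t) ^ k).intervalIntegrable _ _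
  have hs : mG 0 - l * mG 1 + l ^ 2 / 2 * mG 2 - l ^ 3 / 6 * mG 3 + l ^ 4 / 24 * mG 4
      - l ^ 5 / 120 * mG 5 =
      ∫ t in (0:ℝ)..(1 / 4), ((2 + 3 * t) * Real.cos (2 * π * t) ^ 0
        - l * ((2 + 3 * t) * Real.cos (2 * π * t) ^ 1)
        + l ^ 2 / 2 * ((2 + 3 * t) * Real.cos (2 * π * t) ^ 2)
        - l ^ 3 / 6 * ((2 + 3 * t) * Real.cos (2 * π * t) ^ 3)
        + l ^ 4 / 24 * ((2 + 3 * t) * Real.cos (2 * π * t) ^ 4)
        - l ^ 5 / 120 * ((2 + 3 * t) * Real.cos (2 * π * t) ^ 5)) := by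
    unfold mG
    rw [intervalIntegral.integral_sub, intervalIntegral.integral_add, intervalIntegral.integral_sub,
      intervalIntegral.integral_add, intervalIntegral.integral_sub]
    · simp only [intervalIntegral.integral_const_mul]
    all_goals apply Continuous.intervalIntegrable; fun_prop
  rw [hs]
  unfold cP
  apply intervalIntegral.integral_mono_on (by norm_num)
  · apply Continuous.intervalIntegrable; fun_prop
  · apply Continuous.intervalIntegrable; fun_prop
  · intro t ht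
    have h := q3_exp_ge (-(l * Real.cos (2 * π * t)))
    have h2 : 0 ≤ 2 + 3 * t := by have := ht.1; linarith
    have := mul_le_mul_of_nonneg_left h h2
    refine le_trans (le_of_eq ?_) this
    ring

private lemma q3_cM_lower (l : ℝ) (hl : 0 ≤ l) :
    mB 0 + l * mB 1 + l ^ 2 / 2 * mB 2 + l ^ 3 / 6 * mB 3 + l ^ 4 / 24 * mB 4 ≤ cM l := by
  have hs : mB 0 + l * mB 1 + l ^ 2 / 2 * mB 2 + l ^ 3 / 6 * mB 3 + l ^ 4 / 24 * mB 4 =
      (∫ t in (1 / 4 : ℝ)..(1 / 3), ((2 + 3 * t) * (-Real.cos (2 * π * t)) ^ 0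
        + l * ((2 + 3 * t) * (-Real.cos (2 * π * t)) ^ 1)
        + l ^ 2 / 2 * ((2 + 3 * t) * (-Real.cos (2 * π * t)) ^ 2)
        + l ^ 3 / 6 * ((2 + 3 * t) * (-Real.cos (2 * π * t)) ^ 3)
        + l ^ 4 / 24 * ((2 + 3 * t) * (-Real.cos (2 * π * t)) ^ 4))) +
      (1 + (l / 2) + (l / 2) ^ 2 / 2 + (l / 2) ^ 3 / 6 + (l / 2) ^ 4 / 24) / 6 := by
    unfold mB
    rw [intervalIntegral.integral_add, intervalIntegral.integral_add, intervalIntegral.integral_add,
      intervalIntegral.integral_add]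
    · simp only [intervalIntegral.integral_const_mul]
      ring
    all_goals apply Continuous.intervalIntegrable; fun_prop
  rw [hs]
  unfold cM
  have hexp : ∀ y : ℝ, 0 ≤ y → 1 + y + y ^ 2 / 2 + y ^ 3 / 6 + y ^ 4 / 24 ≤ Real.exp y := by
    intro y hy
    have := q3_exp_ge y
    have h5 : 0 ≤ y ^ 5 / 120 := by positivity
    linarith
  apply add_le_add
  · apply intervalIntegral.integral_mono_on (by norm_num)
    · apply Continuous.intervalIntegrable; fun_prop
    · apply Continuous.intervalIntegrable; fun_prop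
    · intro t ht
      have hcos : Real.cos (2 * π * t) ≤ 0 := by
        apply Real.cos_nonpos_of_pi_div_two_le_of_le
        · have := ht.1; nlinarith [Real.pi_pos]
        · have := ht.2; nlinarith [Real.pi_pos]
      have h := hexp (-(l * Real.cos (2 * π * t))) (by nlinarith)
      have h2 : 0 ≤ 2 + 3 * t := by have := ht.1; linarith
      have := mul_le_mul_of_nonneg_left h h2
      refine le_trans (le_of_eq ?_) this
      ring
  · have := hexp (l / 2) (by linarith)
    linarith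

theorem cF_lower (l : ℝ) (hl : 0 ≤ l) : 1 - 0.22 * l + 0.105 * l ^ 2 ≤ cF l := by
  obtain ⟨g0, g1, g2, g3, g4, g5⟩ := mG_bounds
  obtain ⟨b0, b1, b2, b3, b4, b5⟩ := mB_bounds
  rw [abs_le] at g1 g2 g3 g4 g5 b1 b2 b3 b4 b5
  have hP := q3_cP_lower l
  have hM := q3_cM_lower l hl
  rw [cF_split]
  rcases le_total l 3 with h3 | h3
  · -- small range
    have e1 : l * mG 1 ≤ l * 0.361686 := mul_le_mul_of_nonneg_left (by linarith) hl
    have e2 : l ^ 2 / 2 * 0.277876 ≤ l ^ 2 / 2 * mG 2 := mul_le_mul_of_nonneg_left (by linarith) (by positivity)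
    have e3 : l ^ 3 / 6 * mG 3 ≤ l ^ 3 / 6 * 0.232681 := mul_le_mul_of_nonneg_left (by linarith) (by positivity)
    have e4 : l ^ 4 / 24 * 0.203658 ≤ l ^ 4 / 24 * mG 4 := mul_le_mul_of_nonneg_left (by linarith) (by positivity)
    have e5 : l ^ 5 / 120 * mG 5 ≤ l ^ 5 / 120 * 0.183105 := mul_le_mul_of_nonneg_left (by linarith) (by positivity)
    have f1 : l * 0.145507 ≤ l * mB 1 := mul_le_mul_of_nonneg_left (by linarith) hl
    have f2 : l ^ 2 / 2 * 0.062833 ≤ l ^ 2 / 2 * mB 2 := mul_le_mul_of_nonneg_left (by linarith) (by positivity)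
    have f3 : l ^ 3 / 6 * 0.02888 ≤ l ^ 3 / 6 * mB 3 := mul_le_mul_of_nonneg_left (by linarith) (by positivity)
    have f4 : l ^ 4 / 24 * 0.013666 ≤ l ^ 4 / 24 * mB 4 := mul_le_mul_of_nonneg_left (by linarith) (by positivity)
    rw [g0] at hP
    rw [b0] at hM
    have hpoly : 0 ≤ l * (0.0038 + 0.0653 * l - 0.03397 * l ^ 2 + 0.00905 * l ^ 3 - 0.001526 * l ^ 4) := by
      apply mul_nonneg hl
      have h3' : 0 ≤ 3 - l := by linarith
      have c0 : 0 ≤ l ^ 4 := pow_nonneg hl 4
      have c1 : 0 ≤ (3 - l) * l ^ 3 := mul_nonneg h3' (pow_nonneg hl 3)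
      have c2 : 0 ≤ (3 - l) ^ 2 * l ^ 2 := mul_nonneg (pow_nonneg h3' 2) (pow_nonneg hl 2)
      have c3 : 0 ≤ (3 - l) ^ 3 * l := mul_nonneg (pow_nonneg h3' 3) hl
      have c4 : 0 ≤ (3 - l) ^ 4 := pow_nonneg h3' 4
      linarith
    have p2 := pow_nonneg hl 2
    have p3 := pow_nonneg hl 3
    have p4 := pow_nonneg hl 4
    have p5 := pow_nonneg hl 5
    linarith
  · have hP0 := cP_nonneg l
    obtain ⟨s, hs0, rfl⟩ : ∃ s, 0 ≤ s ∧ l = 3 + s := ⟨l - 3, by linarith, by ring⟩
    have f1 : (3 + s) * 0.145507 ≤ (3 + s) * mB 1 := mul_le_mul_of_nonneg_left (by linarith) hl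
    have f2 : (3 + s) ^ 2 / 2 * 0.062833 ≤ (3 + s) ^ 2 / 2 * mB 2 := mul_le_mul_of_nonneg_left (by linarith) (by positivity)
    have f3 : (3 + s) ^ 3 / 6 * 0.02888 ≤ (3 + s) ^ 3 / 6 * mB 3 := mul_le_mul_of_nonneg_left (by linarith) (by positivity)
    have f4 : (3 + s) ^ 4 / 24 * 0.013666 ≤ (3 + s) ^ 4 / 24 * mB 4 := mul_le_mul_of_nonneg_left (by linarith) (by positivity)
    rw [b0] at hM
    have p2 := pow_nonneg hs0 2
    have p3 := pow_nonneg hs0 3
    have p4 := pow_nonneg hs0 4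
    linarith

end Pool.Agent.SSC3N
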