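import Pool.Agent.SSC3N.MomB
import Pool.Agent.SSC3N.MomG
import Pool.Agent.SSC3N.CBasic

set_option autoImplicit false
open MeasureTheory ProbabilityTheory Set Real
open scoped ENNReal

namespace Pool.Agent.SSC3N
open Pool.Agent.SSC3

/-! ## [Q4] -/

/-- even order Taylor upper bound for `e^{-x}` -/
private theorem CUpper_exp_neg_le (x : ℝ) (hx : 0 ≤ x) :
    Real.exp (-x) ≤ 1 - x + x ^ 2 / 2 - x ^ 3 / 6 + x ^ 4 / 24 := by
  have hmono : MonotoneOn (fun y : ℝ => Real.exp y * (1 - y + y ^ 2 / 2 - y ^ 3 / 6 + y ^ 4 / 24))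
      (Set.Ici 0) := by
    apply monotoneOn_of_deriv_nonneg (convex_Ici 0)
    · fun_prop
    · fun_prop
    · intro y _
      have hd : HasDerivAt (fun y : ℝ => Real.exp y * (1 - y + y ^ 2 / 2 - y ^ 3 / 6 + y ^ 4 / 24))
          (Real.exp y * (1 - y + y ^ 2 / 2 - y ^ 3 / 6 + y ^ 4 / 24) +
            Real.exp y * (0 - 1 + (2 * y ^ 1 * 1) / 2 - (3 * y ^ 2 * 1) / 6 + (4 * y ^ 3 * 1) / 24)) y := by
        apply (Real.hasDerivAt_exp y).mul
        refine ((((hasDerivAt_const y (1:ℝ)).sub (hasDerivAt_id y)).add ?_).sub ?_).add ?_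
        · exact ((hasDerivAt_id y).pow 2).div_const 2
        · exact ((hasDerivAt_id y).pow 3).div_const 6
        · exact ((hasDerivAt_id y).pow 4).div_const 24
      rw [hd.deriv]
      have : Real.exp y * (1 - y + y ^ 2 / 2 - y ^ 3 / 6 + y ^ 4 / 24) +
            Real.exp y * (0 - 1 + (2 * y ^ 1 * 1) / 2 - (3 * y ^ 2 * 1) / 6 + (4 * y ^ 3 * 1) / 24)
          = Real.exp y * (y ^ 4 / 24) := by ring
      rw [this]
      positivity
  have h := hmono (Set.mem_Ici.2 le_rfl) (Set.mem_Ici.2 hx) hx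
  simp only [Real.exp_zero] at h
  have h1 : (1:ℝ) ≤ Real.exp x * (1 - x + x ^ 2 / 2 - x ^ 3 / 6 + x ^ 4 / 24) := by
    calc (1:ℝ) = 1 * (1 - 0 + 0 ^ 2 / 2 - 0 ^ 3 / 6 + 0 ^ 4 / 24) := by norm_num
      _ ≤ _ := h
  have h2 := mul_le_mul_of_nonneg_left h1 (Real.exp_pos (-x)).le
  rw [mul_one, ← mul_assoc, ← Real.exp_add, neg_add_cancel, Real.exp_zero, one_mul] at h2
  exact h2

/-- odd order Taylor lower bound for `e^{-x}` -/
private theorem CUpper_exp_neg_ge (x : ℝ) (hx : 0 ≤ x) :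
    1 - x + x ^ 2 / 2 - x ^ 3 / 6 + x ^ 4 / 24 - x ^ 5 / 120 ≤ Real.exp (-x) := by
  have hmono : AntitoneOn (fun y : ℝ => Real.exp y *
      (1 - y + y ^ 2 / 2 - y ^ 3 / 6 + y ^ 4 / 24 - y ^ 5 / 120)) (Set.Ici 0) := by
    apply antitoneOn_of_deriv_nonpos (convex_Ici 0)
    · fun_prop
    · fun_prop
    · intro y hy
      have hy0 : 0 < y := by simpa using hy
      have hd : HasDerivAt (fun y : ℝ => Real.exp y *
          (1 - y + y ^ 2 / 2 - y ^ 3 / 6 + y ^ 4 / 24 - y ^ 5 / 120))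
          (Real.exp y * (1 - y + y ^ 2 / 2 - y ^ 3 / 6 + y ^ 4 / 24 - y ^ 5 / 120) +
            Real.exp y * (0 - 1 + (2 * y ^ 1 * 1) / 2 - (3 * y ^ 2 * 1) / 6 + (4 * y ^ 3 * 1) / 24
              - (5 * y ^ 4 * 1) / 120)) y := by
        apply (Real.hasDerivAt_exp y).mul
        refine (((((hasDerivAt_const y (1:ℝ)).sub (hasDerivAt_id y)).add ?_).sub ?_).add ?_).sub ?_
        · exact ((hasDerivAt_id y).pow 2).div_const 2
        · exact ((hasDerivAt_id y).pow 3).div_const 6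
        · exact ((hasDerivAt_id y).pow 4).div_const 24
        · exact ((hasDerivAt_id y).pow 5).div_const 120
      rw [hd.deriv]
      have : Real.exp y * (1 - y + y ^ 2 / 2 - y ^ 3 / 6 + y ^ 4 / 24 - y ^ 5 / 120) +
            Real.exp y * (0 - 1 + (2 * y ^ 1 * 1) / 2 - (3 * y ^ 2 * 1) / 6 + (4 * y ^ 3 * 1) / 24
              - (5 * y ^ 4 * 1) / 120)
          = -(Real.exp y * (y ^ 5 / 120)) := by ring
      rw [this]
      have : 0 ≤ Real.exp y * (y ^ 5 / 120) := by positivity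
      linarith
  have h := hmono (Set.mem_Ici.2 le_rfl) (Set.mem_Ici.2 hx) hx
  simp only [Real.exp_zero] at h
  have h1 : Real.exp x * (1 - x + x ^ 2 / 2 - x ^ 3 / 6 + x ^ 4 / 24 - x ^ 5 / 120) ≤ 1 := by
    calc _ ≤ _ := h
      _ = (1:ℝ) := by norm_num
  have h2 := mul_le_mul_of_nonneg_left h1 (Real.exp_pos (-x)).le
  rw [mul_one, ← mul_assoc, ← Real.exp_add, neg_add_cancel, Real.exp_zero, one_mul] at h2
  exact h2

private theorem CUpper_hasSum (x : ℝ) :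
    HasSum (fun n : ℕ => x ^ (n + 4) / (Nat.factorial (n + 4) : ℝ))
      (Real.exp x - 1 - x - x ^ 2 / 2 - x ^ 3 / 6) := by
  have h : HasSum (fun n : ℕ => x ^ n / (Nat.factorial n : ℝ)) (Real.exp x) := by
    rw [Real.exp_eq_exp_ℝ]
    exact NormedSpace.expSeries_div_hasSum_exp x
  have h2 := (hasSum_nat_add_iff' 4).2 h
  have h3 : Real.exp x - ∑ i ∈ Finset.range 4, x ^ i / (Nat.factorial i : ℝ)
      = Real.exp x - 1 - x - x ^ 2 / 2 - x ^ 3 / 6 := by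
    simp [Finset.sum_range_succ, Nat.factorial]
    ring
  rw [h3] at h2
  exact h2

/-- the tail of the exponential series, comparison -/
private theorem CUpper_tail (l s : ℝ) (hl : 0 ≤ l) (hs : 0 ≤ s) (hs1 : s ≤ 1 / 2) :
    Real.exp (l * s) ≤ 1 + l * s + (l * s) ^ 2 / 2 + (l * s) ^ 3 / 6
      + 16 * s ^ 4 * (Real.exp (l / 2) - 1 - l / 2 - (l / 2) ^ 2 / 2 - (l / 2) ^ 3 / 6) := by
  have h1 := CUpper_hasSum (l * s)
  have h2 := (CUpper_hasSum (l / 2)).mul_left (16 * s ^ 4)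
  have h3 := hasSum_le (fun n => ?_) h1 h2
  · linarith
  · have hn : (0:ℝ) < (Nat.factorial (n + 4) : ℝ) := by positivity
    rw [← mul_div_assoc]
    apply div_le_div_of_nonneg_right _ hn.le
    have e1 : l * s = (2 * s) * (l / 2) := by ring
    rw [e1, mul_pow, pow_add (2 * s) n 4]
    have e2 : (2 * s) ^ n ≤ 1 := pow_le_one₀ (by linarith) (by linarith)
    have e3 : 0 ≤ (2 * s) ^ 4 * (l / 2) ^ (n + 4) := by positivity
    calc (2 * s) ^ n * (2 * s) ^ 4 * (l / 2) ^ (n + 4)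
        = (2 * s) ^ n * ((2 * s) ^ 4 * (l / 2) ^ (n + 4)) := by ring
      _ ≤ 1 * ((2 * s) ^ 4 * (l / 2) ^ (n + 4)) := mul_le_mul_of_nonneg_right e2 e3
      _ = 16 * s ^ 4 * (l / 2) ^ (n + 4) := by ring

private theorem CUpper_cos_nonneg (t : ℝ) (h : t ∈ Icc (0:ℝ) (1 / 4)) :
    0 ≤ Real.cos (2 * π * t) := by
  apply Real.cos_nonneg_of_neg_pi_div_two_le_of_le
  · have : 0 ≤ 2 * π * t := by have := Real.pi_pos; have := h.1; positivity
    have := Real.pi_pos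
    linarith
  · have := Real.pi_pos
    have := h.2
    nlinarith

private theorem CUpper_cos_range (t : ℝ) (h : t ∈ Icc (1 / 4 : ℝ) (1 / 3)) :
    0 ≤ -Real.cos (2 * π * t) ∧ -Real.cos (2 * π * t) ≤ 1 / 2 := by
  have hpi := Real.pi_pos
  constructor
  · have : Real.cos (2 * π * t) ≤ 0 := by
      apply Real.cos_nonpos_of_pi_div_two_le_of_le
      · nlinarith [h.1]
      · nlinarith [h.2]
    linarith
  · have h3 : Real.cos (2 * π * (1 / 3)) = -(1 / 2) := by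
      have : 2 * π * (1 / 3) = π - π / 3 := by ring
      rw [this, Real.cos_pi_sub, Real.cos_pi_div_three]
    have : Real.cos (2 * π * (1 / 3)) ≤ Real.cos (2 * π * t) := by
      apply Real.cos_le_cos_of_nonneg_of_le_pi
      · nlinarith [h.1]
      · nlinarith
      · nlinarith [h.2]
    linarith

private theorem CUpper_cP (l : ℝ) (hl : 0 ≤ l) :
    cP l ≤ mG 0 - l * mG 1 + l ^ 2 / 2 * mG 2 - l ^ 3 / 6 * mG 3 + l ^ 4 / 24 * mG 4 := by
  have hI : ∀ k : ℕ, IntervalIntegrable (fun t : ℝ => (2 + 3 * t) * Real.cos (2 * π * t) ^ k)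
      volume 0 (1 / 4) := fun k => (by fun_prop : Continuous _).intervalIntegrable _ _
  have hsum : mG 0 - l * mG 1 + l ^ 2 / 2 * mG 2 - l ^ 3 / 6 * mG 3 + l ^ 4 / 24 * mG 4
      = ∫ t in (0:ℝ)..(1 / 4), ((((2 + 3 * t) * Real.cos (2 * π * t) ^ 0
        - l * ((2 + 3 * t) * Real.cos (2 * π * t) ^ 1))
        + l ^ 2 / 2 * ((2 + 3 * t) * Real.cos (2 * π * t) ^ 2))
        - l ^ 3 / 6 * ((2 + 3 * t) * Real.cos (2 * π * t) ^ 3))
        + l ^ 4 / 24 * ((2 + 3 * t) * Real.cos (2 * π * t) ^ 4) := by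
    rw [intervalIntegral.integral_add, intervalIntegral.integral_sub,
      intervalIntegral.integral_add, intervalIntegral.integral_sub,
      intervalIntegral.integral_const_mul, intervalIntegral.integral_const_mul,
      intervalIntegral.integral_const_mul, intervalIntegral.integral_const_mul]
    · rfl
    all_goals exact (by fun_prop : Continuous _).intervalIntegrable _ _
  rw [hsum]
  unfold cP
  apply intervalIntegral.integral_mono_on (by norm_num)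
  · exact (by fun_prop : Continuous _).intervalIntegrable _ _
  · exact (by fun_prop : Continuous _).intervalIntegrable _ _
  · intro t ht
    have h1 := CUpper_cos_nonneg t ht
    have h2 := CUpper_exp_neg_le (l * Real.cos (2 * π * t)) (mul_nonneg hl h1)
    have h3 : 0 ≤ 2 + 3 * t := by linarith [ht.1]
    calc (2 + 3 * t) * Real.exp (-(l * Real.cos (2 * π * t)))
        ≤ (2 + 3 * t) * (1 - l * Real.cos (2 * π * t) + (l * Real.cos (2 * π * t)) ^ 2 / 2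
          - (l * Real.cos (2 * π * t)) ^ 3 / 6 + (l * Real.cos (2 * π * t)) ^ 4 / 24) :=
          mul_le_mul_of_nonneg_left h2 h3
      _ = _ := by ring

private theorem CUpper_cM (l : ℝ) (hl : 0 ≤ l) :
    cM l ≤ mB 0 + l * mB 1 + l ^ 2 / 2 * mB 2 + l ^ 3 / 6 * mB 3
      + 16 * mB 4 * (Real.exp (l / 2) - 1 - l / 2 - (l / 2) ^ 2 / 2 - (l / 2) ^ 3 / 6) := by
  set R := Real.exp (l / 2) - 1 - l / 2 - (l / 2) ^ 2 / 2 - (l / 2) ^ 3 / 6 with hR
  have hsum : ∀ e0 e1 e2 e3 e4 : ℝ, (∫ t in (1 / 4 : ℝ)..(1 / 3), ((((2 + 3 * t) * (-Real.cos (2 * π * t)) ^ 0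
        + l * ((2 + 3 * t) * (-Real.cos (2 * π * t)) ^ 1))
        + l ^ 2 / 2 * ((2 + 3 * t) * (-Real.cos (2 * π * t)) ^ 2))
        + l ^ 3 / 6 * ((2 + 3 * t) * (-Real.cos (2 * π * t)) ^ 3))
        + 16 * R * ((2 + 3 * t) * (-Real.cos (2 * π * t)) ^ 4)) + (e0 + l * e1 + l ^ 2 / 2 * e2
          + l ^ 3 / 6 * e3 + 16 * R * e4)
      = ((∫ t in (1 / 4 : ℝ)..(1 / 3), (2 + 3 * t) * (-Real.cos (2 * π * t)) ^ 0) + e0)
        + l * ((∫ t in (1 / 4 : ℝ)..(1 / 3), (2 + 3 * t) * (-Real.cos (2 * π * t)) ^ 1) + e1)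
        + l ^ 2 / 2 * ((∫ t in (1 / 4 : ℝ)..(1 / 3), (2 + 3 * t) * (-Real.cos (2 * π * t)) ^ 2) + e2)
        + l ^ 3 / 6 * ((∫ t in (1 / 4 : ℝ)..(1 / 3), (2 + 3 * t) * (-Real.cos (2 * π * t)) ^ 3) + e3)
        + 16 * R * ((∫ t in (1 / 4 : ℝ)..(1 / 3), (2 + 3 * t) * (-Real.cos (2 * π * t)) ^ 4) + e4) := by
    intro e0 e1 e2 e3 e4
    rw [intervalIntegral.integral_add, intervalIntegral.integral_add,
      intervalIntegral.integral_add, intervalIntegral.integral_add,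
      intervalIntegral.integral_const_mul, intervalIntegral.integral_const_mul,
      intervalIntegral.integral_const_mul, intervalIntegral.integral_const_mul]
    · ring
    all_goals exact (by fun_prop : Continuous _).intervalIntegrable _ _
  have h1 : (∫ t in (1 / 4 : ℝ)..(1 / 3), (2 + 3 * t) * Real.exp (-(l * Real.cos (2 * π * t))))
      ≤ ∫ t in (1 / 4 : ℝ)..(1 / 3), ((((2 + 3 * t) * (-Real.cos (2 * π * t)) ^ 0
        + l * ((2 + 3 * t) * (-Real.cos (2 * π * t)) ^ 1))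
        + l ^ 2 / 2 * ((2 + 3 * t) * (-Real.cos (2 * π * t)) ^ 2))
        + l ^ 3 / 6 * ((2 + 3 * t) * (-Real.cos (2 * π * t)) ^ 3))
        + 16 * R * ((2 + 3 * t) * (-Real.cos (2 * π * t)) ^ 4) := by
    apply intervalIntegral.integral_mono_on (by norm_num)
    · exact (by fun_prop : Continuous _).intervalIntegrable _ _
    · exact (by fun_prop : Continuous _).intervalIntegrable _ _
    · intro t ht
      obtain ⟨h1, h2⟩ := CUpper_cos_range t ht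
      have h3 := CUpper_tail l (-Real.cos (2 * π * t)) hl h1 h2
      have h4 : 0 ≤ 2 + 3 * t := by linarith [ht.1]
      have e1 : -(l * Real.cos (2 * π * t)) = l * (-Real.cos (2 * π * t)) := by ring
      rw [e1]
      refine (mul_le_mul_of_nonneg_left h3 h4).trans (le_of_eq ?_)
      rw [← hR]
      ring
  have h2 : Real.exp (l / 2) / 6 = (1 / 2 : ℝ) ^ 0 / 6 + l * ((1 / 2) ^ 1 / 6)
      + l ^ 2 / 2 * ((1 / 2) ^ 2 / 6) + l ^ 3 / 6 * ((1 / 2) ^ 3 / 6)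
      + 16 * R * ((1 / 2) ^ 4 / 6) := by
    rw [hR]; ring
  have h3 := hsum ((1 / 2 : ℝ) ^ 0 / 6) ((1 / 2) ^ 1 / 6) ((1 / 2) ^ 2 / 6) ((1 / 2) ^ 3 / 6)
    ((1 / 2) ^ 4 / 6)
  have h4 : mB 0 + l * mB 1 + l ^ 2 / 2 * mB 2 + l ^ 3 / 6 * mB 3 + 16 * mB 4 * R
      = ((∫ t in (1 / 4 : ℝ)..(1 / 3), (2 + 3 * t) * (-Real.cos (2 * π * t)) ^ 0) + (1 / 2 : ℝ) ^ 0 / 6)
        + l * ((∫ t in (1 / 4 : ℝ)..(1 / 3), (2 + 3 * t) * (-Real.cos (2 * π * t)) ^ 1) + (1 / 2) ^ 1 / 6)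
        + l ^ 2 / 2 * ((∫ t in (1 / 4 : ℝ)..(1 / 3), (2 + 3 * t) * (-Real.cos (2 * π * t)) ^ 2)
          + (1 / 2) ^ 2 / 6)
        + l ^ 3 / 6 * ((∫ t in (1 / 4 : ℝ)..(1 / 3), (2 + 3 * t) * (-Real.cos (2 * π * t)) ^ 3)
          + (1 / 2) ^ 3 / 6)
        + 16 * R * ((∫ t in (1 / 4 : ℝ)..(1 / 3), (2 + 3 * t) * (-Real.cos (2 * π * t)) ^ 4)
          + (1 / 2) ^ 4 / 6) := by
    unfold mB
    ring
  rw [h4, ← h3, ← h2]
  unfold cM
  linarith

private theorem CUpper_M2 (l E m0 m1 m2 m3 m4 M : ℝ) (hl : 0 ≤ l) (b0 : m0 = 0.40625 ∨ m0 ≤ 0.40625)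
    (b1 : m1 ≤ 0.145509) (b2 : m2 ≤ 0.062835) (b3 : m3 ≤ 0.028882) (b4 : m4 ≤ 0.013668)
    (hE : E ≥ 1 + l / 2 + (l / 2) ^ 2 / 2 + (l / 2) ^ 3 / 6)
    (hM : M ≤ m0 + l * m1 + l ^ 2 / 2 * m2 + l ^ 3 / 6 * m3
      + 16 * m4 * (E - 1 - l / 2 - (l / 2) ^ 2 / 2 - (l / 2) ^ 3 / 6)) :
    M ≤ 0.40625 + l * 0.145509 + l ^ 2 / 2 * 0.062835 + l ^ 3 / 6 * 0.028882
      + 16 * 0.013668 * (E - 1 - l / 2 - (l / 2) ^ 2 / 2 - (l / 2) ^ 3 / 6) := by
  have b0' : m0 ≤ 0.40625 := by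
    rcases b0 with h | h
    · exact h.le
    · exact h
  refine hM.trans ?_
  have hE' : 0 ≤ E - 1 - l / 2 - (l / 2) ^ 2 / 2 - (l / 2) ^ 3 / 6 := by linarith only [hE]
  gcongr

private theorem CUpper_poly (l : ℝ) (hl : 0 ≤ l) (h2 : l ≤ 2) :
    0 ≤ 0.036175 * l - 0.05036 * l ^ 2 + 0.033965 * l ^ 3 - 0.007884 * l ^ 4
        - 0.00008 * l ^ 5 := by
  have hp : 0 ≤ 0.036175 - 0.05036 * l + 0.033965 * l ^ 2 - 0.007884 * l ^ 3
    - 0.00008 * l ^ 4 := by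
    have h4 : l ^ 4 ≤ 2 * l ^ 3 := by
      have h3 : 0 ≤ l ^ 3 := by positivity
      calc l ^ 4 = l * l ^ 3 := by ring
        _ ≤ 2 * l ^ 3 := mul_le_mul_of_nonneg_right h2 h3
    obtain ⟨u, rfl⟩ : ∃ u, l = 2 - u := ⟨2 - l, by ring⟩
    have hu : 0 ≤ u := by linarith only [h2]
    have h6 : 0 ≤ 0.011028 - 0.014299 * u + 0.008044 * u ^ 2 := by
      nlinarith only [sq_nonneg (u - 0.889)]
    have h5 : 0 ≤ u * (0.011028 - 0.014299 * u + 0.008044 * u ^ 2) := mul_nonneg hu h6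
    nlinarith only [h5, h4, hu]
  have h := mul_nonneg hl hp
  linarith only [h]

private theorem CUpper_finS (l E N P M : ℝ) (hl : 0 ≤ l)
    (hM : M ≤ 0.40625 + l * 0.145509 + l ^ 2 / 2 * 0.062835 + l ^ 3 / 6 * 0.028882
      + 16 * 0.013668 * (E - 1 - l / 2 - (l / 2) ^ 2 / 2 - (l / 2) ^ 3 / 6))
    (hP : P ≤ 0.59375 - l * 0.361684 + l ^ 2 / 2 * 0.277878 - l ^ 3 / 6 * 0.232679
        + l ^ 4 / 24 * 0.203660)
    (hE : E ≥ 1 + l / 2 + (l / 2) ^ 2 / 2 + (l / 2) ^ 3 / 6 + (l / 2) ^ 4 / 24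
        + (l / 2) ^ 5 / 120)
    (hN : 1 - l / 2 + (l / 2) ^ 2 / 2 - (l / 2) ^ 3 / 6 + (l / 2) ^ 4 / 24 - (l / 2) ^ 5 / 120 ≤ N)
    (hpoly : 0 ≤ 0.036175 * l - 0.05036 * l ^ 2 + 0.033965 * l ^ 3 - 0.007884 * l ^ 4
        - 0.00008 * l ^ 5) :
    P + M ≤ 1 - 0.18 * l + 0.12 * l ^ 2 + 0.45 * ((E + N) / 2 - 1 - l ^ 2 / 8) := by
  have p2 : 0 ≤ l ^ 2 := by positivity
  have p3 : 0 ≤ l ^ 3 := by positivity
  have p4 : 0 ≤ l ^ 4 := by positivity
  have p5 : 0 ≤ l ^ 5 := by positivity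
  linarith only [hM, hP, hE, hN, hpoly, p2, p3, p4, p5, hl]

private theorem CUpper_finL (y E N P M : ℝ) (hy : 0 ≤ y)
    (hM : M ≤ 0.40625 + (y + 2) * 0.145509 + (y + 2) ^ 2 / 2 * 0.062835
      + (y + 2) ^ 3 / 6 * 0.028882
      + 16 * 0.013668 * (E - 1 - (y + 2) / 2 - ((y + 2) / 2) ^ 2 / 2 - ((y + 2) / 2) ^ 3 / 6))
    (hP : P ≤ 0.2517)
    (hE : E ≥ 2.718 * (1 + y / 2 + y ^ 2 / 8 + y ^ 3 / 48))
    (hN : N ≥ 0.3678 * (1 - y / 2)) :
    P + M ≤ 1 - 0.18 * (y + 2) + 0.12 * (y + 2) ^ 2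
      + 0.45 * ((E + N) / 2 - 1 - (y + 2) ^ 2 / 8) := by
  have hq : 0 ≤ 0.0148 - 0.0134 * y + 0.0602 * y ^ 2 := by nlinarith only [sq_nonneg (y - 0.11)]
  have p2 : 0 ≤ y ^ 2 := by positivity
  have p3 : 0 ≤ y ^ 3 := by positivity
  linarith only [hM, hP, hE, hN, hq, p2, p3, hy]

private theorem CUpper_E1 (l : ℝ) (hl : 0 ≤ l) :
    Real.exp (l / 2) ≥ 1 + l / 2 + (l / 2) ^ 2 / 2 + (l / 2) ^ 3 / 6 := by
  have h1 := CUpper_hasSum (l / 2)
  have h2 := h1.nonneg (fun n => by positivity)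
  linarith only [h2]

private theorem CUpper_E2 (l : ℝ) (hl : 0 ≤ l) :
    Real.exp (l / 2) ≥ 1 + l / 2 + (l / 2) ^ 2 / 2 + (l / 2) ^ 3 / 6 + (l / 2) ^ 4 / 24
        + (l / 2) ^ 5 / 120 := by
  have h1 := CUpper_hasSum (l / 2)
  have h3 := sum_le_hasSum (Finset.range 2) (fun n _ => by positivity) h1
  simp [Finset.sum_range_succ, Nat.factorial] at h3
  linarith only [h3]

private theorem CUpper_E3 (l : ℝ) (hl : 2 ≤ l) :
    Real.exp (l / 2) ≥ 2.718 * (1 + (l - 2) / 2 + (l - 2) ^ 2 / 8 + (l - 2) ^ 3 / 48) := by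
  have h1 := CUpper_hasSum ((l - 2) / 2)
  have h0 : 0 ≤ l - 2 := by linarith only [hl]
  have h3 := h1.nonneg (fun n => by positivity)
  have h4 : Real.exp (l / 2) = Real.exp 1 * Real.exp ((l - 2) / 2) := by
    rw [← Real.exp_add]; congr 1; ring
  rw [h4]
  have h5 : (2.718 : ℝ) ≤ Real.exp 1 := by
    have h := Real.exp_one_gt_d9
    linarith only [h]
  have h6 : 1 + (l - 2) / 2 + (l - 2) ^ 2 / 8 + (l - 2) ^ 3 / 48 ≤ Real.exp ((l - 2) / 2) := by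
    linarith only [h3]
  have h7 : 0 ≤ 1 + (l - 2) / 2 + (l - 2) ^ 2 / 8 + (l - 2) ^ 3 / 48 := by positivity
  exact mul_le_mul h5 h6 h7 (Real.exp_pos 1).le

private theorem CUpper_N (l : ℝ) (hl : 2 ≤ l) :
    Real.exp (-(l / 2)) ≥ 0.3678 * (1 - (l - 2) / 2) := by
  have h4 : Real.exp (-(l / 2)) = Real.exp (-1) * Real.exp (-((l - 2) / 2)) := by
    rw [← Real.exp_add]; congr 1; ring
  have h5 : Real.exp (-1) * (1 - (l - 2) / 2) ≤ Real.exp (-(l / 2)) := by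
    rw [h4]
    apply mul_le_mul_of_nonneg_left _ (Real.exp_pos _).le
    have h := Real.add_one_le_exp (-((l - 2) / 2))
    linarith only [h]
  have h6 : (0.3678 : ℝ) ≤ Real.exp (-1) := by
    have h := Real.exp_neg_one_gt_d9
    linarith only [h]
  rcases le_total 0 (1 - (l - 2) / 2) with h7 | h7
  · exact (mul_le_mul_of_nonneg_right h6 h7).trans h5
  · have h8 : 0.3678 * (1 - (l - 2) / 2) ≤ 0 := mul_nonpos_of_nonneg_of_nonpos (by norm_num) h7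
    exact h8.trans (Real.exp_pos _).le

private theorem CUpper_P2 (l : ℝ) (hl : 0 ≤ l) :
    cP l ≤ 0.59375 - l * 0.361684 + l ^ 2 / 2 * 0.277878 - l ^ 3 / 6 * 0.232679
        + l ^ 4 / 24 * 0.203660 := by
  obtain ⟨g0, g1, g2, g3, g4, -⟩ := mG_bounds
  rw [abs_le] at g1 g2 g3 g4
  have hP := CUpper_cP l hl
  have k1 : l * 0.361684 ≤ l * mG 1 := mul_le_mul_of_nonneg_left (by linarith only [g1.1]) hl
  have k2 : l ^ 2 / 2 * mG 2 ≤ l ^ 2 / 2 * 0.277878 :=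
    mul_le_mul_of_nonneg_left (by linarith only [g2.2]) (by positivity)
  have k3 : l ^ 3 / 6 * 0.232679 ≤ l ^ 3 / 6 * mG 3 :=
    mul_le_mul_of_nonneg_left (by linarith only [g3.1]) (by positivity)
  have k4 : l ^ 4 / 24 * mG 4 ≤ l ^ 4 / 24 * 0.203660 :=
    mul_le_mul_of_nonneg_left (by linarith only [g4.2]) (by positivity)
  linarith only [hP, k1, k2, k3, k4, g0]

private theorem CUpper_P3 : cP 2 ≤ 0.2517 := by
  have h := CUpper_P2 2 (by norm_num)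
  norm_num at h ⊢
  linarith only [h]

theorem cF_upper (l : ℝ) (hl : 0 ≤ l) : cF l ≤ 1 - 0.18 * l + 0.12 * l ^ 2 + 0.45 * T4 l := by
  obtain ⟨b0, b1, b2, b3, b4, -⟩ := mB_bounds
  rw [abs_le] at b1 b2 b3 b4
  rw [cF_split]
  have hT : T4 l = (Real.exp (l / 2) + Real.exp (-(l / 2))) / 2 - 1 - l ^ 2 / 8 := by
    unfold T4
    rw [Real.cosh_eq]
  rw [hT]
  have hM2 := CUpper_M2 l (Real.exp (l / 2)) (mB 0) (mB 1) (mB 2) (mB 3) (mB 4) (cM l) hl
    (Or.inr (by linarith only [b0])) (by linarith only [b1.2]) (by linarith only [b2.2])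
    (by linarith only [b3.2]) (by linarith only [b4.2]) (CUpper_E1 l hl) (CUpper_cM l hl)
  rcases le_total l 2 with h2 | h2
  · exact CUpper_finS l _ _ _ _ hl hM2 (CUpper_P2 l hl) (CUpper_E2 l hl)
      (CUpper_exp_neg_ge (l / 2) (by positivity)) (CUpper_poly l hl h2)
  · have hP2 : cP l ≤ 0.2517 := (cP_anti 2 l h2).trans CUpper_P3
    have hE2 := CUpper_E3 l h2
    have hN := CUpper_N l h2
    obtain ⟨y, rfl⟩ : ∃ y, l = y + 2 := ⟨l - 2, by ring⟩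
    have hy : 0 ≤ y := by linarith only [h2]
    have e1 : y + 2 - 2 = y := by ring
    rw [e1] at hE2 hN
    exact CUpper_finL y _ _ _ _ hy hM2 hP2 hE2 hN

end Pool.Agent.SSC3N
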