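import Pool.Agent.SSC3.Defs

/-!
Standard simplex conjecture for three parts, all dimensions, correlation in `[-1/2, 0]`.
Common definitions.  (`Pool.Agent.SSC3` is the planar library: `ker`, `W`, `E2`, `len`, `Per`,
`slice`, `g2`, `riesz`, `polar`, `simplex_E2`, ...)
-/

set_option autoImplicit false
open MeasureTheory ProbabilityTheory Set Real
open scoped ENNReal

namespace Pool.Agent.SSC3N
open Pool.Agent.SSC3

/-- The radial probability measure `u e^{-u²/2} du` on `(0,∞)`. -/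
noncomputable def nu : Measure ℝ :=
  (volume.restrict (Ioi (0:ℝ))).withDensity (fun u => ENNReal.ofReal (u * Real.exp (-(u ^ 2 / 2))))

/-- Standard Gaussian measure on `ℝ^m`. -/
noncomputable def gam (m : ℕ) : Measure (Fin m → ℝ) := Measure.pi (fun _ : Fin m => gaussianReal 0 1)

/-! ### thresholds on the circle of length one -/

/-- `c_t = 1 - 2t - (3/2)t²`. -/
noncomputable def ct (t : ℝ) : ℝ := 1 - 2 * t - 3 / 2 * t ^ 2

/-- `v_t = 2t - (21/4)t²`; note `2 v_t = c_t - (1-3t)²`. -/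
noncomputable def vt (t : ℝ) : ℝ := 2 * t - 21 / 4 * t ^ 2

noncomputable def Wh (t σ : ℝ) : ℝ := (max (σ - t) 0) ^ 2 - (max (σ - 1 + t) 0) ^ 2

/-- Lower bound for the measure of pairs at distance more than `t` for two sets of lengths `x`, `y`
on the circle of length one. -/
noncomputable def ft (t x y : ℝ) : ℝ := Wh t ((x + y) / 2) - Wh t (|x - y| / 2)

/-- `c(l)`. -/
noncomputable def cF (l : ℝ) : ℝ :=
  (∫ t in (0:ℝ)..(1 / 3), (2 + 3 * t) * Real.exp (-(l * Real.cos (2 * π * t)))) + Real.exp (l / 2) / 6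

/-- the part `cos ≥ 0` of `c(l)`. -/
noncomputable def cP (l : ℝ) : ℝ :=
  ∫ t in (0:ℝ)..(1 / 4), (2 + 3 * t) * Real.exp (-(l * Real.cos (2 * π * t)))

/-- the part `cos ≤ 0` of `c(l)`. -/
noncomputable def cM (l : ℝ) : ℝ :=
  (∫ t in (1 / 4 : ℝ)..(1 / 3), (2 + 3 * t) * Real.exp (-(l * Real.cos (2 * π * t)))) +
    Real.exp (l / 2) / 6

/-- `L(l) = v(l)/l`. -/
noncomputable def LF (l : ℝ) : ℝ :=
  ∫ t in (0:ℝ)..(1 / 3), 2 * π * Real.sin (2 * π * t) * vt t * Real.exp (-(l * Real.cos (2 * π * t)))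

/-- `v(l)`. -/
noncomputable def vF (l : ℝ) : ℝ := l * LF l

/-- moments for `L`. -/
noncomputable def mA (k : ℕ) : ℝ :=
  ∫ t in (0:ℝ)..(1 / 3), 2 * π * Real.sin (2 * π * t) * vt t * Real.cos (2 * π * t) ^ k

/-- moments for `c` on `cos ≥ 0`. -/
noncomputable def mG (k : ℕ) : ℝ :=
  ∫ t in (0:ℝ)..(1 / 4), (2 + 3 * t) * Real.cos (2 * π * t) ^ k

/-- moments for `c` on `cos ≤ 0`. -/
noncomputable def mB (k : ℕ) : ℝ :=
  (∫ t in (1 / 4 : ℝ)..(1 / 3), (2 + 3 * t) * (-Real.cos (2 * π * t)) ^ k) + (1 / 2) ^ k / 6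

/-- `cosh(l/2) - 1 - l²/8`. -/
noncomputable def T4 (l : ℝ) : ℝ := Real.cosh (l / 2) - 1 - l ^ 2 / 8

/-- The diagonal weight. -/
noncomputable def DD (τ u : ℝ) : ℝ :=
  ∫ v, vF (τ * u * v) * (1 + Real.exp (-u ^ 2) - Real.exp (-v ^ 2)) ∂nu

/-- A polynomial minorant of `L`. -/
noncomputable def PL (l : ℝ) : ℝ :=
  0.23367 - 0.06096 * l + 0.02526 * l ^ 2 - 0.004762 * l ^ 3 + 0.000774 * l ^ 4 - 0.00005875 * l ^ 5

/-- A polynomial minorant of `DD τ u / (τ u)`; `w = τ u`, `q = exp (-u²)`. -/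
noncomputable def Qd (w q : ℝ) : ℝ :=
  (0.29286 * (1 + q) - 0.05637) - w * (0.12192 * (1 + q) - 0.01354)
    + w ^ 2 * (0.09497 * (1 + q) - 0.0061) - w ^ 3 * (0.0381 * (1 + q) - 0.00141)
    + w ^ 4 * (0.01455 * (1 + q) - 0.00032) - w ^ 5 * (0.00282 * (1 + q) - 0.0000348)

/-- `Jc k = ∫_0^∞ v^k e^{-v²/2} dv`. -/
noncomputable def Jc : ℕ → ℝ
  | 0 => Real.sqrt (π / 2)
  | 1 => 1
  | (k + 2) => (k + 1) * Jc k

/-- The Schur weight. -/
noncomputable def phi (u : ℝ) : ℝ := (1 - 0.6 * Real.exp (-(u ^ 2 / 2)) + 0.055 * u ^ 2) / u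

/-! ### Gaussian noise on `ℝ^m` -/

/-- `E[g(y) h(κ y + √(1-κ²) z)]`. -/
noncomputable def GG {m : ℕ} (κ : ℝ) (g h : (Fin m → ℝ) → ℝ) : ℝ :=
  ∫ y, ∫ z, g y * h (κ • y + Real.sqrt (1 - κ ^ 2) • z) ∂(gam m) ∂(gam m)

/-- The noise operator. -/
noncomputable def TT {m : ℕ} (κ : ℝ) (g : (Fin m → ℝ) → ℝ) (y : Fin m → ℝ) : ℝ :=
  ∫ z, g (κ • y + Real.sqrt (1 - κ ^ 2) • z) ∂(gam m)

/-- even part -/
noncomputable def evp {m : ℕ} (g : (Fin m → ℝ) → ℝ) (y : Fin m → ℝ) : ℝ := (g y + g (-y)) / 2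

/-- linear coefficients -/
noncomputable def cj {m : ℕ} (g : (Fin m → ℝ) → ℝ) (j : Fin m) : ℝ := ∫ y, y j * g y ∂(gam m)

/-- odd part minus linear part -/
noncomputable def o3p {m : ℕ} (g : (Fin m → ℝ) → ℝ) (y : Fin m → ℝ) : ℝ :=
  (g y - g (-y)) / 2 - ∑ j, cj g j * y j

/-! ### partitions of `ℝ² × ℝ^m` -/

/-- The planar section. -/
def ySl {m : ℕ} (A : Set ((Fin 2 → ℝ) × (Fin m → ℝ))) (y : Fin m → ℝ) : Set (Fin 2 → ℝ) :=
  {x | (x, y) ∈ A}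

/-- proportion of the circle of radius `√(1-τ²) u` in the section. -/
noncomputable def xl {m : ℕ} (τ : ℝ) (A : Set ((Fin 2 → ℝ) × (Fin m → ℝ))) (u : ℝ)
    (y : Fin m → ℝ) : ℝ :=
  len (slice (ySl A y) (Real.sqrt (1 - τ ^ 2) * u)) / (2 * π)

/-- normalised angular energy. -/
noncomputable def ee {m : ℕ} (τ : ℝ) (A B : Set ((Fin 2 → ℝ) × (Fin m → ℝ))) (u v : ℝ)
    (y y' : Fin m → ℝ) : ℝ :=
  (E2 (τ * u * v) (slice (ySl A y) (Real.sqrt (1 - τ ^ 2) * u))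
    (slice (ySl B y') (Real.sqrt (1 - τ ^ 2) * v))).toReal / (2 * π) ^ 2

/-- noise stability pairing on `ℝ² × ℝ^m`. -/
noncomputable def stab {m : ℕ} (ρ : ℝ) (A B : Set ((Fin 2 → ℝ) × (Fin m → ℝ))) : ℝ≥0∞ :=
  ((g2.prod (gam m)).prod (g2.prod (gam m)))
    {p | p.1 ∈ A ∧ ρ • p.1 + Real.sqrt (1 - ρ ^ 2) • p.2 ∈ B}

end Pool.Agent.SSC3N
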