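import Pool.Agent.SSC3.Polar
import Pool.Agent.SSC3N.Defs

set_option autoImplicit false
open MeasureTheory ProbabilityTheory Set Real
open scoped ENNReal

namespace Pool.Agent.SSC3N
open Pool.Agent.SSC3

private theorem g2p_integral_nu (h : ℝ → ℝ) :
    ∫ u, h u ∂nu = ∫ u in Ioi (0:ℝ), u * Real.exp (-(u ^ 2 / 2)) * h u := by
  unfold nu
  have hm : Measurable (fun u : ℝ => ENNReal.ofReal (u * Real.exp (-(u ^ 2 / 2)))) := by fun_prop
  rw [integral_withDensity_eq_integral_toReal_smul hm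
    (Filter.Eventually.of_forall fun u => ENNReal.ofReal_lt_top)]
  apply setIntegral_congr_fun measurableSet_Ioi
  intro u hu
  rw [mem_Ioi] at hu
  show (ENNReal.ofReal (u * Real.exp (-(u ^ 2 / 2)))).toReal • h u = _
  rw [ENNReal.toReal_ofReal (by positivity), smul_eq_mul]

private theorem g2p_density (r θ : ℝ) :
    gaussianPDF 0 1 (r * Real.cos θ) * gaussianPDF 0 1 (r * Real.sin θ)
      = ENNReal.ofReal (Real.exp (-(r ^ 2 / 2)) / (2 * π)) := by
  simp only [gaussianPDF]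
  rw [← ENNReal.ofReal_mul (gaussianPDFReal_nonneg _ _ _)]
  congr 1
  simp only [gaussianPDFReal, NNReal.coe_one]
  have e1 : (√(2 * π * 1))⁻¹ * (√(2 * π * 1))⁻¹ = (2 * π)⁻¹ := by
    rw [← mul_inv, Real.mul_self_sqrt (by positivity), mul_one]
  have e2 : rexp (-(r * Real.cos θ - 0) ^ 2 / (2 * 1)) * rexp (-(r * Real.sin θ - 0) ^ 2 / (2 * 1))
      = rexp (-(r ^ 2 / 2)) := by
    rw [← Real.exp_add]
    congr 1
    have c1 := Real.sin_sq_add_cos_sq θ
    have : (r * Real.cos θ) ^ 2 + (r * Real.sin θ) ^ 2 = r ^ 2 := by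
      have : (r * Real.cos θ) ^ 2 + (r * Real.sin θ) ^ 2
        = r ^ 2 * (Real.sin θ ^ 2 + Real.cos θ ^ 2) := by ring
      rw [this, c1, mul_one]
    rw [sub_zero, sub_zero]
    linarith
  calc _ = ((√(2 * π * 1))⁻¹ * (√(2 * π * 1))⁻¹) *
      (rexp (-(r * Real.cos θ - 0) ^ 2 / (2 * 1)) * rexp (-(r * Real.sin θ - 0) ^ 2 / (2 * 1))) := by
        ring
    _ = _ := by
      rw [e1, e2]
      field_simp

private theorem g2p_lint (S : Set (Fin 2 → ℝ)) (hS : MeasurableSet S) :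
    g2 S = ∫⁻ r in Ioi (0:ℝ),
      ENNReal.ofReal (r * Real.exp (-(r ^ 2 / 2)) * (len (slice S r) / (2 * π))) := by
  have h0 : g2 S = ∫⁻ y, S.indicator (fun _ => (1 : ℝ≥0∞)) y
      ∂(Measure.pi (fun _ : Fin 2 => gaussianReal 0 1)) := by
    rw [lintegral_indicator hS, setLIntegral_const, one_mul]
    rfl
  rw [h0, gauss_polar (S.indicator (fun _ => (1 : ℝ≥0∞))) (measurable_const.indicator hS)
    (fun _ => 0) 1 one_ne_zero]
  refine setLIntegral_congr_fun measurableSet_Ioi fun r hr => ?_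
  rw [mem_Ioi] at hr
  have mS := measurable_IA hS
  have h1 : ∀ θ : ℝ, ENNReal.ofReal r * ((gaussianPDF 0 1 (r * Real.cos θ) *
      gaussianPDF 0 1 (r * Real.sin θ)) *
        S.indicator (fun _ => (1 : ℝ≥0∞)) ![r * Real.cos θ, r * Real.sin θ]) =
      (ENNReal.ofReal r * ENNReal.ofReal (Real.exp (-(r ^ 2 / 2)) / (2 * π))) *
        (slice S r).indicator (fun _ => (1 : ℝ≥0∞)) θ := by
    intro θ
    rw [g2p_density, mul_assoc, indicator_slice, mul_one]
    rfl
  rw [lintegral_congr h1, lintegral_const_mul]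
  · rw [lintegral_indicator (slice_meas S hS r), setLIntegral_const, one_mul,
      Measure.restrict_apply (slice_meas S hS r)]
    have hfin : volume (slice S r ∩ Ioo (-π) π) ≠ ⊤ := by
      refine ne_top_of_le_ne_top ?_ (measure_mono inter_subset_right)
      rw [Real.volume_Ioo]
      exact ENNReal.ofReal_ne_top
    have hlen : volume (slice S r ∩ Ioo (-π) π) = ENNReal.ofReal (len (slice S r)) := by
      unfold len
      rw [ENNReal.ofReal_toReal hfin]
    rw [hlen, ← ENNReal.ofReal_mul hr.le, ← ENNReal.ofReal_mul (by positivity)]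
    congr 1
    field_simp
  · exact measurable_const.indicator (slice_meas S hS r)

theorem g2_polar (τ : ℝ) (h0 : 0 ≤ τ) (h1 : τ < 1) (S : Set (Fin 2 → ℝ)) (hS : MeasurableSet S) :
    (g2 S).toReal = (1 - τ ^ 2) * ∫ u, len (slice S (Real.sqrt (1 - τ ^ 2) * u)) / (2 * π) *
      Real.exp (τ ^ 2 * u ^ 2 / 2) ∂nu := by
  have hden : 0 < 1 - τ ^ 2 := by nlinarith
  set a := Real.sqrt (1 - τ ^ 2) with ha
  have ha0 : 0 < a := Real.sqrt_pos.mpr hden
  have ha2 : a ^ 2 = 1 - τ ^ 2 := Real.sq_sqrt hden.le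
  have mlen := measurable_len S hS
  set g : ℝ → ℝ := fun r => r * Real.exp (-(r ^ 2 / 2)) * (len (slice S r) / (2 * π)) with hg
  have hlen0 : ∀ r, 0 ≤ len (slice S r) := fun r => ENNReal.toReal_nonneg
  have hgm : Measurable g := by
    rw [hg]
    fun_prop
  have hB : (g2 S).toReal = ∫ r in Ioi (0:ℝ), g r := by
    rw [integral_eq_lintegral_of_nonneg_ae]
    · rw [g2p_lint S hS]
    · filter_upwards [ae_restrict_mem measurableSet_Ioi] with r hr
      rw [mem_Ioi] at hr
      have := hlen0 r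
      rw [hg]
      simp only [Pi.zero_apply]
      positivity
    · exact hgm.aestronglyMeasurable
  have hC : ∫ u in Ioi (0:ℝ), g (a * u) = a⁻¹ * ∫ r in Ioi (0:ℝ), g r := by
    have := integral_comp_mul_left_Ioi g 0 ha0
    rw [mul_zero, smul_eq_mul] at this
    exact this
  rw [g2p_integral_nu, hB]
  have hD : ∫ r in Ioi (0:ℝ), g r = a * ∫ u in Ioi (0:ℝ), g (a * u) := by
    rw [hC, ← mul_assoc, mul_inv_cancel₀ ha0.ne', one_mul]
  rw [hD, ← integral_const_mul, ← integral_const_mul]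
  apply setIntegral_congr_fun measurableSet_Ioi
  intro u _
  show a * (a * u * Real.exp (-((a * u) ^ 2 / 2)) * (len (slice S (a * u)) / (2 * π)))
    = (1 - τ ^ 2) * (u * Real.exp (-(u ^ 2 / 2)) * (len (slice S (a * u)) / (2 * π) *
      Real.exp (τ ^ 2 * u ^ 2 / 2)))
  have e : Real.exp (-((a * u) ^ 2 / 2))
      = Real.exp (-(u ^ 2 / 2)) * Real.exp (τ ^ 2 * u ^ 2 / 2) := by
    rw [← Real.exp_add]
    congr 1
    rw [mul_pow, ha2]
    ring
  rw [e, ← ha2]
  ring

end Pool.Agent.SSC3N
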