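import Pool.Agent.SSC3N.Defs

set_option autoImplicit false
open MeasureTheory ProbabilityTheory Set Real
open scoped ENNReal

namespace Pool.Agent.SSC3N
open Pool.Agent.SSC3

/-! ## [O1] noise operator basics -/

theorem gam_prob (m : ℕ) : IsProbabilityMeasure (gam m) := by
  unfold gam; infer_instance

private instance noise_inst (m : ℕ) : IsProbabilityMeasure (gam m) := gam_prob m

private theorem noise_cf1 (L : StrongDual ℝ ℝ) :
    charFunDual (gaussianReal 0 1) L = Complex.exp (-((L 1 : ℝ) : ℂ) ^ 2 / 2) := by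
  have h1 : charFunDual (gaussianReal 0 1) L = charFun (gaussianReal 0 1) (L 1) := by
    rw [charFunDual_apply, charFun_apply_real]
    congr 1
    ext v
    have : L v = L 1 * v := by
      have := L.map_smul v 1
      simp only [smul_eq_mul, mul_one] at this
      rw [this, mul_comm]
    rw [this]
    push_cast
    ring_nf
  rw [h1, charFun_gaussianReal]
  congr 1
  push_cast
  ring

private theorem noise_cf {m : ℕ} (L : StrongDual ℝ (Fin m → ℝ)) :
    charFunDual (gam m) L = Complex.exp (-((∑ i, (L (Pi.single i 1)) ^ 2 : ℝ) : ℂ) / 2) := by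
  unfold gam
  rw [charFunDual_pi]
  simp_rw [noise_cf1]
  rw [← Complex.exp_sum]
  congr 1
  push_cast
  rw [← Finset.sum_div, ← Finset.sum_neg_distrib]
  rfl

/-- the law of `κ y + √(1-κ²) z` is Gaussian -/
theorem gam_ou (m : ℕ) (κ : ℝ) (h0 : -1 ≤ κ) (h1 : κ ≤ 1) :
    MeasurePreserving (fun p : (Fin m → ℝ) × (Fin m → ℝ) => κ • p.1 + Real.sqrt (1 - κ ^ 2) • p.2)
      ((gam m).prod (gam m)) (gam m) := by
  let Φ : ((Fin m → ℝ) × (Fin m → ℝ)) →L[ℝ] (Fin m → ℝ) :=
    κ • ContinuousLinearMap.fst ℝ _ _ + Real.sqrt (1 - κ ^ 2) • ContinuousLinearMap.snd ℝ _ _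
  have hΦ : (fun p : (Fin m → ℝ) × (Fin m → ℝ) => κ • p.1 + Real.sqrt (1 - κ ^ 2) • p.2)
      = (Φ : _ → _) := by
    ext p i
    simp [Φ]
  rw [hΦ]
  refine ⟨Φ.continuous.measurable, ?_⟩
  have : IsProbabilityMeasure (Measure.map Φ ((gam m).prod (gam m))) :=
    Measure.isProbabilityMeasure_map Φ.continuous.measurable.aemeasurable
  refine Measure.ext_of_charFunDual ?_
  ext L
  rw [charFunDual_map, charFunDual_prod, noise_cf, noise_cf, noise_cf, ← Complex.exp_add]
  congr 1
  have hs : Real.sqrt (1 - κ ^ 2) ^ 2 = 1 - κ ^ 2 := Real.sq_sqrt (by nlinarith)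
  have e : ∀ i : Fin m, (((L.comp Φ).comp (.inl ℝ _ _)) (Pi.single i 1)) ^ 2
      + (((L.comp Φ).comp (.inr ℝ _ _)) (Pi.single i 1)) ^ 2 = (L (Pi.single i 1)) ^ 2 := by
    intro i
    have e1 : ((L.comp Φ).comp (.inl ℝ _ _)) (Pi.single i 1) = κ * L (Pi.single i 1) := by
      simp [Φ]
    have e2 : ((L.comp Φ).comp (.inr ℝ _ _)) (Pi.single i 1)
        = Real.sqrt (1 - κ ^ 2) * L (Pi.single i 1) := by
      simp [Φ]
    rw [e1, e2, mul_pow, mul_pow, hs]
    ring
  rw [← add_div, ← neg_add, ← Complex.ofReal_add, ← Finset.sum_add_distrib,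
    Finset.sum_congr rfl fun i _ => e i]

theorem TT_measurable {m : ℕ} (κ : ℝ) (f : ℝ → (Fin m → ℝ) → ℝ)
    (hf : Measurable (Function.uncurry f)) :
    Measurable (Function.uncurry (fun u y => TT κ (f u) y)) := by
  have h1 : Measurable (fun q : (ℝ × (Fin m → ℝ)) × (Fin m → ℝ) =>
      f q.1.1 (κ • q.1.2 + Real.sqrt (1 - κ ^ 2) • q.2)) := by
    have : Measurable (fun q : (ℝ × (Fin m → ℝ)) × (Fin m → ℝ) =>
        (q.1.1, κ • q.1.2 + Real.sqrt (1 - κ ^ 2) • q.2)) := by fun_prop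
    exact hf.comp this
  have h2 := h1.stronglyMeasurable.integral_prod_right' (ν := gam m)
  exact h2.measurable

private theorem noise_bint {α : Type*} [MeasurableSpace α] (μ : Measure α)
    [IsProbabilityMeasure μ] (f : α → ℝ) (hf : Measurable f) (hb : ∀ y, |f y| ≤ 1) :
    Integrable f μ :=
  Integrable.of_bound hf.aestronglyMeasurable 1 (Filter.Eventually.of_forall hb)

private theorem noise_bd {α : Type*} [MeasurableSpace α] (μ : Measure α)
    [IsProbabilityMeasure μ] (f : α → ℝ) (hb : ∀ y, |f y| ≤ 1) : |∫ y, f y ∂μ| ≤ 1 := by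
  have := norm_integral_le_of_norm_le_const (μ := μ) (f := f) (C := 1)
    (Filter.Eventually.of_forall hb)
  simpa using this

theorem TT_bdd {m : ℕ} (κ : ℝ) (g : (Fin m → ℝ) → ℝ) (hb : ∀ y, |g y| ≤ 1) (y : Fin m → ℝ) :
    |TT κ g y| ≤ 1 := noise_bd _ _ fun _ => hb _

private theorem noise_mul {a b : ℝ} (ha : |a| ≤ 1) (hb : |b| ≤ 1) : |a * b| ≤ 1 := by
  rw [abs_mul]
  exact mul_le_one₀ ha (abs_nonneg _) hb

theorem GG_semigroup {m : ℕ} (τ : ℝ) (h0 : 0 ≤ τ) (h1 : τ ≤ 1) (g h : (Fin m → ℝ) → ℝ)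
    (hg : Measurable g) (hh : Measurable h) (hgb : ∀ y, |g y| ≤ 1) (hhb : ∀ y, |h y| ≤ 1) :
    GG τ g h = ∫ y, TT (Real.sqrt τ) g y * TT (Real.sqrt τ) h y ∂(gam m) := by
  have hss : Real.sqrt τ ^ 2 = τ := Real.sq_sqrt h0
  have hs1 : Real.sqrt (1 - τ) ^ 2 = 1 - τ := Real.sq_sqrt (by linarith)
  have hs2 : Real.sqrt (1 - τ ^ 2) ^ 2 = 1 - τ ^ 2 := Real.sq_sqrt (by nlinarith)
  -- the two linear maps
  let E := Fin m → ℝ
  let Ψ : (E × E) →L[ℝ] (E × E) :=
    ContinuousLinearMap.prod (ContinuousLinearMap.fst ℝ E E)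
      (τ • ContinuousLinearMap.fst ℝ E E + Real.sqrt (1 - τ ^ 2) • ContinuousLinearMap.snd ℝ E E)
  let Φ : (E × (E × E)) →L[ℝ] (E × E) :=
    ContinuousLinearMap.prod
      (Real.sqrt τ • ContinuousLinearMap.fst ℝ E (E × E) + Real.sqrt (1 - τ) •
        (ContinuousLinearMap.fst ℝ E E).comp (ContinuousLinearMap.snd ℝ E (E × E)))
      (Real.sqrt τ • ContinuousLinearMap.fst ℝ E (E × E) + Real.sqrt (1 - τ) •
        (ContinuousLinearMap.snd ℝ E E).comp (ContinuousLinearMap.snd ℝ E (E × E)))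
  have hΨ : ∀ p, Ψ p = (p.1, τ • p.1 + Real.sqrt (1 - τ ^ 2) • p.2) := fun p => rfl
  have hΦ : ∀ p, Φ p = (Real.sqrt τ • p.1 + Real.sqrt (1 - τ) • p.2.1,
      Real.sqrt τ • p.1 + Real.sqrt (1 - τ) • p.2.2) := fun p => rfl
  have hmap : Measure.map Ψ ((gam m).prod (gam m))
      = Measure.map Φ ((gam m).prod ((gam m).prod (gam m))) := by
    have : IsProbabilityMeasure (Measure.map Ψ ((gam m).prod (gam m))) :=
      Measure.isProbabilityMeasure_map Ψ.continuous.measurable.aemeasurable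
    have : IsProbabilityMeasure (Measure.map Φ ((gam m).prod ((gam m).prod (gam m)))) :=
      Measure.isProbabilityMeasure_map Φ.continuous.measurable.aemeasurable
    refine Measure.ext_of_charFunDual ?_
    ext L
    rw [charFunDual_map, charFunDual_map, charFunDual_prod, charFunDual_prod, charFunDual_prod,
      noise_cf, noise_cf, noise_cf, noise_cf, noise_cf, ← Complex.exp_add, ← Complex.exp_add,
      ← Complex.exp_add]
    congr 1
    rw [← add_div, ← neg_add, ← Complex.ofReal_add, ← Finset.sum_add_distrib, ← add_div, ← neg_add,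
      ← Complex.ofReal_add, ← Finset.sum_add_distrib, ← add_div, ← neg_add,
      ← Complex.ofReal_add, ← Finset.sum_add_distrib]
    congr 4
    ext i
    set A := L (Pi.single i 1, 0) with hA
    set B := L (0, Pi.single i 1) with hB
    have key : ∀ a b : ℝ, L (a • Pi.single i 1, b • Pi.single i 1) = a * A + b * B := by
      intro a b
      have : ((a • Pi.single i 1, b • Pi.single i 1) : (Fin m → ℝ) × (Fin m → ℝ))
          = a • (Pi.single i 1, 0) + b • (0, Pi.single i 1) := by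
        simp
      rw [this, map_add, map_smul, map_smul, smul_eq_mul, smul_eq_mul]
    have e1 : ((L.comp Ψ).comp (.inl ℝ _ _)) (Pi.single i 1) = A + τ * B := by
      have := key 1 τ
      rw [one_mul] at this
      rw [← this]
      simp [Ψ]
    have e2 : ((L.comp Ψ).comp (.inr ℝ _ _)) (Pi.single i 1) = Real.sqrt (1 - τ ^ 2) * B := by
      have := key 0 (Real.sqrt (1 - τ ^ 2))
      rw [zero_mul, zero_add] at this
      rw [← this]
      simp [Ψ]
    have e3 : ((L.comp Φ).comp (.inl ℝ _ _)) (Pi.single i 1)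
        = Real.sqrt τ * A + Real.sqrt τ * B := by
      rw [← key]
      simp [Φ]
    have e4 : (((L.comp Φ).comp (.inr ℝ _ _)).comp (.inl ℝ _ _)) (Pi.single i 1)
        = Real.sqrt (1 - τ) * A := by
      have := key (Real.sqrt (1 - τ)) 0
      rw [zero_mul, add_zero] at this
      rw [← this]
      simp [Φ]
    have e5 : (((L.comp Φ).comp (.inr ℝ _ _)).comp (.inr ℝ _ _)) (Pi.single i 1)
        = Real.sqrt (1 - τ) * B := by
      have := key 0 (Real.sqrt (1 - τ))
      rw [zero_mul, zero_add] at this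
      rw [← this]
      simp [Φ]
    rw [e1, e2, e3, e4, e5]
    have r1 : (Real.sqrt τ * A + Real.sqrt τ * B) ^ 2 = τ * (A + B) ^ 2 := by
      rw [← mul_add, mul_pow, hss]
    rw [r1, mul_pow, mul_pow, mul_pow, hs1, hs2]
    ring
  have hF : Measurable (fun q : (Fin m → ℝ) × (Fin m → ℝ) => g q.1 * h q.2) := by fun_prop
  -- left side
  have eL : GG τ g h = ∫ q, g q.1 * h q.2 ∂(Measure.map Ψ ((gam m).prod (gam m))) := by
    rw [integral_map Ψ.continuous.measurable.aemeasurable hF.aestronglyMeasurable]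
    unfold GG
    rw [← integral_prod (f := fun p : (Fin m → ℝ) × (Fin m → ℝ) =>
      g p.1 * h (τ • p.1 + Real.sqrt (1 - τ ^ 2) • p.2))]
    · rfl
    · apply noise_bint
      · fun_prop
      · intro p; exact noise_mul (hgb _) (hhb _)
  have eR : (∫ y, TT (Real.sqrt τ) g y * TT (Real.sqrt τ) h y ∂(gam m))
      = ∫ q, g q.1 * h q.2 ∂(Measure.map Φ ((gam m).prod ((gam m).prod (gam m)))) := by
    rw [integral_map Φ.continuous.measurable.aemeasurable hF.aestronglyMeasurable]
    have hint : Integrable (fun p : (Fin m → ℝ) × ((Fin m → ℝ) × (Fin m → ℝ)) =>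
        g (Φ p).1 * h (Φ p).2) ((gam m).prod ((gam m).prod (gam m))) := by
      apply noise_bint
      · exact hF.comp Φ.continuous.measurable
      · intro p; exact noise_mul (hgb _) (hhb _)
    rw [integral_prod _ hint]
    congr 1
    ext y
    unfold TT
    rw [hss]
    rw [← integral_prod_mul]
    rfl
  rw [eL, eR, hmap]

private theorem noise_jensen {α : Type*} [MeasurableSpace α] (μ : Measure α)
    [IsProbabilityMeasure μ] (f : α → ℝ) (hf : Measurable f) (hb : ∀ y, |f y| ≤ 1) :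
    (∫ y, f y ∂μ) ^ 2 ≤ ∫ y, (f y) ^ 2 ∂μ := by
  set c := ∫ y, f y ∂μ with hc
  have i1 := noise_bint μ f hf hb
  have i2 : Integrable (fun y => (f y) ^ 2) μ := by
    apply noise_bint μ _ (hf.pow_const 2)
    intro y
    rw [pow_two]
    exact noise_mul (hb y) (hb y)
  have h : 0 ≤ ∫ y, (f y - c) ^ 2 ∂μ := integral_nonneg fun y => sq_nonneg _
  have e : (∫ y, (f y - c) ^ 2 ∂μ) = (∫ y, (f y) ^ 2 ∂μ) - c ^ 2 := by
    have e1 : (fun y => (f y - c) ^ 2) = fun y => (f y) ^ 2 - (2 * c * f y - c ^ 2) := by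
      ext y; ring
    have i3 : Integrable (fun y => 2 * c * f y) μ := i1.const_mul _
    have i4 : Integrable (fun _ : α => c ^ 2) μ := integrable_const _
    have i5 : Integrable (fun y => 2 * c * f y - c ^ 2) μ := i3.sub i4
    have e2 : (∫ y, (2 * c * f y - c ^ 2) ∂μ) = 2 * c * c - c ^ 2 := by
      rw [integral_sub i3 i4, integral_const_mul, ← hc]
      simp
    rw [e1, integral_sub i2 i5, e2]
    ring
  linarith

theorem TT_contr {m : ℕ} (κ : ℝ) (h0 : 0 ≤ κ) (h1 : κ ≤ 1) (g : (Fin m → ℝ) → ℝ)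
    (hg : Measurable g) (hgb : ∀ y, |g y| ≤ 1) :
    ∫ y, (TT κ g y) ^ 2 ∂(gam m) ≤ ∫ y, (g y) ^ 2 ∂(gam m) := by
  have hou := gam_ou m κ (by linarith) h1
  have hg2 : Measurable fun y => (g y) ^ 2 := hg.pow_const 2
  have e1 : ∫ y, (g y) ^ 2 ∂(gam m)
      = ∫ p, (g (κ • p.1 + Real.sqrt (1 - κ ^ 2) • p.2)) ^ 2 ∂((gam m).prod (gam m)) := by
    conv_lhs => rw [← hou.map_eq]
    rw [integral_map hou.measurable.aemeasurable hg2.aestronglyMeasurable]
  have hint : Integrable (fun p : (Fin m → ℝ) × (Fin m → ℝ) =>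
      (g (κ • p.1 + Real.sqrt (1 - κ ^ 2) • p.2)) ^ 2) ((gam m).prod (gam m)) := by
    apply noise_bint
    · exact hg2.comp hou.measurable
    · intro p
      rw [pow_two]
      exact noise_mul (hgb _) (hgb _)
  rw [e1, integral_prod _ hint]
  have hTm : Measurable fun y => TT κ g y := by
    have h2 := TT_measurable κ (fun _ => g) (hg.comp measurable_snd)
    exact h2.comp (measurable_const.prodMk measurable_id : Measurable fun y => ((0:ℝ), y))
  apply integral_mono
  · apply noise_bint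
    · exact hTm.pow_const 2
    · intro y
      rw [pow_two]
      exact noise_mul (TT_bdd κ g hgb y) (TT_bdd κ g hgb y)
  · exact hint.integral_prod_left
  · intro y
    exact noise_jensen (gam m) _ (hg.comp (by fun_prop)) fun z => hgb _

end Pool.Agent.SSC3N
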