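import Pool.Agent.SSC3N.Defs

set_option autoImplicit false
open MeasureTheory ProbabilityTheory Set Real
open scoped ENNReal

namespace Pool.Agent.SSC3N
open Pool.Agent.SSC3

private lemma nuB_meas : Measurable (fun u : ℝ => ENNReal.ofReal (u * Real.exp (-(u ^ 2 / 2)))) := by
  fun_prop

private lemma nuB_int (s : ℝ) (hs : 0 < s) :
    ∫ v in Ioi (0:ℝ), v * Real.exp (-(s * v ^ 2 / 2)) = s⁻¹ ∧
    IntegrableOn (fun v : ℝ => v * Real.exp (-(s * v ^ 2 / 2))) (Ioi (0:ℝ)) := by
  have hb : 0 < s / 2 := by positivity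
  constructor
  · have h := integral_rpow_mul_exp_neg_mul_rpow (p := 2) (q := 1) (b := s / 2)
      (by norm_num) (by norm_num) hb
    have h1 : ∫ v in Ioi (0:ℝ), v * Real.exp (-(s * v ^ 2 / 2)) =
        ∫ x in Ioi (0:ℝ), x ^ (1:ℝ) * Real.exp (-(s / 2) * x ^ (2:ℝ)) := by
      refine setIntegral_congr_fun measurableSet_Ioi ?_
      intro x hx
      simp only [Real.rpow_one]
      rw [show (x:ℝ) ^ (2:ℝ) = x ^ 2 by norm_cast]
      congr 2
      ring
    rw [h1, h]
    norm_num
    rw [Real.rpow_neg_one]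
    field_simp
  · have h := integrableOn_rpow_mul_exp_neg_mul_sq hb (s := 1) (by norm_num)
    refine h.congr_fun ?_ measurableSet_Ioi
    intro x hx
    simp only [Real.rpow_one]
    congr 2
    ring

theorem nu_prob : IsProbabilityMeasure nu := by
  constructor
  unfold nu
  rw [withDensity_apply _ MeasurableSet.univ, Measure.restrict_univ]
  have h := nuB_int 1 one_pos
  have h1 : (fun v : ℝ => v * Real.exp (-(1 * v ^ 2 / 2))) =
      fun v : ℝ => v * Real.exp (-(v ^ 2 / 2)) := by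
    funext v
    rw [one_mul]
  rw [h1] at h
  rw [← ofReal_integral_eq_lintegral_ofReal h.2 ?_]
  · rw [h.1]
    norm_num
  · filter_upwards [ae_restrict_mem measurableSet_Ioi] with u hu
    have : (0:ℝ) < u := hu
    positivity

theorem nu_pos : ∀ᵐ u ∂nu, 0 < u := by
  unfold nu
  refine (withDensity_absolutelyContinuous _ _) ?_
  exact ae_restrict_mem measurableSet_Ioi

theorem integral_nu (f : ℝ → ℝ) :
    ∫ u, f u ∂nu = ∫ u in Ioi (0:ℝ), f u * (u * Real.exp (-(u ^ 2 / 2))) := by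
  unfold nu
  rw [integral_withDensity_eq_integral_toReal_smul nuB_meas
    (Filter.Eventually.of_forall fun _ => ENNReal.ofReal_lt_top)]
  refine setIntegral_congr_fun measurableSet_Ioi ?_
  intro u hu
  have hu' : (0:ℝ) < u := hu
  simp only [smul_eq_mul]
  rw [ENNReal.toReal_ofReal (by positivity)]
  ring

theorem lintegral_nu (f : ℝ → ℝ≥0∞) (hf : Measurable f) :
    ∫⁻ u, f u ∂nu = ∫⁻ u in Ioi (0:ℝ), f u * ENNReal.ofReal (u * Real.exp (-(u ^ 2 / 2))) := by
  unfold nu
  rw [lintegral_withDensity_eq_lintegral_mul _ nuB_meas hf]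
  refine lintegral_congr ?_
  intro u
  simp only [Pi.mul_apply]
  ring

theorem integrable_nu_iff (f : ℝ → ℝ) (hf : Measurable f) :
    Integrable f nu ↔ IntegrableOn (fun u => f u * (u * Real.exp (-(u ^ 2 / 2)))) (Ioi (0:ℝ)) := by
  unfold nu
  rw [integrable_withDensity_iff_integrable_smul' nuB_meas
    (Filter.Eventually.of_forall fun _ => ENNReal.ofReal_lt_top)]
  unfold IntegrableOn
  refine integrable_congr ?_
  filter_upwards [ae_restrict_mem measurableSet_Ioi] with u hu
  have hu' : (0:ℝ) < u := hu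
  simp only [smul_eq_mul]
  rw [ENNReal.toReal_ofReal (by positivity)]
  ring

theorem integrable_nu (f : ℝ → ℝ) (hf : Measurable f) (C : ℝ)
    (h : ∀ u, 0 < u → |f u| ≤ C * Real.exp (u ^ 2 / 4)) : Integrable f nu := by
  rw [integrable_nu_iff f hf]
  have h1 := (nuB_int (1 / 2) (by norm_num)).2.const_mul C
  refine Integrable.mono' h1 ?_ ?_
  · exact (by fun_prop : Measurable fun u : ℝ => f u * (u * Real.exp (-(u ^ 2 / 2)))).aestronglyMeasurable
  · filter_upwards [ae_restrict_mem measurableSet_Ioi] with u hu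
    have hu' : (0:ℝ) < u := hu
    rw [Real.norm_eq_abs, abs_mul, abs_of_pos (by positivity : 0 < u * Real.exp (-(u ^ 2 / 2)))]
    have h2 := h u hu'
    have h3 : Real.exp (u ^ 2 / 4) * Real.exp (-(u ^ 2 / 2)) = Real.exp (-(1 / 2 * u ^ 2 / 2)) := by
      rw [← Real.exp_add]
      congr 1
      ring
    calc |f u| * (u * Real.exp (-(u ^ 2 / 2))) ≤
        (C * Real.exp (u ^ 2 / 4)) * (u * Real.exp (-(u ^ 2 / 2))) :=
          mul_le_mul_of_nonneg_right h2 (by positivity)
      _ = C * (u * (Real.exp (u ^ 2 / 4) * Real.exp (-(u ^ 2 / 2)))) := by ring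
      _ = C * (u * Real.exp (-(1 / 2 * u ^ 2 / 2))) := by rw [h3]

theorem integrable_nu_prod (f : ℝ × ℝ → ℝ) (hf : Measurable f) (C : ℝ)
    (h : ∀ u v, 0 < u → 0 < v → |f (u, v)| ≤ C * Real.exp ((u ^ 2 + v ^ 2) / 4)) :
    Integrable f (nu.prod nu) := by
  haveI := nu_prob
  have hg : Integrable (fun u : ℝ => Real.exp (u ^ 2 / 4)) nu := by
    refine integrable_nu _ (by fun_prop) 1 ?_
    intro u _
    rw [abs_of_pos (Real.exp_pos _), one_mul]
  have hgg := (hg.mul_prod hg).const_mul C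
  refine Integrable.mono' hgg hf.aestronglyMeasurable ?_
  have h1 : ∀ᵐ p ∂(nu.prod nu), 0 < p.1 := Measure.quasiMeasurePreserving_fst.ae nu_pos
  have h2 : ∀ᵐ p ∂(nu.prod nu), 0 < p.2 := Measure.quasiMeasurePreserving_snd.ae nu_pos
  filter_upwards [h1, h2] with p hp1 hp2
  have h3 := h p.1 p.2 hp1 hp2
  rw [Real.norm_eq_abs]
  refine h3.trans (le_of_eq ?_)
  rw [← Real.exp_add]
  congr 2
  ring

end Pool.Agent.SSC3N
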