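import Pool.Agent.SSC3N.Meas
import Pool.Agent.SSC3N.Noise
import Pool.Agent.SSC3N.G2Polar
import Pool.Agent.SSC3N.NuBasic

set_option autoImplicit false
open MeasureTheory ProbabilityTheory Set Real
open scoped ENNReal

namespace Pool.Agent.SSC3N
open Pool.Agent.SSC3

private theorem centroid_g2_prob : IsProbabilityMeasure g2 := by
  unfold g2; infer_instance

private theorem centroid_int_eval {m : ℕ} (j : Fin m) :
    Integrable (fun y : Fin m → ℝ => y j) (gam m) ∧ ∫ y, y j ∂(gam m) = 0 := by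
  have h1 : Integrable (fun x : ℝ => x) (gaussianReal 0 1) := by
    have := (memLp_id_gaussianReal (μ := 0) (v := 1) 1)
    have h2 := this.integrable (by norm_num)
    exact h2
  constructor
  · unfold gam
    exact integrable_comp_eval (μ := fun _ : Fin m => gaussianReal 0 1) (i := j) (f := fun x : ℝ => x) h1
  · unfold gam
    have := integral_comp_eval (μ := fun _ : Fin m => gaussianReal 0 1) (i := j) (f := fun x : ℝ => x)
      h1.aestronglyMeasurable
    rw [this]
    exact integral_id_gaussianReal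

theorem centroid {m : ℕ} (τ : ℝ) (h0 : 0 ≤ τ) (h1 : τ ≤ 1 / 2)
    (A : Set ((Fin 2 → ℝ) × (Fin m → ℝ))) (hA : MeasurableSet A) (j : Fin m)
    (hc : ∫ p, A.indicator (fun p : (Fin 2 → ℝ) × (Fin m → ℝ) => p.2 j) p ∂(g2.prod (gam m)) = 0) :
    ∫ u, cj (fun y => xl τ A u y - 1 / 3) j * Real.exp (τ ^ 2 * u ^ 2 / 2) ∂nu = 0 := by
  have := nu_prob
  have := gam_prob m
  have := centroid_g2_prob
  obtain ⟨hyi, hy0⟩ := centroid_int_eval j
  have hτ : 0 < 1 - τ ^ 2 := by nlinarith
  -- the exponential weight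
  have hEi : Integrable (fun u : ℝ => Real.exp (τ ^ 2 * u ^ 2 / 2)) nu := by
    refine integrable_nu _ (by fun_prop) 1 fun u hu => ?_
    rw [abs_of_pos (Real.exp_pos _), one_mul]
    apply Real.exp_le_exp.mpr
    have h2 : τ ^ 2 ≤ 1 / 4 := by nlinarith
    nlinarith [sq_nonneg u, mul_le_mul_of_nonneg_right h2 (sq_nonneg u)]
  have hxm := xl_measurable (m := m) τ A hA
  -- joint integrability
  have hF : Integrable (Function.uncurry (fun (u : ℝ) (y : Fin m → ℝ) =>
      (y j * (xl τ A u y - 1 / 3)) * Real.exp (τ ^ 2 * u ^ 2 / 2))) (nu.prod (gam m)) := by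
    have hdom : Integrable (fun p : ℝ × (Fin m → ℝ) =>
        Real.exp (τ ^ 2 * p.1 ^ 2 / 2) * (2 * |p.2 j|)) (nu.prod (gam m)) :=
      Integrable.mul_prod hEi (hyi.abs.const_mul 2)
    refine hdom.mono' ?_ ?_
    · have hm : Measurable (Function.uncurry (fun (u : ℝ) (y : Fin m → ℝ) =>
        (y j * (xl τ A u y - 1 / 3)) * Real.exp (τ ^ 2 * u ^ 2 / 2))) := by
        have e : (Function.uncurry (fun (u : ℝ) (y : Fin m → ℝ) =>
          (y j * (xl τ A u y - 1 / 3)) * Real.exp (τ ^ 2 * u ^ 2 / 2))) =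
          fun p : ℝ × (Fin m → ℝ) => (p.2 j * (Function.uncurry (fun (u : ℝ) (y : Fin m → ℝ) => xl τ A u y) p - 1 / 3)) *
            Real.exp (τ ^ 2 * p.1 ^ 2 / 2) := by
          funext p; rfl
        rw [e]
        fun_prop
      exact hm.aestronglyMeasurable
    · refine Filter.Eventually.of_forall fun p => ?_
      simp only [Function.uncurry]
      rw [Real.norm_eq_abs, abs_mul, abs_mul, abs_of_pos (Real.exp_pos _)]
      have hx0 := xl_nonneg τ A p.1 p.2
      have hx1 := xl_le τ A p.1 p.2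
      have h2 : |xl τ A p.1 p.2 - 1 / 3| ≤ 2 := by
        rw [abs_le]; constructor <;> linarith
      have h3 := abs_nonneg (p.2 j)
      have h4 := Real.exp_pos (τ ^ 2 * p.1 ^ 2 / 2)
      have h5 : |p.2 j| * |xl τ A p.1 p.2 - 1 / 3| ≤ 2 * |p.2 j| := by nlinarith
      calc |p.2 j| * |xl τ A p.1 p.2 - 1 / 3| * Real.exp (τ ^ 2 * p.1 ^ 2 / 2)
          ≤ (2 * |p.2 j|) * Real.exp (τ ^ 2 * p.1 ^ 2 / 2) :=
            mul_le_mul_of_nonneg_right h5 h4.le
        _ = _ := by ring
  have e1 : ∫ u, cj (fun y => xl τ A u y - 1 / 3) j * Real.exp (τ ^ 2 * u ^ 2 / 2) ∂nu =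
      ∫ u, ∫ y, (y j * (xl τ A u y - 1 / 3)) * Real.exp (τ ^ 2 * u ^ 2 / 2) ∂(gam m) ∂nu := by
    congr 1
    funext u
    unfold cj
    rw [integral_mul_const]
  rw [e1, integral_integral_swap hF]
  -- inner integral
  set K : ℝ := ∫ u, (1 / 3 : ℝ) * Real.exp (τ ^ 2 * u ^ 2 / 2) ∂nu with hK
  have hin : ∀ y : Fin m → ℝ, ∫ u, (y j * (xl τ A u y - 1 / 3)) * Real.exp (τ ^ 2 * u ^ 2 / 2) ∂nu =
      (y j * (g2 (ySl A y)).toReal) / (1 - τ ^ 2) - K * y j := by
    intro y
    have hS : MeasurableSet (ySl A y) := by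
      have : Measurable (fun x : Fin 2 → ℝ => (x, y)) := by fun_prop
      exact this hA
    have hpol := g2_polar τ h0 (by linarith) (ySl A y) hS
    have hxi : Integrable (fun u : ℝ => xl τ A u y * Real.exp (τ ^ 2 * u ^ 2 / 2)) nu := by
      refine hEi.mono' ?_ ?_
      · have hm : Measurable (fun u : ℝ => xl τ A u y) := Measurable.of_uncurry_right hxm
        exact (hm.mul (by fun_prop)).aestronglyMeasurable
      · refine Filter.Eventually.of_forall fun u => ?_
        have hx0 := xl_nonneg τ A u y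
        have hx1 := xl_le τ A u y
        rw [Real.norm_eq_abs, abs_mul, abs_of_pos (Real.exp_pos _), abs_of_nonneg hx0]
        have h4 := Real.exp_pos (τ ^ 2 * u ^ 2 / 2)
        nlinarith
    have e2 : ∀ u, (y j * (xl τ A u y - 1 / 3)) * Real.exp (τ ^ 2 * u ^ 2 / 2) =
        y j * (xl τ A u y * Real.exp (τ ^ 2 * u ^ 2 / 2) - (1 / 3) * Real.exp (τ ^ 2 * u ^ 2 / 2)) := by
      intro u; ring
    rw [show (fun u => (y j * (xl τ A u y - 1 / 3)) * Real.exp (τ ^ 2 * u ^ 2 / 2)) = fun u =>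
      y j * (xl τ A u y * Real.exp (τ ^ 2 * u ^ 2 / 2) - (1 / 3) * Real.exp (τ ^ 2 * u ^ 2 / 2)) from
      funext e2, integral_const_mul, integral_sub hxi (hEi.const_mul _), ← hK]
    have e3 : ∫ u, xl τ A u y * Real.exp (τ ^ 2 * u ^ 2 / 2) ∂nu = (g2 (ySl A y)).toReal / (1 - τ ^ 2) := by
      rw [eq_div_iff hτ.ne', hpol, mul_comm]
      rfl
    rw [e3]
    ring
  rw [show (fun y : Fin m → ℝ => ∫ u, (y j * (xl τ A u y - 1 / 3)) * Real.exp (τ ^ 2 * u ^ 2 / 2) ∂nu) =
      fun y => (y j * (g2 (ySl A y)).toReal) / (1 - τ ^ 2) - K * y j from funext hin]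
  -- the section integral
  have hAi : Integrable (fun p : (Fin 2 → ℝ) × (Fin m → ℝ) =>
      A.indicator (fun p : (Fin 2 → ℝ) × (Fin m → ℝ) => p.2 j) p) (g2.prod (gam m)) := by
    have h2 : Integrable (fun p : (Fin 2 → ℝ) × (Fin m → ℝ) => p.2 j) (g2.prod (gam m)) :=
      hyi.comp_snd g2
    exact h2.indicator hA
  have hsec : ∀ y : Fin m → ℝ, ∫ x, A.indicator (fun p : (Fin 2 → ℝ) × (Fin m → ℝ) => p.2 j) (x, y) ∂g2 =
      y j * (g2 (ySl A y)).toReal := by
    intro y
    have hS : MeasurableSet (ySl A y) := by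
      have : Measurable (fun x : Fin 2 → ℝ => (x, y)) := by fun_prop
      exact this hA
    have e4 : ∀ x : Fin 2 → ℝ, A.indicator (fun p : (Fin 2 → ℝ) × (Fin m → ℝ) => p.2 j) (x, y) =
        (ySl A y).indicator (fun _ => y j) x := by
      intro x
      by_cases hx : (x, y) ∈ A
      · have hx' : x ∈ ySl A y := hx
        rw [indicator_of_mem hx, indicator_of_mem hx']
      · have hx' : x ∉ ySl A y := hx
        rw [indicator_of_notMem hx, indicator_of_notMem hx']
    rw [show (fun x : Fin 2 → ℝ => A.indicator (fun p : (Fin 2 → ℝ) × (Fin m → ℝ) => p.2 j) (x, y)) =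
      (ySl A y).indicator (fun _ => y j) from funext e4]
    rw [integral_indicator hS, setIntegral_const, smul_eq_mul, mul_comm]
    rfl
  rw [integral_prod_symm _ hAi] at hc
  have hsi : Integrable (fun y : Fin m → ℝ => y j * (g2 (ySl A y)).toReal) (gam m) := by
    have := hAi.integral_prod_right
    refine this.congr (Filter.Eventually.of_forall fun y => ?_)
    exact hsec y
  have hc' : ∫ y, y j * (g2 (ySl A y)).toReal ∂(gam m) = 0 := by
    rw [← hc]
    congr 1
    funext y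
    exact (hsec y).symm
  rw [integral_sub (hsi.div_const _) (hyi.const_mul _), integral_div, hc', integral_const_mul, hy0]
  simp

end Pool.Agent.SSC3N
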