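import Pool.Agent.SSC3N.Defs

set_option autoImplicit false
open MeasureTheory ProbabilityTheory Set Real
open scoped ENNReal

namespace Pool.Agent.SSC3N
open Pool.Agent.SSC3

private theorem WRep_hasDeriv (l t : ℝ) :
    HasDerivAt (fun t => Real.exp (-(l * Real.cos (2 * π * t))))
      (2 * π * l * Real.sin (2 * π * t) * Real.exp (-(l * Real.cos (2 * π * t)))) t := by
  have h1 : HasDerivAt (fun t : ℝ => 2 * π * t) (2 * π) t := by
    simpa using (hasDerivAt_id t).const_mul (2 * π)
  have h2 : HasDerivAt (fun t => Real.exp (-(l * Real.cos (2 * π * t))))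
      (Real.exp (-(l * Real.cos (2 * π * t))) * -(l * (-Real.sin (2 * π * t) * (2 * π)))) t :=
    ((h1.cos).const_mul l).neg.exp
  refine h2.congr_deriv ?_
  ring

private theorem WRep_cont (l : ℝ) :
    Continuous (fun t : ℝ => 2 * π * l * Real.sin (2 * π * t) *
      Real.exp (-(l * Real.cos (2 * π * t)))) := by
  fun_prop

theorem cF_eq (l : ℝ) : cF l = Real.exp (-l) +
    ∫ t in (0:ℝ)..(1 / 3), 2 * π * l * Real.sin (2 * π * t) *
      Real.exp (-(l * Real.cos (2 * π * t))) * ct t := by
  have hd : ∀ t : ℝ, HasDerivAt (fun t => ct t * Real.exp (-(l * Real.cos (2 * π * t))))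
      (-((2 + 3 * t) * Real.exp (-(l * Real.cos (2 * π * t)))) +
        2 * π * l * Real.sin (2 * π * t) * Real.exp (-(l * Real.cos (2 * π * t))) * ct t) t := by
    intro t
    have h1 : HasDerivAt ct (-(2 + 3 * t)) t := by
      have := (((hasDerivAt_id t).const_mul 2).const_sub 1).sub
        (((hasDerivAt_id t).pow 2).const_mul (3 / 2))
      refine (this.congr_deriv ?_).congr_of_eventuallyEq (Filter.Eventually.of_forall fun x => ?_)
      · simp
        ring
      · simp [ct]
    have h2 : HasDerivAt (fun t => ct t * Real.exp (-(l * Real.cos (2 * π * t)))) _ t :=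
      h1.mul (WRep_hasDeriv l t)
    refine h2.congr_deriv ?_
    ring
  have hc : Continuous ct := by
    unfold ct
    fun_prop
  have hc1 : Continuous (fun t : ℝ => -((2 + 3 * t) * Real.exp (-(l * Real.cos (2 * π * t))))) := by
    fun_prop
  have hc2 : Continuous (fun t : ℝ => 2 * π * l * Real.sin (2 * π * t) *
      Real.exp (-(l * Real.cos (2 * π * t))) * ct t) := (WRep_cont l).mul hc
  have hint := intervalIntegral.integral_eq_sub_of_hasDerivAt (a := 0) (b := 1 / 3)
    (fun t _ => hd t) ((hc1.add hc2).intervalIntegrable _ _)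
  rw [intervalIntegral.integral_add (hc1.intervalIntegrable _ _) (hc2.intervalIntegrable _ _),
    intervalIntegral.integral_neg] at hint
  have e0 : ct 0 = 1 := by simp [ct]
  have e1 : ct (1 / 3) = 1 / 6 := by
    unfold ct
    norm_num
  have e2 : Real.cos (2 * π * (1 / 3)) = - (1 / 2) := by
    rw [show 2 * π * (1 / 3) = π - π / 3 by ring, Real.cos_pi_sub, Real.cos_pi_div_three]
  rw [e0, e1, e2] at hint
  simp only [mul_zero, Real.cos_zero, mul_one, one_mul] at hint
  rw [show -(l * -(1 / 2)) = l / 2 by ring] at hint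
  unfold cF
  linarith

theorem vF_eq (l : ℝ) : vF l =
    ∫ t in (0:ℝ)..(1 / 3), 2 * π * l * Real.sin (2 * π * t) *
      Real.exp (-(l * Real.cos (2 * π * t))) * vt t := by
  unfold vF LF
  rw [← intervalIntegral.integral_const_mul]
  congr 1
  funext t
  ring

private theorem WRep_parts (l σ : ℝ) :
    2 * ∫ t in (0:ℝ)..σ, (σ - t) * Real.exp (-(l * Real.cos (2 * π * t))) =
      Real.exp (-l) * σ ^ 2 + ∫ t in (0:ℝ)..σ, 2 * π * l * Real.sin (2 * π * t) *
        Real.exp (-(l * Real.cos (2 * π * t))) * (σ - t) ^ 2 := by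
  have hd : ∀ t : ℝ, HasDerivAt (fun t => (σ - t) ^ 2 * Real.exp (-(l * Real.cos (2 * π * t))))
      (-(2 * ((σ - t) * Real.exp (-(l * Real.cos (2 * π * t))))) +
        2 * π * l * Real.sin (2 * π * t) * Real.exp (-(l * Real.cos (2 * π * t))) *
          (σ - t) ^ 2) t := by
    intro t
    have h1 : HasDerivAt (fun t : ℝ => (σ - t) ^ 2) (-(2 * (σ - t))) t := by
      have := ((hasDerivAt_id t).const_sub σ).pow 2
      refine this.congr_deriv ?_
      simp
    have h2 : HasDerivAt (fun t : ℝ => (σ - t) ^ 2 *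
        Real.exp (-(l * Real.cos (2 * π * t)))) _ t := h1.mul (WRep_hasDeriv l t)
    refine h2.congr_deriv ?_
    ring
  have hc1 : Continuous (fun t : ℝ =>
      -(2 * ((σ - t) * Real.exp (-(l * Real.cos (2 * π * t)))))) := by
    fun_prop
  have hc2 : Continuous (fun t : ℝ => 2 * π * l * Real.sin (2 * π * t) *
      Real.exp (-(l * Real.cos (2 * π * t))) * (σ - t) ^ 2) :=
    (WRep_cont l).mul (by fun_prop)
  have hint := intervalIntegral.integral_eq_sub_of_hasDerivAt (a := 0) (b := σ)
    (fun t _ => hd t) ((hc1.add hc2).intervalIntegrable _ _)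
  rw [intervalIntegral.integral_add (hc1.intervalIntegrable _ _) (hc2.intervalIntegrable _ _),
    intervalIntegral.integral_neg, intervalIntegral.integral_const_mul] at hint
  simp only [sub_self, mul_zero, Real.cos_zero, mul_one, sub_zero, ne_eq, OfNat.ofNat_ne_zero,
    not_false_eq_true, zero_pow, zero_mul, zero_sub] at hint
  linarith

theorem W_rep (l σ : ℝ) (h0 : 0 ≤ σ) (h1 : σ ≤ 1) :
    W l (2 * π * σ) = (2 * π) ^ 2 * (Real.exp (-l) * σ ^ 2 +
      ∫ t in (0:ℝ)..(1 / 2), 2 * π * l * Real.sin (2 * π * t) *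
        Real.exp (-(l * Real.cos (2 * π * t))) * Wh t σ) := by
  have hπ : (2 * π) ≠ 0 := by positivity
  -- substitution
  have hsub : ∫ u in (0:ℝ)..(2 * π * σ), (2 * π * σ - u) * ker l u =
      (2 * π) ^ 2 * ∫ t in (0:ℝ)..σ, (σ - t) * Real.exp (-(l * Real.cos (2 * π * t))) := by
    have h := intervalIntegral.mul_integral_comp_mul_left (a := 0) (b := σ)
      (f := fun u => (2 * π * σ - u) * ker l u) (2 * π)
    rw [mul_zero] at h
    rw [← h, ← intervalIntegral.integral_const_mul, ← intervalIntegral.integral_const_mul]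
    congr 1
    funext t
    unfold ker
    ring
  -- folding
  have hc : Continuous (fun t : ℝ => 2 * π * l * Real.sin (2 * π * t) *
      Real.exp (-(l * Real.cos (2 * π * t))) * (max (σ - t) 0) ^ 2) :=
    (WRep_cont l).mul (by fun_prop)
  have hc' : Continuous (fun t : ℝ => 2 * π * l * Real.sin (2 * π * t) *
      Real.exp (-(l * Real.cos (2 * π * t))) * (max (σ - 1 + t) 0) ^ 2) :=
    (WRep_cont l).mul (by fun_prop)
  have hA : ∫ t in (0:ℝ)..1, 2 * π * l * Real.sin (2 * π * t) *
      Real.exp (-(l * Real.cos (2 * π * t))) * (max (σ - t) 0) ^ 2 =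
      ∫ t in (0:ℝ)..σ, 2 * π * l * Real.sin (2 * π * t) *
      Real.exp (-(l * Real.cos (2 * π * t))) * (σ - t) ^ 2 := by
    rw [← intervalIntegral.integral_add_adjacent_intervals (hc.intervalIntegrable 0 σ)
      (hc.intervalIntegrable σ 1)]
    have e1 : ∫ t in σ..1, 2 * π * l * Real.sin (2 * π * t) *
      Real.exp (-(l * Real.cos (2 * π * t))) * (max (σ - t) 0) ^ 2 = 0 := by
      have : ∫ t in σ..1, 2 * π * l * Real.sin (2 * π * t) *
          Real.exp (-(l * Real.cos (2 * π * t))) * (max (σ - t) 0) ^ 2 = ∫ t in σ..1, (0:ℝ) := by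
        refine intervalIntegral.integral_congr fun t ht => ?_
        rw [Set.uIcc_of_le h1] at ht
        have : max (σ - t) 0 = 0 := max_eq_right (by linarith [ht.1])
        simp only [this]
        ring
      rw [this, intervalIntegral.integral_zero]
    rw [e1, add_zero]
    refine intervalIntegral.integral_congr fun t ht => ?_
    rw [Set.uIcc_of_le h0] at ht
    have : max (σ - t) 0 = σ - t := max_eq_left (by linarith [ht.2])
    simp only [this]
  have hB : ∫ t in (1 / 2 : ℝ)..1, 2 * π * l * Real.sin (2 * π * t) *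
      Real.exp (-(l * Real.cos (2 * π * t))) * (max (σ - t) 0) ^ 2 =
      - ∫ t in (0:ℝ)..(1 / 2), 2 * π * l * Real.sin (2 * π * t) *
      Real.exp (-(l * Real.cos (2 * π * t))) * (max (σ - 1 + t) 0) ^ 2 := by
    have h := intervalIntegral.integral_comp_sub_left (a := 0) (b := 1 / 2)
      (f := fun t => 2 * π * l * Real.sin (2 * π * t) *
      Real.exp (-(l * Real.cos (2 * π * t))) * (max (σ - t) 0) ^ 2) (1 : ℝ)
    rw [show (1 : ℝ) - 1 / 2 = 1 / 2 by norm_num, sub_zero] at h
    rw [← h, ← intervalIntegral.integral_neg]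
    congr 1
    funext t
    have e1 : Real.sin (2 * π * (1 - t)) = - Real.sin (2 * π * t) := by
      rw [show 2 * π * (1 - t) = 2 * π - 2 * π * t by ring, Real.sin_two_pi_sub]
    have e2 : Real.cos (2 * π * (1 - t)) = Real.cos (2 * π * t) := by
      rw [show 2 * π * (1 - t) = 2 * π - 2 * π * t by ring, Real.cos_two_pi_sub]
    rw [e1, e2, show σ - (1 - t) = σ - 1 + t by ring]
    ring
  have hfold : ∫ t in (0:ℝ)..(1 / 2), 2 * π * l * Real.sin (2 * π * t) *
        Real.exp (-(l * Real.cos (2 * π * t))) * Wh t σ =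
      ∫ t in (0:ℝ)..σ, 2 * π * l * Real.sin (2 * π * t) *
      Real.exp (-(l * Real.cos (2 * π * t))) * (σ - t) ^ 2 := by
    rw [← hA, ← intervalIntegral.integral_add_adjacent_intervals (hc.intervalIntegrable 0 (1 / 2))
      (hc.intervalIntegrable (1 / 2) 1), hB, ← sub_eq_add_neg,
      ← intervalIntegral.integral_sub (hc.intervalIntegrable _ _) (hc'.intervalIntegrable _ _)]
    congr 1
    funext t
    unfold Wh
    ring
  unfold W
  rw [hsub, hfold, ← WRep_parts]
  ring

end Pool.Agent.SSC3N
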