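import Pool.Agent.SSC3N.Thr
import Pool.Agent.SSC3N.WRep
import Pool.Agent.SSC3.Circle

set_option autoImplicit false
open MeasureTheory ProbabilityTheory Set Real
open scoped ENNReal

namespace Pool.Agent.SSC3N
open Pool.Agent.SSC3

/-- the weight `k'(t)`. -/
noncomputable def c2g (l t : ℝ) : ℝ :=
  2 * π * l * Real.sin (2 * π * t) * Real.exp (-(l * Real.cos (2 * π * t)))

theorem c2g_cont (l : ℝ) : Continuous (c2g l) := by
  unfold c2g; fun_prop

theorem c2g_nonneg (l t : ℝ) (hl : 0 ≤ l) (h0 : 0 ≤ t) (h1 : t ≤ 1 / 2) : 0 ≤ c2g l t := by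
  unfold c2g
  have hs : 0 ≤ Real.sin (2 * π * t) := by
    apply Real.sin_nonneg_of_nonneg_of_le_pi
    · positivity
    · nlinarith [Real.pi_pos]
  have := Real.pi_pos
  positivity

theorem c2_E2_fin (l : ℝ) (A B : Set ℝ) : E2 l A B ≠ ∞ := by
  unfold E2
  have hk : ∀ t, ker l t ≤ Real.exp |l| := by
    intro t
    unfold ker
    apply Real.exp_le_exp.mpr
    have h1 : |l * Real.cos t| ≤ |l| := by
      rw [abs_mul]
      calc |l| * |Real.cos t| ≤ |l| * 1 :=
            mul_le_mul_of_nonneg_left (Real.abs_cos_le_one t) (abs_nonneg l)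
        _ = |l| := mul_one _
    have h2 := neg_abs_le (l * Real.cos t)
    linarith
  have hfin : ∀ S : Set ℝ, volume (S ∩ Ioo (-π) π) ≠ ∞ := by
    intro S
    refine ne_of_lt (lt_of_le_of_lt (measure_mono inter_subset_right) ?_)
    simp
  refine ne_of_lt (lt_of_le_of_lt (b := ∫⁻ _ in A ∩ Ioo (-π) π, ∫⁻ _ in B ∩ Ioo (-π) π,
      ENNReal.ofReal (Real.exp |l|)) ?_ ?_)
  · refine lintegral_mono (fun θ => lintegral_mono (fun φ => ENNReal.ofReal_le_ofReal (hk _)))
  · simp only [lintegral_const, Measure.restrict_apply MeasurableSet.univ, univ_inter]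
    exact ENNReal.mul_lt_top (ENNReal.mul_lt_top ENNReal.ofReal_lt_top (hfin B).lt_top)
      (hfin A).lt_top

theorem c2_real (l : ℝ) (hl : 0 ≤ l) (A B : Set ℝ) (hA : MeasurableSet A) (hB : MeasurableSet B)
    (hPA : Per A) (hPB : Per B) :
    W l ((len A + len B) / 2) - W l (|len A - len B| / 2) ≤ (E2 l A B).toReal := by
  have h := riesz l hl A B hA hB hPA hPB
  have hE := c2_E2_fin l A B
  have hA0 := len_nonneg A
  have hB0 := len_nonneg B
  have h1 : 0 ≤ W l ((len A + len B) / 2) := W_nonneg l (by positivity)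
  have h2 : 0 ≤ W l (|len A - len B| / 2) := W_nonneg l (by positivity)
  have h3 := ENNReal.toReal_mono (ENNReal.add_ne_top.mpr ⟨hE, ENNReal.ofReal_ne_top⟩) h
  rw [ENNReal.toReal_add hE ENNReal.ofReal_ne_top, ENNReal.toReal_ofReal h1,
    ENNReal.toReal_ofReal h2] at h3
  linarith

theorem Wh_cont (σ : ℝ) : Continuous (fun t => Wh t σ) := by
  unfold Wh; fun_prop

theorem ft_cont (x y : ℝ) : Continuous (fun t => ft t x y) := by
  unfold ft; exact (Wh_cont _).sub (Wh_cont _)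

theorem c2_W (l x y : ℝ) (hx0 : 0 ≤ x) (hx : x ≤ 1) (hy0 : 0 ≤ y) (hy : y ≤ 1) :
    (W l (2 * π * ((x + y) / 2)) - W l (2 * π * (|x - y| / 2))) / (2 * π) ^ 2 =
      Real.exp (-l) * (x * y) + ∫ t in (0:ℝ)..(1 / 2), c2g l t * ft t x y := by
  have hd : |x - y| ≤ 1 := abs_le.mpr ⟨by linarith, by linarith⟩
  rw [W_rep l ((x + y) / 2) (by linarith) (by linarith),
    W_rep l (|x - y| / 2) (by positivity) (by linarith)]
  have hp : (2 * π) ^ 2 ≠ 0 := by have := Real.pi_pos; positivity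
  have e : ∫ t in (0:ℝ)..(1 / 2), c2g l t * ft t x y =
      (∫ t in (0:ℝ)..(1 / 2), 2 * π * l * Real.sin (2 * π * t) *
        Real.exp (-(l * Real.cos (2 * π * t))) * Wh t ((x + y) / 2)) -
      (∫ t in (0:ℝ)..(1 / 2), 2 * π * l * Real.sin (2 * π * t) *
        Real.exp (-(l * Real.cos (2 * π * t))) * Wh t (|x - y| / 2)) := by
    rw [← intervalIntegral.integral_sub]
    · refine intervalIntegral.integral_congr (fun t _ => ?_)
      simp only [c2g, ft]; ring
    · exact ((c2g_cont l).mul (Wh_cont _)).intervalIntegrable _ _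
    · exact ((c2g_cont l).mul (Wh_cont _)).intervalIntegrable _ _
  rw [e]
  have hsq : ((x + y) / 2) ^ 2 - (|x - y| / 2) ^ 2 = x * y := by
    rw [div_pow, div_pow, sq_abs]; ring
  rw [← hsq]
  field_simp
  ring

theorem c2_W3 (l : ℝ) : 3 * W l (2 * π / 3) / (2 * π) ^ 2 =
    Real.exp (-l) / 3 + ∫ t in (0:ℝ)..(1 / 3), c2g l t * (3 * (1 / 3 - t) ^ 2) := by
  have h0 : (2 * π / 3 : ℝ) = 2 * π * (1 / 3) := by ring
  have hp : (2 * π) ^ 2 ≠ 0 := by have := Real.pi_pos; positivity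
  rw [h0, W_rep l (1 / 3) (by norm_num) (by norm_num)]
  have hi : ∀ a b : ℝ, IntervalIntegrable (fun t => 2 * π * l * Real.sin (2 * π * t) *
        Real.exp (-(l * Real.cos (2 * π * t))) * Wh t (1 / 3)) volume a b := fun a b =>
    ((c2g_cont l).mul (Wh_cont _)).intervalIntegrable _ _
  rw [← intervalIntegral.integral_add_adjacent_intervals (hi 0 (1 / 3)) (hi (1 / 3) (1 / 2))]
  have e2 : ∫ t in (1 / 3 : ℝ)..(1 / 2), 2 * π * l * Real.sin (2 * π * t) *
        Real.exp (-(l * Real.cos (2 * π * t))) * Wh t (1 / 3) = 0 := by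
    rw [intervalIntegral.integral_congr (g := fun _ => (0:ℝ))]
    · simp
    · intro t ht
      rw [uIcc_of_le (by norm_num)] at ht
      have h1 : max (1 / 3 - t) 0 = 0 := max_eq_right (by linarith [ht.1])
      have h2 : max (1 / 3 - 1 + t) 0 = 0 := max_eq_right (by linarith [ht.2])
      simp only [Wh, h1, h2]; ring
  have e1 : ∫ t in (0 : ℝ)..(1 / 3), c2g l t * (3 * (1 / 3 - t) ^ 2) =
      3 * ∫ t in (0 : ℝ)..(1 / 3), 2 * π * l * Real.sin (2 * π * t) *
        Real.exp (-(l * Real.cos (2 * π * t))) * Wh t (1 / 3) := by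
    rw [← intervalIntegral.integral_const_mul]
    refine intervalIntegral.integral_congr (fun t ht => ?_)
    rw [uIcc_of_le (by norm_num)] at ht
    have h1 : max (1 / 3 - t) 0 = 1 / 3 - t := max_eq_left (by linarith [ht.2])
    have h2 : max (1 / 3 - 1 + t) 0 = 0 := max_eq_right (by linarith [ht.2])
    simp only [Wh, h1, h2, c2g]; ring
  rw [e1, e2]
  field_simp
  ring

theorem c2_half (l : ℝ) (hl : 0 ≤ l) (x y : Fin 3 → ℝ) (hx : ∀ i, 0 ≤ x i) (hy : ∀ i, 0 ≤ y i)
    (hxs : ∑ i, x i = 1) (hys : ∑ i, y i = 1) :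
    3 * W l (2 * π / 3) / (2 * π) ^ 2 +
      (cF l * ∑ i, (x i - 1 / 3) * (y i - 1 / 3) + vF l * ∑ i, (x i - 1 / 3) ^ 2)
    ≤ ∑ i, (W l (2 * π * ((x i + y i) / 2)) - W l (2 * π * (|x i - y i| / 2))) / (2 * π) ^ 2 := by
  have hx1 : ∀ i, x i ≤ 1 := fun i => by
    rw [← hxs]; exact Finset.single_le_sum (fun j _ => hx j) (Finset.mem_univ i)
  have hy1 : ∀ i, y i ≤ 1 := fun i => by
    rw [← hys]; exact Finset.single_le_sum (fun j _ => hy j) (Finset.mem_univ i)
  set S : ℝ := ∑ i, (x i - 1 / 3) * (y i - 1 / 3) with hS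
  set Q : ℝ := ∑ i, (x i - 1 / 3) ^ 2 with hQ
  have hxy : ∑ i, x i * y i = 1 / 3 + S := by
    rw [hS]
    simp only [Fin.sum_univ_three] at hxs hys ⊢
    linear_combination (1 / 3 : ℝ) * hxs + (1 / 3 : ℝ) * hys
  rw [Finset.sum_congr rfl (fun i _ => c2_W l (x i) (y i) (hx i) (hx1 i) (hy i) (hy1 i)),
    Finset.sum_add_distrib, ← Finset.mul_sum, hxy, c2_W3, cF_eq, vF_eq]
  have hI : ∀ a b : ℝ, ∀ i : Fin 3,
      IntervalIntegrable (fun t => c2g l t * ft t (x i) (y i)) volume a b := fun a b i =>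
    ((c2g_cont l).mul (ft_cont _ _)).intervalIntegrable _ _
  have hsum : ∑ i, ∫ t in (0:ℝ)..(1 / 2), c2g l t * ft t (x i) (y i) =
      ∫ t in (0:ℝ)..(1 / 2), c2g l t * ∑ i, ft t (x i) (y i) := by
    rw [← intervalIntegral.integral_finsetSum (fun i _ => hI 0 (1 / 2) i)]
    refine intervalIntegral.integral_congr (fun t _ => ?_)
    simp only [Finset.mul_sum]
  have hcF : Continuous (fun t => c2g l t * ∑ i, ft t (x i) (y i)) :=
    (c2g_cont l).mul (continuous_finsetSum _ (fun i _ => ft_cont (x i) (y i)))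
  rw [hsum, ← intervalIntegral.integral_add_adjacent_intervals
    (hcF.intervalIntegrable 0 (1 / 3)) (hcF.intervalIntegrable (1 / 3) (1 / 2))]
  have h2 : 0 ≤ ∫ t in (1 / 3 : ℝ)..(1 / 2), c2g l t * ∑ i, ft t (x i) (y i) := by
    apply intervalIntegral.integral_nonneg (by norm_num)
    intro t ht
    exact mul_nonneg (c2g_nonneg l t hl (by linarith [ht.1]) ht.2)
      (Finset.sum_nonneg fun i _ => ft_nonneg t (x i) (y i) (by linarith [ht.1]) ht.2 (hx i)
        (hx1 i) (hy i) (hy1 i))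
  have hc1 : Continuous (fun t => c2g l t * (3 * (1 / 3 - t) ^ 2)) :=
    (c2g_cont l).mul (by fun_prop)
  have hc2 : Continuous (fun t => c2g l t * ct t) :=
    (c2g_cont l).mul (by unfold ct; fun_prop)
  have hc3 : Continuous (fun t => c2g l t * vt t) :=
    (c2g_cont l).mul (by unfold vt; fun_prop)
  have h1 : (∫ t in (0:ℝ)..(1 / 3), c2g l t * (3 * (1 / 3 - t) ^ 2)) +
      S * (∫ t in (0:ℝ)..(1 / 3), c2g l t * ct t) + Q * (∫ t in (0:ℝ)..(1 / 3), c2g l t * vt t)
      ≤ ∫ t in (0:ℝ)..(1 / 3), c2g l t * ∑ i, ft t (x i) (y i) := by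
    have hc2' : Continuous (fun t => S * (c2g l t * ct t)) := continuous_const.mul hc2
    have hc3' : Continuous (fun t => Q * (c2g l t * vt t)) := continuous_const.mul hc3
    have hc12 : Continuous (fun t => c2g l t * (3 * (1 / 3 - t) ^ 2) + S * (c2g l t * ct t)) :=
      hc1.add hc2'
    have hc123 : Continuous (fun t => c2g l t * (3 * (1 / 3 - t) ^ 2) + S * (c2g l t * ct t) +
        Q * (c2g l t * vt t)) := hc12.add hc3'
    rw [← intervalIntegral.integral_const_mul, ← intervalIntegral.integral_const_mul,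
      ← intervalIntegral.integral_add (hc1.intervalIntegrable _ _) (hc2'.intervalIntegrable _ _),
      ← intervalIntegral.integral_add (hc12.intervalIntegrable _ _) (hc3'.intervalIntegrable _ _)]
    apply intervalIntegral.integral_mono_on (by norm_num) (hc123.intervalIntegrable _ _)
      (hcF.intervalIntegrable _ _)
    intro t ht
    have hg := c2g_nonneg l t hl ht.1 (by linarith [ht.2])
    have := mul_le_mul_of_nonneg_left (thr t ht.1 ht.2 x y hx hy hxs hys) hg
    rw [← hS, ← hQ] at this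
    calc c2g l t * (3 * (1 / 3 - t) ^ 2) + S * (c2g l t * ct t) + Q * (c2g l t * vt t)
        = c2g l t * (3 * (1 / 3 - t) ^ 2 + ct t * S + vt t * Q) := by ring
      _ ≤ _ := this
  have e1 : (∫ t in (0:ℝ)..(1 / 3), 2 * π * l * Real.sin (2 * π * t) *
      Real.exp (-(l * Real.cos (2 * π * t))) * ct t) = ∫ t in (0:ℝ)..(1 / 3), c2g l t * ct t := rfl
  have e2 : (∫ t in (0:ℝ)..(1 / 3), 2 * π * l * Real.sin (2 * π * t) *
      Real.exp (-(l * Real.cos (2 * π * t))) * vt t) = ∫ t in (0:ℝ)..(1 / 3), c2g l t * vt t := rfl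
  rw [e1, e2]
  linarith

theorem circle2 (l : ℝ) (hl : 0 ≤ l) (θ : ℝ) (hθ0 : 0 ≤ θ) (hθ1 : θ ≤ 1) (A B : Fin 3 → Set ℝ)
    (hA : ∀ i, MeasurableSet (A i)) (hB : ∀ i, MeasurableSet (B i))
    (hPA : ∀ i, Per (A i)) (hPB : ∀ i, Per (B i))
    (hsA : ∑ i, len (A i) = 2 * π) (hsB : ∑ i, len (B i) = 2 * π) :
    3 * W l (2 * π / 3) / (2 * π) ^ 2 +
      (cF l * ∑ i, (len (A i) / (2 * π) - 1 / 3) * (len (B i) / (2 * π) - 1 / 3) +
        vF l * (θ * ∑ i, (len (A i) / (2 * π) - 1 / 3) ^ 2 +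
          (1 - θ) * ∑ i, (len (B i) / (2 * π) - 1 / 3) ^ 2))
      ≤ ∑ i, (E2 l (A i) (B i)).toReal / (2 * π) ^ 2 := by
  have hpi := Real.pi_pos
  have h2 : (2 * π) ≠ 0 := by positivity
  set x : Fin 3 → ℝ := fun i => len (A i) / (2 * π) with hx
  set y : Fin 3 → ℝ := fun i => len (B i) / (2 * π) with hy
  have hx0 : ∀ i, 0 ≤ x i := fun i => div_nonneg (len_nonneg _) (by positivity)
  have hy0 : ∀ i, 0 ≤ y i := fun i => div_nonneg (len_nonneg _) (by positivity)
  have hxs : ∑ i, x i = 1 := by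
    simp only [hx]; rw [← Finset.sum_div, hsA, div_self h2]
  have hys : ∑ i, y i = 1 := by
    simp only [hy]; rw [← Finset.sum_div, hsB, div_self h2]
  have hup : ∑ i, (W l (2 * π * ((x i + y i) / 2)) - W l (2 * π * (|x i - y i| / 2))) / (2 * π) ^ 2
      ≤ ∑ i, (E2 l (A i) (B i)).toReal / (2 * π) ^ 2 := by
    refine Finset.sum_le_sum (fun i _ => ?_)
    apply div_le_div_of_nonneg_right _ (by positivity)
    have := c2_real l hl (A i) (B i) (hA i) (hB i) (hPA i) (hPB i)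
    have e1 : 2 * π * ((x i + y i) / 2) = (len (A i) + len (B i)) / 2 := by
      simp only [hx, hy]; field_simp
    have e2 : 2 * π * (|x i - y i| / 2) = |len (A i) - len (B i)| / 2 := by
      have : x i - y i = (len (A i) - len (B i)) / (2 * π) := by
        simp only [hx, hy]; ring
      rw [this, abs_div, abs_of_pos (show (0:ℝ) < 2 * π by positivity)]
      field_simp
    rw [e1, e2]; exact this
  have hA1 := c2_half l hl x y hx0 hy0 hxs hys
  have hB1 := c2_half l hl y x hy0 hx0 hys hxs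
  have hsymm : ∑ i, (W l (2 * π * ((y i + x i) / 2)) - W l (2 * π * (|y i - x i| / 2))) / (2 * π) ^ 2
      = ∑ i, (W l (2 * π * ((x i + y i) / 2)) - W l (2 * π * (|x i - y i| / 2))) / (2 * π) ^ 2 := by
    refine Finset.sum_congr rfl (fun i _ => ?_)
    rw [add_comm (y i) (x i), abs_sub_comm (y i) (x i)]
  have hsymm2 : ∑ i, (y i - 1 / 3) * (x i - 1 / 3) = ∑ i, (x i - 1 / 3) * (y i - 1 / 3) :=
    Finset.sum_congr rfl (fun i _ => mul_comm _ _)
  rw [hsymm, hsymm2] at hB1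
  have hA2 := mul_le_mul_of_nonneg_left (hA1.trans hup) hθ0
  have hB2 := mul_le_mul_of_nonneg_left (hB1.trans hup) (sub_nonneg.mpr hθ1)
  set S : ℝ := ∑ i, (x i - 1 / 3) * (y i - 1 / 3)
  set Q : ℝ := ∑ i, (x i - 1 / 3) ^ 2
  set R : ℝ := ∑ i, (y i - 1 / 3) ^ 2
  set T : ℝ := ∑ i, (E2 l (A i) (B i)).toReal / (2 * π) ^ 2
  set W3 : ℝ := 3 * W l (2 * π / 3) / (2 * π) ^ 2
  change W3 + (cF l * S + vF l * (θ * Q + (1 - θ) * R)) ≤ T
  have := add_le_add hA2 hB2
  have e3 : θ * (W3 + (cF l * S + vF l * Q)) + (1 - θ) * (W3 + (cF l * S + vF l * R))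
      = W3 + (cF l * S + vF l * (θ * Q + (1 - θ) * R)) := by ring
  have e4 : θ * T + (1 - θ) * T = T := by ring
  rw [e3, e4] at this
  exact this

end Pool.Agent.SSC3N
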