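import Pool.Agent.SSC3N.Noise

set_option autoImplicit false
open MeasureTheory ProbabilityTheory Set Real
open scoped ENNReal NNReal

namespace Pool.Agent.SSC3N
open Pool.Agent.SSC3

/-! ### the real-variable iteration -/

theorem cub_iter (φ : ℝ → ℝ) (K : ℝ) (h0 : ∀ s, 0 ≤ s → s ≤ 1 → 0 ≤ φ s)
    (h1 : ∀ s, 0 ≤ s → s ≤ 1 → φ s ^ 2 ≤ φ 1 * φ (s ^ 2))
    (h2 : ∀ s, 0 ≤ s → s ≤ 1 / 4 → φ s ≤ K * s ^ 3) (s : ℝ) (hs0 : 0 ≤ s) (hs1 : s ≤ 1) :
    φ s ≤ φ 1 * s ^ 3 := by
  rcases hs0.eq_or_lt with rfl | hs0'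
  · have := h2 0 le_rfl (by norm_num)
    simpa using this
  rcases hs1.eq_or_lt with rfl | hs1'
  · simp
  have hφ1 : 0 ≤ φ 1 := h0 1 zero_le_one le_rfl
  rcases hφ1.eq_or_lt with hz | hpos
  · have := h1 s hs0 hs1
    rw [← hz, zero_mul] at this
    have h3 : φ s = 0 := by
      have h4 := sq_nonneg (φ s)
      exact pow_eq_zero_iff (two_ne_zero) |>.1 (le_antisymm this h4)
    rw [h3, ← hz, zero_mul]
  by_contra hcon
  rw [not_le] at hcon
  set ψ : ℝ → ℝ := fun r => φ r / (φ 1 * r ^ 3) with hψ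
  have hψ1 : 1 < ψ s := by
    rw [hψ]
    simp only
    rw [one_lt_div (by positivity)]
    exact hcon
  have hψ0 : ∀ r, 0 < r → r ≤ 1 → 0 ≤ ψ r := fun r hr hr1 =>
    div_nonneg (h0 r hr.le hr1) (by positivity)
  have hψsq : ∀ r, 0 < r → r ≤ 1 → ψ r ^ 2 ≤ ψ (r ^ 2) := by
    intro r hr hr1
    simp only [hψ]
    rw [div_pow, div_le_div_iff₀ (by positivity) (by positivity)]
    have := h1 r hr.le hr1
    calc φ r ^ 2 * (φ 1 * (r ^ 2) ^ 3) ≤ (φ 1 * φ (r ^ 2)) * (φ 1 * (r ^ 2) ^ 3) :=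
          mul_le_mul_of_nonneg_right this (by positivity)
      _ = φ (r ^ 2) * (φ 1 * r ^ 3) ^ 2 := by ring
  have hiter : ∀ n : ℕ, ψ s ^ (2 ^ n) ≤ ψ (s ^ (2 ^ n)) := by
    intro n
    induction n with
    | zero => simp
    | succ n ih =>
      have hr0 : 0 < s ^ (2 ^ n) := by positivity
      have hr1 : s ^ (2 ^ n) ≤ 1 := pow_le_one₀ hs0 hs1
      calc ψ s ^ (2 ^ (n + 1)) = (ψ s ^ (2 ^ n)) ^ 2 := by rw [← pow_mul]; ring_nf
        _ ≤ (ψ (s ^ (2 ^ n))) ^ 2 := pow_le_pow_left₀ (by positivity) ih 2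
        _ ≤ ψ ((s ^ (2 ^ n)) ^ 2) := hψsq _ hr0 hr1
        _ = ψ (s ^ (2 ^ (n + 1))) := by rw [← pow_mul]; ring_nf
  have hbd : ∀ᶠ n : ℕ in Filter.atTop, ψ s ^ (2 ^ n) ≤ K / φ 1 := by
    have ht : Filter.Tendsto (fun n : ℕ => s ^ (2 ^ n)) Filter.atTop (nhds 0) :=
      (tendsto_pow_atTop_nhds_zero_of_lt_one hs0 hs1').comp
        (tendsto_pow_atTop_atTop_of_one_lt (by norm_num))
    have := ht.eventually (gt_mem_nhds (show (0:ℝ) < 1 / 4 by norm_num))
    filter_upwards [this] with n hn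
    refine (hiter n).trans ?_
    have hr0 : 0 < s ^ (2 ^ n) := by positivity
    simp only [hψ]
    rw [div_le_div_iff₀ (by positivity) hpos]
    have := h2 _ hr0.le hn.le
    calc φ (s ^ 2 ^ n) * φ 1 ≤ (K * (s ^ 2 ^ n) ^ 3) * φ 1 :=
          mul_le_mul_of_nonneg_right this hpos.le
      _ = K * (φ 1 * (s ^ 2 ^ n) ^ 3) := by ring
  have htop : Filter.Tendsto (fun n : ℕ => ψ s ^ (2 ^ n)) Filter.atTop Filter.atTop :=
    (tendsto_pow_atTop_atTop_of_one_lt hψ1).comp
      (tendsto_pow_atTop_atTop_of_one_lt (by norm_num))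
  obtain ⟨n, hn1, hn2⟩ := (hbd.and (htop.eventually (Filter.eventually_gt_atTop (K / φ 1)))).exists
  linarith

/-! ### the Mehler kernel -/

/-- one-dimensional Mehler kernel -/
noncomputable def cubk (s a w : ℝ) : ℝ :=
  (Real.sqrt (1 - s ^ 2))⁻¹ *
    Real.exp (-(s ^ 2 / (2 * (1 - s ^ 2)) * (a ^ 2 + w ^ 2)) + s / (1 - s ^ 2) * (a * w))

theorem cubk_nonneg (s a w : ℝ) : 0 ≤ cubk s a w := by
  unfold cubk
  positivity

theorem cubk_measurable (s a : ℝ) : Measurable (cubk s a) := by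
  unfold cubk
  fun_prop

theorem cub_map1 (s a : ℝ) (h0 : 0 ≤ s) (h1 : s < 1) :
    (gaussianReal 0 1).map (fun z => s * a + Real.sqrt (1 - s ^ 2) * z) =
      (gaussianReal 0 1).withDensity (fun w => ENNReal.ofReal (cubk s a w)) := by
  have hv : 0 < 1 - s ^ 2 := by nlinarith
  set v : ℝ≥0 := ⟨1 - s ^ 2, hv.le⟩ with hvdef
  have hvr : (v : ℝ) = 1 - s ^ 2 := rfl
  have hv0 : v ≠ 0 := by
    intro h
    rw [h, NNReal.coe_zero] at hvr
    linarith
  have e1 : (gaussianReal 0 1).map (fun z => s * a + Real.sqrt (1 - s ^ 2) * z) =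
      gaussianReal (s * a) v := by
    have : (fun z : ℝ => s * a + Real.sqrt (1 - s ^ 2) * z) =
        (fun x => s * a + x) ∘ (fun z => Real.sqrt (1 - s ^ 2) * z) := rfl
    rw [this, ← Measure.map_map (by fun_prop) (by fun_prop), gaussianReal_map_const_mul,
      gaussianReal_map_const_add]
    congr 1
    · simp
    · apply NNReal.coe_injective
      rw [hvr]
      simp [Real.sq_sqrt hv.le]
  rw [e1, gaussianReal_of_var_ne_zero _ hv0, gaussianReal_of_var_ne_zero _ one_ne_zero,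
    ← withDensity_mul _ (measurable_gaussianPDF _ _) (cubk_measurable s a).ennreal_ofReal]
  congr 1
  ext w
  simp only [Pi.mul_apply, gaussianPDF]
  rw [← ENNReal.ofReal_mul (gaussianPDFReal_nonneg _ _ _)]
  congr 1
  unfold gaussianPDFReal cubk
  rw [hvr]
  have e2 : Real.sqrt (2 * π * (1 - s ^ 2)) = Real.sqrt (2 * π * ((1 : ℝ≥0) : ℝ)) *
      Real.sqrt (1 - s ^ 2) := by
    rw [← Real.sqrt_mul (by positivity)]
    simp
  rw [e2, mul_inv]
  have e3 : Real.exp (-(w - s * a) ^ 2 / (2 * (1 - s ^ 2))) =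
      Real.exp (-(w - 0) ^ 2 / (2 * ((1 : ℝ≥0) : ℝ))) *
      Real.exp (-(s ^ 2 / (2 * (1 - s ^ 2)) * (a ^ 2 + w ^ 2)) + s / (1 - s ^ 2) * (a * w)) := by
    rw [← Real.exp_add]
    congr 1
    have hne : (1 - s ^ 2) ≠ 0 := hv.ne'
    simp only [NNReal.coe_one]
    field_simp
    ring
  rw [e3]
  ring

theorem cubk_integrable (s a : ℝ) (h0 : 0 ≤ s) (h1 : s < 1) :
    Integrable (cubk s a) (gaussianReal 0 1) := by
  have h := cub_map1 s a h0 h1
  have hp : IsProbabilityMeasure ((gaussianReal 0 1).map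
      (fun z => s * a + Real.sqrt (1 - s ^ 2) * z)) :=
    Measure.isProbabilityMeasure_map (by fun_prop)
  rw [h] at hp
  refine ⟨(cubk_measurable s a).aestronglyMeasurable, ?_⟩
  rw [hasFiniteIntegral_iff_ofReal (Filter.Eventually.of_forall (cubk_nonneg s a))]
  have := hp.measure_univ
  rw [withDensity_apply _ MeasurableSet.univ, Measure.restrict_univ] at this
  rw [this]
  exact ENNReal.one_lt_top

theorem cub_mapm {m : ℕ} (s : ℝ) (y : Fin m → ℝ) (h0 : 0 ≤ s) (h1 : s < 1) :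
    (gam m).map (fun z => s • y + Real.sqrt (1 - s ^ 2) • z) =
      (gam m).withDensity (fun w => ENNReal.ofReal (∏ j, cubk s (y j) (w j))) := by
  have e1 : (gam m).map (fun z => s • y + Real.sqrt (1 - s ^ 2) • z) =
      Measure.pi (fun j => (gaussianReal 0 1).map
        (fun z => s * y j + Real.sqrt (1 - s ^ 2) * z)) := by
    have := Measure.pi_map_pi (μ := fun _ : Fin m => gaussianReal 0 1)
      (f := fun j z => s * y j + Real.sqrt (1 - s ^ 2) * z)
      (hμ := fun j => by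
        have : IsProbabilityMeasure ((gaussianReal 0 1).map
          (fun z => s * y j + Real.sqrt (1 - s ^ 2) * z)) :=
            Measure.isProbabilityMeasure_map (by fun_prop)
        infer_instance)
      (fun j => by fun_prop)
    rw [← this]
    unfold gam
    congr 1
  rw [e1]
  have hint : ∀ j, Integrable (cubk s (y j)) (gaussianReal 0 1) := fun j =>
    cubk_integrable s (y j) h0 h1
  have hprob : ∀ j, IsProbabilityMeasure ((gaussianReal 0 1).map
      (fun z => s * y j + Real.sqrt (1 - s ^ 2) * z)) := fun j =>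
    Measure.isProbabilityMeasure_map (by fun_prop)
  apply Measure.pi_eq
  intro S hS
  have e2 : ∀ j, (gaussianReal 0 1).map (fun z => s * y j + Real.sqrt (1 - s ^ 2) * z) (S j) =
      ENNReal.ofReal (∫ w, (S j).indicator (cubk s (y j)) w ∂(gaussianReal 0 1)) := by
    intro j
    rw [cub_map1 s (y j) h0 h1, withDensity_apply _ (hS j), integral_indicator (hS j),
      ofReal_integral_eq_lintegral_ofReal (hint j).integrableOn
        (Filter.Eventually.of_forall (cubk_nonneg s (y j)))]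
  have hnn : ∀ j w, 0 ≤ (S j).indicator (cubk s (y j)) w := fun j w =>
    Set.indicator_nonneg (fun w _ => cubk_nonneg s (y j) w) w
  rw [Finset.prod_congr rfl (fun j _ => e2 j), ← ENNReal.ofReal_prod_of_nonneg
    (fun j _ => integral_nonneg (hnn j)),
    ← integral_fintype_prod_eq_prod (μ := fun _ : Fin m => gaussianReal 0 1)
      (f := fun j w => (S j).indicator (cubk s (y j)) w)]
  rw [withDensity_apply _ (MeasurableSet.univ_pi hS), ← lintegral_indicator
    (MeasurableSet.univ_pi hS), ofReal_integral_eq_lintegral_ofReal]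
  · unfold gam
    congr 1
    ext w
    by_cases hw : w ∈ Set.univ.pi S
    · rw [Set.indicator_of_mem hw]
      congr 1
      apply Finset.prod_congr rfl
      intro j _
      rw [Set.indicator_of_mem (hw j (Set.mem_univ j))]
    · rw [Set.indicator_of_notMem hw]
      have : ∃ j, w j ∉ S j := by
        by_contra hcon
        push Not at hcon
        exact hw (fun j _ => hcon j)
      obtain ⟨j, hj⟩ := this
      rw [Finset.prod_eq_zero (Finset.mem_univ j) (Set.indicator_of_notMem hj _)]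
      simp
  · exact Integrable.fintype_prod (fun j => (hint j).indicator (hS j))
  · exact Filter.Eventually.of_forall (fun w => Finset.prod_nonneg (fun j _ => hnn j _))

/-- `|y|²` -/
noncomputable def cubq {m : ℕ} (y : Fin m → ℝ) : ℝ := ∑ j, y j ^ 2

/-- `y·w` -/
noncomputable def cubi {m : ℕ} (y w : Fin m → ℝ) : ℝ := ∑ j, y j * w j

theorem cubk_prod {m : ℕ} (s : ℝ) (y w : Fin m → ℝ) :
    ∏ j, cubk s (y j) (w j) = ((Real.sqrt (1 - s ^ 2))⁻¹) ^ m *
      (Real.exp (-(s ^ 2 / (2 * (1 - s ^ 2)) * cubq y)) *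
       (Real.exp (-(s ^ 2 / (2 * (1 - s ^ 2)) * cubq w)) *
        Real.exp (s / (1 - s ^ 2) * cubi y w))) := by
  unfold cubk cubq cubi
  rw [Finset.prod_mul_distrib, Finset.prod_const, Finset.card_univ, Fintype.card_fin,
    ← Real.exp_sum, ← Real.exp_add, ← Real.exp_add, Finset.mul_sum, Finset.mul_sum,
    Finset.mul_sum, ← Finset.sum_neg_distrib, ← Finset.sum_neg_distrib, ← Finset.sum_add_distrib,
    ← Finset.sum_add_distrib]
  congr 2
  apply Finset.sum_congr rfl
  intro j _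
  ring

theorem cub_TT_eq {m : ℕ} (s : ℝ) (y : Fin m → ℝ) (h0 : 0 ≤ s) (h1 : s < 1)
    (g : (Fin m → ℝ) → ℝ) (hg : Measurable g) :
    TT s g y = ((Real.sqrt (1 - s ^ 2))⁻¹) ^ m *
      (Real.exp (-(s ^ 2 / (2 * (1 - s ^ 2)) * cubq y)) *
      ∫ w, Real.exp (-(s ^ 2 / (2 * (1 - s ^ 2)) * cubq w)) *
        Real.exp (s / (1 - s ^ 2) * cubi y w) * g w ∂(gam m)) := by
  unfold TT
  have hmeas : Measurable (fun z : Fin m → ℝ => s • y + Real.sqrt (1 - s ^ 2) • z) := by
    fun_prop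
  have e1 : ∫ z, g (s • y + Real.sqrt (1 - s ^ 2) • z) ∂(gam m) =
      ∫ w, g w ∂((gam m).map (fun z => s • y + Real.sqrt (1 - s ^ 2) • z)) := by
    rw [integral_map hmeas.aemeasurable hg.aestronglyMeasurable]
  rw [e1, cub_mapm s y h0 h1, integral_withDensity_eq_integral_toReal_smul]
  · rw [← integral_const_mul, ← integral_const_mul]
    congr 1
    ext w
    rw [ENNReal.toReal_ofReal (Finset.prod_nonneg (fun j _ => cubk_nonneg _ _ _)), smul_eq_mul,
      cubk_prod]
    ring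
  · apply Measurable.ennreal_ofReal
    apply Finset.measurable_prod
    intro j _
    exact (cubk_measurable s (y j)).comp (measurable_pi_apply j)
  · exact Filter.Eventually.of_forall (fun w => ENNReal.ofReal_lt_top)


/-! ### integrability and growth -/

theorem cubq_nonneg {m : ℕ} (y : Fin m → ℝ) : 0 ≤ cubq y :=
  Finset.sum_nonneg fun j _ => sq_nonneg (y j)

theorem cubq_neg {m : ℕ} (y : Fin m → ℝ) : cubq (-y) = cubq y := by
  unfold cubq
  apply Finset.sum_congr rfl
  intro j _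
  simp

theorem cubi_neg {m : ℕ} (y w : Fin m → ℝ) : cubi y (-w) = -cubi y w := by
  unfold cubi
  rw [← Finset.sum_neg_distrib]
  apply Finset.sum_congr rfl
  intro j _
  simp

theorem cubq_measurable {m : ℕ} : Measurable (cubq (m := m)) := by
  unfold cubq
  fun_prop

theorem cubi_measurable {m : ℕ} (y : Fin m → ℝ) : Measurable (cubi y) := by
  unfold cubi
  fun_prop

theorem cubi_le {m : ℕ} (y w : Fin m → ℝ) : |cubi y w| ≤ (cubq y + cubq w) / 2 := by
  unfold cubi cubq
  refine (Finset.abs_sum_le_sum_abs _ _).trans ?_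
  rw [← Finset.sum_add_distrib, Finset.sum_div]
  apply Finset.sum_le_sum
  intro j _
  rw [abs_mul]
  nlinarith [sq_nonneg (|y j| - |w j|), sq_abs (y j), sq_abs (w j)]

theorem cub_exp1 : Integrable (fun x : ℝ => Real.exp (x ^ 2 / 4)) (gaussianReal 0 1) := by
  rw [gaussianReal_of_var_ne_zero 0 one_ne_zero, integrable_withDensity_iff
    (measurable_gaussianPDF 0 1) (Filter.Eventually.of_forall fun x => gaussianPDF_lt_top)]
  have h := (integrable_exp_neg_mul_sq (b := 1 / 4) (by norm_num)).const_mul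
    ((Real.sqrt (2 * π * ((1 : ℝ≥0) : ℝ)))⁻¹)
  refine h.congr (Filter.Eventually.of_forall fun x => ?_)
  simp only [toReal_gaussianPDF, gaussianPDFReal]
  have e : Real.exp (-(1 / 4) * x ^ 2) =
      Real.exp (-(x - 0) ^ 2 / (2 * ((1 : ℝ≥0) : ℝ))) * Real.exp (x ^ 2 / 4) := by
    rw [← Real.exp_add]
    congr 1
    simp only [NNReal.coe_one]
    ring
  rw [e]
  ring

theorem cub_exp {m : ℕ} : Integrable (fun y : Fin m → ℝ => Real.exp (cubq y / 4)) (gam m) := by
  have h := Integrable.fintype_prod (ι := Fin m) (μ := fun _ => gaussianReal 0 1)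
    (f := fun _ x => Real.exp (x ^ 2 / 4)) (fun _ => cub_exp1)
  unfold gam
  refine h.congr (Filter.Eventually.of_forall fun y => ?_)
  simp only
  rw [← Real.exp_sum]
  congr 1
  unfold cubq
  rw [Finset.sum_div]

theorem cub_integrable {m : ℕ} (f : (Fin m → ℝ) → ℝ) (hf : Measurable f) (K : ℝ)
    (hb : ∀ y, |f y| ≤ K * Real.exp (cubq y / 4)) : Integrable f (gam m) :=
  (cub_exp.const_mul K).mono' hf.aestronglyMeasurable (Filter.Eventually.of_forall hb)

theorem cub_neg_mp (m : ℕ) : MeasurePreserving (fun y : Fin m → ℝ => -y) (gam m) (gam m) := by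
  refine ⟨by fun_prop, ?_⟩
  have h := Measure.pi_map_pi (μ := fun _ : Fin m => gaussianReal 0 1)
      (f := fun _ z => -z)
      (hμ := fun j => by
        have : IsProbabilityMeasure ((gaussianReal 0 1).map (fun z : ℝ => -z)) :=
            Measure.isProbabilityMeasure_map (by fun_prop)
        infer_instance)
      (fun j => by fun_prop)
  have e : (gaussianReal 0 1).map (fun z : ℝ => -z) = gaussianReal 0 1 := by
    rw [gaussianReal_map_neg, neg_zero]
  simp only [e] at h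
  exact h

theorem cub_odd {m : ℕ} (f : (Fin m → ℝ) → ℝ) (hf : ∀ y, f (-y) = -f y) :
    ∫ y, f y ∂(gam m) = 0 := by
  have h := (cub_neg_mp m).integral_comp' (f := MeasurableEquiv.neg (Fin m → ℝ)) f
  have h2 : ∫ y, f (-y) ∂(gam m) = ∫ y, f y ∂(gam m) := h
  simp only [hf] at h2
  rw [integral_neg] at h2
  linarith

theorem cub_growth {m : ℕ} (C : ℝ) (g : (Fin m → ℝ) → ℝ)
    (hgb : ∀ y, |g y| ≤ C * (1 + ∑ j, |y j|)) (y : Fin m → ℝ) :
    |g y| ≤ C * (m + 21) * Real.exp (cubq y / 20) := by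
  have hC : 0 ≤ C := by
    have := (abs_nonneg _).trans (hgb 0)
    simpa using this
  refine (hgb y).trans ?_
  rw [mul_assoc]
  apply mul_le_mul_of_nonneg_left _ hC
  have h1 : ∑ j, |y j| ≤ m + cubq y := by
    unfold cubq
    have : (m : ℝ) = ∑ _j : Fin m, (1 : ℝ) := by simp
    rw [this, ← Finset.sum_add_distrib]
    apply Finset.sum_le_sum
    intro j _
    nlinarith [sq_nonneg (|y j| - 1), sq_abs (y j), abs_nonneg (y j)]
  have h2 := Real.add_one_le_exp (cubq y / 20)
  have h3 := cubq_nonneg y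
  have h4 : 1 ≤ Real.exp (cubq y / 20) := Real.one_le_exp (by positivity)
  have hm : (0:ℝ) ≤ m := Nat.cast_nonneg m
  nlinarith [mul_nonneg hm (sub_nonneg.2 h4)]

theorem cub_poly (P : ℝ) (hP : 0 ≤ P) :
    P ≤ 15 * Real.exp (P / 15) ∧ P ^ 2 ≤ 450 * Real.exp (P / 15) ∧
      P ^ 3 ≤ 20250 * Real.exp (P / 15) := by
  have h1 := Real.pow_div_factorial_le_exp (P / 15) (by positivity) 1
  have h2 := Real.pow_div_factorial_le_exp (P / 15) (by positivity) 2
  have h3 := Real.pow_div_factorial_le_exp (P / 15) (by positivity) 3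
  norm_num [Nat.factorial] at h1 h2 h3
  refine ⟨by linarith, ?_, ?_⟩
  · have : P ^ 2 = 225 * (P / 15) ^ 2 := by ring
    rw [this]
    linarith
  · have : P ^ 3 = 3375 * (P / 15) ^ 3 := by ring
    rw [this]
    linarith

theorem cub_exp3 (x : ℝ) : |Real.exp x - 1 - x - x ^ 2 / 2| ≤ |x| ^ 3 * Real.exp |x| := by
  have h := Complex.norm_exp_sub_sum_le_norm_mul_exp (x : ℂ) 3
  rw [Complex.norm_real, Real.norm_eq_abs] at h
  have e : Complex.exp (x : ℂ) - ∑ m ∈ Finset.range 3, (x : ℂ) ^ m / (m.factorial : ℂ) =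
      ((Real.exp x - 1 - x - x ^ 2 / 2 : ℝ) : ℂ) := by
    rw [Finset.sum_range_succ, Finset.sum_range_succ, Finset.sum_range_one]
    push_cast
    simp [Nat.factorial]
    ring
  rw [e, Complex.norm_real, Real.norm_eq_abs] at h
  exact h

/-- pointwise bound for `T_s g`. -/
theorem cub_TT_bound {m : ℕ} (K : ℝ) (g : (Fin m → ℝ) → ℝ) (hg : Measurable g)
    (hgb : ∀ y, |g y| ≤ K * Real.exp (cubq y / 20)) (hgo : ∀ y, g (-y) = -g y)
    (hgl : ∀ j, ∫ y, y j * g y ∂(gam m) = 0) (s : ℝ) (h0 : 0 ≤ s) (h1 : s ≤ 1 / 4)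
    (y : Fin m → ℝ) :
    |TT s g y| ≤ 2 ^ m * (20700 * K * (∫ w, Real.exp (cubq w / 4) ∂(gam m))) * s ^ 3 *
      Real.exp (cubq y / 5) := by
  have hs2 : 15 / 16 ≤ 1 - s ^ 2 := by nlinarith
  have hs2p : 0 < 1 - s ^ 2 := by linarith
  have hK : 0 ≤ K := by
    have := (abs_nonneg _).trans (hgb 0)
    by_contra hcon
    rw [not_le] at hcon
    have h2 := Real.exp_pos (cubq (0 : Fin m → ℝ) / 20)
    nlinarith
  rw [cub_TT_eq s y h0 (by linarith) g hg]
  set α : ℝ := s / (1 - s ^ 2) with hα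
  set β : ℝ := s ^ 2 / (2 * (1 - s ^ 2)) with hβ
  have hα0 : 0 ≤ α := by positivity
  have hβ0 : 0 ≤ β := by positivity
  have hα1 : α ≤ 16 / 15 * s := by
    rw [hα, div_le_iff₀ hs2p]
    nlinarith
  have hβ1 : β ≤ 8 / 15 * s ^ 2 := by
    rw [hβ, div_le_iff₀ (by positivity)]
    nlinarith [sq_nonneg s]
  set J : ℝ := ∫ w, Real.exp (cubq w / 4) ∂(gam m) with hJ
  have hJ0 : 0 ≤ J := integral_nonneg fun w => (Real.exp_pos _).le
  -- the prefactor
  have hN : ((Real.sqrt (1 - s ^ 2))⁻¹) ^ m ≤ 2 ^ m := by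
    apply pow_le_pow_left₀ (by positivity)
    have : (1:ℝ) / 2 ≤ Real.sqrt (1 - s ^ 2) := by
      apply Real.le_sqrt_of_sq_le
      linarith
    calc (Real.sqrt (1 - s ^ 2))⁻¹ ≤ ((1:ℝ) / 2)⁻¹ := inv_anti₀ (by norm_num) this
      _ = 2 := by norm_num
  have hN0 : 0 ≤ ((Real.sqrt (1 - s ^ 2))⁻¹) ^ m := by positivity
  have hE : Real.exp (-(β * cubq y)) ≤ 1 := by
    rw [Real.exp_le_one_iff]
    have := mul_nonneg hβ0 (cubq_nonneg y)
    linarith
  -- the three parts
  set x : (Fin m → ℝ) → ℝ := fun w => α * cubi y w with hx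
  set P : (Fin m → ℝ) → ℝ := fun w => cubq y + cubq w with hP
  have hP0 : ∀ w, 0 ≤ P w := fun w => add_nonneg (cubq_nonneg y) (cubq_nonneg w)
  have hxP : ∀ w, |x w| ≤ 8 / 15 * s * P w := by
    intro w
    simp only [hx]
    rw [abs_mul, abs_of_nonneg hα0]
    calc α * |cubi y w| ≤ (16 / 15 * s) * ((cubq y + cubq w) / 2) :=
          mul_le_mul hα1 (cubi_le y w) (abs_nonneg _) (by positivity)
      _ = 8 / 15 * s * P w := by simp only [hP]; ring
  have hxP' : ∀ w, |x w| ≤ 2 / 15 * P w := by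
    intro w
    refine (hxP w).trans ?_
    apply mul_le_mul_of_nonneg_right _ (hP0 w)
    linarith
  set R : (Fin m → ℝ) → ℝ := fun w => Real.exp (-(β * cubq w)) *
    (Real.exp (x w) - 1 - x w - x w ^ 2 / 2) + (Real.exp (-(β * cubq w)) - 1) * x w with hR
  have hmx : Measurable x := by
    simp only [hx]
    exact (cubi_measurable y).const_mul α
  have hme : Measurable (fun w : Fin m → ℝ => Real.exp (-(β * cubq w))) :=
    ((cubq_measurable.const_mul β).neg).exp
  have hmR : Measurable R := by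
    simp only [hR]
    fun_prop
  have hexpP : ∀ w, Real.exp (P w / 15) = Real.exp (cubq y / 15) * Real.exp (cubq w / 15) := by
    intro w
    rw [← Real.exp_add]
    congr 1
    simp only [hP]
    ring
  have hEw : ∀ w : Fin m → ℝ, |Real.exp (-(β * cubq w))| ≤ 1 := by
    intro w
    rw [abs_of_pos (Real.exp_pos _), Real.exp_le_one_iff]
    have := mul_nonneg hβ0 (cubq_nonneg w)
    linarith
  have hEw' : ∀ w : Fin m → ℝ, |Real.exp (-(β * cubq w)) - 1| ≤ β * cubq w := by
    intro w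
    have h2 := Real.add_one_le_exp (-(β * cubq w))
    have h3 := hEw w
    rw [abs_of_pos (Real.exp_pos _)] at h3
    rw [abs_sub_comm, abs_of_nonneg (by linarith)]
    linarith
  have hRb : ∀ w, |R w| ≤ 20700 * s ^ 3 * (Real.exp (cubq y / 5) * Real.exp (cubq w / 5)) := by
    intro w
    obtain ⟨-, hp2, hp3⟩ := cub_poly (P w) (hP0 w)
    have e1 : |R w| ≤ |x w| ^ 3 * Real.exp |x w| + β * cubq w * |x w| := by
      simp only [hR]
      refine (abs_add_le _ _).trans ?_
      rw [abs_mul, abs_mul]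
      apply add_le_add
      · calc |Real.exp (-(β * cubq w))| * |Real.exp (x w) - 1 - x w - x w ^ 2 / 2|
            ≤ 1 * (|x w| ^ 3 * Real.exp |x w|) :=
              mul_le_mul (hEw w) (cub_exp3 _) (abs_nonneg _) zero_le_one
          _ = _ := one_mul _
      · exact mul_le_mul_of_nonneg_right (hEw' w) (abs_nonneg _)
    have e2 : |x w| ^ 3 ≤ s ^ 3 * P w ^ 3 := by
      calc |x w| ^ 3 ≤ (8 / 15 * s * P w) ^ 3 := pow_le_pow_left₀ (abs_nonneg _) (hxP w) 3
        _ = (8 / 15) ^ 3 * (s ^ 3 * P w ^ 3) := by ring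
        _ ≤ 1 * (s ^ 3 * P w ^ 3) := by
          apply mul_le_mul_of_nonneg_right (by norm_num)
          have := hP0 w
          positivity
        _ = _ := one_mul _
    have e3 : Real.exp |x w| ≤ Real.exp (2 / 15 * P w) := Real.exp_le_exp.2 (hxP' w)
    have e4 : β * cubq w * |x w| ≤ s ^ 3 * P w ^ 2 := by
      have hq : cubq w ≤ P w := by
        simp only [hP]
        linarith [cubq_nonneg y]
      calc β * cubq w * |x w| ≤ (8 / 15 * s ^ 2 * P w) * (8 / 15 * s * P w) := by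
            apply mul_le_mul _ (hxP w) (abs_nonneg _)
            · have := hP0 w
              positivity
            · exact mul_le_mul hβ1 hq (cubq_nonneg w) (by positivity)
        _ = (8 / 15) ^ 2 * (s ^ 3 * P w ^ 2) := by ring
        _ ≤ 1 * (s ^ 3 * P w ^ 2) := by
          apply mul_le_mul_of_nonneg_right (by norm_num)
          have := hP0 w
          positivity
        _ = _ := one_mul _
    have e5 : 1 ≤ Real.exp (2 / 15 * P w) := Real.one_le_exp (by have := hP0 w; positivity)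
    have e6 : |R w| ≤ s ^ 3 * (P w ^ 3 + P w ^ 2) * Real.exp (2 / 15 * P w) := by
      have h3 : |x w| ^ 3 * Real.exp |x w| ≤ s ^ 3 * P w ^ 3 * Real.exp (2 / 15 * P w) :=
        mul_le_mul e2 e3 (Real.exp_pos _).le (by have := hP0 w; positivity)
      have h4 : s ^ 3 * P w ^ 2 ≤ s ^ 3 * P w ^ 2 * Real.exp (2 / 15 * P w) :=
        le_mul_of_one_le_right (by positivity) e5
      calc |R w| ≤ _ := e1
        _ ≤ s ^ 3 * P w ^ 3 * Real.exp (2 / 15 * P w) +
            s ^ 3 * P w ^ 2 * Real.exp (2 / 15 * P w) := add_le_add h3 (e4.trans h4)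
        _ = _ := by ring
    have e7 : s ^ 3 * (P w ^ 3 + P w ^ 2) * Real.exp (2 / 15 * P w) ≤
        s ^ 3 * (20700 * Real.exp (P w / 15)) * Real.exp (2 / 15 * P w) := by
      apply mul_le_mul_of_nonneg_right _ (Real.exp_pos _).le
      apply mul_le_mul_of_nonneg_left _ (by positivity)
      linarith
    have e8 : Real.exp (P w / 15) * Real.exp (2 / 15 * P w) =
        Real.exp (cubq y / 5) * Real.exp (cubq w / 5) := by
      rw [← Real.exp_add, ← Real.exp_add]
      congr 1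
      simp only [hP]
      ring
    calc |R w| ≤ _ := e6.trans e7
      _ = 20700 * s ^ 3 * (Real.exp (P w / 15) * Real.exp (2 / 15 * P w)) := by ring
      _ = _ := by rw [e8]
  -- integrability
  have hexpq : ∀ (w : Fin m → ℝ) (a b : ℝ), a + b ≤ 1 / 4 →
      Real.exp (a * cubq w) * Real.exp (b * cubq w) ≤ Real.exp (cubq w / 4) := by
    intro w a b hab
    rw [← Real.exp_add]
    apply Real.exp_le_exp.2
    have := mul_le_mul_of_nonneg_right hab (cubq_nonneg w)
    linarith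
  have hRg : ∀ w, |R w * g w| ≤ 20700 * K * s ^ 3 * Real.exp (cubq y / 5) *
      Real.exp (cubq w / 4) := by
    intro w
    rw [abs_mul]
    calc |R w| * |g w| ≤ (20700 * s ^ 3 * (Real.exp (cubq y / 5) * Real.exp (cubq w / 5))) *
          (K * Real.exp (cubq w / 20)) :=
            mul_le_mul (hRb w) (hgb w) (abs_nonneg _) (by positivity)
      _ = 20700 * K * s ^ 3 * Real.exp (cubq y / 5) *
          (Real.exp (cubq w / 5) * Real.exp (cubq w / 20)) := by ring
      _ = _ := by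
          rw [← Real.exp_add]
          congr 2
          ring
  have hI3 : Integrable (fun w => R w * g w) (gam m) :=
    cub_integrable _ (hmR.mul hg) _ hRg
  have hI1 : Integrable (fun w => (Real.exp (-(β * cubq w)) * (1 + x w ^ 2 / 2)) * g w)
      (gam m) := by
    refine cub_integrable _ (by fun_prop) (451 * K * Real.exp (cubq y / 15)) (fun w => ?_)
    rw [abs_mul, abs_mul]
    have e1 : |1 + x w ^ 2 / 2| ≤ 451 * (Real.exp (cubq y / 15) * Real.exp (cubq w / 15)) := by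
      rw [abs_of_nonneg (by positivity), ← hexpP]
      obtain ⟨-, hp2, -⟩ := cub_poly (P w) (hP0 w)
      have h3 : x w ^ 2 ≤ P w ^ 2 := by
        rw [← sq_abs (x w)]
        apply pow_le_pow_left₀ (abs_nonneg _)
        have := hxP' w
        have := hP0 w
        linarith
      have h4 : 1 ≤ Real.exp (P w / 15) := Real.one_le_exp (by have := hP0 w; positivity)
      have h5 : 0 ≤ P w ^ 2 := sq_nonneg _
      linarith
    calc |Real.exp (-(β * cubq w))| * |1 + x w ^ 2 / 2| * |g w|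
        ≤ 1 * (451 * (Real.exp (cubq y / 15) * Real.exp (cubq w / 15))) *
          (K * Real.exp (cubq w / 20)) := by
          apply mul_le_mul _ (hgb w) (abs_nonneg _) (by positivity)
          exact mul_le_mul (hEw w) e1 (abs_nonneg _) zero_le_one
      _ = 451 * K * Real.exp (cubq y / 15) *
          (Real.exp (1 / 15 * cubq w) * Real.exp (1 / 20 * cubq w)) := by ring_nf
      _ ≤ 451 * K * Real.exp (cubq y / 15) * Real.exp (cubq w / 4) := by
          apply mul_le_mul_of_nonneg_left _ (by positivity)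
          exact hexpq w _ _ (by norm_num)
  have hIj : ∀ j, Integrable (fun w : Fin m → ℝ => w j * g w) (gam m) := by
    intro j
    refine cub_integrable _ (by fun_prop) (21 * K) (fun w => ?_)
    rw [abs_mul]
    have e1 : |w j| ≤ 21 * Real.exp (cubq w / 20) := by
      have h2 : w j ^ 2 ≤ cubq w := by
        unfold cubq
        exact Finset.single_le_sum (f := fun i => w i ^ 2) (fun i _ => sq_nonneg _)
          (Finset.mem_univ j)
      have h3 := Real.add_one_le_exp (cubq w / 20)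
      have h4 := cubq_nonneg w
      nlinarith [sq_nonneg (|w j| - 1), sq_abs (w j), abs_nonneg (w j)]
    calc |w j| * |g w| ≤ (21 * Real.exp (cubq w / 20)) * (K * Real.exp (cubq w / 20)) :=
          mul_le_mul e1 (hgb w) (abs_nonneg _) (by positivity)
      _ = 21 * K * (Real.exp (1 / 20 * cubq w) * Real.exp (1 / 20 * cubq w)) := by ring_nf
      _ ≤ 21 * K * Real.exp (cubq w / 4) := by
          apply mul_le_mul_of_nonneg_left _ (by positivity)
          exact hexpq w _ _ (by norm_num)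
  have hxg : ∀ w, x w * g w = ∑ j, α * y j * (w j * g w) := by
    intro w
    simp only [hx, cubi]
    rw [Finset.mul_sum, Finset.sum_mul]
    apply Finset.sum_congr rfl
    intro j _
    ring
  have hI2 : Integrable (fun w => x w * g w) (gam m) := by
    have : (fun w => x w * g w) = fun w => ∑ j, α * y j * (w j * g w) := funext hxg
    rw [this]
    exact integrable_finsetSum _ (fun j _ => (hIj j).const_mul _)
  have hz1 : ∫ w, (Real.exp (-(β * cubq w)) * (1 + x w ^ 2 / 2)) * g w ∂(gam m) = 0 := by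
    apply cub_odd
    intro w
    have : x (-w) = - x w := by
      simp only [hx]
      rw [cubi_neg]
      ring
    rw [this, cubq_neg, hgo]
    ring
  have hz2 : ∫ w, x w * g w ∂(gam m) = 0 := by
    have : (fun w => x w * g w) = fun w => ∑ j, α * y j * (w j * g w) := funext hxg
    rw [this, integral_finsetSum _ (fun j _ => (hIj j).const_mul _)]
    apply Finset.sum_eq_zero
    intro j _
    rw [integral_const_mul, hgl j, mul_zero]
  have hsplit : ∫ w, Real.exp (-(β * cubq w)) * Real.exp (α * cubi y w) * g w ∂(gam m) =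
      ∫ w, R w * g w ∂(gam m) := by
    have e1 : (fun w => Real.exp (-(β * cubq w)) * Real.exp (α * cubi y w) * g w) =
        fun w => ((Real.exp (-(β * cubq w)) * (1 + x w ^ 2 / 2)) * g w + x w * g w) +
          R w * g w := by
      ext w
      simp only [hR, hx]
      ring
    have hI12 : Integrable (fun w => (Real.exp (-(β * cubq w)) * (1 + x w ^ 2 / 2)) * g w +
        x w * g w) (gam m) := hI1.add hI2
    rw [e1, integral_add hI12 hI3, integral_add hI1 hI2, hz1, hz2]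
    simp
  rw [hsplit, abs_mul, abs_mul, abs_of_nonneg hN0, abs_of_pos (Real.exp_pos _)]
  have hfin : |∫ w, R w * g w ∂(gam m)| ≤ 20700 * K * s ^ 3 * Real.exp (cubq y / 5) * J := by
    have e1 := norm_integral_le_of_norm_le (f := fun w => R w * g w) (cub_exp.const_mul
      (20700 * K * s ^ 3 * Real.exp (cubq y / 5))) (Filter.Eventually.of_forall hRg)
    rw [integral_const_mul, Real.norm_eq_abs] at e1
    exact e1
  calc ((Real.sqrt (1 - s ^ 2))⁻¹) ^ m * (Real.exp (-(β * cubq y)) * |∫ w, R w * g w ∂(gam m)|)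
      ≤ 2 ^ m * (1 * (20700 * K * s ^ 3 * Real.exp (cubq y / 5) * J)) := by
        apply mul_le_mul hN _ (by positivity) (by positivity)
        exact mul_le_mul hE hfin (abs_nonneg _) zero_le_one
    _ = _ := by ring


/-! ### Hilbert space part -/

theorem cub_L2 {m : ℕ} (K : ℝ) (g : (Fin m → ℝ) → ℝ) (hg : Measurable g)
    (hgb : ∀ y, |g y| ≤ K * Real.exp (cubq y / 20)) : MemLp g 2 (gam m) := by
  rw [memLp_two_iff_integrable_sq hg.aestronglyMeasurable]
  refine cub_integrable _ (by fun_prop) (K ^ 2) (fun y => ?_)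
  rw [abs_pow]
  calc |g y| ^ 2 ≤ (K * Real.exp (cubq y / 20)) ^ 2 := pow_le_pow_left₀ (abs_nonneg _) (hgb y) 2
    _ = K ^ 2 * (Real.exp (cubq y / 20) * Real.exp (cubq y / 20)) := by ring
    _ ≤ K ^ 2 * Real.exp (cubq y / 4) := by
      apply mul_le_mul_of_nonneg_left _ (sq_nonneg K)
      rw [← Real.exp_add]
      apply Real.exp_le_exp.2
      have := cubq_nonneg y
      linarith

theorem cub_cs {α : Type} [MeasurableSpace α] {μ : Measure α} {f g : α → ℝ}
    (hf : MemLp f 2 μ) (hg : MemLp g 2 μ) :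
    (∫ x, f x * g x ∂μ) ^ 2 ≤ (∫ x, f x ^ 2 ∂μ) * ∫ x, g x ^ 2 ∂μ := by
  have hff := hf.integrable_sq
  have hgg := hg.integrable_sq
  have hfg : Integrable (fun x => f x * g x) μ := hf.integrable_mul hg
  have key : ∀ t : ℝ, 0 ≤ (∫ x, g x ^ 2 ∂μ) * (t * t) + (2 * ∫ x, f x * g x ∂μ) * t +
      ∫ x, f x ^ 2 ∂μ := by
    intro t
    have e : ∫ x, (f x + t * g x) ^ 2 ∂μ = (∫ x, g x ^ 2 ∂μ) * (t * t) +
        (2 * ∫ x, f x * g x ∂μ) * t + ∫ x, f x ^ 2 ∂μ := by
      have e1 : (fun x => (f x + t * g x) ^ 2) =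
          fun x => (t * t * g x ^ 2 + 2 * t * (f x * g x)) + f x ^ 2 := by
        ext x
        ring
      have hi1 : Integrable (fun x => t * t * g x ^ 2) μ := hgg.const_mul _
      have hi2 : Integrable (fun x => 2 * t * (f x * g x)) μ := hfg.const_mul _
      have hi12 : Integrable (fun x => t * t * g x ^ 2 + 2 * t * (f x * g x)) μ := hi1.add hi2
      rw [e1, integral_add hi12 hff, integral_add hi1 hi2, integral_const_mul,
        integral_const_mul]
      ring
    rw [← e]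
    exact integral_nonneg fun x => sq_nonneg _
  have h := discrim_le_zero key
  unfold discrim at h
  linarith

/-- law of `(y, τ y + √(1-τ²) z)` -/
noncomputable def cubmu1 (m : ℕ) (τ : ℝ) : Measure ((Fin m → ℝ) × (Fin m → ℝ)) :=
  ((gam m).prod (gam m)).map (fun p => (p.1, τ • p.1 + Real.sqrt (1 - τ ^ 2) • p.2))

/-- law of two conditionally independent noisy copies -/
noncomputable def cubmu2 (m : ℕ) (τ : ℝ) : Measure ((Fin m → ℝ) × (Fin m → ℝ)) :=
  ((gam m).prod ((gam m).prod (gam m))).map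
    (fun p => (Real.sqrt τ • p.1 + Real.sqrt (1 - Real.sqrt τ ^ 2) • p.2.1,
      Real.sqrt τ • p.1 + Real.sqrt (1 - Real.sqrt τ ^ 2) • p.2.2))

theorem cub_GG_eq {m : ℕ} (τ : ℝ) (g h : (Fin m → ℝ) → ℝ)
    (hint : Integrable (fun p : (Fin m → ℝ) × (Fin m → ℝ) => g p.1 * h p.2) (cubmu1 m τ)) :
    GG τ g h = ∫ p, g p.1 * h p.2 ∂(cubmu1 m τ) := by
  have := gam_prob m
  have hF : Measurable (fun p : (Fin m → ℝ) × (Fin m → ℝ) =>
      (p.1, τ • p.1 + Real.sqrt (1 - τ ^ 2) • p.2)) := by fun_prop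
  unfold cubmu1 at hint ⊢
  rw [integral_map hF.aemeasurable hint.aestronglyMeasurable]
  have hint2 := (integrable_map_measure hint.aestronglyMeasurable hF.aemeasurable).1 hint
  exact (integral_prod _ hint2).symm

theorem cub_TT_eq2 {m : ℕ} (τ : ℝ) (g h : (Fin m → ℝ) → ℝ)
    (hint : Integrable (fun p : (Fin m → ℝ) × (Fin m → ℝ) => g p.1 * h p.2) (cubmu2 m τ)) :
    ∫ y, TT (Real.sqrt τ) g y * TT (Real.sqrt τ) h y ∂(gam m) =
      ∫ p, g p.1 * h p.2 ∂(cubmu2 m τ) ∧
    Integrable (fun y => TT (Real.sqrt τ) g y * TT (Real.sqrt τ) h y) (gam m) := by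
  have := gam_prob m
  have hF : Measurable (fun p : (Fin m → ℝ) × ((Fin m → ℝ) × (Fin m → ℝ)) =>
      (Real.sqrt τ • p.1 + Real.sqrt (1 - Real.sqrt τ ^ 2) • p.2.1,
      Real.sqrt τ • p.1 + Real.sqrt (1 - Real.sqrt τ ^ 2) • p.2.2)) := by fun_prop
  unfold cubmu2 at hint ⊢
  rw [integral_map hF.aemeasurable hint.aestronglyMeasurable]
  have hint2 := (integrable_map_measure hint.aestronglyMeasurable hF.aemeasurable).1 hint
  have e : ∀ y, ∫ z, ((fun p : (Fin m → ℝ) × (Fin m → ℝ) => g p.1 * h p.2) ∘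
      (fun p : (Fin m → ℝ) × ((Fin m → ℝ) × (Fin m → ℝ)) =>
      (Real.sqrt τ • p.1 + Real.sqrt (1 - Real.sqrt τ ^ 2) • p.2.1,
      Real.sqrt τ • p.1 + Real.sqrt (1 - Real.sqrt τ ^ 2) • p.2.2))) (y, z)
      ∂((gam m).prod (gam m)) = TT (Real.sqrt τ) g y * TT (Real.sqrt τ) h y := by
    intro y
    exact integral_prod_mul
      (fun z1 => g (Real.sqrt τ • y + Real.sqrt (1 - Real.sqrt τ ^ 2) • z1))
      (fun z2 => h (Real.sqrt τ • y + Real.sqrt (1 - Real.sqrt τ ^ 2) • z2))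
  refine ⟨?_, ?_⟩
  · rw [integral_congr_ae (Filter.Eventually.of_forall fun y => (e y).symm)]
    exact (integral_prod _ hint2).symm
  · have h3 := hint2.integral_prod_left
    refine h3.congr (Filter.Eventually.of_forall fun y => ?_)
    exact e y

theorem cub_prob1 (m : ℕ) (τ : ℝ) : IsProbabilityMeasure (cubmu1 m τ) := by
  have := gam_prob m
  unfold cubmu1
  exact Measure.isProbabilityMeasure_map (by fun_prop)

theorem cub_prob2 (m : ℕ) (τ : ℝ) : IsProbabilityMeasure (cubmu2 m τ) := by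
  have := gam_prob m
  unfold cubmu2
  exact Measure.isProbabilityMeasure_map (by fun_prop)

/-- uses `GG_semigroup` -/
theorem cub_mu_eq (m : ℕ) (τ : ℝ) (h0 : 0 ≤ τ) (h1 : τ ≤ 1) : cubmu1 m τ = cubmu2 m τ := by
  have hp1 := cub_prob1 m τ
  have hp2 := cub_prob2 m τ
  apply Measure.ext_prod
  intro s t hs ht
  set g : (Fin m → ℝ) → ℝ := s.indicator 1 with hg
  set h : (Fin m → ℝ) → ℝ := t.indicator 1 with hh
  have hgm : Measurable g := measurable_one.indicator hs
  have hhm : Measurable h := measurable_one.indicator ht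
  have hgb : ∀ y, |g y| ≤ 1 := by
    intro y
    by_cases hy : y ∈ s
    · simp [hg, hy]
    · simp [hg, hy]
  have hhb : ∀ y, |h y| ≤ 1 := by
    intro y
    by_cases hy : y ∈ t
    · simp [hh, hy]
    · simp [hh, hy]
  have e : (fun p : (Fin m → ℝ) × (Fin m → ℝ) => g p.1 * h p.2) = (s ×ˢ t).indicator 1 := by
    ext ⟨a, b⟩
    by_cases ha : a ∈ s <;> by_cases hb : b ∈ t <;> simp [hg, hh, ha, hb]
  have hint : ∀ μ : Measure ((Fin m → ℝ) × (Fin m → ℝ)), IsProbabilityMeasure μ →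
      Integrable (fun p : (Fin m → ℝ) × (Fin m → ℝ) => g p.1 * h p.2) μ := by
    intro μ hμ
    rw [e]
    exact (integrable_const (1:ℝ)).indicator (hs.prod ht)
  have e1 := cub_GG_eq τ g h (hint _ hp1)
  have e2 := (cub_TT_eq2 τ g h (hint _ hp2)).1
  have e3 := GG_semigroup τ h0 h1 g h hgm hhm hgb hhb
  rw [e1, e2, e, integral_indicator_one (hs.prod ht), integral_indicator_one (hs.prod ht)] at e3
  exact (measureReal_eq_measureReal_iff).1 e3

/-- uses `gam_ou` -/
theorem cub_int1 {m : ℕ} (τ : ℝ) (h0 : 0 ≤ τ) (h1 : τ ≤ 1) (g h : (Fin m → ℝ) → ℝ)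
    (hg : MemLp g 2 (gam m)) (hh : MemLp h 2 (gam m)) :
    Integrable (fun p : (Fin m → ℝ) × (Fin m → ℝ) => g p.1 * h p.2) (cubmu1 m τ) := by
  have := gam_prob m
  have hF : Measurable (fun p : (Fin m → ℝ) × (Fin m → ℝ) =>
      (p.1, τ • p.1 + Real.sqrt (1 - τ ^ 2) • p.2)) := by fun_prop
  have hfst : MeasurePreserving Prod.fst (cubmu1 m τ) (gam m) := by
    refine ⟨measurable_fst, ?_⟩
    unfold cubmu1
    rw [Measure.map_map measurable_fst hF]
    exact (measurePreserving_fst (μ := gam m) (ν := gam m)).map_eq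
  have hsnd : MeasurePreserving Prod.snd (cubmu1 m τ) (gam m) := by
    refine ⟨measurable_snd, ?_⟩
    unfold cubmu1
    rw [Measure.map_map measurable_snd hF]
    exact (gam_ou m τ (by linarith) h1).map_eq
  have e1 : MemLp (fun p : (Fin m → ℝ) × (Fin m → ℝ) => g p.1) 2 (cubmu1 m τ) :=
    hg.comp_measurePreserving hfst
  have e2 : MemLp (fun p : (Fin m → ℝ) × (Fin m → ℝ) => h p.2) 2 (cubmu1 m τ) :=
    hh.comp_measurePreserving hsnd
  exact e1.integrable_mul e2

theorem cub_semigroup {m : ℕ} (τ : ℝ) (h0 : 0 ≤ τ) (h1 : τ ≤ 1) (g h : (Fin m → ℝ) → ℝ)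
    (hg : MemLp g 2 (gam m)) (hh : MemLp h 2 (gam m)) :
    GG τ g h = ∫ y, TT (Real.sqrt τ) g y * TT (Real.sqrt τ) h y ∂(gam m) ∧
    Integrable (fun y => TT (Real.sqrt τ) g y * TT (Real.sqrt τ) h y) (gam m) := by
  have hint := cub_int1 τ h0 h1 g h hg hh
  have hint2 := hint
  rw [cub_mu_eq m τ h0 h1] at hint2
  obtain ⟨e1, e2⟩ := cub_TT_eq2 τ g h hint2
  refine ⟨?_, e2⟩
  rw [e1, cub_GG_eq τ g h hint, cub_mu_eq m τ h0 h1]

theorem cub_TT_meas {m : ℕ} (κ : ℝ) (g : (Fin m → ℝ) → ℝ) (hg : Measurable g) :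
    StronglyMeasurable (TT κ g) := by
  have := gam_prob m
  unfold TT
  have h : StronglyMeasurable (fun p : (Fin m → ℝ) × (Fin m → ℝ) =>
      g (κ • p.1 + Real.sqrt (1 - κ ^ 2) • p.2)) := by
    apply Measurable.stronglyMeasurable
    exact hg.comp (by fun_prop)
  exact h.integral_prod_right'

theorem cub_TT_L2 {m : ℕ} (τ : ℝ) (h0 : 0 ≤ τ) (h1 : τ ≤ 1) (g : (Fin m → ℝ) → ℝ)
    (hgm : Measurable g) (hg : MemLp g 2 (gam m)) : MemLp (TT (Real.sqrt τ) g) 2 (gam m) := by
  rw [memLp_two_iff_integrable_sq (cub_TT_meas _ g hgm).aestronglyMeasurable]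
  have := (cub_semigroup τ h0 h1 g g hg hg).2
  refine this.congr (Filter.Eventually.of_forall fun y => ?_)
  simp only
  ring

theorem cub_GG_TT {m : ℕ} (s : ℝ) (g h : (Fin m → ℝ) → ℝ) :
    GG s g h = ∫ y, g y * TT s h y ∂(gam m) := by
  unfold GG TT
  congr 1
  ext y
  rw [integral_const_mul]

theorem cub_diag {m : ℕ} (K : ℝ) (g : (Fin m → ℝ) → ℝ) (hg : Measurable g)
    (hgb : ∀ y, |g y| ≤ K * Real.exp (cubq y / 20)) (hgo : ∀ y, g (-y) = -g y)
    (hgl : ∀ j, ∫ y, y j * g y ∂(gam m) = 0) (τ : ℝ) (h0 : 0 ≤ τ) (h1 : τ ≤ 1) :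
    GG τ g g ≤ (∫ y, g y ^ 2 ∂(gam m)) * τ ^ 3 := by
  have := gam_prob m
  have hL2 := cub_L2 K g hg hgb
  have hK : 0 ≤ K := by
    have := (abs_nonneg _).trans (hgb 0)
    by_contra hcon
    rw [not_le] at hcon
    have h2 := Real.exp_pos (cubq (0 : Fin m → ℝ) / 20)
    nlinarith
  have e1 : GG 1 g g = ∫ y, g y ^ 2 ∂(gam m) := by
    rw [cub_GG_TT]
    congr 1
    ext y
    unfold TT
    simp
    ring
  rw [← e1]
  set B : ℝ := 2 ^ m * (20700 * K * (∫ w, Real.exp (cubq w / 4) ∂(gam m))) with hB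
  have hB0 : 0 ≤ B := by
    have : 0 ≤ ∫ w, Real.exp (cubq w / 4) ∂(gam m) := integral_nonneg fun w => (Real.exp_pos _).le
    positivity
  apply cub_iter (fun s => GG s g g) (B * K * ∫ w, Real.exp (cubq w / 4) ∂(gam m)) _ _ _ τ h0 h1
  · intro s hs0 hs1
    rw [(cub_semigroup s hs0 hs1 g g hL2 hL2).1]
    exact integral_nonneg fun y => mul_self_nonneg _
  · intro s hs0 hs1
    have hs2 : s ^ 2 ≤ 1 := pow_le_one₀ hs0 hs1
    have hsq : Real.sqrt (s ^ 2) = s := Real.sqrt_sq hs0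
    have e2 := (cub_semigroup (s ^ 2) (sq_nonneg s) hs2 g g hL2 hL2).1
    have e3 := cub_TT_L2 (s ^ 2) (sq_nonneg s) hs2 g hg hL2
    rw [hsq] at e2 e3
    have e4 := cub_cs hL2 e3
    rw [cub_GG_TT s g g, e1, e2]
    refine e4.trans (le_of_eq ?_)
    congr 2
    ext y
    ring
  · intro s hs0 hs1
    rw [cub_GG_TT s g g]
    have e2 : ∀ y, ‖g y * TT s g y‖ ≤ B * K * s ^ 3 * Real.exp (cubq y / 4) := by
      intro y
      rw [norm_mul, Real.norm_eq_abs, Real.norm_eq_abs]
      have e3 := cub_TT_bound K g hg hgb hgo hgl s hs0 hs1 y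
      calc |g y| * |TT s g y| ≤ (K * Real.exp (cubq y / 20)) *
            (B * s ^ 3 * Real.exp (cubq y / 5)) :=
              mul_le_mul (hgb y) e3 (abs_nonneg _) (by positivity)
        _ = B * K * s ^ 3 * (Real.exp (cubq y / 20) * Real.exp (cubq y / 5)) := by ring
        _ = _ := by
          rw [← Real.exp_add]
          congr 2
          ring
    have e3 := norm_integral_le_of_norm_le (f := fun y => g y * TT s g y)
      (cub_exp.const_mul (B * K * s ^ 3)) (Filter.Eventually.of_forall e2)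
    rw [integral_const_mul, Real.norm_eq_abs] at e3
    refine (le_abs_self _).trans (e3.trans (le_of_eq ?_))
    ring

/-! ## [O2] -/
/-- cubic decay of the noise operator on odd functions orthogonal to linear functions -/
theorem GG_cub {m : ℕ} (τ C : ℝ) (h0 : 0 ≤ τ) (h1 : τ ≤ 1) (g h : (Fin m → ℝ) → ℝ)
    (hg : Measurable g) (hh : Measurable h)
    (hgb : ∀ y, |g y| ≤ C * (1 + ∑ j, |y j|)) (hhb : ∀ y, |h y| ≤ C * (1 + ∑ j, |y j|))
    (hgo : ∀ y, g (-y) = -g y) (hho : ∀ y, h (-y) = -h y)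
    (hgl : ∀ j, ∫ y, y j * g y ∂(gam m) = 0) (hhl : ∀ j, ∫ y, y j * h y ∂(gam m) = 0) :
    |GG τ g h| ≤ τ ^ 3 * (Real.sqrt (∫ y, (g y) ^ 2 ∂(gam m)) *
      Real.sqrt (∫ y, (h y) ^ 2 ∂(gam m))) := by
  have hgb' := cub_growth C g hgb
  have hhb' := cub_growth C h hhb
  have hgL := cub_L2 _ g hg hgb'
  have hhL := cub_L2 _ h hh hhb'
  have e1 := (cub_semigroup τ h0 h1 g h hgL hhL).1
  have e2 := cub_cs (cub_TT_L2 τ h0 h1 g hg hgL) (cub_TT_L2 τ h0 h1 h hh hhL)
  rw [← e1] at e2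
  have eg : ∫ y, TT (Real.sqrt τ) g y ^ 2 ∂(gam m) ≤ (∫ y, g y ^ 2 ∂(gam m)) * τ ^ 3 := by
    have := cub_diag _ g hg hgb' hgo hgl τ h0 h1
    rw [(cub_semigroup τ h0 h1 g g hgL hgL).1] at this
    refine le_trans (le_of_eq ?_) this
    congr 1
    ext y
    ring
  have eh : ∫ y, TT (Real.sqrt τ) h y ^ 2 ∂(gam m) ≤ (∫ y, h y ^ 2 ∂(gam m)) * τ ^ 3 := by
    have := cub_diag _ h hh hhb' hho hhl τ h0 h1
    rw [(cub_semigroup τ h0 h1 h h hhL hhL).1] at this
    refine le_trans (le_of_eq ?_) this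
    congr 1
    ext y
    ring
  set Ag : ℝ := ∫ y, g y ^ 2 ∂(gam m) with hAg
  set Ah : ℝ := ∫ y, h y ^ 2 ∂(gam m) with hAh
  have hAg0 : 0 ≤ Ag := integral_nonneg fun y => sq_nonneg _
  have hAh0 : 0 ≤ Ah := integral_nonneg fun y => sq_nonneg _
  have hτ3 : 0 ≤ τ ^ 3 := by positivity
  have e3 : GG τ g h ^ 2 ≤ (τ ^ 3 * (Real.sqrt Ag * Real.sqrt Ah)) ^ 2 := by
    calc GG τ g h ^ 2 ≤ (Ag * τ ^ 3) * (Ah * τ ^ 3) :=
          e2.trans (mul_le_mul eg eh (integral_nonneg fun y => sq_nonneg _) (by positivity))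
      _ = (τ ^ 3) ^ 2 * (Real.sqrt Ag ^ 2 * Real.sqrt Ah ^ 2) := by
          rw [Real.sq_sqrt hAg0, Real.sq_sqrt hAh0]
          ring
      _ = _ := by ring
  exact abs_le_of_sq_le_sq e3 (by positivity)

end Pool.Agent.SSC3N
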