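import Pool.Agent.SSC3N.Defs

set_option autoImplicit false
open MeasureTheory ProbabilityTheory Set Real
open scoped ENNReal

namespace Pool.Agent.SSC3N
open Pool.Agent.SSC3

private lemma gaussInt_Jc_eq : ∀ k : ℕ,
    Jc k = 2 ^ (((k:ℝ) + 1) / 2) * (1 / 2) * Real.Gamma (((k:ℝ) + 1) / 2) ∧
    Jc (k + 1) = 2 ^ (((k:ℝ) + 1 + 1) / 2) * (1 / 2) * Real.Gamma (((k:ℝ) + 1 + 1) / 2) := by
  intro k
  induction k with
  | zero =>
    refine ⟨?_, ?_⟩
    · have h2 : (2:ℝ) ^ ((1:ℝ) / 2) = Real.sqrt 2 := by rw [Real.sqrt_eq_rpow]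
      simp only [Jc, Nat.cast_zero, zero_add]
      rw [h2, Real.Gamma_one_half_eq, Real.sqrt_div Real.pi_pos.le]
      have h3 : Real.sqrt 2 * Real.sqrt 2 = 2 := Real.mul_self_sqrt (by norm_num)
      have h4 : Real.sqrt 2 ≠ 0 := by positivity
      field_simp
      nlinarith [h3]
    · simp only [Jc, Nat.cast_zero, zero_add]
      norm_num
  | succ n ih =>
    refine ⟨?_, ?_⟩
    · have := ih.2
      push_cast
      exact this
    · have h := ih.1
      have hJ : Jc (n + 1 + 1) = ((n:ℝ) + 1) * Jc n := rfl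
      rw [hJ, h]
      push_cast
      have e1 : ((n:ℝ) + 1 + 1 + 1) / 2 = ((n:ℝ) + 1) / 2 + 1 := by ring
      rw [e1, Real.Gamma_add_one (by positivity), Real.rpow_add (by norm_num), Real.rpow_one]
      ring

/-- Gaussian moments on the half line -/
theorem integral_Jc (k : ℕ) (s : ℝ) (hs : 0 < s) :
    ∫ v in Ioi (0:ℝ), v ^ k * Real.exp (-(s * v ^ 2 / 2)) = Jc k * s ^ (-((k:ℝ) + 1) / 2) ∧
    IntegrableOn (fun v : ℝ => v ^ k * Real.exp (-(s * v ^ 2 / 2))) (Ioi (0:ℝ)) := by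
  have hb : 0 < s / 2 := by positivity
  have hk : (-1:ℝ) < (k:ℝ) := by
    have : (0:ℝ) ≤ k := Nat.cast_nonneg k
    linarith
  constructor
  · have h := integral_rpow_mul_exp_neg_mul_rpow (p := 2) (q := (k:ℝ)) (b := s / 2)
      (by norm_num) hk hb
    have h1 : ∫ v in Ioi (0:ℝ), v ^ k * Real.exp (-(s * v ^ 2 / 2)) =
        ∫ x in Ioi (0:ℝ), x ^ (k:ℝ) * Real.exp (-(s / 2) * x ^ (2:ℝ)) := by
      refine setIntegral_congr_fun measurableSet_Ioi ?_
      intro x hx
      simp only [Real.rpow_natCast]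
      rw [show (x:ℝ) ^ (2:ℝ) = x ^ 2 by norm_cast]
      congr 2
      ring
    rw [h1, h, (gaussInt_Jc_eq k).1]
    rw [Real.div_rpow hs.le (by norm_num)]
    have e1 : -((k:ℝ) + 1) / 2 = -(((k:ℝ) + 1) / 2) := by ring
    rw [e1, Real.rpow_neg (by norm_num : (0:ℝ) ≤ 2)]
    have h2 : (2:ℝ) ^ (((k:ℝ) + 1) / 2) ≠ 0 := by positivity
    field_simp
  · have h := integrableOn_rpow_mul_exp_neg_mul_sq hb hk
    refine h.congr_fun ?_ measurableSet_Ioi
    intro x hx
    simp only [Real.rpow_natCast]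
    congr 2
    ring

private lemma gaussInt_int (a : ℝ) :
    Integrable (fun v : ℝ => Real.exp (a * v) * Real.exp (-(v ^ 2 / 4))) := by
  have h := (integrable_exp_neg_mul_sq (b := 1 / 4) (by norm_num)).comp_sub_right (2 * a)
  refine (h.const_mul (Real.exp (a ^ 2))).congr (Filter.Eventually.of_forall ?_)
  intro v
  simp only
  rw [← Real.exp_add, ← Real.exp_add]
  congr 1
  ring

private lemma gaussInt_val (a : ℝ) :
    ∫ v : ℝ, Real.exp (a * v) * Real.exp (-(v ^ 2 / 4)) = 2 * Real.sqrt π * Real.exp (a ^ 2) := by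
  have h1 : ∀ v : ℝ, Real.exp (a * v) * Real.exp (-(v ^ 2 / 4)) =
      Real.exp (a ^ 2) * Real.exp (-(1 / 4) * (v - 2 * a) ^ 2) := by
    intro v
    rw [← Real.exp_add, ← Real.exp_add]
    congr 1
    ring
  simp_rw [h1]
  rw [integral_const_mul]
  rw [integral_sub_right_eq_self (fun v : ℝ => Real.exp (-(1 / 4) * v ^ 2)) (2 * a)]
  rw [integral_gaussian]
  have h2 : Real.sqrt (π / (1 / 4)) = 2 * Real.sqrt π := by
    rw [show π / (1 / 4) = 2 ^ 2 * π by ring, Real.sqrt_mul (by norm_num), Real.sqrt_sq (by norm_num)]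
  rw [h2]
  ring

/-- cosh moment -/
theorem integral_cosh_gauss (a : ℝ) :
    ∫ v in Ioi (0:ℝ), Real.cosh (a * v) * Real.exp (-(v ^ 2 / 4)) = Real.sqrt π * Real.exp (a ^ 2) ∧
    IntegrableOn (fun v : ℝ => Real.cosh (a * v) * Real.exp (-(v ^ 2 / 4))) (Ioi (0:ℝ)) := by
  have h1 := gaussInt_int a
  have h2 := gaussInt_int (-a)
  have hfun : (fun v : ℝ => Real.cosh (a * v) * Real.exp (-(v ^ 2 / 4))) =
      fun v : ℝ => (1 / 2) * (Real.exp (a * v) * Real.exp (-(v ^ 2 / 4)) +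
        Real.exp (-a * v) * Real.exp (-(v ^ 2 / 4))) := by
    funext v
    rw [Real.cosh_eq, show -a * v = -(a * v) by ring]
    ring
  constructor
  · rw [hfun, integral_const_mul, integral_add h1.integrableOn h2.integrableOn]
    have h3 : ∫ v in Ioi (0:ℝ), Real.exp (-a * v) * Real.exp (-(v ^ 2 / 4)) =
        ∫ v in Iic (0:ℝ), Real.exp (a * v) * Real.exp (-(v ^ 2 / 4)) := by
      have := integral_comp_neg_Ioi (0:ℝ) (fun v : ℝ => Real.exp (a * v) * Real.exp (-(v ^ 2 / 4)))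
      rw [neg_zero] at this
      rw [← this]
      refine setIntegral_congr_fun measurableSet_Ioi ?_
      intro v _
      simp only
      congr 2 <;> ring
    rw [h3, add_comm (∫ v in Ioi (0:ℝ), _) _]
    have h4 := intervalIntegral.integral_Iic_add_Ioi (b := (0:ℝ)) h1.integrableOn h1.integrableOn
    rw [h4, gaussInt_val]
    ring
  · rw [hfun]
    exact ((h1.add h2).const_mul _).integrableOn

end Pool.Agent.SSC3N
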