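import Pool.Agent.SSC3N.LFge
import Pool.Agent.SSC3N.CBasic
import Pool.Agent.SSC3N.NuBasic
import Pool.Agent.SSC3N.GaussInt

/-! [Q7] DD_measurable, DD_le, DD_ge, DD_poly.
Uses LF_ge_PL, LF_ge, integral_Jc, continuous_LF, LF_nonneg, LF_le, nu_prob, nu_pos, integral_nu,
integrable_nu_iff, integrable_nu. -/

set_option autoImplicit false
open MeasureTheory ProbabilityTheory Set Real
open scoped ENNReal

namespace Pool.Agent.SSC3N
open Pool.Agent.SSC3

private theorem q7_vF_nonneg {l : ℝ} (hl : 0 ≤ l) : 0 ≤ vF l :=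
  mul_nonneg hl (LF_nonneg l)

private theorem q7_vF_le {l : ℝ} (hl : 0 ≤ l) : vF l ≤ Real.exp l := by
  unfold vF
  have h1 : l * LF l ≤ l * Real.exp (l / 2) := mul_le_mul_of_nonneg_left (LF_le l hl) hl
  have h2 : l ≤ Real.exp (l / 2) := by
    have h3 : l / 2 + 1 ≤ Real.exp (l / 2) := Real.add_one_le_exp _
    have h4 : l / 4 + 1 ≤ Real.exp (l / 4) := Real.add_one_le_exp _
    have h5 : Real.exp (l / 2) = Real.exp (l / 4) * Real.exp (l / 4) := by
      rw [← Real.exp_add]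
      congr 1
      ring
    have h6 : (l / 4 + 1) * (l / 4 + 1) ≤ Real.exp (l / 4) * Real.exp (l / 4) :=
      mul_le_mul h4 h4 (by positivity) (Real.exp_pos _).le
    rw [h5]
    nlinarith [sq_nonneg (l / 4 - 1)]
  have h3 : Real.exp l = Real.exp (l / 2) * Real.exp (l / 2) := by
    rw [← Real.exp_add]
    congr 1
    ring
  have h4 : l * Real.exp (l / 2) ≤ Real.exp (l / 2) * Real.exp (l / 2) :=
    mul_le_mul_of_nonneg_right h2 (Real.exp_pos _).le
  linarith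

private theorem q7_continuous_vF : Continuous vF := by
  unfold vF
  exact continuous_id.mul continuous_LF

private theorem q7_cont (τ : ℝ) : Continuous (Function.uncurry fun u v : ℝ =>
    vF (τ * u * v) * (1 + Real.exp (-u ^ 2) - Real.exp (-v ^ 2))) := by
  have h := q7_continuous_vF
  have h1 : Continuous fun p : ℝ × ℝ => vF (τ * p.1 * p.2) := by
    apply h.comp
    fun_prop
  have h2 : Continuous fun p : ℝ × ℝ => 1 + Real.exp (-p.1 ^ 2) - Real.exp (-p.2 ^ 2) := by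
    fun_prop
  exact h1.mul h2

private theorem q7_weight_nonneg (q v : ℝ) (hq : 0 ≤ q) : 0 ≤ 1 + q - Real.exp (-v ^ 2) := by
  have h1 : Real.exp (-v ^ 2) ≤ 1 := by
    rw [Real.exp_le_one_iff]
    have := sq_nonneg v
    linarith
  linarith

private theorem q7_bound (τ u v : ℝ) (h0 : 0 < τ) (h1 : τ ≤ 1 / 2) (hu : 0 < u) (hv : 0 < v) :
    vF (τ * u * v) * (1 + Real.exp (-u ^ 2) - Real.exp (-v ^ 2)) ≤
      2 * Real.exp (u ^ 2 / 4) * Real.exp (v ^ 2 / 4) := by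
  have hl : 0 ≤ τ * u * v := by positivity
  have e1 : vF (τ * u * v) ≤ Real.exp (u ^ 2 / 4) * Real.exp (v ^ 2 / 4) := by
    rw [← Real.exp_add]
    refine (q7_vF_le hl).trans (Real.exp_le_exp.2 ?_)
    have : τ * (u * v) ≤ 1 / 2 * (u * v) := mul_le_mul_of_nonneg_right h1 (by positivity)
    nlinarith [sq_nonneg (u - v)]
  have e2 : 1 + Real.exp (-u ^ 2) - Real.exp (-v ^ 2) ≤ 2 := by
    have h1 : Real.exp (-u ^ 2) ≤ 1 := by
      rw [Real.exp_le_one_iff]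
      have := sq_nonneg u
      linarith
    have h2 := Real.exp_pos (-v ^ 2)
    linarith
  calc vF (τ * u * v) * (1 + Real.exp (-u ^ 2) - Real.exp (-v ^ 2))
      ≤ (Real.exp (u ^ 2 / 4) * Real.exp (v ^ 2 / 4)) * 2 :=
        mul_le_mul e1 e2 (q7_weight_nonneg _ _ (Real.exp_pos _).le) (by positivity)
    _ = 2 * Real.exp (u ^ 2 / 4) * Real.exp (v ^ 2 / 4) := by ring

private theorem q7_nonneg (τ u v : ℝ) (h0 : 0 < τ) (hu : 0 < u) (hv : 0 < v) :
    0 ≤ vF (τ * u * v) * (1 + Real.exp (-u ^ 2) - Real.exp (-v ^ 2)) :=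
  mul_nonneg (q7_vF_nonneg (by positivity)) (q7_weight_nonneg _ _ (Real.exp_pos _).le)

private theorem q7_integrable (τ u : ℝ) (h0 : 0 < τ) (h1 : τ ≤ 1 / 2) (hu : 0 < u) :
    Integrable (fun v => vF (τ * u * v) * (1 + Real.exp (-u ^ 2) - Real.exp (-v ^ 2))) nu := by
  apply integrable_nu _ _ (2 * Real.exp (u ^ 2 / 4))
  · intro v hv
    rw [abs_of_nonneg (q7_nonneg τ u v h0 hu hv)]
    exact q7_bound τ u v h0 h1 hu hv
  · have h := (q7_cont τ).comp (Continuous.prodMk (continuous_const (y := u)) continuous_id)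
    exact h.measurable

theorem DD_measurable (τ : ℝ) : Measurable (DD τ) := by
  haveI := nu_prob
  have hs := (q7_cont τ).stronglyMeasurable
  have h2 := hs.integral_prod_right (ν := nu)
  exact h2.measurable

private theorem q7_exp_quarter : Integrable (fun v : ℝ => Real.exp (v ^ 2 / 4)) nu ∧
    ∫ v, Real.exp (v ^ 2 / 4) ∂nu = 2 := by
  have hJ := integral_Jc 1 (1 / 2) (by norm_num)
  have hpt : ∀ v : ℝ, Real.exp (v ^ 2 / 4) * (v * Real.exp (-(v ^ 2 / 2))) =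
      v ^ 1 * Real.exp (-(1 / 2 * v ^ 2 / 2)) := by
    intro v
    have : Real.exp (-(1 / 2 * v ^ 2 / 2)) = Real.exp (v ^ 2 / 4) * Real.exp (-(v ^ 2 / 2)) := by
      rw [← Real.exp_add]
      congr 1
      ring
    rw [this]
    ring
  constructor
  · apply (integrable_nu_iff _ (by fun_prop)).2
    simp only [hpt]
    exact hJ.2
  · rw [integral_nu]
    simp only [hpt]
    rw [hJ.1]
    have : Jc 1 = 1 := rfl
    rw [this]
    norm_num

theorem DD_le (τ u : ℝ) (h0 : 0 < τ) (h1 : τ ≤ 1 / 2) (hu : 0 < u) :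
    DD τ u ≤ 4 * Real.exp (u ^ 2 / 4) := by
  unfold DD
  have e1 : ∫ v, vF (τ * u * v) * (1 + Real.exp (-u ^ 2) - Real.exp (-v ^ 2)) ∂nu ≤
      ∫ v, 2 * Real.exp (u ^ 2 / 4) * Real.exp (v ^ 2 / 4) ∂nu := by
    apply integral_mono_ae (q7_integrable τ u h0 h1 hu) (q7_exp_quarter.1.const_mul _)
    filter_upwards [nu_pos] with v hv
    exact q7_bound τ u v h0 h1 hu hv
  rw [integral_const_mul, q7_exp_quarter.2] at e1
  linarith

private theorem q7_key (p : ℕ → ℝ) (m : ℕ) (w q : ℝ) :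
    Integrable (fun v : ℝ => (w * v) * (∑ k ∈ Finset.range m, p k * (w * v) ^ k) *
      (1 + q - Real.exp (-v ^ 2))) nu ∧
    ∫ v, (w * v) * (∑ k ∈ Finset.range m, p k * (w * v) ^ k) *
      (1 + q - Real.exp (-v ^ 2)) ∂nu =
      w * ∑ k ∈ Finset.range m, p k * w ^ k *
        (Jc (k + 2) * ((1 + q) - (3 : ℝ) ^ (-((k : ℝ) + 3) / 2))) := by
  have hpt : ∀ v : ℝ, (w * v) * (∑ k ∈ Finset.range m, p k * (w * v) ^ k) *
      (1 + q - Real.exp (-v ^ 2)) * (v * Real.exp (-(v ^ 2 / 2))) =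
      w * ∑ k ∈ Finset.range m, p k * w ^ k *
        ((1 + q) * (v ^ (k + 2) * Real.exp (-(1 * v ^ 2 / 2))) -
          v ^ (k + 2) * Real.exp (-(3 * v ^ 2 / 2))) := by
    intro v
    have h1 : Real.exp (-(3 * v ^ 2 / 2)) = Real.exp (-v ^ 2) * Real.exp (-(v ^ 2 / 2)) := by
      rw [← Real.exp_add]
      congr 1
      ring
    have h2 : Real.exp (-(1 * v ^ 2 / 2)) = Real.exp (-(v ^ 2 / 2)) := by
      congr 1
      ring
    rw [h1, h2, Finset.mul_sum, Finset.mul_sum, Finset.sum_mul, Finset.sum_mul]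
    apply Finset.sum_congr rfl
    intro k _
    ring
  have hJ1 : ∀ k : ℕ, IntegrableOn (fun v : ℝ => v ^ (k + 2) * Real.exp (-(1 * v ^ 2 / 2)))
      (Ioi (0:ℝ)) := fun k => (integral_Jc (k + 2) 1 (by norm_num)).2
  have hJ3 : ∀ k : ℕ, IntegrableOn (fun v : ℝ => v ^ (k + 2) * Real.exp (-(3 * v ^ 2 / 2)))
      (Ioi (0:ℝ)) := fun k => (integral_Jc (k + 2) 3 (by norm_num)).2
  have hterm : ∀ k ∈ Finset.range m, IntegrableOn (fun v : ℝ => p k * w ^ k *
        ((1 + q) * (v ^ (k + 2) * Real.exp (-(1 * v ^ 2 / 2))) -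
          v ^ (k + 2) * Real.exp (-(3 * v ^ 2 / 2)))) (Ioi (0:ℝ)) := by
    intro k _
    exact (((hJ1 k).const_mul (1 + q)).sub (hJ3 k)).const_mul _
  constructor
  · apply (integrable_nu_iff _ (by fun_prop)).2
    simp only [hpt]
    exact (integrable_finset_sum _ hterm).const_mul _
  · rw [integral_nu]
    simp only [hpt]
    rw [integral_const_mul, integral_finset_sum _ hterm]
    congr 1
    apply Finset.sum_congr rfl
    intro k _
    rw [integral_const_mul, integral_sub ((hJ1 k).const_mul (1 + q)) (hJ3 k), integral_const_mul,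
      (integral_Jc (k + 2) 1 (by norm_num)).1, (integral_Jc (k + 2) 3 (by norm_num)).1]
    rw [Real.one_rpow]
    have : (-(((k + 2 : ℕ) : ℝ) + 1) / 2) = -((k : ℝ) + 3) / 2 := by
      push_cast
      ring
    rw [this]
    ring

private theorem q7_lower (p : ℕ → ℝ) (m : ℕ)
    (hp : ∀ l : ℝ, 0 ≤ l → ∑ k ∈ Finset.range m, p k * l ^ k ≤ LF l)
    (τ u : ℝ) (h0 : 0 < τ) (h1 : τ ≤ 1 / 2) (hu : 0 < u) :
    (τ * u) * ∑ k ∈ Finset.range m, p k * (τ * u) ^ k *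
        (Jc (k + 2) * ((1 + Real.exp (-u ^ 2)) - (3 : ℝ) ^ (-((k : ℝ) + 3) / 2))) ≤ DD τ u := by
  obtain ⟨k1, k2⟩ := q7_key p m (τ * u) (Real.exp (-u ^ 2))
  rw [← k2]
  unfold DD
  apply integral_mono_ae k1 (q7_integrable τ u h0 h1 hu)
  filter_upwards [nu_pos] with v hv
  have hl : 0 ≤ τ * u * v := by positivity
  unfold vF
  exact mul_le_mul_of_nonneg_right (mul_le_mul_of_nonneg_left (hp _ hl) hl)
    (q7_weight_nonneg _ _ (Real.exp_pos _).le)

private theorem q7_x_bounds : 1.25331 ≤ Real.sqrt (π / 2) ∧ Real.sqrt (π / 2) ≤ 1.25332 := by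
  constructor
  · apply Real.le_sqrt_of_sq_le
    have := Real.pi_gt_d6
    norm_num at this ⊢
    linarith
  · apply Real.sqrt_le_iff.2
    constructor
    · norm_num
    · have := Real.pi_lt_d6
      norm_num at this ⊢
      linarith

private theorem q7_three : ∃ y : ℝ, 0.57735 ≤ y ∧ y ≤ 0.577351 ∧
    (3 : ℝ) ^ (-((0 : ℝ) + 3) / 2) = y / 3 ∧ (3 : ℝ) ^ (-((2 : ℝ) + 3) / 2) = y / 9 ∧
    (3 : ℝ) ^ (-((4 : ℝ) + 3) / 2) = y / 27 := by
  have h3 : (0 : ℝ) < 3 := by norm_num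
  refine ⟨(3 : ℝ) ^ (-(1 : ℝ) / 2), ?_, ?_, ?_, ?_, ?_⟩
  · have e1 : (3 : ℝ) ^ (-(1 : ℝ) / 2) = Real.sqrt (1 / 3) := by
      rw [Real.sqrt_eq_rpow, one_div, Real.inv_rpow h3.le, ← Real.rpow_neg h3.le]
      congr 1
      norm_num
    rw [e1]
    apply Real.le_sqrt_of_sq_le
    norm_num
  · have e1 : (3 : ℝ) ^ (-(1 : ℝ) / 2) = Real.sqrt (1 / 3) := by
      rw [Real.sqrt_eq_rpow, one_div, Real.inv_rpow h3.le, ← Real.rpow_neg h3.le]
      congr 1
      norm_num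
    rw [e1]
    apply Real.sqrt_le_iff.2
    constructor <;> norm_num
  · have e : (-((0 : ℝ) + 3) / 2) = -(1 : ℝ) / 2 - (1 : ℕ) := by norm_num
    rw [e, Real.rpow_sub_natCast h3.ne']
    norm_num
  · have e : (-((2 : ℝ) + 3) / 2) = -(1 : ℝ) / 2 - (2 : ℕ) := by norm_num
    rw [e, Real.rpow_sub_natCast h3.ne']
    norm_num
  · have e : (-((4 : ℝ) + 3) / 2) = -(1 : ℝ) / 2 - (3 : ℕ) := by norm_num
    rw [e, Real.rpow_sub_natCast h3.ne']
    norm_num

theorem DD_ge (τ u : ℝ) (h0 : 0 < τ) (h1 : τ ≤ 1 / 2) (hu : 0 < u) :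
    0.187 * (τ * u) ≤ DD τ u := by
  have h := q7_lower (fun _ => 0.1849) 1 (fun l hl => by simpa using LF_ge l hl) τ u h0 h1 hu
  refine le_trans ?_ h
  obtain ⟨y, y1, y2, y3, _, _⟩ := q7_three
  obtain ⟨x1, x2⟩ := q7_x_bounds
  have hq := Real.exp_pos (-u ^ 2)
  have hJ2 : Jc (0 + 2) = Real.sqrt (π / 2) := by
    simp [Jc]
  rw [Finset.sum_range_one, hJ2]
  push_cast
  rw [y3, pow_zero, mul_one]
  have hw : 0 < τ * u := by positivity
  set x := Real.sqrt (π / 2)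
  set q := Real.exp (-u ^ 2)
  have hx0 : 0 < x := by linarith
  have e1 : (0.187 : ℝ) ≤ 0.1849 * (x * (1 + q - y / 3)) := by
    have e2 : (0.8 : ℝ) ≤ 1 + q - y / 3 := by linarith
    have e3 : (1.25331 : ℝ) * (1 - y / 3) ≤ x * (1 + q - y / 3) :=
      mul_le_mul x1 (by linarith) (by linarith) hx0.le
    nlinarith
  calc 0.187 * (τ * u) ≤ (0.1849 * (x * (1 + q - y / 3))) * (τ * u) :=
        mul_le_mul_of_nonneg_right e1 hw.le
    _ = _ := by ring

/-- the coefficients of `PL` -/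
private noncomputable def q7_p : ℕ → ℝ
  | 0 => 0.23367
  | 1 => -0.06096
  | 2 => 0.02526
  | 3 => -0.004762
  | 4 => 0.000774
  | 5 => -0.00005875
  | _ => 0

theorem DD_poly (τ u : ℝ) (h0 : 0 < τ) (h1 : τ ≤ 1 / 2) (hu : 0 < u) :
    (τ * u) * Qd (τ * u) (Real.exp (-u ^ 2)) ≤ DD τ u := by
  have h := q7_lower q7_p 6 (fun l hl => by
    refine le_trans (le_of_eq ?_) (LF_ge_PL l hl)
    simp only [Finset.sum_range_succ, Finset.sum_range_zero, q7_p, PL]
    ring) τ u h0 h1 hu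
  refine le_trans ?_ h
  obtain ⟨y, y1, y2, y3, y4, y5⟩ := q7_three
  obtain ⟨x1, x2⟩ := q7_x_bounds
  have hq := Real.exp_pos (-u ^ 2)
  have hw : 0 < τ * u := by positivity
  have hJ2 : Jc (0 + 2) = Real.sqrt (π / 2) := by simp [Jc]
  have hJ3 : Jc (1 + 2) = 2 := by norm_num [Jc]
  have hJ4 : Jc (2 + 2) = 3 * Real.sqrt (π / 2) := by norm_num [Jc]
  have hJ5 : Jc (3 + 2) = 8 := by norm_num [Jc]
  have hJ6 : Jc (4 + 2) = 15 * Real.sqrt (π / 2) := by
    norm_num [Jc]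
    ring
  have hJ7 : Jc (5 + 2) = 48 := by norm_num [Jc]
  have hr1 : (3 : ℝ) ^ (-((1 : ℝ) + 3) / 2) = 1 / 9 := by
    have : (-((1 : ℝ) + 3) / 2) = ((-2 : ℤ) : ℝ) := by norm_num
    rw [this, Real.rpow_intCast]
    norm_num
  have hr3 : (3 : ℝ) ^ (-((3 : ℝ) + 3) / 2) = 1 / 27 := by
    have : (-((3 : ℝ) + 3) / 2) = ((-3 : ℤ) : ℝ) := by norm_num
    rw [this, Real.rpow_intCast]
    norm_num
  have hr5 : (3 : ℝ) ^ (-((5 : ℝ) + 3) / 2) = 1 / 81 := by
    have : (-((5 : ℝ) + 3) / 2) = ((-4 : ℤ) : ℝ) := by norm_num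
    rw [this, Real.rpow_intCast]
    norm_num
  apply mul_le_mul_of_nonneg_left _ hw.le
  simp only [Finset.sum_range_succ, Finset.sum_range_zero, hJ2, hJ3, hJ4, hJ5, hJ6, hJ7, q7_p,
    Qd, Nat.cast_zero, Nat.cast_one, Nat.cast_ofNat, y3, y4, y5, hr1, hr3, hr5]
  set x := Real.sqrt (π / 2)
  set q := Real.exp (-u ^ 2)
  set w := τ * u
  have hx0 : 0 < x := by linarith
  have hw2 : 0 ≤ w ^ 2 := by positivity
  have hw3 : 0 ≤ w ^ 3 := by positivity
  have hw4 : 0 ≤ w ^ 4 := by positivity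
  have c0 : 0.29286 * (1 + q) - 0.05637 ≤ 0.23367 * (x * ((1 + q) - y / 3)) := by
    have e1 : x * y ≤ 1.25332 * 0.577351 := mul_le_mul x2 y2 (by linarith) (by norm_num)
    nlinarith
  have c1 : -(0.12192 * (1 + q) - 0.01354) ≤ -0.06096 * (2 * ((1 + q) - 1 / 9)) := by
    linarith
  have c2 : 0.09497 * (1 + q) - 0.0061 ≤ 0.02526 * (3 * x * ((1 + q) - y / 9)) := by
    have e1 : x * y ≤ 1.25332 * 0.577351 := mul_le_mul x2 y2 (by linarith) (by norm_num)
    nlinarith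
  have c3 : -(0.0381 * (1 + q) - 0.00141) ≤ -0.004762 * (8 * ((1 + q) - 1 / 27)) := by
    linarith
  have c4 : 0.01455 * (1 + q) - 0.00032 ≤ 0.000774 * (15 * x * ((1 + q) - y / 27)) := by
    have e1 : x * y ≤ 1.25332 * 0.577351 := mul_le_mul x2 y2 (by linarith) (by norm_num)
    nlinarith
  have c5 : -(0.00282 * (1 + q) - 0.0000348) ≤ -0.00005875 * (48 * ((1 + q) - 1 / 81)) := by
    linarith
  have d1 := mul_le_mul_of_nonneg_left c1 hw.le
  have d2 := mul_le_mul_of_nonneg_left c2 hw2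
  have d3 := mul_le_mul_of_nonneg_left c3 hw3
  have d4 := mul_le_mul_of_nonneg_left c4 hw4
  have d5 := mul_le_mul_of_nonneg_left c5 (by positivity : (0 : ℝ) ≤ w ^ 5)
  linarith

end Pool.Agent.SSC3N
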