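import Pool.Agent.SSC3N.Defs

/-! Row O3: parity and linear decomposition in `L²` of the Gaussian measure. -/

set_option autoImplicit false
open MeasureTheory ProbabilityTheory Set Real
open scoped ENNReal

namespace Pool.Agent.SSC3N
open Pool.Agent.SSC3

private theorem o3_prob (m : ℕ) : IsProbabilityMeasure (gam m) := by
  unfold gam; infer_instance

private theorem o3_neg1 : MeasurePreserving (fun x : ℝ => -x) (gaussianReal 0 1)
    (gaussianReal 0 1) := by
  refine ⟨measurable_neg, ?_⟩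
  rw [gaussianReal_map_neg, neg_zero]

private theorem o3_neg (m : ℕ) : MeasurePreserving (fun y : Fin m → ℝ => -y) (gam m) (gam m) := by
  have h := measurePreserving_pi (fun _ : Fin m => gaussianReal 0 1)
    (fun _ : Fin m => gaussianReal 0 1) (f := fun _ x => -x) (fun _ => o3_neg1)
  exact h

private theorem o3_rot1 (θ : ℝ) : MeasurePreserving
    (fun p : ℝ × ℝ => (Real.cos θ * p.1 + Real.sin θ * p.2, -Real.sin θ * p.1 + Real.cos θ * p.2))
    ((gaussianReal 0 1).prod (gaussianReal 0 1)) ((gaussianReal 0 1).prod (gaussianReal 0 1)) := by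
  refine ⟨by fun_prop, ?_⟩
  have h := IsGaussian.map_rotation_eq_self (μ := gaussianReal 0 1)
    (by simp only [id_eq]; exact integral_id_gaussianReal) θ
  exact h

private theorem o3_refl1 (τ : ℝ) (h0 : -1 ≤ τ) (h1 : τ ≤ 1) : MeasurePreserving
    (fun p : ℝ × ℝ => (τ * p.1 + Real.sqrt (1 - τ ^ 2) * p.2,
      Real.sqrt (1 - τ ^ 2) * p.1 - τ * p.2))
    ((gaussianReal 0 1).prod (gaussianReal 0 1)) ((gaussianReal 0 1).prod (gaussianReal 0 1)) := by
  have h := o3_rot1 (Real.arccos τ)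
  have h2 : MeasurePreserving (Prod.map (id : ℝ → ℝ) (fun x : ℝ => -x))
      ((gaussianReal 0 1).prod (gaussianReal 0 1)) ((gaussianReal 0 1).prod (gaussianReal 0 1)) :=
    (MeasurePreserving.id _).prod o3_neg1
  have h3 := h2.comp h
  have e : (fun p : ℝ × ℝ => (τ * p.1 + Real.sqrt (1 - τ ^ 2) * p.2,
      Real.sqrt (1 - τ ^ 2) * p.1 - τ * p.2)) = (Prod.map (id : ℝ → ℝ) (fun x : ℝ => -x)) ∘
      (fun p : ℝ × ℝ => (Real.cos (Real.arccos τ) * p.1 + Real.sin (Real.arccos τ) * p.2,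
        -Real.sin (Real.arccos τ) * p.1 + Real.cos (Real.arccos τ) * p.2)) := by
    funext p
    simp only [Function.comp_apply, Prod.map_apply, id_eq]
    rw [Real.cos_arccos h0 h1, Real.sin_arccos]
    congr 1
    ring
  rw [e]
  exact h3

private theorem o3_refl (m : ℕ) (τ : ℝ) (h0 : -1 ≤ τ) (h1 : τ ≤ 1) : MeasurePreserving
    (fun p : (Fin m → ℝ) × (Fin m → ℝ) => (τ • p.1 + Real.sqrt (1 - τ ^ 2) • p.2,
      Real.sqrt (1 - τ ^ 2) • p.1 - τ • p.2))
    ((gam m).prod (gam m)) ((gam m).prod (gam m)) := by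
  have hpi := measurePreserving_pi (fun _ : Fin m => (gaussianReal 0 1).prod (gaussianReal 0 1))
    (fun _ : Fin m => (gaussianReal 0 1).prod (gaussianReal 0 1))
    (f := fun _ p => (τ * p.1 + Real.sqrt (1 - τ ^ 2) * p.2,
      Real.sqrt (1 - τ ^ 2) * p.1 - τ * p.2)) (fun _ => o3_refl1 τ h0 h1)
  have he := measurePreserving_arrowProdEquivProdArrow ℝ ℝ (Fin m) (fun _ => gaussianReal 0 1)
    (fun _ => gaussianReal 0 1)
  have h := he.comp (hpi.comp he.symm)
  exact h

private theorem o3_ou (m : ℕ) (τ : ℝ) (h0 : -1 ≤ τ) (h1 : τ ≤ 1) : MeasurePreserving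
    (fun p : (Fin m → ℝ) × (Fin m → ℝ) => τ • p.1 + Real.sqrt (1 - τ ^ 2) • p.2)
    ((gam m).prod (gam m)) (gam m) := by
  have := o3_prob m
  exact (measurePreserving_fst).comp (o3_refl m τ h0 h1)

private theorem o3_mp_int {α β : Type*} [MeasurableSpace α] [MeasurableSpace β] {μ : Measure α}
    {ν : Measure β} {f : α → β} (h : MeasurePreserving f μ ν) {g : β → ℝ} (hg : Measurable g) :
    ∫ x, g (f x) ∂μ = ∫ y, g y ∂ν := by
  rw [← h.map_eq, integral_map h.measurable.aemeasurable hg.aestronglyMeasurable]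

private theorem o3_coord_memLp (m : ℕ) (j : Fin m) :
    MemLp (fun y : Fin m → ℝ => y j) 2 (gam m) := by
  have h := measurePreserving_eval (fun _ : Fin m => gaussianReal 0 1) j
  have h2 : MemLp (id : ℝ → ℝ) 2 (gaussianReal 0 1) := memLp_id_gaussianReal' 2 (by norm_num)
  exact h2.comp_measurePreserving h

private theorem o3_mean (m : ℕ) (j : Fin m) : ∫ y, y j ∂(gam m) = 0 := by
  unfold gam
  rw [integral_eval]
  exact integral_id_gaussianReal

private theorem o3_second (m : ℕ) (j : Fin m) : ∫ y, y j * y j ∂(gam m) = 1 := by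
  unfold gam
  have h := integral_comp_eval (μ := fun _ : Fin m => gaussianReal 0 1) (i := j)
    (f := fun x : ℝ => x * x) (by fun_prop)
  rw [h]
  have h1 : Var[id; gaussianReal 0 1] = 1 := by
    rw [variance_id_gaussianReal]; simp
  rw [variance_eq_sub (memLp_id_gaussianReal' 2 (by norm_num))] at h1
  have h2 : ∫ x, (id : ℝ → ℝ) x ∂(gaussianReal 0 1) = 0 := integral_id_gaussianReal
  rw [h2] at h1
  have h3 : ∫ x : ℝ, ((id : ℝ → ℝ) ^ 2) x ∂(gaussianReal 0 1) = 1 := by
    simpa using h1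
  rw [← h3]
  apply integral_congr_ae
  filter_upwards with x
  simp only [Pi.pow_apply, id_eq]
  ring

private theorem o3_cross (m : ℕ) (j k : Fin m) (hjk : j ≠ k) :
    ∫ y, y j * y k ∂(gam m) = 0 := by
  have h := measurePreserving_pi (fun _ : Fin m => gaussianReal 0 1)
    (fun _ : Fin m => gaussianReal 0 1) (f := fun i x => if i = j then -x else x) (fun i => by
      by_cases hi : i = j
      · simp only [hi, if_true]
        exact o3_neg1
      · simp only [hi, if_false]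
        exact MeasurePreserving.id _)
  have h2 := o3_mp_int h (g := fun y : Fin m → ℝ => y j * y k) (by fun_prop)
  have h3 : ∫ y : Fin m → ℝ, -(y j * y k) ∂(gam m) = ∫ y, y j * y k ∂(gam m) := by
    rw [show gam m = Measure.pi (fun _ : Fin m => gaussianReal 0 1) from rfl, ← h2]
    apply integral_congr_ae
    filter_upwards with y
    simp only [if_true, Ne.symm hjk, if_false]
    ring
  rw [integral_neg] at h3
  linarith

private theorem o3_bdd_memLp {m : ℕ} {g : (Fin m → ℝ) → ℝ} (hg : Measurable g) {C : ℝ}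
    (hb : ∀ y, |g y| ≤ C) : MemLp g 2 (gam m) := by
  have := o3_prob m
  exact MemLp.of_bound hg.aestronglyMeasurable C (Filter.Eventually.of_forall hb)

/-- `L²` pairing along the Ornstein-Uhlenbeck coupling. -/
private noncomputable def o3B {m : ℕ} (τ : ℝ) (u v : (Fin m → ℝ) → ℝ) : ℝ :=
  ∫ p : (Fin m → ℝ) × (Fin m → ℝ), u p.1 * v (τ • p.1 + Real.sqrt (1 - τ ^ 2) • p.2)
    ∂((gam m).prod (gam m))

private theorem o3B_int {m : ℕ} {τ : ℝ} (h0 : -1 ≤ τ) (h1 : τ ≤ 1) {u v : (Fin m → ℝ) → ℝ}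
    (hu : MemLp u 2 (gam m)) (hv : MemLp v 2 (gam m)) :
    Integrable (fun p : (Fin m → ℝ) × (Fin m → ℝ) =>
      u p.1 * v (τ • p.1 + Real.sqrt (1 - τ ^ 2) • p.2)) ((gam m).prod (gam m)) := by
  have := o3_prob m
  exact (hu.comp_measurePreserving measurePreserving_fst).integrable_mul
    (hv.comp_measurePreserving (o3_ou m τ h0 h1))

private theorem o3_GG_eq {m : ℕ} {τ : ℝ} (h0 : -1 ≤ τ) (h1 : τ ≤ 1) {u v : (Fin m → ℝ) → ℝ}
    (hu : MemLp u 2 (gam m)) (hv : MemLp v 2 (gam m)) : GG τ u v = o3B τ u v := by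
  have := o3_prob m
  unfold GG o3B
  rw [integral_prod _ (o3B_int h0 h1 hu hv)]

private theorem o3B_add_left {m : ℕ} {τ : ℝ} (h0 : -1 ≤ τ) (h1 : τ ≤ 1)
    {u u' v : (Fin m → ℝ) → ℝ} (hu : MemLp u 2 (gam m)) (hu' : MemLp u' 2 (gam m))
    (hv : MemLp v 2 (gam m)) : o3B τ (fun y => u y + u' y) v = o3B τ u v + o3B τ u' v := by
  unfold o3B
  rw [← integral_add (o3B_int h0 h1 hu hv) (o3B_int h0 h1 hu' hv)]
  apply integral_congr_ae
  filter_upwards with p
  ring

private theorem o3B_add_right {m : ℕ} {τ : ℝ} (h0 : -1 ≤ τ) (h1 : τ ≤ 1)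
    {u v v' : (Fin m → ℝ) → ℝ} (hu : MemLp u 2 (gam m)) (hv : MemLp v 2 (gam m))
    (hv' : MemLp v' 2 (gam m)) : o3B τ u (fun y => v y + v' y) = o3B τ u v + o3B τ u v' := by
  unfold o3B
  rw [← integral_add (o3B_int h0 h1 hu hv) (o3B_int h0 h1 hu hv')]
  apply integral_congr_ae
  filter_upwards with p
  ring

private theorem o3B_smul_right {m : ℕ} (τ σ : ℝ) (u v : (Fin m → ℝ) → ℝ) :
    o3B τ u (fun y => σ * v y) = σ * o3B τ u v := by
  unfold o3B
  rw [← integral_const_mul]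
  apply integral_congr_ae
  filter_upwards with p
  ring

private theorem o3B_smul_left {m : ℕ} (τ σ : ℝ) (u v : (Fin m → ℝ) → ℝ) :
    o3B τ (fun y => σ * u y) v = σ * o3B τ u v := by
  unfold o3B
  rw [← integral_const_mul]
  apply integral_congr_ae
  filter_upwards with p
  ring

private theorem o3B_symm {m : ℕ} {τ : ℝ} (h0 : -1 ≤ τ) (h1 : τ ≤ 1)
    {u v : (Fin m → ℝ) → ℝ} (hu : Measurable u) (hv : Measurable v) :
    o3B τ u v = o3B τ v u := by
  have h := o3_mp_int (o3_refl m τ h0 h1)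
    (g := fun p : (Fin m → ℝ) × (Fin m → ℝ) =>
      v p.1 * u (τ • p.1 + Real.sqrt (1 - τ ^ 2) • p.2)) (by fun_prop)
  unfold o3B
  rw [← h]
  apply integral_congr_ae
  filter_upwards with p
  have hs : Real.sqrt (1 - τ ^ 2) * Real.sqrt (1 - τ ^ 2) = 1 - τ ^ 2 :=
    Real.mul_self_sqrt (by nlinarith)
  have e : τ • (τ • p.1 + Real.sqrt (1 - τ ^ 2) • p.2) +
      Real.sqrt (1 - τ ^ 2) • (Real.sqrt (1 - τ ^ 2) • p.1 - τ • p.2) = p.1 := by
    funext j
    simp only [Pi.add_apply, Pi.smul_apply, Pi.sub_apply, smul_eq_mul]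
    linear_combination (p.1 j) * hs
  rw [e]
  ring

private theorem o3B_parity {m : ℕ} (τ : ℝ)
    {u v : (Fin m → ℝ) → ℝ} (hu : Measurable u) (hv : Measurable v)
    (hue : ∀ y, u (-y) = u y) (hvo : ∀ y, v (-y) = -v y) : o3B τ u v = 0 := by
  have := o3_prob m
  have h := o3_mp_int ((o3_neg m).prod (o3_neg m))
    (g := fun p : (Fin m → ℝ) × (Fin m → ℝ) =>
      u p.1 * v (τ • p.1 + Real.sqrt (1 - τ ^ 2) • p.2)) (by fun_prop)
  have h2 : o3B τ u v = -o3B τ u v := by
    conv_lhs => unfold o3B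
    rw [← h]
    unfold o3B
    rw [← integral_neg]
    apply integral_congr_ae
    filter_upwards with p
    simp only [Prod.map_fst, Prod.map_snd]
    rw [hue]
    have e : τ • (-p.1) + Real.sqrt (1 - τ ^ 2) • (-p.2) =
        -(τ • p.1 + Real.sqrt (1 - τ ^ 2) • p.2) := by
      rw [smul_neg, smul_neg, neg_add]
    rw [e, hvo]
    ring
  linarith

private theorem o3B_coord_right {m : ℕ} {τ : ℝ} {u : (Fin m → ℝ) → ℝ}
    (hu : MemLp u 2 (gam m)) (k : Fin m) :
    o3B τ u (fun y => y k) = τ * ∫ y, y k * u y ∂(gam m) := by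
  have := o3_prob m
  unfold o3B
  have hi1 : Integrable (fun y => u y * y k) (gam m) := hu.integrable_mul (o3_coord_memLp m k)
  have hi2 : Integrable (fun p : (Fin m → ℝ) × (Fin m → ℝ) => u p.1 * p.1 k)
      ((gam m).prod (gam m)) := hi1.comp_fst _
  have hi3 : Integrable (fun p : (Fin m → ℝ) × (Fin m → ℝ) => u p.1 * p.2 k)
      ((gam m).prod (gam m)) :=
    (hu.integrable (by norm_num)).mul_prod ((o3_coord_memLp m k).integrable (by norm_num))
  have e : ∀ p : (Fin m → ℝ) × (Fin m → ℝ),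
      u p.1 * (τ • p.1 + Real.sqrt (1 - τ ^ 2) • p.2) k =
      τ * (u p.1 * p.1 k) + Real.sqrt (1 - τ ^ 2) * (u p.1 * p.2 k) := by
    intro p
    simp only [Pi.add_apply, Pi.smul_apply, smul_eq_mul]
    ring
  rw [integral_congr_ae (Filter.Eventually.of_forall e),
    integral_add (hi2.const_mul _) (hi3.const_mul _), integral_const_mul, integral_const_mul]
  have e2 : ∫ p : (Fin m → ℝ) × (Fin m → ℝ), u p.1 * p.2 k ∂((gam m).prod (gam m)) = 0 := by
    rw [integral_prod_mul u (fun y : Fin m → ℝ => y k), o3_mean, mul_zero]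
  have e3 : ∫ p : (Fin m → ℝ) × (Fin m → ℝ), u p.1 * p.1 k ∂((gam m).prod (gam m)) =
      ∫ y, y k * u y ∂(gam m) := by
    rw [integral_fun_fst (fun y => u y * y k)]
    simp only [probReal_univ, one_smul]
    apply integral_congr_ae
    filter_upwards with y
    ring
  rw [e2, e3]
  ring

private theorem o3_ell_memLp {m : ℕ} (c : Fin m → ℝ) :
    MemLp (fun y : Fin m → ℝ => ∑ j, c j * y j) 2 (gam m) :=
  memLp_finsetSum _ (fun j _ => (o3_coord_memLp m j).const_mul (c j))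

private theorem o3_int_ell {m : ℕ} (c : Fin m → ℝ) (k : Fin m) :
    ∫ y, y k * ∑ j, c j * y j ∂(gam m) = c k := by
  have e : ∀ y : Fin m → ℝ, y k * ∑ j, c j * y j = ∑ j, c j * (y k * y j) := by
    intro y
    rw [Finset.mul_sum]
    exact Finset.sum_congr rfl (fun j _ => by ring)
  have hint : ∀ j : Fin m, Integrable (fun y : Fin m → ℝ => y k * y j) (gam m) := fun j =>
    (o3_coord_memLp m k).integrable_mul (o3_coord_memLp m j)
  rw [integral_congr_ae (Filter.Eventually.of_forall e),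
    integral_finsetSum _ (fun j _ => (hint j).const_mul _)]
  rw [Finset.sum_eq_single k]
  · rw [integral_const_mul, o3_second, mul_one]
  · intro j _ hj
    rw [integral_const_mul, o3_cross m k j hj.symm, mul_zero]
  · intro h
    exact absurd (Finset.mem_univ k) h

private theorem o3B_ell_right {m : ℕ} {τ : ℝ} (h0 : -1 ≤ τ) (h1 : τ ≤ 1)
    {u : (Fin m → ℝ) → ℝ} (hu : MemLp u 2 (gam m)) (c : Fin m → ℝ) :
    o3B τ u (fun y => ∑ k, c k * y k) = τ * ∑ k, c k * ∫ y, y k * u y ∂(gam m) := by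
  have e : ∀ p : (Fin m → ℝ) × (Fin m → ℝ),
      u p.1 * ∑ k, c k * (τ • p.1 + Real.sqrt (1 - τ ^ 2) • p.2) k =
      ∑ k, c k * (u p.1 * (τ • p.1 + Real.sqrt (1 - τ ^ 2) • p.2) k) := by
    intro p
    rw [Finset.mul_sum]
    exact Finset.sum_congr rfl (fun j _ => by ring)
  have hint : ∀ k : Fin m, Integrable (fun p : (Fin m → ℝ) × (Fin m → ℝ) =>
      u p.1 * (τ • p.1 + Real.sqrt (1 - τ ^ 2) • p.2) k) ((gam m).prod (gam m)) := fun k =>
    o3B_int h0 h1 hu (o3_coord_memLp m k)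
  unfold o3B
  rw [integral_congr_ae (Filter.Eventually.of_forall e),
    integral_finsetSum _ (fun k _ => (hint k).const_mul _), Finset.mul_sum]
  apply Finset.sum_congr rfl
  intro k _
  rw [integral_const_mul]
  have := o3B_coord_right (τ := τ) hu k
  unfold o3B at this
  rw [this]
  ring

private theorem o3_evp_meas {m : ℕ} {g : (Fin m → ℝ) → ℝ} (hg : Measurable g) :
    Measurable (evp g) := by
  unfold evp
  fun_prop

private theorem o3_evp_even {m : ℕ} (g : (Fin m → ℝ) → ℝ) (y : Fin m → ℝ) :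
    evp g (-y) = evp g y := by
  unfold evp
  rw [neg_neg]
  ring

private theorem o3_evp_memLp {m : ℕ} {g : (Fin m → ℝ) → ℝ} (hg : Measurable g)
    (hb : ∀ y, |g y| ≤ 1) : MemLp (evp g) 2 (gam m) := by
  apply o3_bdd_memLp (o3_evp_meas hg) (C := 1)
  intro y
  unfold evp
  have h1 := hb y
  have h2 := hb (-y)
  rw [abs_le] at *
  constructor <;> linarith

private theorem o3_oddp_memLp {m : ℕ} {g : (Fin m → ℝ) → ℝ} (hg : Measurable g)
    (hb : ∀ y, |g y| ≤ 1) : MemLp (fun y => (g y - g (-y)) / 2) 2 (gam m) := by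
  apply o3_bdd_memLp (by fun_prop) (C := 1)
  intro y
  have h1 := hb y
  have h2 := hb (-y)
  rw [abs_le] at *
  constructor <;> linarith

private theorem o3_o3p_memLp {m : ℕ} {g : (Fin m → ℝ) → ℝ} (hg : Measurable g)
    (hb : ∀ y, |g y| ≤ 1) : MemLp (o3p g) 2 (gam m) :=
  (o3_oddp_memLp hg hb).sub (o3_ell_memLp (cj g))

private theorem o3_o3p_meas {m : ℕ} {g : (Fin m → ℝ) → ℝ} (hg : Measurable g) :
    Measurable (o3p g) := by
  unfold o3p
  fun_prop

private theorem o3_o3p_odd {m : ℕ} (g : (Fin m → ℝ) → ℝ) (y : Fin m → ℝ) :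
    o3p g (-y) = -o3p g y := by
  unfold o3p
  rw [neg_neg]
  have : ∑ j, cj g j * (-y) j = -∑ j, cj g j * y j := by
    rw [← Finset.sum_neg_distrib]
    exact Finset.sum_congr rfl (fun j _ => by simp only [Pi.neg_apply]; ring)
  rw [this]
  ring

private theorem o3_ell_odd {m : ℕ} (c : Fin m → ℝ) (y : Fin m → ℝ) :
    ∑ j, c j * (-y) j = -∑ j, c j * y j := by
  rw [← Finset.sum_neg_distrib]
  exact Finset.sum_congr rfl (fun j _ => by simp only [Pi.neg_apply]; ring)

private theorem o3_o3p_orth {m : ℕ} {g : (Fin m → ℝ) → ℝ} (hg : Measurable g)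
    (hb : ∀ y, |g y| ≤ 1) (j : Fin m) : ∫ y, y j * o3p g y ∂(gam m) = 0 := by
  have hg2 : MemLp g 2 (gam m) := o3_bdd_memLp hg hb
  have hg3 : MemLp (fun y => g (-y)) 2 (gam m) := o3_bdd_memLp (by fun_prop) (fun y => hb (-y))
  have i1 : Integrable (fun y => y j * g y) (gam m) := (o3_coord_memLp m j).integrable_mul hg2
  have i2 : Integrable (fun y => y j * g (-y)) (gam m) := (o3_coord_memLp m j).integrable_mul hg3
  have i3 : Integrable (fun y : Fin m → ℝ => y j * ∑ k, cj g k * y k) (gam m) :=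
    (o3_coord_memLp m j).integrable_mul (o3_ell_memLp (cj g))
  have h1 : ∫ y, y j * g (-y) ∂(gam m) = -cj g j := by
    have h := o3_mp_int (o3_neg m) (g := fun y : Fin m → ℝ => y j * g (-y)) (by fun_prop)
    rw [← h]
    unfold cj
    rw [← integral_neg]
    apply integral_congr_ae
    filter_upwards with y
    rw [neg_neg]
    simp only [Pi.neg_apply]
    ring
  have e : ∀ y : Fin m → ℝ, y j * o3p g y =
      (1 / 2) * (y j * g y) - (1 / 2) * (y j * g (-y)) - y j * ∑ k, cj g k * y k := by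
    intro y
    unfold o3p
    ring
  have i12 : Integrable (fun y : Fin m → ℝ => (1 / 2) * (y j * g y) - (1 / 2) * (y j * g (-y)))
      (gam m) := (i1.const_mul _).sub (i2.const_mul _)
  rw [integral_congr_ae (Filter.Eventually.of_forall e), integral_sub i12 i3,
    integral_sub (i1.const_mul _) (i2.const_mul _), integral_const_mul, integral_const_mul, h1,
    o3_int_ell]
  have : ∫ y, y j * g y ∂(gam m) = cj g j := rfl
  rw [this]
  ring

private theorem o3_main {m : ℕ} {τ : ℝ} (h0 : -1 ≤ τ) (h1 : τ ≤ 1) (σ : ℝ)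
    {g h : (Fin m → ℝ) → ℝ} (hg : Measurable g) (hh : Measurable h)
    (hgb : ∀ y, |g y| ≤ 1) (hhb : ∀ y, |h y| ≤ 1) :
    o3B τ (fun y => (evp g y + ∑ j, cj g j * y j) + o3p g y)
      (fun y => (evp h y + σ * ∑ j, cj h j * y j) + σ * o3p h y) =
    o3B τ (evp g) (evp h) + σ * (τ * ∑ j, cj g j * cj h j) + σ * o3B τ (o3p g) (o3p h) := by
  have e1 := o3_evp_memLp hg hgb
  have e2 := o3_evp_memLp hh hhb
  have l1 := o3_ell_memLp (cj g)
  have l2 := o3_ell_memLp (cj h)
  have o1 := o3_o3p_memLp hg hgb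
  have o2 := o3_o3p_memLp hh hhb
  have l2' := l2.const_mul σ
  have o2' := o2.const_mul σ
  have lm1 : Measurable (fun y : Fin m → ℝ => ∑ j, cj g j * y j) := by fun_prop
  have lm2 : Measurable (fun y : Fin m → ℝ => ∑ j, cj h j * y j) := by fun_prop
  have el1 : MemLp (fun y => evp g y + ∑ j, cj g j * y j) 2 (gam m) := e1.add l1
  have el2 : MemLp (fun y => evp h y + σ * ∑ j, cj h j * y j) 2 (gam m) := e2.add l2'
  have elo2 : MemLp (fun y => (evp h y + σ * ∑ j, cj h j * y j) + σ * o3p h y) 2 (gam m) :=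
    el2.add o2'
  have hright : ∀ u : (Fin m → ℝ) → ℝ, MemLp u 2 (gam m) →
      o3B τ u (fun y => (evp h y + σ * ∑ j, cj h j * y j) + σ * o3p h y) =
      o3B τ u (evp h) + σ * o3B τ u (fun y => ∑ j, cj h j * y j) + σ * o3B τ u (o3p h) := by
    intro u hu
    rw [o3B_add_right h0 h1 hu el2 o2', o3B_add_right h0 h1 hu e2 l2',
      o3B_smul_right, o3B_smul_right]
  rw [o3B_add_left h0 h1 el1 o1 elo2,
    o3B_add_left h0 h1 e1 l1 elo2, hright _ e1, hright _ l1, hright _ o1]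
  have t1 : o3B τ (evp g) (fun y => ∑ j, cj h j * y j) = 0 :=
    o3B_parity τ (o3_evp_meas hg) lm2 (o3_evp_even g) (o3_ell_odd _)
  have t2 : o3B τ (evp g) (o3p h) = 0 :=
    o3B_parity τ (o3_evp_meas hg) (o3_o3p_meas hh) (o3_evp_even g) (o3_o3p_odd h)
  have t3 : o3B τ (fun y => ∑ j, cj g j * y j) (evp h) = 0 := by
    rw [o3B_symm h0 h1 lm1 (o3_evp_meas hh)]
    exact o3B_parity τ (o3_evp_meas hh) lm1 (o3_evp_even h) (o3_ell_odd _)
  have t4 : o3B τ (fun y => ∑ j, cj g j * y j) (fun y => ∑ j, cj h j * y j) =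
      τ * ∑ j, cj g j * cj h j := by
    rw [o3B_ell_right h0 h1 l1]
    congr 1
    apply Finset.sum_congr rfl
    intro k _
    rw [o3_int_ell]
    ring
  have t5 : o3B τ (fun y => ∑ j, cj g j * y j) (o3p h) = 0 := by
    rw [o3B_symm h0 h1 lm1 (o3_o3p_meas hh), o3B_ell_right h0 h1 o2]
    rw [Finset.sum_eq_zero (fun k _ => by rw [o3_o3p_orth hh hhb k, mul_zero]), mul_zero]
  have t6 : o3B τ (o3p g) (evp h) = 0 := by
    rw [o3B_symm h0 h1 (o3_o3p_meas hg) (o3_evp_meas hh)]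
    exact o3B_parity τ (o3_evp_meas hh) (o3_o3p_meas hg) (o3_evp_even h) (o3_o3p_odd g)
  have t7 : o3B τ (o3p g) (fun y => ∑ j, cj h j * y j) = 0 := by
    rw [o3B_ell_right h0 h1 o1]
    rw [Finset.sum_eq_zero (fun k _ => by rw [o3_o3p_orth hg hgb k, mul_zero]), mul_zero]
  rw [t1, t2, t3, t4, t5, t6, t7]
  ring

private theorem o3_split {m : ℕ} (g : (Fin m → ℝ) → ℝ) :
    (fun y => (evp g y + ∑ j, cj g j * y j) + o3p g y) = g := by
  funext y
  unfold evp o3p
  ring

theorem GG_decomp {m : ℕ} (τ : ℝ) (h0 : 0 ≤ τ) (h1 : τ ≤ 1) (g h : (Fin m → ℝ) → ℝ)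
    (hg : Measurable g) (hh : Measurable h) (hgb : ∀ y, |g y| ≤ 1) (hhb : ∀ y, |h y| ≤ 1) :
    GG (-τ) g h = GG τ (evp g) (evp h) - τ * ∑ j, cj g j * cj h j - GG τ (o3p g) (o3p h) := by
  have := o3_prob m
  have h0' : -1 ≤ τ := by linarith
  rw [o3_GG_eq (τ := -τ) (by linarith) (by linarith) (o3_bdd_memLp hg hgb) (o3_bdd_memLp hh hhb),
    o3_GG_eq h0' h1 (o3_evp_memLp hg hgb) (o3_evp_memLp hh hhb),
    o3_GG_eq h0' h1 (o3_o3p_memLp hg hgb) (o3_o3p_memLp hh hhb)]
  have key : o3B (-τ) g h = o3B τ g (fun y => h (-y)) := by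
    have hmp := o3_mp_int ((MeasurePreserving.id (gam m)).prod (o3_neg m))
      (g := fun p : (Fin m → ℝ) × (Fin m → ℝ) =>
        g p.1 * h ((-τ) • p.1 + Real.sqrt (1 - (-τ) ^ 2) • p.2)) (by fun_prop)
    unfold o3B
    rw [← hmp]
    apply integral_congr_ae
    filter_upwards with p
    simp only [Prod.map_fst, Prod.map_snd, id_eq]
    have e : (-τ) • p.1 + Real.sqrt (1 - (-τ) ^ 2) • (-p.2) =
        -(τ • p.1 + Real.sqrt (1 - τ ^ 2) • p.2) := by
      rw [neg_sq, smul_neg, neg_smul, neg_add]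
    rw [e]
  rw [key]
  have m1 := o3_main h0' h1 (-1) hg hh hgb hhb
  rw [o3_split] at m1
  have e2 : (fun y => (evp h y + (-1) * ∑ j, cj h j * y j) + (-1) * o3p h y) =
      fun y => h (-y) := by
    funext y
    unfold evp o3p
    ring
  rw [e2] at m1
  rw [m1]
  ring

theorem norm_decomp {m : ℕ} (g : (Fin m → ℝ) → ℝ) (hg : Measurable g) (hgb : ∀ y, |g y| ≤ 1) :
    ∫ y, (g y) ^ 2 ∂(gam m) = (∫ y, (evp g y) ^ 2 ∂(gam m)) + ∑ j, (cj g j) ^ 2 +
      ∫ y, (o3p g y) ^ 2 ∂(gam m) := by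
  have := o3_prob m
  have hdiag : ∀ u : (Fin m → ℝ) → ℝ, o3B 1 u u = ∫ y, (u y) ^ 2 ∂(gam m) := by
    intro u
    unfold o3B
    have e : ∀ p : (Fin m → ℝ) × (Fin m → ℝ),
        u p.1 * u ((1 : ℝ) • p.1 + Real.sqrt (1 - 1 ^ 2) • p.2) = (u p.1) ^ 2 := by
      intro p
      have : (1 : ℝ) • p.1 + Real.sqrt (1 - 1 ^ 2) • p.2 = p.1 := by
        simp
      rw [this]
      ring
    rw [integral_congr_ae (Filter.Eventually.of_forall e),
      integral_fun_fst (fun y => (u y) ^ 2)]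
    simp only [probReal_univ, one_smul]
  have m1 := o3_main (τ := 1) (by norm_num) le_rfl 1 hg hg hgb hgb
  have e2 : (fun y => (evp g y + 1 * ∑ j, cj g j * y j) + 1 * o3p g y) = g := by
    funext y
    unfold evp o3p
    ring
  rw [o3_split, e2, hdiag, hdiag, hdiag] at m1
  rw [m1]
  have e3 : ∑ j, cj g j * cj g j = ∑ j, (cj g j) ^ 2 :=
    Finset.sum_congr rfl (fun j _ => by ring)
  rw [e3]
  ring

private theorem o3_cj_le {m : ℕ} {g : (Fin m → ℝ) → ℝ} (hgb : ∀ y, |g y| ≤ 1)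
    (j : Fin m) : |cj g j| ≤ 1 := by
  have := o3_prob m
  have hi : Integrable (fun y : Fin m → ℝ => y j * y j) (gam m) :=
    (o3_coord_memLp m j).integrable_mul (o3_coord_memLp m j)
  have hb : Integrable (fun y : Fin m → ℝ => (1 : ℝ) / 2 + 1 / 2 * (y j * y j)) (gam m) :=
    (integrable_const _).add (hi.const_mul _)
  have h := norm_integral_le_of_norm_le hb (f := fun y => y j * g y)
    (Filter.Eventually.of_forall (fun y => by
      rw [Real.norm_eq_abs, abs_mul]
      have h1 := hgb y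
      have h2 := abs_nonneg (y j)
      have h3 : |y j| * |g y| ≤ |y j| := mul_le_of_le_one_right h2 h1
      have h4 : |y j| * |y j| = y j * y j := abs_mul_abs_self _
      nlinarith [sq_nonneg (|y j| - 1)]))
  rw [Real.norm_eq_abs] at h
  have e : ∫ y : Fin m → ℝ, ((1 : ℝ) / 2 + 1 / 2 * (y j * y j)) ∂(gam m) = 1 := by
    rw [integral_add (integrable_const _) (hi.const_mul _), integral_const_mul, o3_second]
    simp only [integral_const, probReal_univ, one_smul]
    norm_num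
  rw [e] at h
  exact h

theorem o3p_props {m : ℕ} (g : (Fin m → ℝ) → ℝ) (hg : Measurable g) (hgb : ∀ y, |g y| ≤ 1) :
    Measurable (o3p g) ∧ (∀ y, |o3p g y| ≤ 1 * (1 + ∑ j, |y j|)) ∧ (∀ y, o3p g (-y) = -o3p g y) ∧
      (∀ j, ∫ y, y j * o3p g y ∂(gam m) = 0) ∧ (∀ j, |cj g j| ≤ 1) ∧
      (0 ≤ ∫ y, (o3p g y) ^ 2 ∂(gam m)) ∧ (∫ y, (o3p g y) ^ 2 ∂(gam m) ≤ 1) := by
  have := o3_prob m
  refine ⟨o3_o3p_meas hg, ?_, o3_o3p_odd g, o3_o3p_orth hg hgb, o3_cj_le hgb,
    integral_nonneg (fun y => sq_nonneg _), ?_⟩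
  · intro y
    unfold o3p
    have h1 := hgb y
    have h2 := hgb (-y)
    have h3 : |(g y - g (-y)) / 2| ≤ 1 := by
      rw [abs_le] at *
      constructor <;> linarith
    have h4 : |∑ j, cj g j * y j| ≤ ∑ j, |y j| := by
      refine (Finset.abs_sum_le_sum_abs _ _).trans (Finset.sum_le_sum (fun j _ => ?_))
      rw [abs_mul]
      exact mul_le_of_le_one_left (abs_nonneg _) (o3_cj_le hgb j)
    have h5 := abs_sub ((g y - g (-y)) / 2) (∑ j, cj g j * y j)
    linarith
  · have h := norm_decomp g hg hgb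
    have h1 : ∫ y, (g y) ^ 2 ∂(gam m) ≤ 1 := by
      have e : ∫ _y : Fin m → ℝ, (1 : ℝ) ∂(gam m) = 1 := by simp
      rw [← e]
      apply integral_mono_of_nonneg (Filter.Eventually.of_forall (fun y => sq_nonneg _))
        (integrable_const _)
      refine Filter.Eventually.of_forall (fun y => ?_)
      have := hgb y
      show (g y) ^ 2 ≤ 1
      rw [← sq_abs]
      nlinarith [abs_nonneg (g y)]
    have h2 : 0 ≤ ∫ y, (evp g y) ^ 2 ∂(gam m) := integral_nonneg (fun y => sq_nonneg _)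
    have h3 : 0 ≤ ∑ j, (cj g j) ^ 2 := Finset.sum_nonneg (fun j _ => sq_nonneg _)
    linarith

theorem cj_measurable {m : ℕ} (f : ℝ → (Fin m → ℝ) → ℝ)
    (hf : Measurable (Function.uncurry f)) (j : Fin m) :
    Measurable (fun u => cj (f u) j) := by
  have := o3_prob m
  unfold cj
  have h : Measurable (Function.uncurry (fun (u : ℝ) (y : Fin m → ℝ) => y j * f u y)) := by
    apply Measurable.mul
    · exact (measurable_pi_apply j).comp measurable_snd
    · exact hf
  exact (h.stronglyMeasurable.integral_prod_right (ν := gam m)).measurable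

theorem o3_measurable {m : ℕ} (f : ℝ → (Fin m → ℝ) → ℝ)
    (hf : Measurable (Function.uncurry f)) :
    Measurable (fun u => ∫ y, (o3p (f u) y) ^ 2 ∂(gam m)) := by
  have := o3_prob m
  have h : Measurable (Function.uncurry (fun (u : ℝ) (y : Fin m → ℝ) => (o3p (f u) y) ^ 2)) := by
    have h1 : Measurable (fun p : ℝ × (Fin m → ℝ) => f p.1 p.2) := hf
    have h2 : Measurable (fun p : ℝ × (Fin m → ℝ) => f p.1 (-p.2)) :=
      hf.comp (measurable_fst.prodMk measurable_snd.neg)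
    have h3 : Measurable (fun p : ℝ × (Fin m → ℝ) => ∑ j, cj (f p.1) j * p.2 j) := by
      apply Finset.measurable_sum
      intro j _
      exact ((cj_measurable f hf j).comp measurable_fst).mul
        ((measurable_pi_apply j).comp measurable_snd)
    exact (((h1.sub h2).div_const 2).sub h3).pow_const 2
  exact (h.stronglyMeasurable.integral_prod_right (ν := gam m)).measurable

end Pool.Agent.SSC3N
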