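import Mathlib

set_option autoImplicit false
open MeasureTheory ProbabilityTheory Set Real
open scoped ENNReal

namespace Pool.Agent.SSC3N

theorem exists_rot (n : ℕ) (hn : 2 ≤ n) (b c : Fin n → ℝ) :
    ∃ Q ∈ Matrix.orthogonalGroup (Fin n) ℝ, ∀ k : Fin n, 2 ≤ (k : ℕ) →
      Q.mulVec b k = 0 ∧ Q.mulVec c k = 0 := by
  classical
  let b' : EuclideanSpace ℝ (Fin n) := WithLp.toLp 2 b
  let c' : EuclideanSpace ℝ (Fin n) := WithLp.toLp 2 c
  let W : Submodule ℝ (EuclideanSpace ℝ (Fin n)) := Submodule.span ℝ {b', c'}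
  have hbW : b' ∈ W := Submodule.subset_span (by simp)
  have hcW : c' ∈ W := Submodule.subset_span (by simp)
  have hd : Module.finrank ℝ W ≤ 2 := by
    have h1 := finrank_span_le_card (R := ℝ) ({b', c'} : Set (EuclideanSpace ℝ (Fin n)))
    refine h1.trans ?_
    rw [Set.toFinset_card]
    have h2 : Fintype.card ({b', c'} : Set (EuclideanSpace ℝ (Fin n))) ≤ 2 := by
      rw [← Set.toFinset_card]
      simpa using Finset.card_le_two (a := b') (b := c')
    simpa using h2
  set d := Module.finrank ℝ W with hddef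
  let u : OrthonormalBasis (Fin d) ℝ W := stdOrthonormalBasis ℝ W
  let v : Fin n → EuclideanSpace ℝ (Fin n) := fun k =>
    if h : (k : ℕ) < d then (u ⟨k, h⟩ : EuclideanSpace ℝ (Fin n)) else 0
  let s : Set (Fin n) := {k | (k : ℕ) < d}
  have hv : Orthonormal ℝ (s.domRestrict v) := by
    have h1 : Orthonormal ℝ (fun k : Fin d => (u k : EuclideanSpace ℝ (Fin n))) := by
      have := u.orthonormal
      exact this.comp_linearIsometry W.subtypeₗᵢ
    have h2 : s.domRestrict v = (fun k : Fin d => (u k : EuclideanSpace ℝ (Fin n))) ∘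
        (fun k : s => (⟨(k : Fin n), k.2⟩ : Fin d)) := by
      funext k
      have hk : ((k : Fin n) : ℕ) < d := k.2
      show (if h : ((k : Fin n) : ℕ) < d then (u ⟨k, h⟩ : EuclideanSpace ℝ (Fin n)) else 0) = _
      rw [dif_pos hk]
      rfl
    rw [h2]
    refine h1.comp _ ?_
    intro x y hxy
    have : ((x : Fin n) : ℕ) = ((y : Fin n) : ℕ) := by simpa using congrArg Fin.val hxy
    exact Subtype.ext (Fin.ext this)
  obtain ⟨B, hB⟩ := hv.exists_orthonormalBasis_extension_of_card_eq
    (by simp : Module.finrank ℝ (EuclideanSpace ℝ (Fin n)) = Fintype.card (Fin n))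
  have hperp : ∀ k : Fin n, 2 ≤ (k : ℕ) → ∀ w ∈ W, inner ℝ (B k) w = 0 := by
    intro k hk w hw
    have hdn : ∀ i : Fin d, (i : ℕ) < n := fun i => lt_of_lt_of_le i.2 (hd.trans hn)
    have h1 : ∀ i : Fin d, inner ℝ (B k) (u i : EuclideanSpace ℝ (Fin n)) = 0 := by
      intro i
      have h2 : B ⟨i, hdn i⟩ = (u i : EuclideanSpace ℝ (Fin n)) := by
        rw [hB ⟨i, hdn i⟩ (show ((⟨i, hdn i⟩ : Fin n) : ℕ) < d from i.2)]
        simp [v, i.2]
      rw [← h2]
      apply B.orthonormal.2
      intro h3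
      have := congrArg Fin.val h3
      simp at this
      have hi := i.2
      omega
    have h3 : w = ∑ i, (u.repr ⟨w, hw⟩ i) • (u i : EuclideanSpace ℝ (Fin n)) := by
      have := u.sum_repr ⟨w, hw⟩
      have h4 := congrArg (fun x : W => (x : EuclideanSpace ℝ (Fin n))) this
      simpa using h4.symm
    rw [h3, inner_sum]
    refine Finset.sum_eq_zero fun i _ => ?_
    rw [inner_smul_right, h1 i, mul_zero]
  refine ⟨Matrix.of fun i j => B i j, ?_, ?_⟩
  · rw [Matrix.mem_orthogonalGroup_iff]
    ext i j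
    have h1 := B.orthonormal
    rw [orthonormal_iff_ite] at h1
    have h2 := h1 j i
    rw [Matrix.mul_apply, Matrix.one_apply]
    rw [PiLp.inner_apply] at h2
    simp only [RCLike.inner_apply, conj_trivial] at h2
    have h3 : ∀ l, (Matrix.of fun i j => (B i).ofLp j : Matrix (Fin n) (Fin n) ℝ) i l *
        (Matrix.of fun i j => (B i).ofLp j : Matrix (Fin n) (Fin n) ℝ).transpose l j =
        (B i).ofLp l * (B j).ofLp l := by
      intro l
      simp [Matrix.transpose_apply]
    refine (Finset.sum_congr rfl fun l _ => h3 l).trans ?_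
    rw [h2]
    by_cases hij : i = j
    · simp [hij]
    · simp [hij, Ne.symm hij]
  · intro k hk
    have h1 := hperp k hk b' hbW
    have h2 := hperp k hk c' hcW
    rw [PiLp.inner_apply] at h1 h2
    simp only [RCLike.inner_apply, conj_trivial] at h1 h2
    constructor
    · simpa [Matrix.mulVec, dotProduct, b', mul_comm] using h1
    · simpa [Matrix.mulVec, dotProduct, c', mul_comm] using h2

end Pool.Agent.SSC3N
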