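import Mathlib

set_option autoImplicit false
open MeasureTheory ProbabilityTheory Set Real
open scoped ENNReal

namespace Pool.Agent.SSC3N

/-- final inequality, `u ≥ 2` -/
theorem fin_large (u τ : ℝ) (hu : 2 ≤ u) (h0 : 0 < τ) (h1 : τ ≤ 1 / 2) :
    τ ^ 2 * (0.79052 - 0.1458 * (τ * u) + 0.14331 * (τ * u) ^ 2) ≤
      (1 - 0.6 * Real.exp (-(u ^ 2 / 2)) + 0.055 * u ^ 2) * (0.187 - 0.261 * τ ^ 6) := by
  have hz : Real.exp (-(u ^ 2 / 2)) ≤ 0.1354 := by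
    have h2 : Real.exp (-(u ^ 2 / 2)) ≤ Real.exp (-2) := by
      apply Real.exp_le_exp.mpr; nlinarith
    have h3 : Real.exp (-2) ≤ 0.1354 := by
      have e1 : Real.exp (-2) = 1 / (Real.exp 1) ^ 2 := by
        rw [← Real.exp_nat_mul, one_div, ← Real.exp_neg]; norm_num
      rw [e1]
      have := Real.exp_one_gt_d9
      rw [div_le_iff₀ (by positivity)]
      nlinarith
    linarith
  have h6 : τ ^ 6 ≤ 1 / 64 := by
    calc τ ^ 6 ≤ (1 / 2) ^ 6 := pow_le_pow_left₀ h0.le h1 6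
      _ = 1 / 64 := by norm_num
  have hA : 0.91876 + 0.055 * u ^ 2 ≤ 1 - 0.6 * Real.exp (-(u ^ 2 / 2)) + 0.055 * u ^ 2 := by linarith
  have hB : 0.1829 ≤ 0.187 - 0.261 * τ ^ 6 := by linarith
  have hC : (0.91876 + 0.055 * u ^ 2) * 0.1829 ≤
      (1 - 0.6 * Real.exp (-(u ^ 2 / 2)) + 0.055 * u ^ 2) * (0.187 - 0.261 * τ ^ 6) := by
    apply mul_le_mul hA hB (by norm_num)
    nlinarith
  refine le_trans ?_ hC
  -- monotone in τ
  have hw : τ * u ≤ u / 2 := by nlinarith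
  have hw0 : 0 ≤ τ * u := by positivity
  have h4 : τ ^ 2 ≤ 1 / 4 := by nlinarith
  have key : τ ^ 2 * (0.79052 - 0.1458 * (τ * u) + 0.14331 * (τ * u) ^ 2) ≤
      1 / 4 * (0.79052 - 0.1458 * (u / 2) + 0.14331 * (u / 2) ^ 2) := by
    -- with s = 2τ ∈ (0,1]
    have hs : 0 ≤ 1 - 2 * τ := by linarith
    have hfac : 1 / 4 * (0.79052 - 0.1458 * (u / 2) + 0.14331 * (u / 2) ^ 2) -
        τ ^ 2 * (0.79052 - 0.1458 * (τ * u) + 0.14331 * (τ * u) ^ 2) =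
        (1 - 2 * τ) * ((1 + 2 * τ) / 4 * 0.79052 - 0.0729 / 4 * u * (1 + 2 * τ + 4 * τ ^ 2)
          + 0.14331 / 16 * u ^ 2 * (1 + 2 * τ) * (1 + 4 * τ ^ 2)) := by ring
    have hpos : 0 ≤ (1 + 2 * τ) / 4 * 0.79052 - 0.0729 / 4 * u * (1 + 2 * τ + 4 * τ ^ 2)
          + 0.14331 / 16 * u ^ 2 * (1 + 2 * τ) * (1 + 4 * τ ^ 2) := by
      have a1 : 1 + 2 * τ + 4 * τ ^ 2 ≤ (1 + 2 * τ) * (1 + 4 * τ ^ 2) := by nlinarith [pow_pos h0 3]
      have a2 : (1 + 2 * τ + 4 * τ ^ 2) ≤ 2 * (1 + 2 * τ) := by nlinarith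
      have a3 : 0 ≤ u := by linarith
      nlinarith [mul_nonneg a3 (sub_nonneg.mpr a2), mul_nonneg (sq_nonneg u) (sub_nonneg.mpr a1),
        mul_nonneg (by linarith : (0:ℝ) ≤ 1 + 2 * τ) (sq_nonneg (u - 2)),
        mul_nonneg (by linarith : (0:ℝ) ≤ 1 + 2 * τ) (sq_nonneg u),
        mul_nonneg (by linarith : (0:ℝ) ≤ 1 + 2 * τ) a3,
        mul_nonneg (mul_nonneg (by linarith : (0:ℝ) ≤ 1 + 2 * τ) (sq_nonneg u)) (sq_nonneg τ)]
    nlinarith [mul_nonneg hs hpos]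
  refine le_trans key ?_
  nlinarith

end Pool.Agent.SSC3N
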