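import Pool.Agent.SSC3N.Defs

/-!
Row N9: the explicit inequality for `u ≤ 2`, auxiliary functions.
-/

set_option autoImplicit false
open MeasureTheory ProbabilityTheory Set Real

namespace Pool.Agent.SSC3N
open Pool.Agent.SSC3

/-- the difference at `τ = 1/2`, with `z = exp (-u²/2)` -/
noncomputable def finS (u z : ℝ) : ℝ :=
  (1 - 0.6 * z + 0.055 * u ^ 2) * (Qd (u / 2) (z ^ 2) - 0.261 / 64) -
    1 / 4 * (0.79052 - 0.1458 * (u / 2) + 0.14331 * (u / 2) ^ 2)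

/-- the coefficient of `q` -/
noncomputable def finB (u : ℝ) : ℝ :=
  0.29286 - (u / 2) * 0.12192 + (u / 2) ^ 2 * 0.09497 - (u / 2) ^ 3 * 0.0381 +
    (u / 2) ^ 4 * 0.01455 - (u / 2) ^ 5 * 0.00282

noncomputable def finA (u : ℝ) : ℝ :=
  (0.29286 - 0.05637) - (u / 2) * (0.12192 - 0.01354) + (u / 2) ^ 2 * (0.09497 - 0.0061) -
    (u / 2) ^ 3 * (0.0381 - 0.00141) + (u / 2) ^ 4 * (0.01455 - 0.00032) -
      (u / 2) ^ 5 * (0.00282 - 0.0000348) - 0.261 / 64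

theorem finB_nonneg (u : ℝ) (h0 : 0 ≤ u) (h2 : u ≤ 2) : 0 ≤ finB u := by
  obtain ⟨w, rfl⟩ : ∃ w, u = 2 * w := ⟨u / 2, by ring⟩
  have hw0 : 0 ≤ w := by linarith
  have hw1 : w ≤ 1 := by linarith
  have h3 : w ^ 3 ≤ 1 := pow_le_one₀ hw0 hw1
  have h5 : w ^ 5 ≤ 1 := pow_le_one₀ hw0 hw1
  have h2' : 0 ≤ w ^ 2 := by positivity
  have h4' : 0 ≤ w ^ 4 := by positivity
  have he : 2 * w / 2 = w := by ring
  unfold finB
  rw [he]
  linarith

theorem finA_le (u : ℝ) (h0 : 0 ≤ u) (h2 : u ≤ 2) : finA u ≤ 0.25 := by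
  obtain ⟨w, rfl⟩ : ∃ w, u = 2 * w := ⟨u / 2, by ring⟩
  have hw0 : 0 ≤ w := by linarith
  have hw1 : w ≤ 1 := by linarith
  have h3 : 0 ≤ w ^ 3 := by positivity
  have h5 : 0 ≤ w ^ 5 := by positivity
  have h2' : w ^ 2 ≤ w := by nlinarith
  have h4' : w ^ 4 ≤ w := by
    have : w ^ 4 = w * w ^ 3 := by ring
    rw [this]
    have := pow_le_one₀ (n := 3) hw0 hw1
    nlinarith
  have he : 2 * w / 2 = w := by ring
  unfold finA
  rw [he]
  linarith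

theorem finS_sub (u z p : ℝ) (h0 : 0 ≤ u) (h2 : u ≤ 2) (hp : 0 ≤ p) (hpz : p ≤ z)
    (hz : z ≤ 1) : finS u p - 0.15 * (z - p) ≤ finS u z := by
  have hB := finB_nonneg u h0 h2
  have hA := finA_le u h0 h2
  have key : finS u z - finS u p = (z - p) * (finB u * ((z + p) * (1 + 0.055 * u ^ 2) -
      0.6 * (z ^ 2 + z * p + p ^ 2)) - 0.6 * finA u) := by
    unfold finS finA finB Qd
    ring
  have h1 : 0 ≤ (z + p) * (1 + 0.055 * u ^ 2) - 0.6 * (z ^ 2 + z * p + p ^ 2) := by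
    have hz0 : 0 ≤ z := hp.trans hpz
    have a1 : z ^ 2 ≤ z := by nlinarith
    have a2 : z * p ≤ p := by nlinarith
    have a3 : p ^ 2 ≤ p := by nlinarith
    have a4 : 0 ≤ (z + p) * (0.055 * u ^ 2) := by positivity
    nlinarith
  have h3 : -0.15 ≤ finB u * ((z + p) * (1 + 0.055 * u ^ 2) -
      0.6 * (z ^ 2 + z * p + p ^ 2)) - 0.6 * finA u := by
    have := mul_nonneg hB h1
    linarith
  have h4 : 0 ≤ z - p := by linarith
  nlinarith [mul_le_mul_of_nonneg_left h3 h4]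

theorem finS_exp_tenth : 0.904837 ≤ Real.exp (-(1 / 10)) ∧ Real.exp (-(1 / 10)) ≤ 0.904838 := by
  have h := Real.exp_bound (x := -(1 / 10)) (by norm_num [abs_le]) (n := 6) (by norm_num)
  rw [abs_le] at h
  simp only [Finset.sum_range_succ, Finset.sum_range_zero, Nat.factorial] at h
  norm_num at h
  constructor <;> linarith [h.1, h.2]

theorem finS_exp_small (y : ℝ) (h : |y| ≤ 1) : 1 - y ≤ Real.exp (-y) ∧
    Real.exp (-y) ≤ 1 - y + y ^ 2 := by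
  have h1 := Real.add_one_le_exp (-y)
  have h2 := Real.abs_exp_sub_one_sub_id_le (x := -y) (by rwa [abs_neg])
  rw [abs_le] at h2
  constructor
  · linarith
  · nlinarith [h2.2]


/-- one segment `[lo, hi]`, `exp (-n/10)` between `c1` and `c2` -/
theorem finS_gen (u lo hi a c1 c2 δ ε : ℝ) (n : ℕ) (hu0 : 0 ≤ u) (hu2 : u ≤ 2)
    (h1 : lo ≤ u) (h2 : u ≤ hi) (hlo : 0 ≤ lo) (ha : a = n / 10)
    (hc1 : c1 ≤ 0.904837 ^ n) (hc2 : 0.904838 ^ n ≤ c2) (hc : 0 ≤ c1) (hδ : δ ≤ 1)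
    (hl : a - δ ≤ lo ^ 2 / 2) (hh : hi ^ 2 / 2 ≤ a + δ)
    (hε : (c2 - c1) * (1 + δ) + c2 * δ ^ 2 ≤ ε)
    (hp : 0.15 * ε ≤ finS u (c1 * (1 + a - u ^ 2 / 2))) :
    0 ≤ finS u (Real.exp (-(u ^ 2 / 2))) := by
  obtain ⟨e1, e2⟩ := finS_exp_tenth
  have hce : Real.exp (-a) = Real.exp (-(1 / 10)) ^ n := by
    rw [← Real.exp_nat_mul]
    congr 1
    rw [ha]
    ring
  have hc1' : c1 ≤ Real.exp (-a) := by
    rw [hce]
    exact hc1.trans (pow_le_pow_left₀ (by norm_num) e1 n)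
  have hc2' : Real.exp (-a) ≤ c2 := by
    rw [hce]
    exact (pow_le_pow_left₀ (Real.exp_pos _).le e2 n).trans hc2
  have hsplit : Real.exp (-(u ^ 2 / 2)) = Real.exp (-a) * Real.exp (-(u ^ 2 / 2 - a)) := by
    rw [← Real.exp_add]
    congr 1
    ring
  have q1 : lo ^ 2 ≤ u ^ 2 := pow_le_pow_left₀ hlo h1 2
  have q2 : u ^ 2 ≤ hi ^ 2 := pow_le_pow_left₀ hu0 h2 2
  have hy : |u ^ 2 / 2 - a| ≤ δ := by
    rw [abs_le]
    constructor <;> linarith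
  obtain ⟨f1, f2⟩ := finS_exp_small (u ^ 2 / 2 - a) (hy.trans hδ)
  have hz1 : Real.exp (-(u ^ 2 / 2)) ≤ 1 := by
    rw [Real.exp_le_one_iff]
    have := sq_nonneg u
    linarith
  have hpy : c1 * (1 + a - u ^ 2 / 2) = c1 * (1 - (u ^ 2 / 2 - a)) := by ring
  rw [hpy] at hp
  generalize u ^ 2 / 2 - a = y at *
  have hy2 : y ^ 2 ≤ δ ^ 2 := by
    rw [← sq_abs]
    exact pow_le_pow_left₀ (abs_nonneg _) hy 2
  rw [abs_le] at hy
  have hy1 : 0 ≤ 1 - y := by linarith [hy.2]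
  have hlow : c1 * (1 - y) ≤ Real.exp (-(u ^ 2 / 2)) := by
    rw [hsplit]
    exact mul_le_mul hc1' f1 hy1 (Real.exp_pos _).le
  have hc20 : 0 ≤ c2 := (Real.exp_pos _).le.trans hc2'
  have hupp : Real.exp (-(u ^ 2 / 2)) ≤ c2 * (1 - y + y ^ 2) := by
    rw [hsplit]
    exact mul_le_mul hc2' f2 (Real.exp_pos _).le hc20
  have h := finS_sub u (Real.exp (-(u ^ 2 / 2))) (c1 * (1 - y)) hu0 hu2
    (mul_nonneg hc hy1) hlow hz1
  have hd : Real.exp (-(u ^ 2 / 2)) - c1 * (1 - y) ≤ ε := by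
    have r1 : (c2 - c1) * (1 - y) ≤ (c2 - c1) * (1 + δ) :=
      mul_le_mul_of_nonneg_left (by linarith [hy.1]) (by linarith)
    have r2 : c2 * y ^ 2 ≤ c2 * δ ^ 2 := mul_le_mul_of_nonneg_left hy2 hc20
    linarith
  linarith

end Pool.Agent.SSC3N
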