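import Pool.Agent.SSC3N.FinS1
import Pool.Agent.SSC3N.FinS2

/-!
Row N9: the explicit inequality for `u ≤ 2`.
-/

set_option autoImplicit false
open MeasureTheory ProbabilityTheory Set Real

namespace Pool.Agent.SSC3N
open Pool.Agent.SSC3

private theorem finS_nonneg (u : ℝ) (hu0 : 0 ≤ u) (hu : u ≤ 2) :
    0 ≤ finS u (Real.exp (-(u ^ 2 / 2))) := by
  rcases le_total u (63 / 100) with h0 | h0
  · exact finS_seg0 u hu0 h0
  rcases le_total u (89 / 100) with h1 | h1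
  · exact finS_seg1 u h0 h1
  rcases le_total u (109 / 100) with h2 | h2
  · exact finS_seg2 u h1 h2
  rcases le_total u (63 / 50) with h3 | h3
  · exact finS_seg3 u h2 h3
  rcases le_total u (141 / 100) with h4 | h4
  · exact finS_seg4 u h3 h4
  rcases le_total u (31 / 20) with h5 | h5
  · exact finS_seg5 u h4 h5
  rcases le_total u (167 / 100) with h6 | h6
  · exact finS_seg6 u h5 h6
  rcases le_total u (179 / 100) with h7 | h7
  · exact finS_seg7 u h6 h7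
  rcases le_total u (19 / 10) with h8 | h8
  · exact finS_seg8 u h7 h8
  exact finS_seg9 u h8 hu

/-- final inequality, `u ≤ 2` -/
theorem fin_small (u τ : ℝ) (hu0 : 0 ≤ u) (hu : u ≤ 2) (h0 : 0 < τ) (h1 : τ ≤ 1 / 2) :
    τ ^ 2 * (0.79052 - 0.1458 * (τ * u) + 0.14331 * (τ * u) ^ 2) ≤
      (1 - 0.6 * Real.exp (-(u ^ 2 / 2)) + 0.055 * u ^ 2) *
        (Qd (τ * u) (Real.exp (-u ^ 2)) - 0.261 * τ ^ 6) := by
  have hF := finS_nonneg u hu0 hu
  have hq : Real.exp (-u ^ 2) = Real.exp (-(u ^ 2 / 2)) ^ 2 := by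
    rw [← Real.exp_nat_mul]
    congr 1
    push_cast
    ring
  rw [hq]
  have hz1 : Real.exp (-(u ^ 2 / 2)) ≤ 1 := by
    rw [Real.exp_le_one_iff]
    have := sq_nonneg u
    linarith
  have hz0 : 0 < Real.exp (-(u ^ 2 / 2)) := Real.exp_pos _
  generalize Real.exp (-(u ^ 2 / 2)) = z at *
  obtain ⟨W, rfl⟩ : ∃ W, u = 2 * W := ⟨u / 2, by ring⟩
  obtain ⟨x, rfl⟩ : ∃ x, τ = x / 2 := ⟨2 * τ, by ring⟩
  have hW0 : 0 ≤ W := by linarith
  have hW1 : W ≤ 1 := by linarith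
  have hx0 : 0 < x := by linarith
  have hx1 : x ≤ 1 := by linarith
  have hq0 : 0 ≤ z ^ 2 := by positivity
  have hq1 : z ^ 2 ≤ 1 := pow_le_one₀ hz0.le hz1
  generalize hqz : z ^ 2 = q at *
  -- the polynomial part
  have key : (1 - 0.6 * z + 0.055 * (2 * W) ^ 2) *
        (Qd (x / 2 * (2 * W)) q - 0.261 * (x / 2) ^ 6) -
      (x / 2) ^ 2 * (0.79052 - 0.1458 * (x / 2 * (2 * W)) + 0.14331 * (x / 2 * (2 * W)) ^ 2) -
      x ^ 2 * finS (2 * W) z =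
    (1 - x) * ((1 - 0.6 * z + 0.055 * (2 * W) ^ 2) *
      (((0.29286 * (1 + q) - 0.05637) * (1 + x) - (0.12192 * (1 + q) - 0.01354) * (W * x)
        + (0.0381 * (1 + q) - 0.00141) * (W ^ 3 * x ^ 2)
        - (0.01455 * (1 + q) - 0.00032) * (W ^ 4 * (x ^ 2 * (1 + x)))
        + (0.00282 * (1 + q) - 0.0000348) * (W ^ 5 * (x ^ 2 * (1 + x + x ^ 2)))) +
        0.261 / 64 * (x ^ 2 * (1 + x + x ^ 2 + x ^ 3))) -
      x ^ 2 / 4 * W * (0.1458 - 0.14331 * (W * (1 + x)))) := by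
    unfold finS Qd
    rw [hqz]
    ring
  have hx2 : x ^ 2 ≤ 1 := pow_le_one₀ hx0.le hx1
  have hK : 0.2 ≤ (0.29286 * (1 + q) - 0.05637) * (1 + x) - (0.12192 * (1 + q) - 0.01354) * (W * x)
        + (0.0381 * (1 + q) - 0.00141) * (W ^ 3 * x ^ 2)
        - (0.01455 * (1 + q) - 0.00032) * (W ^ 4 * (x ^ 2 * (1 + x)))
        + (0.00282 * (1 + q) - 0.0000348) * (W ^ 5 * (x ^ 2 * (1 + x + x ^ 2))) := by
    have a3 : 0 ≤ (0.0381 * (1 + q) - 0.00141) * (W ^ 3 * x ^ 2) :=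
      mul_nonneg (by linarith) (by positivity)
    have a5 : 0 ≤ (0.00282 * (1 + q) - 0.0000348) * (W ^ 5 * (x ^ 2 * (1 + x + x ^ 2))) :=
      mul_nonneg (by linarith) (by positivity)
    have b1 : W * x ≤ x := mul_le_of_le_one_left hx0.le hW1
    have a1 : (0.12192 * (1 + q) - 0.01354) * (W * x) ≤ (0.12192 * (1 + q) - 0.01354) * x :=
      mul_le_mul_of_nonneg_left b1 (by linarith)
    have b4 : W ^ 4 * (x ^ 2 * (1 + x)) ≤ 2 := by
      have c1 : W ^ 4 ≤ 1 := pow_le_one₀ hW0 hW1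
      have c2 : x ^ 2 * (1 + x) ≤ 1 * 2 :=
        mul_le_mul hx2 (by linarith) (by linarith) (by norm_num)
      have c3 : 0 ≤ x ^ 2 * (1 + x) := by positivity
      calc W ^ 4 * (x ^ 2 * (1 + x)) ≤ 1 * (x ^ 2 * (1 + x)) :=
            mul_le_mul_of_nonneg_right c1 c3
        _ ≤ 2 := by linarith
    have a4 : (0.01455 * (1 + q) - 0.00032) * (W ^ 4 * (x ^ 2 * (1 + x))) ≤
        (0.01455 * (1 + q) - 0.00032) * 2 :=
      mul_le_mul_of_nonneg_left b4 (by linarith)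
    have a6 : 0 ≤ q * x := mul_nonneg hq0 hx0.le
    have a7 : (0.29286 * (1 + q) - 0.05637) * (1 + x) - (0.12192 * (1 + q) - 0.01354) * x =
      0.23649 + 0.29286 * q + 0.12811 * x + 0.17094 * (q * x) := by ring
    linarith
  have hP : 0.4 ≤ 1 - 0.6 * z + 0.055 * (2 * W) ^ 2 := by
    have : 0 ≤ 0.055 * (2 * W) ^ 2 := by positivity
    linarith
  have hR : 0 ≤ 0.261 / 64 * (x ^ 2 * (1 + x + x ^ 2 + x ^ 3)) := by positivity
  have hmain : 0.08 ≤ (1 - 0.6 * z + 0.055 * (2 * W) ^ 2) *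
      (((0.29286 * (1 + q) - 0.05637) * (1 + x) - (0.12192 * (1 + q) - 0.01354) * (W * x)
        + (0.0381 * (1 + q) - 0.00141) * (W ^ 3 * x ^ 2)
        - (0.01455 * (1 + q) - 0.00032) * (W ^ 4 * (x ^ 2 * (1 + x)))
        + (0.00282 * (1 + q) - 0.0000348) * (W ^ 5 * (x ^ 2 * (1 + x + x ^ 2)))) +
        0.261 / 64 * (x ^ 2 * (1 + x + x ^ 2 + x ^ 3))) := by
    have h8 := mul_le_mul hP (le_add_of_le_of_nonneg hK hR) (by norm_num) (by linarith)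
    have h9 : (0.08 : ℝ) = 0.4 * 0.2 := by norm_num
    rw [h9]
    exact h8
  have hthird : x ^ 2 / 4 * W * (0.1458 - 0.14331 * (W * (1 + x))) ≤ 0.04 := by
    have c1 : 0 ≤ W * (1 + x) := by positivity
    have c2 : x ^ 2 * W ≤ 1 * 1 := mul_le_mul hx2 hW1 hW0 (by norm_num)
    have c3 : 0 ≤ x ^ 2 / 4 * W := by positivity
    have c4 : x ^ 2 / 4 * W * (0.1458 - 0.14331 * (W * (1 + x))) ≤ x ^ 2 / 4 * W * 0.1458 :=
      mul_le_mul_of_nonneg_left (by linarith) c3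
    linarith
  have hfin : 0 ≤ (1 - x) * ((1 - 0.6 * z + 0.055 * (2 * W) ^ 2) *
      (((0.29286 * (1 + q) - 0.05637) * (1 + x) - (0.12192 * (1 + q) - 0.01354) * (W * x)
        + (0.0381 * (1 + q) - 0.00141) * (W ^ 3 * x ^ 2)
        - (0.01455 * (1 + q) - 0.00032) * (W ^ 4 * (x ^ 2 * (1 + x)))
        + (0.00282 * (1 + q) - 0.0000348) * (W ^ 5 * (x ^ 2 * (1 + x + x ^ 2)))) +
        0.261 / 64 * (x ^ 2 * (1 + x + x ^ 2 + x ^ 3))) -
      x ^ 2 / 4 * W * (0.1458 - 0.14331 * (W * (1 + x)))) :=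
    mul_nonneg (by linarith) (by linarith)
  have hF2 : 0 ≤ x ^ 2 * finS (2 * W) z := mul_nonneg (by positivity) hF
  linarith

end Pool.Agent.SSC3N
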