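import Pool.Agent.SSC3N.Defs

set_option autoImplicit false
open MeasureTheory ProbabilityTheory Set Real
open scoped ENNReal

namespace Pool.Agent.SSC3N
open Pool.Agent.SSC3

private theorem ft_ge_aux (t s d b x y : ℝ) (ht0 : 0 ≤ t) (ht : t ≤ 1 / 2) (hx : x ≤ 1)
    (hy0 : 0 ≤ y) (hy : y ≤ 1) (hb0 : 0 ≤ b) (hbx : b ≤ x) (hbt : b ≤ 1 - 2 * t)
    (hs : s = (x + y) / 2) (hd : d = (x - y) / 2 ∨ d = (y - x) / 2) (hd0 : 0 ≤ d) :
    b * y - b * max (b + 2 * t - x) 0 ≤
      (max (s - t) 0) ^ 2 - (max (s - 1 + t) 0) ^ 2 - (max (d - t) 0) ^ 2 := by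
  rcases le_total (b + 2 * t - x) 0 with h1 | h1
  · rw [max_eq_right h1]
    rcases le_total (s - t) 0 with h2 | h2
    · rw [max_eq_right h2, max_eq_right (by linarith : s - 1 + t ≤ 0)]
      rcases le_total (d - t) 0 with h3 | h3
      · rw [max_eq_right h3]
        rcases hd with hd | hd <;> nlinarith
      · have h5 : d - t = 0 := by rcases hd with hd | hd <;> linarith
        have h6 : s - t = 0 := by rcases hd with hd | hd <;> linarith
        rw [max_eq_left h3, h5]
        have h7 : x * y = 0 := by
          have e : d = s := by linarith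
          rcases hd with hd | hd
          · have : y = 0 := by linarith
            rw [this, mul_zero]
          · have : x = 0 := by linarith
            rw [this, zero_mul]
        nlinarith [mul_nonneg hb0 hy0, mul_le_mul_of_nonneg_right hbx hy0]
    · rw [max_eq_left h2]
      rcases le_total (s - 1 + t) 0 with h4 | h4
      · rw [max_eq_right h4]
        rcases le_total (d - t) 0 with h3 | h3
        · rw [max_eq_right h3]
          rcases hd with hd | hd <;> subst hs <;> subst hd <;>
            nlinarith [mul_nonneg hb0 (neg_nonneg.mpr h1), sq_nonneg (x + y - 2 * t - 2 * b),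
              mul_nonneg hb0 hy0, sq_nonneg (x - y - 2 * t), sq_nonneg (y - x - 2 * t)]
        · rw [max_eq_left h3]
          rcases hd with hd | hd <;> subst hs <;> subst hd <;>
            nlinarith [mul_nonneg hy0 (neg_nonneg.mpr h1), mul_nonneg hb0 (neg_nonneg.mpr h1)]
      · rw [max_eq_left h4]
        rcases le_total (d - t) 0 with h3 | h3
        · rw [max_eq_right h3]
          rcases hd with hd | hd <;> subst hs <;> subst hd <;>
            nlinarith [mul_nonneg hy0 (neg_nonneg.mpr h1), mul_nonneg hb0 (neg_nonneg.mpr h1)]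
        · rw [max_eq_left h3]
          rcases hd with hd | hd <;> subst hs <;> subst hd <;>
            nlinarith [mul_nonneg hy0 (neg_nonneg.mpr h1), mul_nonneg hb0 (neg_nonneg.mpr h1)]
  · rw [max_eq_left h1]
    rcases le_total (s - t) 0 with h2 | h2
    · rw [max_eq_right h2, max_eq_right (by linarith : s - 1 + t ≤ 0)]
      rcases le_total (d - t) 0 with h3 | h3
      · rw [max_eq_right h3]
        rcases hd with hd | hd <;> subst hs <;> subst hd <;>
          nlinarith [mul_nonneg hb0 h1, mul_nonneg hb0 (neg_nonneg.mpr h2), mul_nonneg hb0 hb0]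
      · have h5 : d - t = 0 := by rcases hd with hd | hd <;> linarith
        have h6 : s - t = 0 := by rcases hd with hd | hd <;> linarith
        rw [max_eq_left h3, h5]
        have h7 : x * y = 0 := by
          have e : d = s := by linarith
          rcases hd with hd | hd
          · have : y = 0 := by linarith
            rw [this, mul_zero]
          · have : x = 0 := by linarith
            rw [this, zero_mul]
        nlinarith [mul_nonneg hb0 hy0, mul_le_mul_of_nonneg_right hbx hy0]
    · rw [max_eq_left h2]
      rcases le_total (s - 1 + t) 0 with h4 | h4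
      · rw [max_eq_right h4]
        rcases le_total (d - t) 0 with h3 | h3
        · rw [max_eq_right h3]
          rcases hd with hd | hd <;> subst hs <;> subst hd <;>
            nlinarith [sq_nonneg (x + y - 2 * t - 2 * b)]
        · rw [max_eq_left h3]
          rcases hd with hd | hd <;> subst hs <;> subst hd <;>
            nlinarith [mul_nonneg hb0 h1, sq_nonneg (x - 2 * t - b), mul_nonneg hb0 h3,
              mul_nonneg hy0 h3, sq_nonneg (x - 2 * t - y), sq_nonneg (b - y)]
      · rw [max_eq_left h4]
        rcases le_total (d - t) 0 with h3 | h3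
        · rw [max_eq_right h3]
          rcases hd with hd | hd <;> subst hs <;> subst hd <;>
            nlinarith [mul_nonneg hb0 h1, mul_nonneg hb0 h4, mul_nonneg h1 h4]
        · rw [max_eq_left h3]
          rcases hd with hd | hd <;> subst hs <;> subst hd <;>
            nlinarith [mul_nonneg hb0 h1, mul_nonneg hb0 h4, mul_nonneg h1 h4]

/-- pairs at distance `> t`: piecewise quadratic inequality -/
theorem ft_ge (t x y b : ℝ) (ht0 : 0 ≤ t) (ht : t ≤ 1 / 2) (hx : x ≤ 1) (hy0 : 0 ≤ y) (hy : y ≤ 1)
    (hb0 : 0 ≤ b) (hbx : b ≤ x) (hbt : b ≤ 1 - 2 * t) :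
    b * y - b * max (b + 2 * t - x) 0 ≤ ft t x y := by
  have hx0 : 0 ≤ x := hb0.trans hbx
  have hd0 : 0 ≤ |x - y| / 2 := by positivity
  have hd1 : |x - y| / 2 ≤ 1 / 2 := by
    have : |x - y| ≤ 1 := by rw [abs_le]; constructor <;> linarith
    linarith
  have hd : |x - y| / 2 = (x - y) / 2 ∨ |x - y| / 2 = (y - x) / 2 := by
    rcases abs_choice (x - y) with h | h
    · left; rw [h]
    · right; rw [h]; ring
  have h := ft_ge_aux t ((x + y) / 2) (|x - y| / 2) b x y ht0 ht hx hy0 hy hb0 hbx hbt rfl hd hd0
  unfold ft Wh
  rw [max_eq_right (by linarith : |x - y| / 2 - 1 + t ≤ 0)]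
  linarith

end Pool.Agent.SSC3N
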