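import Pool.Agent.SSC3N.Defs

/-! Row P4: rotation invariance of the product Gaussian; splitting `Fin (2 + m)`. -/

set_option autoImplicit false
open MeasureTheory ProbabilityTheory Set Real
open scoped ENNReal

namespace Pool.Agent.SSC3N
open Pool.Agent.SSC3

/-- the linear isometry of an orthogonal matrix -/
noncomputable def gaussRot_iso (n : ℕ) (Q : Matrix (Fin n) (Fin n) ℝ)
    (hQ : Q ∈ Matrix.orthogonalGroup (Fin n) ℝ) :
    EuclideanSpace ℝ (Fin n) ≃ₗᵢ[ℝ] EuclideanSpace ℝ (Fin n) where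
  toFun x := WithLp.toLp 2 (Q.mulVec (WithLp.ofLp x))
  invFun x := WithLp.toLp 2 (Q.transpose.mulVec (WithLp.ofLp x))
  map_add' x y := by
    simp [Matrix.mulVec_add]
  map_smul' c x := by
    simp [Matrix.mulVec_smul]
  left_inv x := by
    have h' : Q.transpose * Q = 1 := (Matrix.mem_orthogonalGroup_iff' (Fin n) ℝ).1 hQ
    simp only [Matrix.mulVec_mulVec, h', Matrix.one_mulVec]
  right_inv x := by
    have h' : Q * Q.transpose = 1 := (Matrix.mem_orthogonalGroup_iff (Fin n) ℝ).1 hQ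
    simp only [Matrix.mulVec_mulVec, h', Matrix.one_mulVec]
  norm_map' x := by
    have h' : Q.transpose * Q = 1 := (Matrix.mem_orthogonalGroup_iff' (Fin n) ℝ).1 hQ
    have h2 : ∀ v : Fin n → ℝ, ∑ i, (v i) ^ 2 = dotProduct v v := by
      intro v
      simp [dotProduct, sq]
    rw [EuclideanSpace.norm_eq, EuclideanSpace.norm_eq]
    congr 1
    simp only [Real.norm_eq_abs, sq_abs]
    change ∑ i, (Q.mulVec (WithLp.ofLp x) i) ^ 2 = ∑ i, (WithLp.ofLp x i) ^ 2
    rw [h2, h2, Matrix.dotProduct_mulVec, Matrix.vecMul_mulVec, h', Matrix.vecMul_one]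

theorem gauss_rot (n : ℕ) (Q : Matrix (Fin n) (Fin n) ℝ)
    (hQ : Q ∈ Matrix.orthogonalGroup (Fin n) ℝ) :
    MeasurePreserving (fun x : Fin n → ℝ => Q.mulVec x) (gam n) (gam n) := by
  have hm : Measurable (fun x : Fin n → ℝ => Q.mulVec x) := by
    apply Continuous.measurable
    exact Continuous.matrix_mulVec continuous_const continuous_id
  refine ⟨hm, ?_⟩
  have h1 : (gam n).map (WithLp.toLp 2) = stdGaussian (EuclideanSpace ℝ (Fin n)) :=
    map_pi_eq_stdGaussian
  have h2 := stdGaussian_map (gaussRot_iso n Q hQ)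
  have h3 : ((gam n).map (fun x : Fin n → ℝ => Q.mulVec x)).map
      (WithLp.toLp 2 : (Fin n → ℝ) → EuclideanSpace ℝ (Fin n)) = (gam n).map (WithLp.toLp 2) := by
    rw [Measure.map_map (by fun_prop) hm, h1, ← h2, ← h1, Measure.map_map]
    · rfl
    · exact (gaussRot_iso n Q hQ).continuous.measurable
    · fun_prop
  have h4 := congrArg (fun μ => Measure.map (WithLp.ofLp :
    EuclideanSpace ℝ (Fin n) → (Fin n → ℝ)) μ) h3
  have h5 : (WithLp.ofLp : EuclideanSpace ℝ (Fin n) → (Fin n → ℝ)) ∘ (WithLp.toLp 2) = id := rfl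
  have h6 : ∀ μ : Measure (Fin n → ℝ), Measure.map (WithLp.ofLp :
      EuclideanSpace ℝ (Fin n) → (Fin n → ℝ)) (Measure.map (WithLp.toLp 2) μ) = μ := by
    intro μ
    rw [Measure.map_map (by fun_prop) (by fun_prop), h5, Measure.map_id]
  simp only [h6] at h4
  exact h4

theorem split_mp (m : ℕ) :
    MeasurePreserving (fun x : Fin (2 + m) → ℝ =>
      ((fun i : Fin 2 => x (Fin.castAdd m i)), (fun j : Fin m => x (Fin.natAdd 2 j))))
      (gam (2 + m)) (g2.prod (gam m)) := by
  have h1 := measurePreserving_piCongrLeft (α := fun _ : Fin (2 + m) => ℝ)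
    (fun _ : Fin (2 + m) => gaussianReal 0 1) (finSumFinEquiv (m := 2) (n := m))
  have h2 := measurePreserving_sumPiEquivProdPi (X := fun _ : Fin 2 ⊕ Fin m => ℝ)
    (fun _ => gaussianReal 0 1)
  exact h2.comp (h1.symm)

end Pool.Agent.SSC3N
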