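import Pool.Agent.SSC3N.SupT4
import Pool.Agent.SSC3N.NuBasic
import Pool.Agent.SSC3N.GaussInt

set_option autoImplicit false
open MeasureTheory ProbabilityTheory Set Real
open scoped ENNReal

namespace Pool.Agent.SSC3N
open Pool.Agent.SSC3

theorem T4_nonneg (l : ℝ) : 0 ≤ T4 l := by
  unfold T4
  have h1 : Real.cosh (l / 2) = 1 + 2 * Real.sinh (l / 4) ^ 2 := by
    have h := Real.cosh_two_mul (l / 4)
    rw [Real.cosh_sq] at h
    have e : 2 * (l / 4) = l / 2 := by ring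
    rw [e] at h
    rw [h]
    ring
  have h2 : (l / 4) ^ 2 ≤ Real.sinh (l / 4) ^ 2 := by
    rcases le_total 0 (l / 4) with h | h
    · exact pow_le_pow_left₀ h (Real.self_le_sinh_iff.mpr h) 2
    · have h3 := Real.sinh_le_self_iff.mpr h
      nlinarith
  rw [h1]
  nlinarith

theorem T4_le (l : ℝ) (hl : 0 ≤ l) : T4 l ≤ Real.exp (l / 2) := by
  unfold T4
  have h1 : Real.cosh (l / 2) ≤ Real.exp (l / 2) := by
    rw [Real.cosh_eq]
    have : Real.exp (-(l / 2)) ≤ Real.exp (l / 2) := Real.exp_le_exp.mpr (by linarith)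
    linarith
  have : 0 ≤ l ^ 2 / 8 := by positivity
  linarith

namespace Q5

theorem measurable_T4 : Measurable T4 := by
  unfold T4
  fun_prop

/-- `exp(s y) - 1 - s y ≤ s² (exp y - 1 - y)`. -/
theorem exp_quad {s y : ℝ} (h0 : 0 ≤ s) (h1 : s ≤ 1) (hy : 0 ≤ y) :
    Real.exp (s * y) - 1 - s * y ≤ s ^ 2 * (Real.exp y - 1 - y) := by
  have hconv : ∀ z : ℝ, Real.exp (s * z) ≤ s * Real.exp z + (1 - s) := by
    intro z
    have h := convexOn_exp.2 (Set.mem_univ z) (Set.mem_univ (0 : ℝ)) h0 (by linarith : (0:ℝ) ≤ 1 - s)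
      (by ring)
    simp only [smul_eq_mul, mul_zero, add_zero, Real.exp_zero, mul_one] at h
    exact h
  have hd : ∀ z : ℝ, HasDerivAt
      (fun z => s ^ 2 * (Real.exp z - 1 - z) - (Real.exp (s * z) - 1 - s * z))
      (s ^ 2 * (Real.exp z - 1) - (Real.exp (s * z) * s - s)) z := by
    intro z
    have e1 : HasDerivAt (fun z => Real.exp z - 1 - z) (Real.exp z - 1) z :=
      ((Real.hasDerivAt_exp z).sub_const 1).sub (hasDerivAt_id z)
    have e2 : HasDerivAt (fun z => s * z) s z := by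
      simpa using (hasDerivAt_id z).const_mul s
    have e3 : HasDerivAt (fun z => Real.exp (s * z) - 1 - s * z) (Real.exp (s * z) * s - s) z :=
      (e2.exp.sub_const 1).sub e2
    exact (e1.const_mul (s ^ 2)).sub e3
  have hmono : Monotone (fun z => s ^ 2 * (Real.exp z - 1 - z) - (Real.exp (s * z) - 1 - s * z)) := by
    apply monotone_of_hasDerivAt_nonneg hd
    intro z
    show (0 : ℝ) ≤ s ^ 2 * (Real.exp z - 1) - (Real.exp (s * z) * s - s)
    have := mul_le_mul_of_nonneg_left (hconv z) h0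
    nlinarith
  have := hmono hy
  simp only [mul_zero, Real.exp_zero, sub_self] at this
  linarith

theorem sqrt_pi_eq : Real.sqrt (π / 2) * Real.sqrt 2 = Real.sqrt π := by
  rw [← Real.sqrt_mul (by positivity)]
  congr 1
  ring

theorem int_two : ∫ v in Ioi (0:ℝ), v ^ 2 * Real.exp (-(v ^ 2 / 4)) = 2 * Real.sqrt π ∧
    IntegrableOn (fun v : ℝ => v ^ 2 * Real.exp (-(v ^ 2 / 4))) (Ioi (0:ℝ)) := by
  have h := integral_Jc 2 (1 / 2) (by norm_num)
  have e : ∀ v : ℝ, v ^ 2 * Real.exp (-(1 / 2 * v ^ 2 / 2)) = v ^ 2 * Real.exp (-(v ^ 2 / 4)) := by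
    intro v
    congr 2
    ring
  simp only [e] at h
  refine ⟨?_, h.2⟩
  rw [h.1]
  have e2 : Jc 2 = Real.sqrt (π / 2) := by
    show ((0 : ℕ) + 1 : ℝ) * Jc 0 = _
    show ((0 : ℕ) + 1 : ℝ) * Real.sqrt (π / 2) = _
    simp
  have e3 : (1 / 2 : ℝ) ^ (-(((2:ℕ):ℝ) + 1) / 2) = 2 * Real.sqrt 2 := by
    have : (-(((2:ℕ):ℝ) + 1) / 2) = -(1 + 1 / 2) := by push_cast; ring
    rw [this, Real.rpow_neg (by norm_num), ← Real.inv_rpow (by norm_num)]
    have e4 : ((1 / 2 : ℝ)⁻¹) = 2 := by norm_num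
    rw [e4, Real.rpow_add (by norm_num), Real.rpow_one, ← Real.sqrt_eq_rpow]
  rw [e2, e3]
  have := sqrt_pi_eq
  calc Real.sqrt (π / 2) * (2 * Real.sqrt 2) = 2 * (Real.sqrt (π / 2) * Real.sqrt 2) := by ring
    _ = 2 * Real.sqrt π := by rw [this]

theorem int_one : ∫ v in Ioi (0:ℝ), Real.exp (-(v ^ 2 / 4)) = Real.sqrt π ∧
    IntegrableOn (fun v : ℝ => Real.exp (-(v ^ 2 / 4))) (Ioi (0:ℝ)) := by
  have h := integral_cosh_gauss 0
  simpa using h

/-- The integral of `T4` against the Gaussian weight. -/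
theorem int_T4 (a : ℝ) : ∫ v in Ioi (0:ℝ), T4 (2 * a * v) * Real.exp (-(v ^ 2 / 4)) =
      Real.sqrt π * (Real.exp (a ^ 2) - 1 - a ^ 2) ∧
    IntegrableOn (fun v : ℝ => T4 (2 * a * v) * Real.exp (-(v ^ 2 / 4))) (Ioi (0:ℝ)) := by
  have h1 := integral_cosh_gauss a
  have h2 := int_one
  have h3 := int_two
  have e : ∀ v : ℝ, T4 (2 * a * v) * Real.exp (-(v ^ 2 / 4)) =
      Real.cosh (a * v) * Real.exp (-(v ^ 2 / 4)) - Real.exp (-(v ^ 2 / 4))
        - a ^ 2 / 2 * (v ^ 2 * Real.exp (-(v ^ 2 / 4))) := by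
    intro v
    unfold T4
    have : 2 * a * v / 2 = a * v := by ring
    rw [this]
    ring
  simp only [e]
  have i3 := h3.2.const_mul (a ^ 2 / 2)
  have i12 : Integrable (fun v => Real.cosh (a * v) * Real.exp (-(v ^ 2 / 4))
      - Real.exp (-(v ^ 2 / 4))) (volume.restrict (Ioi (0:ℝ))) := h1.2.sub h2.2
  refine ⟨?_, i12.sub i3⟩
  rw [integral_sub i12 i3, integral_sub h1.2 h2.2, integral_const_mul, h1.1, h2.1,
    h3.1]
  ring

theorem sqrt_pi_le : Real.sqrt π ≤ 1.7725 := by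
  rw [Real.sqrt_le_left (by norm_num)]
  have := Real.pi_lt_d4
  norm_num at this ⊢
  linarith

/-- the Schur bound for one variable -/
theorem schur_one {τ u : ℝ} (h0 : 0 < τ) (h1 : τ ≤ 1 / 2) (hu : 0 < u) :
    Real.exp (-(u ^ 2 / 4)) * (Real.sqrt π * (Real.exp ((τ * u / 2) ^ 2) - 1 - (τ * u / 2) ^ 2)) ≤
      0.58 * τ ^ 4 := by
  set x := u ^ 2 / 4 with hx
  have hx0 : 0 ≤ x := by positivity
  have e1 : (τ * u / 2) ^ 2 = (4 * τ ^ 2) * (x / 4) := by rw [hx]; ring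
  rw [e1]
  have h2 := exp_quad (s := 4 * τ ^ 2) (y := x / 4) (by positivity) (by nlinarith) (by positivity)
  have h3 := sup_T4 x hx0
  have hex : 0 ≤ Real.exp (-x) := (Real.exp_pos _).le
  have hs0 : 0 ≤ Real.sqrt π := Real.sqrt_nonneg _
  calc Real.exp (-x) * (Real.sqrt π * (Real.exp (4 * τ ^ 2 * (x / 4)) - 1 - 4 * τ ^ 2 * (x / 4)))
      ≤ Real.exp (-x) * (Real.sqrt π * ((4 * τ ^ 2) ^ 2 * (Real.exp (x / 4) - 1 - x / 4))) :=
        mul_le_mul_of_nonneg_left (mul_le_mul_of_nonneg_left h2 hs0) hex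
    _ = Real.sqrt π * (16 * τ ^ 4) * ((Real.exp (x / 4) - 1 - x / 4) * Real.exp (-x)) := by ring
    _ ≤ Real.sqrt π * (16 * τ ^ 4) * 0.02031 :=
        mul_le_mul_of_nonneg_left h3 (by positivity)
    _ ≤ 1.7725 * (16 * τ ^ 4) * 0.02031 := by
        apply mul_le_mul_of_nonneg_right _ (by norm_num)
        exact mul_le_mul_of_nonneg_right sqrt_pi_le (by positivity)
    _ ≤ 0.58 * τ ^ 4 := by
        have : 0 ≤ τ ^ 4 := by positivity
        nlinarith

end Q5

open Q5 in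
theorem T4_schur (τ : ℝ) (h0 : 0 < τ) (h1 : τ ≤ 1 / 2) (f : ℝ → ℝ) (hf : Measurable f) (M : ℝ)
    (hb : ∀ u, |f u| ≤ M) :
    ∫ u, ∫ v, T4 (τ * u * v) * (|f u| * |f v|) ∂nu ∂nu ≤
      0.58 * τ ^ 4 * ∫ u, u * (f u) ^ 2 ∂nu := by
  have := nu_prob
  have hM : 0 ≤ M := (abs_nonneg _).trans (hb 0)
  have hT4 := measurable_T4
  -- joint integrability of the left hand side
  have hmk : Measurable (fun p : ℝ × ℝ => T4 (τ * p.1 * p.2) * (|f p.1| * |f p.2|)) := by
    have m1 : Measurable (fun p : ℝ × ℝ => T4 (τ * p.1 * p.2)) := hT4.comp (by fun_prop)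
    have m2 : Measurable (fun p : ℝ × ℝ => |f p.1|) := (hf.comp measurable_fst).abs
    have m3 : Measurable (fun p : ℝ × ℝ => |f p.2|) := (hf.comp measurable_snd).abs
    exact m1.mul (m2.mul m3)
  have hik : Integrable (fun p : ℝ × ℝ => T4 (τ * p.1 * p.2) * (|f p.1| * |f p.2|))
      (nu.prod nu) := by
    apply integrable_nu_prod _ hmk (M * M)
    intro u v hu hv
    have hl : 0 ≤ τ * u * v := by positivity
    rw [abs_of_nonneg (mul_nonneg (T4_nonneg _) (by positivity))]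
    have e1 : T4 (τ * u * v) ≤ Real.exp ((u ^ 2 + v ^ 2) / 4) := by
      refine (T4_le _ hl).trans (Real.exp_le_exp.mpr ?_)
      have : τ * u * v ≤ 1 / 2 * (u * v) := by
        have := mul_le_mul_of_nonneg_right h1 (mul_pos hu hv).le
        linarith
      nlinarith [sq_nonneg (u - v)]
    have e2 : |f u| * |f v| ≤ M * M :=
      mul_le_mul (hb u) (hb v) (abs_nonneg _) hM
    calc T4 (τ * u * v) * (|f u| * |f v|) ≤ Real.exp ((u ^ 2 + v ^ 2) / 4) * (M * M) :=
          mul_le_mul e1 e2 (by positivity) (Real.exp_pos _).le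
      _ = M * M * Real.exp ((u ^ 2 + v ^ 2) / 4) := by ring
  rw [← integral_prod (fun p : ℝ × ℝ => T4 (τ * p.1 * p.2) * (|f p.1| * |f p.2|)) hik]
  -- right hand side
  have hir : Integrable (fun u => 0.58 * τ ^ 4 * (u * (f u) ^ 2)) nu := by
    apply integrable_nu _ (by
      have : Measurable (fun u : ℝ => u * (f u) ^ 2) := measurable_id.mul (hf.pow_const 2)
      exact this.const_mul _) (0.58 * τ ^ 4 * (M ^ 2 * 2))
    intro u hu
    rw [abs_of_nonneg (by positivity)]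
    have e1 : (f u) ^ 2 ≤ M ^ 2 := by
      rw [← sq_abs (f u)]
      exact pow_le_pow_left₀ (abs_nonneg _) (hb u) 2
    have e2 : u ≤ 2 * Real.exp (u ^ 2 / 4) := by
      have := Real.add_one_le_exp (u ^ 2 / 4)
      nlinarith [sq_nonneg (u - 1)]
    have e3 : u * (f u) ^ 2 ≤ 2 * Real.exp (u ^ 2 / 4) * M ^ 2 :=
      mul_le_mul e2 e1 (by positivity) (by positivity)
    calc 0.58 * τ ^ 4 * (u * (f u) ^ 2) ≤ 0.58 * τ ^ 4 * (2 * Real.exp (u ^ 2 / 4) * M ^ 2) :=
          mul_le_mul_of_nonneg_left e3 (by positivity)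
      _ = 0.58 * τ ^ 4 * (M ^ 2 * 2) * Real.exp (u ^ 2 / 4) := by ring
  rw [← integral_const_mul]
  -- the weights
  set w : ℝ → ℝ := fun u => Real.exp (u ^ 2 / 4) / u with hw
  have hwm : Measurable w := by
    rw [hw]
    exact (Real.measurable_exp.comp (by fun_prop)).div measurable_id
  set A : ℝ × ℝ → ℝ := fun p => T4 (τ * p.1 * p.2) * (f p.1 ^ 2 * (w p.2 / w p.1)) with hA
  have hAm : Measurable A := by
    have m1 : Measurable (fun p : ℝ × ℝ => T4 (τ * p.1 * p.2)) := hT4.comp (by fun_prop)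
    have m2 : Measurable (fun p : ℝ × ℝ => f p.1 ^ 2) := (hf.comp measurable_fst).pow_const 2
    have m3 : Measurable (fun p : ℝ × ℝ => w p.2 / w p.1) :=
      (hwm.comp measurable_snd).div (hwm.comp measurable_fst)
    exact m1.mul (m2.mul m3)
  have hpos2 : ∀ᵐ p ∂(nu.prod nu), 0 < p.1 ∧ 0 < p.2 := by
    have p1 : ∀ᵐ p ∂(nu.prod nu), 0 < p.1 :=
      (Measure.quasiMeasurePreserving_fst (μ := nu) (ν := nu)).ae nu_pos
    have p2 : ∀ᵐ p ∂(nu.prod nu), 0 < p.2 :=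
      (Measure.quasiMeasurePreserving_snd (μ := nu) (ν := nu)).ae nu_pos
    filter_upwards [p1, p2] with p h2 h3
    exact ⟨h2, h3⟩
  -- inner integral
  have hinner : ∀ u, 0 < u → ∫⁻ v, ENNReal.ofReal (A (u, v)) ∂nu ≤
      ENNReal.ofReal (0.58 * τ ^ 4 * (u * (f u) ^ 2)) := by
    intro u hu
    have hAu : Measurable (fun v => ENNReal.ofReal (A (u, v))) :=
      (hAm.comp measurable_prodMk_left).ennreal_ofReal
    rw [lintegral_nu _ hAu]
    have e1 : ∀ v ∈ Ioi (0:ℝ), ENNReal.ofReal (A (u, v)) *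
        ENNReal.ofReal (v * Real.exp (-(v ^ 2 / 2))) =
        ENNReal.ofReal ((f u ^ 2 * (u * Real.exp (-(u ^ 2 / 4)))) *
          (T4 (2 * (τ * u / 2) * v) * Real.exp (-(v ^ 2 / 4)))) := by
      intro v hv
      have hv' : (0:ℝ) < v := hv
      rw [← ENNReal.ofReal_mul (by
        simp only [hA, hw]
        have := T4_nonneg (τ * u * v)
        positivity)]
      congr 1
      simp only [hA, hw]
      have e2 : 2 * (τ * u / 2) * v = τ * u * v := by ring
      have e3 : Real.exp (v ^ 2 / 4) * Real.exp (-(v ^ 2 / 2)) = Real.exp (-(v ^ 2 / 4)) := by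
        rw [← Real.exp_add]; congr 1; ring
      have e4 : (Real.exp (u ^ 2 / 4))⁻¹ = Real.exp (-(u ^ 2 / 4)) := by
        rw [← Real.exp_neg]
      rw [e2, ← e3, ← e4]
      field_simp
    rw [setLIntegral_congr_fun measurableSet_Ioi e1]
    have hi := int_T4 (τ * u / 2)
    have hi2 : IntegrableOn (fun v => (f u ^ 2 * (u * Real.exp (-(u ^ 2 / 4)))) *
          (T4 (2 * (τ * u / 2) * v) * Real.exp (-(v ^ 2 / 4)))) (Ioi (0:ℝ)) := hi.2.const_mul _
    rw [← ofReal_integral_eq_lintegral_ofReal hi2 (by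
      refine Filter.Eventually.of_forall fun v => ?_
      have := T4_nonneg (2 * (τ * u / 2) * v)
      positivity), integral_const_mul, hi.1]
    apply ENNReal.ofReal_le_ofReal
    have h4 := schur_one h0 h1 hu
    have h5 : 0 ≤ f u ^ 2 * u := by positivity
    have h6 := mul_le_mul_of_nonneg_left h4 h5
    nlinarith
  -- the total
  have hAint : ∫⁻ p, ENNReal.ofReal (A p) ∂(nu.prod nu) ≤
      ENNReal.ofReal (∫ u, 0.58 * τ ^ 4 * (u * (f u) ^ 2) ∂nu) := by
    rw [lintegral_prod _ hAm.ennreal_ofReal.aemeasurable,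
      ofReal_integral_eq_lintegral_ofReal hir (by
        filter_upwards [nu_pos] with u hu
        show (0:ℝ) ≤ _
        positivity)]
    apply lintegral_mono_ae
    filter_upwards [nu_pos] with u hu
    exact hinner u hu
  have hswap : ∫⁻ p, ENNReal.ofReal (A p.swap) ∂(nu.prod nu) =
      ∫⁻ p, ENNReal.ofReal (A p) ∂(nu.prod nu) :=
    lintegral_prod_swap (fun p => ENNReal.ofReal (A p))
  have hk0 : 0 ≤ᵐ[nu.prod nu] fun p : ℝ × ℝ => T4 (τ * p.1 * p.2) * (|f p.1| * |f p.2|) :=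
    Filter.Eventually.of_forall fun p => mul_nonneg (T4_nonneg _) (by positivity)
  have hR0 : 0 ≤ ∫ u, 0.58 * τ ^ 4 * (u * (f u) ^ 2) ∂nu := by
    apply integral_nonneg_of_ae
    filter_upwards [nu_pos] with u hu
    show (0:ℝ) ≤ _
    positivity
  have hmain : ∫⁻ p : ℝ × ℝ, ENNReal.ofReal (T4 (τ * p.1 * p.2) * (|f p.1| * |f p.2|))
      ∂(nu.prod nu) ≤ ENNReal.ofReal (∫ u, 0.58 * τ ^ 4 * (u * (f u) ^ 2) ∂nu) := by
    have hpt : ∀ᵐ p : ℝ × ℝ ∂(nu.prod nu),
        ENNReal.ofReal (T4 (τ * p.1 * p.2) * (|f p.1| * |f p.2|)) ≤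
        ENNReal.ofReal (1 / 2) * (ENNReal.ofReal (A p) + ENNReal.ofReal (A p.swap)) := by
      filter_upwards [hpos2] with p hp
      obtain ⟨hp1, hp2⟩ := hp
      have hw1 : 0 < w p.1 := by simp only [hw]; positivity
      have hw2 : 0 < w p.2 := by simp only [hw]; positivity
      have hT := T4_nonneg (τ * p.1 * p.2)
      have hA1 : 0 ≤ A p := by simp only [hA]; positivity
      have eT : T4 (τ * p.2 * p.1) = T4 (τ * p.1 * p.2) := by
        congr 1; ring
      have hA2 : 0 ≤ A p.swap := by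
        simp only [hA, Prod.fst_swap, Prod.snd_swap]
        rw [eT]
        positivity
      rw [← ENNReal.ofReal_add hA1 hA2, ← ENNReal.ofReal_mul (by norm_num)]
      apply ENNReal.ofReal_le_ofReal
      simp only [hA, Prod.fst_swap, Prod.snd_swap]
      rw [eT, ← mul_add]
      have e5 : |f p.1| * |f p.2| ≤ 1 / 2 * (f p.1 ^ 2 * (w p.2 / w p.1)
          + f p.2 ^ 2 * (w p.1 / w p.2)) := by
        set r := w p.2 / w p.1 with hr
        have hr0 : 0 < r := div_pos hw2 hw1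
        have er : w p.1 / w p.2 = r⁻¹ := by rw [hr, inv_div]
        rw [er, ← sq_abs (f p.1), ← sq_abs (f p.2)]
        set a := |f p.1|
        set b := |f p.2|
        have : 1 / 2 * (a ^ 2 * r + b ^ 2 * r⁻¹) - a * b = 1 / 2 * (a * r - b) ^ 2 * r⁻¹ := by
          field_simp
          ring
        have h7 : 0 ≤ 1 / 2 * (a * r - b) ^ 2 * r⁻¹ := by positivity
        linarith
      have := mul_le_mul_of_nonneg_left e5 hT
      linarith
    calc ∫⁻ p : ℝ × ℝ, ENNReal.ofReal (T4 (τ * p.1 * p.2) * (|f p.1| * |f p.2|)) ∂(nu.prod nu)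
        ≤ ∫⁻ p : ℝ × ℝ, ENNReal.ofReal (1 / 2) *
            (ENNReal.ofReal (A p) + ENNReal.ofReal (A p.swap)) ∂(nu.prod nu) :=
          lintegral_mono_ae hpt
      _ = ENNReal.ofReal (1 / 2) * (∫⁻ p, ENNReal.ofReal (A p) ∂(nu.prod nu)
            + ∫⁻ p, ENNReal.ofReal (A p) ∂(nu.prod nu)) := by
          rw [lintegral_const_mul' _ _ ENNReal.ofReal_ne_top,
            lintegral_add_left hAm.ennreal_ofReal, hswap]
      _ ≤ ENNReal.ofReal (1 / 2) * (ENNReal.ofReal (∫ u, 0.58 * τ ^ 4 * (u * (f u) ^ 2) ∂nu)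
            + ENNReal.ofReal (∫ u, 0.58 * τ ^ 4 * (u * (f u) ^ 2) ∂nu)) := by
          gcongr
      _ = ENNReal.ofReal (∫ u, 0.58 * τ ^ 4 * (u * (f u) ^ 2) ∂nu) := by
          rw [← ENNReal.ofReal_add hR0 hR0, ← ENNReal.ofReal_mul (by norm_num)]
          congr 1
          ring
  rw [← ofReal_integral_eq_lintegral_ofReal hik hk0] at hmain
  exact (ENNReal.ofReal_le_ofReal_iff hR0).mp hmain

end Pool.Agent.SSC3N
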