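import Pool.Agent.SSC3N.DDrow
import Pool.Agent.SSC3N.CLower
import Pool.Agent.SSC3N.CUpper
import Pool.Agent.SSC3N.T4Schur

set_option autoImplicit false
open MeasureTheory ProbabilityTheory Set Real
open scoped ENNReal

namespace Pool.Agent.SSC3N
open Pool.Agent.SSC3

/-- weighted Cauchy-Schwarz -/
private theorem R3_cs {μ : Measure ℝ} (p f w : ℝ → ℝ) (hw : ∀ᵐ u ∂μ, 0 < w u)
    (hp : Integrable (fun u => p u ^ 2 / w u) μ) (hf : Integrable (fun u => w u * f u ^ 2) μ)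
    (hpf : Integrable (fun u => p u * f u) μ) :
    (∫ u, p u * f u ∂μ) ^ 2 ≤ (∫ u, p u ^ 2 / w u ∂μ) * ∫ u, w u * f u ^ 2 ∂μ := by
  have key : ∀ t : ℝ, 0 ≤ (∫ u, p u ^ 2 / w u ∂μ) * (t * t) + (2 * ∫ u, p u * f u ∂μ) * t
      + ∫ u, w u * f u ^ 2 ∂μ := by
    intro t
    have i1 : Integrable (fun u => p u ^ 2 / w u * (t * t)) μ := hp.mul_const _
    have i2 : Integrable (fun u => 2 * t * (p u * f u)) μ := hpf.const_mul _
    have i3 : Integrable (fun u => p u ^ 2 / w u * (t * t) + 2 * t * (p u * f u)) μ := i1.add i2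
    have h1 : (∫ u, (p u ^ 2 / w u * (t * t) + 2 * t * (p u * f u) + w u * f u ^ 2) ∂μ)
        = (∫ u, p u ^ 2 / w u ∂μ) * (t * t) + (2 * ∫ u, p u * f u ∂μ) * t
      + ∫ u, w u * f u ^ 2 ∂μ := by
      rw [integral_add i3 hf, integral_add i1 i2, integral_mul_const, integral_const_mul]
      ring
    rw [← h1]
    apply integral_nonneg_of_ae
    filter_upwards [hw] with u hu
    have : p u ^ 2 / w u * (t * t) + 2 * t * (p u * f u) + w u * f u ^ 2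
        = (t * p u + w u * f u) ^ 2 / w u := by
      field_simp
      ring
    simp only [Pi.zero_apply]
    rw [this]
    positivity
  have hd := discrim_le_zero key
  unfold discrim at hd
  nlinarith

private theorem R3_S : Real.sqrt (π / 2) ≤ 1.2534 := by
  rw [Real.sqrt_le_left (by norm_num)]
  have := Real.pi_lt_d4
  norm_num at this ⊢
  linarith

private theorem R3_G (k : ℕ) {s : ℝ} (hs : 0 < s) :
    IntegrableOn (fun v : ℝ => v ^ k * Real.exp (-(s * v ^ 2 / 2))) (Ioi (0:ℝ)) :=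
  (integral_Jc k s hs).2

/-- the ν-integral of `u`. -/
private theorem R3_m1 : ∫ u, u ∂nu = Real.sqrt (π / 2) := by
  rw [integral_nu (fun u => u)]
  have h := (integral_Jc 2 1 one_pos).1
  rw [one_rpow, mul_one] at h
  have e : Jc 2 = Real.sqrt (π / 2) := by simp [Jc]
  rw [← e, ← h]
  refine setIntegral_congr_fun measurableSet_Ioi fun u _ => ?_
  simp only [one_mul]
  ring

private theorem R3_m3 : ∫ u, u ^ 3 ∂nu = 3 * Real.sqrt (π / 2) := by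
  rw [integral_nu (fun u => u ^ 3)]
  have h := (integral_Jc 4 1 one_pos).1
  rw [one_rpow, mul_one] at h
  have e : Jc 4 = 3 * Real.sqrt (π / 2) := by
    simp only [Jc]; push_cast; ring
  rw [← e, ← h]
  refine setIntegral_congr_fun measurableSet_Ioi fun u _ => ?_
  simp only [one_mul]
  ring

private theorem R3_sqrt_low {s a : ℝ} (h0 : 0 ≤ s) (_h1 : s ≤ 1 / 4) (ha : 0 < a) (h : a ^ 2 * (1 - s) = 1) :
    1 + s / 2 + 3 * s ^ 2 / 8 ≤ a := by
  by_contra hcon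
  push Not at hcon
  have h2 : a ^ 2 < (1 + s / 2 + 3 * s ^ 2 / 8) ^ 2 := by
    apply pow_lt_pow_left₀ hcon ha.le (by norm_num)
  have h3 : (1 + s / 2 + 3 * s ^ 2 / 8) ^ 2 * (1 - s) ≤ 1 := by
    have : (1 + s / 2 + 3 * s ^ 2 / 8) ^ 2 * (1 - s)
      = 1 - s ^ 3 * (5 / 8 + 15 / 64 * s + 9 / 64 * s ^ 2) := by ring
    rw [this]
    have : 0 ≤ s ^ 3 * (5 / 8 + 15 / 64 * s + 9 / 64 * s ^ 2) := by positivity
    linarith
  nlinarith

private theorem R3_sqrt_up {s b : ℝ} (h0 : 0 ≤ s) (h1 : s ≤ 1 / 4) (_hb : 0 < b)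
    (h : b ^ 2 * (1 - 2 * s) = 1) : b ≤ 1 + 1.6569 * s := by
  by_contra hcon
  push Not at hcon
  have h2 : (1 + 1.6569 * s) ^ 2 < b ^ 2 := by
    apply pow_lt_pow_left₀ hcon (by positivity) (by norm_num)
  have h3 : 1 ≤ (1 + 1.6569 * s) ^ 2 * (1 - 2 * s) := by
    have e : (1 + 1.6569 * s) ^ 2 * (1 - 2 * s)
      = 1 + s * (1.3138 + (1.6569 ^ 2 - 4 * 1.6569) * s - 2 * 1.6569 ^ 2 * s ^ 2) := by ring
    rw [e]
    have : 0 ≤ 1.3138 + (1.6569 ^ 2 - 4 * 1.6569) * s - 2 * 1.6569 ^ 2 * s ^ 2 := by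
      nlinarith [mul_nonneg h0 (sub_nonneg.2 h1)]
    nlinarith [mul_nonneg h0 this]
  nlinarith

/-- the two constants -/
private theorem R3_a {s : ℝ} (h0 : 0 ≤ s) (h1 : s ≤ 1 / 4) :
    (Jc 0 * (1:ℝ) ^ (-(((0:ℕ):ℝ) + 1) / 2) - 1.6 * (Jc 0 * (1 - s) ^ (-(((0:ℕ):ℝ) + 1) / 2))
      + 0.64 * (Jc 0 * (1 - 2 * s) ^ (-(((0:ℕ):ℝ) + 1) / 2)) ≤ 0.0857) ∧
    s * (Jc 4 * (1:ℝ) ^ (-(((4:ℕ):ℝ) + 1) / 2) - 2 * (Jc 2 * (1 - s) ^ (-(((2:ℕ):ℝ) + 1) / 2))
      + (Jc 0 * (1 - 2 * s) ^ (-(((0:ℕ):ℝ) + 1) / 2))) ≤ 0.5217 := by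
  set S := Real.sqrt (π / 2) with hS
  have hS0 : 0 ≤ S := Real.sqrt_nonneg _
  have hS1 : S ≤ 1.2534 := R3_S
  have e0 : Jc 0 = S := rfl
  have e2 : Jc 2 = S := by simp [Jc, hS]
  have e4 : Jc 4 = 3 * S := by simp only [Jc, hS]; push_cast; ring
  set a := (1 - s) ^ (-(((0:ℕ):ℝ) + 1) / 2) with ha
  set b := (1 - 2 * s) ^ (-(((0:ℕ):ℝ) + 1) / 2) with hb
  have hs1 : 0 < 1 - s := by linarith
  have hs2 : 0 < 1 - 2 * s := by linarith
  have ha0 : 0 < a := Real.rpow_pos_of_pos hs1 _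
  have hb0 : 0 < b := Real.rpow_pos_of_pos hs2 _
  have ha2 : a ^ 2 * (1 - s) = 1 := by
    rw [ha, ← Real.rpow_natCast, ← Real.rpow_mul hs1.le]
    nth_rewrite 2 [← Real.rpow_one (1 - s)]
    rw [← Real.rpow_add hs1]
    norm_num
  have hb2 : b ^ 2 * (1 - 2 * s) = 1 := by
    rw [hb, ← Real.rpow_natCast, ← Real.rpow_mul hs2.le]
    nth_rewrite 2 [← Real.rpow_one (1 - 2 * s)]
    rw [← Real.rpow_add hs2]
    norm_num
  have ha3 : (1 - s) ^ (-(((2:ℕ):ℝ) + 1) / 2) = a ^ 3 := by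
    rw [ha, ← Real.rpow_natCast, ← Real.rpow_mul hs1.le]
    congr 1
    norm_num
  have hal := R3_sqrt_low h0 h1 ha0 ha2
  have hbu := R3_sqrt_up h0 h1 hb0 hb2
  have hal3 : 1 + 3 / 2 * s ≤ a ^ 3 := by
    have h2 : 1 + s / 2 ≤ a := by nlinarith
    have h3 : (1 + s / 2) ^ 3 ≤ a ^ 3 := by gcongr
    nlinarith [pow_nonneg h0 3]
  rw [e0, e2, e4, ha3, one_rpow, one_rpow, mul_one, mul_one]
  constructor
  · have : S - 1.6 * (S * a) + 0.64 * (S * b) = S * (1 - 1.6 * a + 0.64 * b) := by ring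
    rw [this]
    have h2 : 1 - 1.6 * a + 0.64 * b ≤ 0.0683 := by
      nlinarith [sq_nonneg (s - 0.217)]
    calc S * (1 - 1.6 * a + 0.64 * b) ≤ S * 0.0683 := mul_le_mul_of_nonneg_left h2 hS0
      _ ≤ 1.2534 * 0.0683 := by nlinarith
      _ ≤ _ := by norm_num
  · have : s * (3 * S - 2 * (S * a ^ 3) + S * b) = S * (s * (3 - 2 * a ^ 3 + b)) := by ring
    rw [this]
    have h2 : s * (3 - 2 * a ^ 3 + b) ≤ 0.4162 := by
      have h3 : 3 - 2 * a ^ 3 + b ≤ 2 - 1.3431 * s := by linarith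
      have h4 : s * (3 - 2 * a ^ 3 + b) ≤ s * (2 - 1.3431 * s) := mul_le_mul_of_nonneg_left h3 h0
      nlinarith
    calc S * (s * (3 - 2 * a ^ 3 + b)) ≤ S * 0.4162 := mul_le_mul_of_nonneg_left h2 hS0
      _ ≤ 1.2534 * 0.4162 := by nlinarith
      _ ≤ _ := by norm_num

private theorem R3_e0 (u : ℝ) : 1 ≤ Real.exp (u ^ 2 / 4) := Real.one_le_exp (by positivity)

private theorem R3_e1 (u : ℝ) : u ≤ Real.exp (u ^ 2 / 4) := by
  have := Real.add_one_le_exp (u ^ 2 / 4)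
  nlinarith [sq_nonneg (u / 2 - 1)]

private theorem R3_e2 (u : ℝ) : u ^ 2 ≤ 4 * Real.exp (u ^ 2 / 4) := by
  have := Real.add_one_le_exp (u ^ 2 / 4)
  linarith

private theorem R3_e4 (u : ℝ) : u ^ 4 ≤ 32 * Real.exp (u ^ 2 / 4) := by
  have := Real.quadratic_le_exp_of_nonneg (show 0 ≤ u ^ 2 / 4 by positivity)
  nlinarith [sq_nonneg u]

private theorem R3_e3 (u : ℝ) : u ^ 3 ≤ 18 * Real.exp (u ^ 2 / 4) := by
  have h1 := R3_e2 u
  have h2 := R3_e4 u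
  nlinarith [sq_nonneg (u ^ 2 - u), sq_nonneg u]

private theorem R3_E (τ u : ℝ) (h0 : 0 < τ) (h1 : τ ≤ 1 / 2) :
    Real.exp (τ ^ 2 * u ^ 2 / 2) ≤ Real.exp (u ^ 2 / 4) := by
  apply Real.exp_le_exp.2
  have : τ ^ 2 ≤ 1 / 4 := by nlinarith
  nlinarith [mul_nonneg (sub_nonneg.2 this) (sq_nonneg u), sq_nonneg u]

private theorem R3_main (τ : ℝ) (h0 : 0 < τ) (h1 : τ ≤ 1 / 2) (f : ℝ → ℝ) (hf : Measurable f) (M : ℝ)
    (hb : ∀ u, |f u| ≤ M) (hc : ∫ u, f u * Real.exp (τ ^ 2 * u ^ 2 / 2) ∂nu = 0) :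
    (∫ u, f u ∂nu) ^ 2 ≤ 0.0857 * ∫ u, u * (f u) ^ 2 ∂nu ∧
    τ ^ 2 * (∫ u, u ^ 2 * f u ∂nu) ^ 2 ≤ 0.5217 * ∫ u, u * (f u) ^ 2 ∂nu := by
  have hM : 0 ≤ M := (abs_nonneg _).trans (hb 0)
  have hs0 : 0 ≤ τ ^ 2 := sq_nonneg _
  have hs1 : τ ^ 2 ≤ 1 / 4 := by nlinarith
  have hc1 := R3_a hs0 hs1
  have hX0 : 0 ≤ ∫ u, u * (f u) ^ 2 ∂nu := by
    apply integral_nonneg_of_ae
    filter_upwards [nu_pos] with u hu
    exact mul_nonneg hu.le (sq_nonneg _)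
  have iX : Integrable (fun u => u * (f u) ^ 2) nu := by
    refine integrable_nu _ (by fun_prop) (M ^ 2) fun u hu => ?_
    rw [abs_mul, abs_of_pos hu, abs_pow]
    have := hb u
    have h2 := R3_e1 u
    calc u * |f u| ^ 2 ≤ Real.exp (u ^ 2 / 4) * M ^ 2 := by gcongr
      _ = _ := by ring
  have iF0 : Integrable f nu := by
    refine integrable_nu _ hf M fun u hu => ?_
    have := R3_e0 u
    nlinarith [hb u]
  have iFE : Integrable (fun u => f u * Real.exp (τ ^ 2 * u ^ 2 / 2)) nu := by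
    refine integrable_nu _ (by fun_prop) M fun u hu => ?_
    rw [abs_mul, Real.abs_exp]
    have := R3_E τ u h0 h1
    have := hb u
    gcongr
  have iF2 : Integrable (fun u => u ^ 2 * f u) nu := by
    refine integrable_nu _ (by fun_prop) (4 * M) fun u hu => ?_
    rw [abs_mul, abs_of_nonneg (sq_nonneg u)]
    have := R3_e2 u
    have := hb u
    calc u ^ 2 * |f u| ≤ (4 * Real.exp (u ^ 2 / 4)) * M := by gcongr
      _ = _ := by ring
  have hsA : 0 < 1 - τ ^ 2 := by linarith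
  have hsB : 0 < 1 - 2 * τ ^ 2 := by linarith
  have g01 := integral_Jc 0 1 one_pos
  have g0A := integral_Jc 0 (1 - τ ^ 2) hsA
  have g0B := integral_Jc 0 (1 - 2 * τ ^ 2) hsB
  have g41 := integral_Jc 4 1 one_pos
  have g2A := integral_Jc 2 (1 - τ ^ 2) hsA
  constructor
  · -- first
    set p : ℝ → ℝ := fun u => 1 - 0.8 * Real.exp (τ ^ 2 * u ^ 2 / 2) with hp
    have e1 : ∫ u, f u ∂nu = ∫ u, p u * f u ∂nu := by
      have : (fun u => p u * f u) = fun u => f u - 0.8 * (f u * Real.exp (τ ^ 2 * u ^ 2 / 2)) := by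
        funext u; simp only [hp]; ring
      rw [this, integral_sub iF0 (iFE.const_mul _), integral_const_mul, hc]
      ring
    have ip : Integrable (fun u => p u * f u) nu := by
      have : (fun u => p u * f u) = fun u => f u - 0.8 * (f u * Real.exp (τ ^ 2 * u ^ 2 / 2)) := by
        funext u; simp only [hp]; ring
      rw [this]
      exact iF0.sub (iFE.const_mul _)
    have hpm : Measurable p := by fun_prop
    have hcong : ∀ u ∈ Ioi (0:ℝ), p u ^ 2 / u * (u * Real.exp (-(u ^ 2 / 2)))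
        = u ^ 0 * Real.exp (-(1 * u ^ 2 / 2)) - 1.6 * (u ^ 0 * Real.exp (-((1 - τ ^ 2) * u ^ 2 / 2)))
          + 0.64 * (u ^ 0 * Real.exp (-((1 - 2 * τ ^ 2) * u ^ 2 / 2))) := by
      intro u hu
      have hu' : (0:ℝ) < u := hu
      have x1 : Real.exp (-((1 - τ ^ 2) * u ^ 2 / 2))
          = Real.exp (τ ^ 2 * u ^ 2 / 2) * Real.exp (-(u ^ 2 / 2)) := by
        rw [← Real.exp_add]; congr 1; ring
      have x2 : Real.exp (-((1 - 2 * τ ^ 2) * u ^ 2 / 2))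
          = Real.exp (τ ^ 2 * u ^ 2 / 2) ^ 2 * Real.exp (-(u ^ 2 / 2)) := by
        rw [← Real.exp_nat_mul, ← Real.exp_add]; congr 1; push_cast; ring
      rw [x1, x2, one_mul]
      simp only [hp]
      field_simp
      ring
    have iR : IntegrableOn (fun u : ℝ => u ^ 0 * Real.exp (-(1 * u ^ 2 / 2))
          - 1.6 * (u ^ 0 * Real.exp (-((1 - τ ^ 2) * u ^ 2 / 2)))
          + 0.64 * (u ^ 0 * Real.exp (-((1 - 2 * τ ^ 2) * u ^ 2 / 2)))) (Ioi (0:ℝ)) :=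
      (g01.2.sub (g0A.2.const_mul _)).add (g0B.2.const_mul _)
    have ipp : Integrable (fun u => p u ^ 2 / u) nu := by
      rw [integrable_nu_iff _ (by fun_prop)]
      exact (integrableOn_congr_fun hcong measurableSet_Ioi).2 iR
    have hval : ∫ u, p u ^ 2 / u ∂nu ≤ 0.0857 := by
      rw [integral_nu (fun u => p u ^ 2 / u), setIntegral_congr_fun measurableSet_Ioi hcong]
      have i1 : IntegrableOn (fun u : ℝ => u ^ 0 * Real.exp (-(1 * u ^ 2 / 2))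
          - 1.6 * (u ^ 0 * Real.exp (-((1 - τ ^ 2) * u ^ 2 / 2)))) (Ioi (0:ℝ)) :=
        g01.2.sub (g0A.2.const_mul _)
      rw [integral_add i1 (g0B.2.const_mul _), integral_sub g01.2 (g0A.2.const_mul _),
        integral_const_mul, integral_const_mul, g01.1, g0A.1, g0B.1]
      exact hc1.1
    have := R3_cs p f (fun u => u) nu_pos ipp iX ip
    rw [e1]
    refine this.trans (mul_le_mul_of_nonneg_right hval hX0)
  · set p : ℝ → ℝ := fun u => u ^ 2 - Real.exp (τ ^ 2 * u ^ 2 / 2) with hp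
    have e1 : ∫ u, u ^ 2 * f u ∂nu = ∫ u, p u * f u ∂nu := by
      have : (fun u => p u * f u) = fun u => u ^ 2 * f u - f u * Real.exp (τ ^ 2 * u ^ 2 / 2) := by
        funext u; simp only [hp]; ring
      rw [this, integral_sub iF2 iFE, hc]
      ring
    have ip : Integrable (fun u => p u * f u) nu := by
      have : (fun u => p u * f u) = fun u => u ^ 2 * f u - f u * Real.exp (τ ^ 2 * u ^ 2 / 2) := by
        funext u; simp only [hp]; ring
      rw [this]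
      exact iF2.sub iFE
    have hpm : Measurable p := by fun_prop
    have hcong : ∀ u ∈ Ioi (0:ℝ), p u ^ 2 / u * (u * Real.exp (-(u ^ 2 / 2)))
        = u ^ 4 * Real.exp (-(1 * u ^ 2 / 2)) - 2 * (u ^ 2 * Real.exp (-((1 - τ ^ 2) * u ^ 2 / 2)))
          + (u ^ 0 * Real.exp (-((1 - 2 * τ ^ 2) * u ^ 2 / 2))) := by
      intro u hu
      have hu' : (0:ℝ) < u := hu
      have x1 : Real.exp (-((1 - τ ^ 2) * u ^ 2 / 2))
          = Real.exp (τ ^ 2 * u ^ 2 / 2) * Real.exp (-(u ^ 2 / 2)) := by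
        rw [← Real.exp_add]; congr 1; ring
      have x2 : Real.exp (-((1 - 2 * τ ^ 2) * u ^ 2 / 2))
          = Real.exp (τ ^ 2 * u ^ 2 / 2) ^ 2 * Real.exp (-(u ^ 2 / 2)) := by
        rw [← Real.exp_nat_mul, ← Real.exp_add]; congr 1; push_cast; ring
      rw [x1, x2, one_mul]
      simp only [hp]
      field_simp
      ring
    have i1 : IntegrableOn (fun u : ℝ => u ^ 4 * Real.exp (-(1 * u ^ 2 / 2))
          - 2 * (u ^ 2 * Real.exp (-((1 - τ ^ 2) * u ^ 2 / 2)))) (Ioi (0:ℝ)) :=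
        g41.2.sub (g2A.2.const_mul _)
    have iR : IntegrableOn (fun u : ℝ => u ^ 4 * Real.exp (-(1 * u ^ 2 / 2))
          - 2 * (u ^ 2 * Real.exp (-((1 - τ ^ 2) * u ^ 2 / 2)))
          + (u ^ 0 * Real.exp (-((1 - 2 * τ ^ 2) * u ^ 2 / 2)))) (Ioi (0:ℝ)) :=
      i1.add g0B.2
    have ipp : Integrable (fun u => p u ^ 2 / u) nu := by
      rw [integrable_nu_iff _ (by fun_prop)]
      exact (integrableOn_congr_fun hcong measurableSet_Ioi).2 iR
    have hval : τ ^ 2 * ∫ u, p u ^ 2 / u ∂nu ≤ 0.5217 := by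
      rw [integral_nu (fun u => p u ^ 2 / u), setIntegral_congr_fun measurableSet_Ioi hcong]
      rw [integral_add i1 g0B.2, integral_sub g41.2 (g2A.2.const_mul _),
        integral_const_mul, g41.1, g2A.1, g0B.1]
      exact hc1.2
    have := R3_cs p f (fun u => u) nu_pos ipp iX ip
    rw [e1]
    calc τ ^ 2 * (∫ u, p u * f u ∂nu) ^ 2
        ≤ τ ^ 2 * ((∫ u, p u ^ 2 / u ∂nu) * ∫ u, u * f u ^ 2 ∂nu) := mul_le_mul_of_nonneg_left this hs0
      _ = (τ ^ 2 * (∫ u, p u ^ 2 / u ∂nu)) * ∫ u, u * f u ^ 2 ∂nu := by ring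
      _ ≤ _ := mul_le_mul_of_nonneg_right hval hX0


private theorem R3_abs (f : ℝ → ℝ) (hf : Measurable f) (M : ℝ)
    (hb : ∀ u, |f u| ≤ M) :
    (∫ u, u * |f u| ∂nu) ^ 2 ≤ 1.2534 * ∫ u, u * (f u) ^ 2 ∂nu ∧
    (∫ u, u ^ 2 * |f u| ∂nu) ^ 2 ≤ 3.7602 * ∫ u, u * (f u) ^ 2 ∂nu := by
  have hM : 0 ≤ M := (abs_nonneg _).trans (hb 0)
  have hX0 : 0 ≤ ∫ u, u * (f u) ^ 2 ∂nu := by
    apply integral_nonneg_of_ae
    filter_upwards [nu_pos] with u hu
    exact mul_nonneg hu.le (sq_nonneg _)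
  have iX : Integrable (fun u => u * |f u| ^ 2) nu := by
    refine integrable_nu _ (by fun_prop) (M ^ 2) fun u hu => ?_
    rw [abs_mul, abs_of_pos hu, abs_pow, abs_abs]
    have := hb u
    have h2 := R3_e1 u
    calc u * |f u| ^ 2 ≤ Real.exp (u ^ 2 / 4) * M ^ 2 := by gcongr
      _ = _ := by ring
  have iX1 : Integrable (fun u => u * |f u|) nu := by
    refine integrable_nu _ (by fun_prop) M fun u hu => ?_
    rw [abs_mul, abs_of_pos hu, abs_abs]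
    have := hb u
    have h2 := R3_e1 u
    calc u * |f u| ≤ Real.exp (u ^ 2 / 4) * M := by gcongr
      _ = _ := by ring
  have iX2 : Integrable (fun u => u ^ 2 * |f u|) nu := by
    refine integrable_nu _ (by fun_prop) (4 * M) fun u hu => ?_
    rw [abs_mul, abs_of_nonneg (sq_nonneg u), abs_abs]
    have := hb u
    have h2 := R3_e2 u
    calc u ^ 2 * |f u| ≤ (4 * Real.exp (u ^ 2 / 4)) * M := by gcongr
      _ = _ := by ring
  have eX : ∫ u, u * |f u| ^ 2 ∂nu = ∫ u, u * (f u) ^ 2 ∂nu := by simp only [sq_abs]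
  have hS := R3_S
  constructor
  · have hae : (fun u : ℝ => u ^ 2 / u) =ᵐ[nu] fun u => u := by
      filter_upwards [nu_pos] with u hu
      field_simp
    have iu : Integrable (fun u : ℝ => u) nu := by
      refine integrable_nu _ (by fun_prop) 1 fun u hu => ?_
      rw [abs_of_pos hu, one_mul]
      exact R3_e1 u
    have ipp : Integrable (fun u : ℝ => u ^ 2 / u) nu := (integrable_congr hae).2 iu
    have := R3_cs (fun u => u) (fun u => |f u|) (fun u => u) nu_pos ipp iX iX1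
    rw [integral_congr_ae hae, R3_m1, eX] at this
    exact this.trans (mul_le_mul_of_nonneg_right hS hX0)
  · have hae : (fun u : ℝ => (u ^ 2) ^ 2 / u) =ᵐ[nu] fun u => u ^ 3 := by
      filter_upwards [nu_pos] with u hu
      field_simp
    have iu : Integrable (fun u : ℝ => u ^ 3) nu := by
      refine integrable_nu _ (by fun_prop) 18 fun u hu => ?_
      rw [abs_of_pos (by positivity)]
      exact R3_e3 u
    have ipp : Integrable (fun u : ℝ => (u ^ 2) ^ 2 / u) nu := (integrable_congr hae).2 iu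
    have := R3_cs (fun u => u ^ 2) (fun u => |f u|) (fun u => u) nu_pos ipp iX iX2
    rw [integral_congr_ae hae, R3_m3, eX] at this
    refine this.trans (mul_le_mul_of_nonneg_right ?_ hX0)
    linarith

private theorem R3_l {τ u v : ℝ} (h0 : 0 < τ) (h1 : τ ≤ 1 / 2) (hu : 0 < u) (hv : 0 < v) :
    0 ≤ τ * u * v ∧ Real.exp (τ * u * v / 2) ≤ Real.exp ((u ^ 2 + v ^ 2) / 4) := by
  refine ⟨by positivity, Real.exp_le_exp.2 ?_⟩
  have h2 : τ * (u * v) ≤ 1 / 2 * (u * v) := mul_le_mul_of_nonneg_right h1 (by positivity)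
  nlinarith [sq_nonneg (u - v), mul_pos hu hv]

private theorem R3_double (τ : ℝ) (h0 : 0 < τ) (h1 : τ ≤ 1 / 2) (f : ℝ → ℝ) (hf : Measurable f) (M : ℝ)
    (hb : ∀ u, |f u| ≤ M) :
    (∫ u, ∫ v, cF (τ * u * v) * (f u * f v) ∂nu ∂nu) ≤
      (∫ u, f u ∂nu) ^ 2 - 0.2 * τ * (∫ u, u * f u ∂nu) ^ 2
        + 0.1125 * τ ^ 2 * (∫ u, u ^ 2 * f u ∂nu) ^ 2
        + 0.02 * τ * (∫ u, u * |f u| ∂nu) ^ 2 + 0.0075 * τ ^ 2 * (∫ u, u ^ 2 * |f u| ∂nu) ^ 2
        + 0.45 * (∫ u, ∫ v, T4 (τ * u * v) * (|f u| * |f v|) ∂nu ∂nu) := by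
  have := nu_prob
  have hM : 0 ≤ M := (abs_nonneg _).trans (hb 0)
  have mT4 : Measurable T4 := by
    unfold T4
    fun_prop
  have mcF : Measurable cF := continuous_cF.measurable
  -- one-variable integrability
  have j0 : Integrable f nu := by
    refine integrable_nu _ hf M fun u hu => ?_
    have := R3_e0 u
    nlinarith [hb u]
  have j1 : Integrable (fun u => u * f u) nu := by
    refine integrable_nu _ (by fun_prop) M fun u hu => ?_
    rw [abs_mul, abs_of_pos hu]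
    have := hb u
    have h2 := R3_e1 u
    calc u * |f u| ≤ Real.exp (u ^ 2 / 4) * M := by gcongr
      _ = _ := by ring
  have j2 : Integrable (fun u => u ^ 2 * f u) nu := by
    refine integrable_nu _ (by fun_prop) (4 * M) fun u hu => ?_
    rw [abs_mul, abs_of_nonneg (sq_nonneg u)]
    have := hb u
    have h2 := R3_e2 u
    calc u ^ 2 * |f u| ≤ (4 * Real.exp (u ^ 2 / 4)) * M := by gcongr
      _ = _ := by ring
  have j1' : Integrable (fun u => u * |f u|) nu := by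
    refine integrable_nu _ (by fun_prop) M fun u hu => ?_
    rw [abs_mul, abs_of_pos hu, abs_abs]
    have := hb u
    have h2 := R3_e1 u
    calc u * |f u| ≤ Real.exp (u ^ 2 / 4) * M := by gcongr
      _ = _ := by ring
  have j2' : Integrable (fun u => u ^ 2 * |f u|) nu := by
    refine integrable_nu _ (by fun_prop) (4 * M) fun u hu => ?_
    rw [abs_mul, abs_of_nonneg (sq_nonneg u), abs_abs]
    have := hb u
    have h2 := R3_e2 u
    calc u ^ 2 * |f u| ≤ (4 * Real.exp (u ^ 2 / 4)) * M := by gcongr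
      _ = _ := by ring
  -- two-variable
  have k0 : Integrable (fun z : ℝ × ℝ => f z.1 * f z.2) (nu.prod nu) := j0.mul_prod j0
  have k1 : Integrable (fun z : ℝ × ℝ => (z.1 * f z.1) * (z.2 * f z.2)) (nu.prod nu) :=
    j1.mul_prod j1
  have k2 : Integrable (fun z : ℝ × ℝ => (z.1 ^ 2 * f z.1) * (z.2 ^ 2 * f z.2)) (nu.prod nu) :=
    j2.mul_prod j2
  have k1' : Integrable (fun z : ℝ × ℝ => (z.1 * |f z.1|) * (z.2 * |f z.2|)) (nu.prod nu) :=
    j1'.mul_prod j1'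
  have k2' : Integrable (fun z : ℝ × ℝ => (z.1 ^ 2 * |f z.1|) * (z.2 ^ 2 * |f z.2|)) (nu.prod nu) :=
    j2'.mul_prod j2'
  have kc : Integrable (fun z : ℝ × ℝ => cF (τ * z.1 * z.2) * (f z.1 * f z.2)) (nu.prod nu) := by
    refine integrable_nu_prod _ (by fun_prop) (M ^ 2) fun u v hu hv => ?_
    obtain ⟨l0, l1⟩ := R3_l h0 h1 hu hv
    simp only [abs_mul]
    rw [abs_of_nonneg (cF_nonneg _)]
    have a1 := (cF_le _ l0).trans l1
    have := hb u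
    have := hb v
    calc cF (τ * u * v) * (|f u| * |f v|) ≤ Real.exp ((u ^ 2 + v ^ 2) / 4) * (M * M) := by
          have := cF_nonneg (τ * u * v)
          gcongr
      _ = _ := by ring
  have kT : Integrable (fun z : ℝ × ℝ => T4 (τ * z.1 * z.2) * (|f z.1| * |f z.2|)) (nu.prod nu) := by
    refine integrable_nu_prod _ (by fun_prop) (M ^ 2) fun u v hu hv => ?_
    obtain ⟨l0, l1⟩ := R3_l h0 h1 hu hv
    simp only [abs_mul, abs_abs]
    rw [abs_of_nonneg (T4_nonneg _)]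
    have a1 := (T4_le _ l0).trans l1
    have := hb u
    have := hb v
    calc T4 (τ * u * v) * (|f u| * |f v|) ≤ Real.exp ((u ^ 2 + v ^ 2) / 4) * (M * M) := by
          have := T4_nonneg (τ * u * v)
          gcongr
      _ = _ := by ring
  have ec : (∫ u, ∫ v, cF (τ * u * v) * (f u * f v) ∂nu ∂nu)
      = ∫ z, cF (τ * z.1 * z.2) * (f z.1 * f z.2) ∂(nu.prod nu) := (integral_prod _ kc).symm
  have eT : (∫ u, ∫ v, T4 (τ * u * v) * (|f u| * |f v|) ∂nu ∂nu)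
      = ∫ z, T4 (τ * z.1 * z.2) * (|f z.1| * |f z.2|) ∂(nu.prod nu) := (integral_prod _ kT).symm
  rw [ec, eT]
  have s1 : Integrable (fun z : ℝ × ℝ => f z.1 * f z.2 - 0.2 * τ * ((z.1 * f z.1) * (z.2 * f z.2)))
      (nu.prod nu) := k0.sub (k1.const_mul _)
  have s2 : Integrable (fun z : ℝ × ℝ => f z.1 * f z.2 - 0.2 * τ * ((z.1 * f z.1) * (z.2 * f z.2))
      + 0.1125 * τ ^ 2 * ((z.1 ^ 2 * f z.1) * (z.2 ^ 2 * f z.2))) (nu.prod nu) :=
    s1.add (k2.const_mul _)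
  have s3 : Integrable (fun z : ℝ × ℝ => f z.1 * f z.2 - 0.2 * τ * ((z.1 * f z.1) * (z.2 * f z.2))
      + 0.1125 * τ ^ 2 * ((z.1 ^ 2 * f z.1) * (z.2 ^ 2 * f z.2))
      + 0.02 * τ * ((z.1 * |f z.1|) * (z.2 * |f z.2|))) (nu.prod nu) :=
    s2.add (k1'.const_mul _)
  have s4 : Integrable (fun z : ℝ × ℝ => f z.1 * f z.2 - 0.2 * τ * ((z.1 * f z.1) * (z.2 * f z.2))
      + 0.1125 * τ ^ 2 * ((z.1 ^ 2 * f z.1) * (z.2 ^ 2 * f z.2))
      + 0.02 * τ * ((z.1 * |f z.1|) * (z.2 * |f z.2|))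
      + 0.0075 * τ ^ 2 * ((z.1 ^ 2 * |f z.1|) * (z.2 ^ 2 * |f z.2|))) (nu.prod nu) :=
    s3.add (k2'.const_mul _)
  have s5 : Integrable (fun z : ℝ × ℝ => f z.1 * f z.2 - 0.2 * τ * ((z.1 * f z.1) * (z.2 * f z.2))
      + 0.1125 * τ ^ 2 * ((z.1 ^ 2 * f z.1) * (z.2 ^ 2 * f z.2))
      + 0.02 * τ * ((z.1 * |f z.1|) * (z.2 * |f z.2|))
      + 0.0075 * τ ^ 2 * ((z.1 ^ 2 * |f z.1|) * (z.2 ^ 2 * |f z.2|))
      + 0.45 * (T4 (τ * z.1 * z.2) * (|f z.1| * |f z.2|))) (nu.prod nu) :=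
    s4.add (kT.const_mul _)
  have pm : ∀ (a b : ℝ → ℝ), ∫ z : ℝ × ℝ, a z.1 * b z.2 ∂(nu.prod nu) = (∫ u, a u ∂nu) * ∫ u, b u ∂nu :=
    fun a b => integral_prod_mul a b
  have hval : ∫ z : ℝ × ℝ, (f z.1 * f z.2 - 0.2 * τ * ((z.1 * f z.1) * (z.2 * f z.2))
      + 0.1125 * τ ^ 2 * ((z.1 ^ 2 * f z.1) * (z.2 ^ 2 * f z.2))
      + 0.02 * τ * ((z.1 * |f z.1|) * (z.2 * |f z.2|))
      + 0.0075 * τ ^ 2 * ((z.1 ^ 2 * |f z.1|) * (z.2 ^ 2 * |f z.2|))
      + 0.45 * (T4 (τ * z.1 * z.2) * (|f z.1| * |f z.2|))) ∂(nu.prod nu)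
      = (∫ u, f u ∂nu) ^ 2 - 0.2 * τ * (∫ u, u * f u ∂nu) ^ 2
        + 0.1125 * τ ^ 2 * (∫ u, u ^ 2 * f u ∂nu) ^ 2
        + 0.02 * τ * (∫ u, u * |f u| ∂nu) ^ 2 + 0.0075 * τ ^ 2 * (∫ u, u ^ 2 * |f u| ∂nu) ^ 2
        + 0.45 * ∫ z, T4 (τ * z.1 * z.2) * (|f z.1| * |f z.2|) ∂(nu.prod nu) := by
    rw [integral_add s4 (kT.const_mul _), integral_add s3 (k2'.const_mul _),
      integral_add s2 (k1'.const_mul _), integral_add s1 (k2.const_mul _),
      integral_sub k0 (k1.const_mul _)]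
    simp only [integral_const_mul]
    rw [pm f f, pm (fun u => u * f u) (fun u => u * f u), pm (fun u => u ^ 2 * f u) (fun u => u ^ 2 * f u),
      pm (fun u => u * |f u|) (fun u => u * |f u|), pm (fun u => u ^ 2 * |f u|) (fun u => u ^ 2 * |f u|)]
    ring
  rw [← hval]
  apply integral_mono_ae kc s5
  have p1 : ∀ᵐ z ∂(nu.prod nu), 0 < z.1 := Measure.quasiMeasurePreserving_fst.ae nu_pos
  have p2 : ∀ᵐ z ∂(nu.prod nu), 0 < z.2 := Measure.quasiMeasurePreserving_snd.ae nu_pos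
  filter_upwards [p1, p2] with z hz1 hz2
  obtain ⟨l0, -⟩ := R3_l h0 h1 hz1 hz2
  have b1 := cF_lower _ l0
  have b2 := cF_upper _ l0
  have b3 := T4_nonneg (τ * z.1 * z.2)
  set l := τ * z.1 * z.2 with hl
  have hd : |cF l - (1 - 0.2 * l + 0.1125 * l ^ 2)| ≤ 0.02 * l + 0.0075 * l ^ 2 + 0.45 * T4 l := by
    rw [abs_le]
    constructor
    · nlinarith [sq_nonneg l]
    · nlinarith [sq_nonneg l]
  have hd2 : (cF l - (1 - 0.2 * l + 0.1125 * l ^ 2)) * (f z.1 * f z.2)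
      ≤ (0.02 * l + 0.0075 * l ^ 2 + 0.45 * T4 l) * (|f z.1| * |f z.2|) := by
    calc _ ≤ |(cF l - (1 - 0.2 * l + 0.1125 * l ^ 2)) * (f z.1 * f z.2)| := le_abs_self _
      _ = |cF l - (1 - 0.2 * l + 0.1125 * l ^ 2)| * (|f z.1| * |f z.2|) := by
          rw [abs_mul, abs_mul]
      _ ≤ _ := mul_le_mul_of_nonneg_right hd (by positivity)
  have e1 : f z.1 * f z.2 - 0.2 * τ * ((z.1 * f z.1) * (z.2 * f z.2))
      + 0.1125 * τ ^ 2 * ((z.1 ^ 2 * f z.1) * (z.2 ^ 2 * f z.2))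
      + 0.02 * τ * ((z.1 * |f z.1|) * (z.2 * |f z.2|))
      + 0.0075 * τ ^ 2 * ((z.1 ^ 2 * |f z.1|) * (z.2 ^ 2 * |f z.2|))
      + 0.45 * (T4 l * (|f z.1| * |f z.2|))
      = (1 - 0.2 * l + 0.1125 * l ^ 2) * (f z.1 * f z.2)
        + (0.02 * l + 0.0075 * l ^ 2 + 0.45 * T4 l) * (|f z.1| * |f z.2|) := by
    rw [hl]; ring
  rw [e1]
  linarith

/-! ## [R3] uses cF_lower, cF_upper, T4_schur, DD_ge -/
theorem E1 (τ : ℝ) (h0 : 0 < τ) (h1 : τ ≤ 1 / 2) (f : ℝ → ℝ) (hf : Measurable f) (M : ℝ)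
    (hb : ∀ u, |f u| ≤ M) (hc : ∫ u, f u * Real.exp (τ ^ 2 * u ^ 2 / 2) ∂nu = 0) :
    τ * (∫ u, ∫ v, cF (τ * u * v) * (f u * f v) ∂nu ∂nu) ≤ ∫ u, DD τ u * (f u) ^ 2 ∂nu := by
  have hM : 0 ≤ M := (abs_nonneg _).trans (hb 0)
  have hX0 : 0 ≤ ∫ u, u * (f u) ^ 2 ∂nu := by
    apply integral_nonneg_of_ae
    filter_upwards [nu_pos] with u hu
    exact mul_nonneg hu.le (sq_nonneg _)
  have iX : Integrable (fun u => u * (f u) ^ 2) nu := by
    refine integrable_nu _ (by fun_prop) (M ^ 2) fun u hu => ?_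
    rw [abs_mul, abs_of_pos hu, abs_pow]
    have := hb u
    have h2 := R3_e1 u
    calc u * |f u| ^ 2 ≤ Real.exp (u ^ 2 / 4) * M ^ 2 := by gcongr
      _ = _ := by ring
  have iD : Integrable (fun u => DD τ u * (f u) ^ 2) nu := by
    have := DD_measurable τ
    refine integrable_nu _ (by fun_prop) (4 * M ^ 2) fun u hu => ?_
    have hD0 : 0 ≤ DD τ u := le_trans (by positivity) (DD_ge τ u h0 h1 hu)
    rw [abs_mul, abs_pow, abs_of_nonneg hD0]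
    have := hb u
    have h2 := DD_le τ u h0 h1 hu
    calc DD τ u * |f u| ^ 2 ≤ (4 * Real.exp (u ^ 2 / 4)) * M ^ 2 := by gcongr
      _ = _ := by ring
  have hDX : 0.187 * τ * ∫ u, u * (f u) ^ 2 ∂nu ≤ ∫ u, DD τ u * (f u) ^ 2 ∂nu := by
    rw [← integral_const_mul]
    apply integral_mono_ae (iX.const_mul _) iD
    filter_upwards [nu_pos] with u hu
    have h2 := DD_ge τ u h0 h1 hu
    calc 0.187 * τ * (u * f u ^ 2) = 0.187 * (τ * u) * f u ^ 2 := by ring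
      _ ≤ _ := mul_le_mul_of_nonneg_right h2 (sq_nonneg _)
  refine le_trans ?_ hDX
  obtain ⟨m1, m2⟩ := R3_main τ h0 h1 f hf M hb hc
  obtain ⟨n1, n2⟩ := R3_abs f hf M hb
  have hT := T4_schur τ h0 h1 f hf M hb
  have hdbl := R3_double τ h0 h1 f hf M hb
  set X := ∫ u, u * (f u) ^ 2 ∂nu with hX
  have hF1 : 0 ≤ 0.2 * τ * (∫ u, u * f u ∂nu) ^ 2 := by positivity
  have q1 : 0.02 * τ * (∫ u, u * |f u| ∂nu) ^ 2 ≤ 0.012534 * X := by
    calc 0.02 * τ * (∫ u, u * |f u| ∂nu) ^ 2 ≤ 0.02 * (1 / 2) * (1.2534 * X) := by gcongr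
      _ = _ := by ring
  have q2 : 0.0075 * τ ^ 2 * (∫ u, u ^ 2 * |f u| ∂nu) ^ 2 ≤ 0.00706 * X := by
    calc 0.0075 * τ ^ 2 * (∫ u, u ^ 2 * |f u| ∂nu) ^ 2 ≤ 0.0075 * (1 / 2) ^ 2 * (3.7602 * X) := by gcongr
      _ ≤ _ := by nlinarith
  have q3 : 0.45 * (∫ u, ∫ v, T4 (τ * u * v) * (|f u| * |f v|) ∂nu ∂nu) ≤ 0.0165 * X := by
    calc 0.45 * (∫ u, ∫ v, T4 (τ * u * v) * (|f u| * |f v|) ∂nu ∂nu)
        ≤ 0.45 * (0.58 * τ ^ 4 * X) := by gcongr
      _ ≤ 0.45 * (0.58 * (1 / 2) ^ 4 * X) := by gcongr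
      _ ≤ _ := by nlinarith
  have q4 : 0.1125 * τ ^ 2 * (∫ u, u ^ 2 * f u ∂nu) ^ 2 ≤ 0.0587 * X := by nlinarith
  have hI : (∫ u, ∫ v, cF (τ * u * v) * (f u * f v) ∂nu ∂nu) ≤ 0.187 * X := by linarith
  calc τ * (∫ u, ∫ v, cF (τ * u * v) * (f u * f v) ∂nu ∂nu) ≤ τ * (0.187 * X) :=
        mul_le_mul_of_nonneg_left hI h0.le
    _ = _ := by ring

end Pool.Agent.SSC3N
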