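import Pool.Agent.SSC3N.NuBasic
import Pool.Agent.SSC3N.GaussInt

set_option autoImplicit false
open MeasureTheory ProbabilityTheory Set Real
open scoped ENNReal

namespace Pool.Agent.SSC3N
open Pool.Agent.SSC3

theorem phi_pos (u : ℝ) (hu : 0 < u) : 0 < phi u := by
  unfold phi
  apply div_pos _ hu
  have h1 : Real.exp (-(u ^ 2 / 2)) ≤ 1 := by
    rw [Real.exp_le_one_iff]
    have := sq_nonneg u
    linarith
  have := sq_nonneg u
  nlinarith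

private theorem PhiInt_meas (τ u : ℝ) :
    Measurable (fun v => (1 - 0.18 * (τ * u * v) + 0.12 * (τ * u * v) ^ 2) * phi v) := by
  unfold phi
  fun_prop

private noncomputable def PhiInt_G (a b v : ℝ) : ℝ :=
  (1 * (v ^ 0 * Real.exp (-((1:ℝ) * v ^ 2 / 2))) +
        (-0.6) * (v ^ 0 * Real.exp (-((2:ℝ) * v ^ 2 / 2))) +
        (-a) * (v ^ 1 * Real.exp (-((1:ℝ) * v ^ 2 / 2))) +
        (0.6 * a) * (v ^ 1 * Real.exp (-((2:ℝ) * v ^ 2 / 2))) +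
        (0.055 + b) * (v ^ 2 * Real.exp (-((1:ℝ) * v ^ 2 / 2))) +
        (-0.6 * b) * (v ^ 2 * Real.exp (-((2:ℝ) * v ^ 2 / 2))) +
        (-0.055 * a) * (v ^ 3 * Real.exp (-((1:ℝ) * v ^ 2 / 2))) +
        (0.055 * b) * (v ^ 4 * Real.exp (-((1:ℝ) * v ^ 2 / 2))))

private theorem PhiInt_eq (a b : ℝ) (v : ℝ) (hv : 0 < v) :
    ((1 - a * v + b * v ^ 2) * phi v) * (v * Real.exp (-(v ^ 2 / 2))) =
      PhiInt_G a b v := by
  have e1 : Real.exp (-((1:ℝ) * v ^ 2 / 2)) = Real.exp (-(v ^ 2 / 2)) := by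
    congr 1; ring
  have e2 : Real.exp (-((2:ℝ) * v ^ 2 / 2)) =
      Real.exp (-(v ^ 2 / 2)) * Real.exp (-(v ^ 2 / 2)) := by
    rw [← Real.exp_add]; congr 1; ring
  unfold PhiInt_G
  rw [e1, e2]
  unfold phi
  set x := Real.exp (-(v ^ 2 / 2))
  have hv' : v ≠ 0 := hv.ne'
  field_simp
  ring

private theorem PhiInt_I (a b : ℝ) :
    IntegrableOn (fun v : ℝ => PhiInt_G a b v) (Ioi (0:ℝ)) ∧
    ∫ v in Ioi (0:ℝ), PhiInt_G a b v =
      1 * (Jc 0 * (1:ℝ) ^ (-(((0:ℕ):ℝ) + 1) / 2)) +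
        (-0.6) * (Jc 0 * (2:ℝ) ^ (-(((0:ℕ):ℝ) + 1) / 2)) +
        (-a) * (Jc 1 * (1:ℝ) ^ (-(((1:ℕ):ℝ) + 1) / 2)) +
        (0.6 * a) * (Jc 1 * (2:ℝ) ^ (-(((1:ℕ):ℝ) + 1) / 2)) +
        (0.055 + b) * (Jc 2 * (1:ℝ) ^ (-(((2:ℕ):ℝ) + 1) / 2)) +
        (-0.6 * b) * (Jc 2 * (2:ℝ) ^ (-(((2:ℕ):ℝ) + 1) / 2)) +
        (-0.055 * a) * (Jc 3 * (1:ℝ) ^ (-(((3:ℕ):ℝ) + 1) / 2)) +
        (0.055 * b) * (Jc 4 * (1:ℝ) ^ (-(((4:ℕ):ℝ) + 1) / 2)) := by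
  have key : ∀ (c : ℝ) (k : ℕ) (s : ℝ), 0 < s →
      IntegrableOn (fun v : ℝ => c * (v ^ k * Real.exp (-(s * v ^ 2 / 2)))) (Ioi (0:ℝ)) ∧
      ∫ v in Ioi (0:ℝ), c * (v ^ k * Real.exp (-(s * v ^ 2 / 2))) =
        c * (Jc k * s ^ (-((k:ℝ) + 1) / 2)) := by
    intro c k s hs
    obtain ⟨h1, h2⟩ := integral_Jc k s hs
    refine ⟨h2.const_mul c, ?_⟩
    rw [integral_const_mul, h1]
  have hadd : ∀ (f g : ℝ → ℝ) (x y : ℝ),
      (IntegrableOn f (Ioi (0:ℝ)) ∧ ∫ v in Ioi (0:ℝ), f v = x) →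
      (IntegrableOn g (Ioi (0:ℝ)) ∧ ∫ v in Ioi (0:ℝ), g v = y) →
      (IntegrableOn (fun v => f v + g v) (Ioi (0:ℝ)) ∧
        ∫ v in Ioi (0:ℝ), (f v + g v) = x + y) := by
    rintro f g x y ⟨h1, h2⟩ ⟨h3, h4⟩
    refine ⟨h1.add h3, ?_⟩
    rw [integral_add h1 h3, h2, h4]
  exact hadd _ _ _ _ (hadd _ _ _ _ (hadd _ _ _ _ (hadd _ _ _ _ (hadd _ _ _ _
    (hadd _ _ _ _ (hadd _ _ _ _ (key _ 0 1 one_pos) (key _ 0 2 two_pos)) (key _ 1 1 one_pos))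
    (key _ 1 2 two_pos)) (key _ 2 1 one_pos)) (key _ 2 2 two_pos)) (key _ 3 1 one_pos))
    (key _ 4 1 one_pos)

theorem phi_int (τ u : ℝ) (h0 : 0 < τ) (h1 : τ ≤ 1 / 2) (hu : 0 < u) :
    Integrable (fun v => (1 - 0.18 * (τ * u * v) + 0.12 * (τ * u * v) ^ 2) * phi v) nu ∧
    ∫ v, (1 - 0.18 * (τ * u * v) + 0.12 * (τ * u * v) ^ 2) * phi v ∂nu ≤
      0.79052 - 0.1458 * (τ * u) + 0.14331 * (τ * u) ^ 2 := by
  obtain ⟨hI, hv⟩ := PhiInt_I (0.18 * (τ * u)) (0.12 * (τ * u) ^ 2)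
  have heq : ∀ v ∈ Ioi (0:ℝ),
      ((1 - 0.18 * (τ * u * v) + 0.12 * (τ * u * v) ^ 2) * phi v) *
        (v * Real.exp (-(v ^ 2 / 2))) = PhiInt_G (0.18 * (τ * u)) (0.12 * (τ * u) ^ 2) v := by
    intro v hv
    rw [← PhiInt_eq (0.18 * (τ * u)) (0.12 * (τ * u) ^ 2) v hv]
    ring
  constructor
  · rw [integrable_nu_iff _ (PhiInt_meas τ u)]
    exact hI.congr_fun (fun v hv => (heq v hv).symm) measurableSet_Ioi
  · rw [integral_nu, setIntegral_congr_fun measurableSet_Ioi heq, hv]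
    have hs2 : (2:ℝ) ^ (-(((0:ℕ):ℝ) + 1) / 2) = 1 / Real.sqrt 2 := by
      rw [Real.sqrt_eq_rpow, one_div, ← Real.rpow_neg (by norm_num)]
      norm_num
    have hs3 : (2:ℝ) ^ (-(((1:ℕ):ℝ) + 1) / 2) = 1 / 2 := by
      have : (-(((1:ℕ):ℝ) + 1) / 2) = -1 := by norm_num
      rw [this, Real.rpow_neg_one]
      norm_num
    have hs4 : (2:ℝ) ^ (-(((2:ℕ):ℝ) + 1) / 2) = 1 / (2 * Real.sqrt 2) := by
      have : (-(((2:ℕ):ℝ) + 1) / 2) = -1 + (-(((0:ℕ):ℝ) + 1) / 2) := by norm_num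
      rw [this, Real.rpow_add (by norm_num), hs2, Real.rpow_neg_one]
      field_simp
    rw [hs2, hs3, hs4]
    simp only [Real.one_rpow, mul_one]
    have j0 : Jc 0 = Real.sqrt (π / 2) := rfl
    have j1 : Jc 1 = 1 := rfl
    have j2 : Jc 2 = Real.sqrt (π / 2) := by
      change ((0:ℕ) + 1 : ℝ) * Jc 0 = _
      rw [j0]; push_cast; ring
    have j3 : Jc 3 = 2 := by
      change ((1:ℕ) + 1 : ℝ) * Jc 1 = _
      rw [j1]; norm_num
    have j4 : Jc 4 = 3 * Real.sqrt (π / 2) := by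
      change ((2:ℕ) + 1 : ℝ) * Jc 2 = _
      rw [j2]; push_cast; ring
    rw [j0, j1, j2, j3, j4]
    have hJ : Real.sqrt (π / 2) ≤ 1.2533143 := by
      rw [Real.sqrt_le_left (by norm_num)]
      have := Real.pi_lt_d6
      norm_num at this ⊢
      linarith
    have hJ0 : 0 ≤ Real.sqrt (π / 2) := Real.sqrt_nonneg _
    have h2 : Real.sqrt 2 ≤ 1.4142136 := by
      rw [Real.sqrt_le_left (by norm_num)]
      norm_num
    have h2pos : 0 < Real.sqrt 2 := Real.sqrt_pos.2 (by norm_num)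
    have h3 : 0.7071067 ≤ 1 / Real.sqrt 2 := by
      rw [le_div_iff₀ h2pos]
      linarith
    have h4 : 1 / (2 * Real.sqrt 2) = (1 / Real.sqrt 2) / 2 := by
      field_simp
    rw [h4]
    set J := Real.sqrt (π / 2)
    set r := 1 / Real.sqrt 2
    set w := τ * u
    have hA : J * (1.055 - 0.6 * r) ≤ 0.79052 := by
      have : 1.055 - 0.6 * r ≤ 1.055 - 0.6 * 0.7071067 := by linarith
      calc J * (1.055 - 0.6 * r) ≤ J * (1.055 - 0.6 * 0.7071067) :=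
            mul_le_mul_of_nonneg_left this hJ0
        _ ≤ 1.2533143 * (1.055 - 0.6 * 0.7071067) :=
            mul_le_mul_of_nonneg_right hJ (by norm_num)
        _ ≤ 0.79052 := by norm_num
    have hC : 0.12 * (J * (1.165 - 0.3 * r)) ≤ 0.14331 := by
      have : 1.165 - 0.3 * r ≤ 1.165 - 0.3 * 0.7071067 := by linarith
      have h5 : J * (1.165 - 0.3 * r) ≤ 1.2533143 * (1.165 - 0.3 * 0.7071067) :=
        calc J * (1.165 - 0.3 * r) ≤ J * (1.165 - 0.3 * 0.7071067) :=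
            mul_le_mul_of_nonneg_left this hJ0
        _ ≤ 1.2533143 * (1.165 - 0.3 * 0.7071067) :=
            mul_le_mul_of_nonneg_right hJ (by norm_num)
      norm_num at h5 ⊢
      linarith
    have hw : 0 ≤ w ^ 2 := sq_nonneg w
    have hC2 := mul_le_mul_of_nonneg_right hC hw
    linear_combination hA + hC2

end Pool.Agent.SSC3N
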