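import Pool.Agent.SSC3N.DDrow
import Pool.Agent.SSC3N.CUpper
import Pool.Agent.SSC3N.PhiInt
import Pool.Agent.SSC3N.T4Schur
import Pool.Agent.SSC3N.FinLarge
import Pool.Agent.SSC3N.FinSmall

set_option autoImplicit false
open MeasureTheory ProbabilityTheory Set Real
open scoped ENNReal

namespace Pool.Agent.SSC3N
open Pool.Agent.SSC3

theorem E3_K0_nonneg (l : ℝ) : 0 ≤ 1 - 0.18 * l + 0.12 * l ^ 2 := by
  nlinarith [sq_nonneg (l - 0.75)]

theorem E3_phi_measurable : Measurable phi := by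
  unfold phi; fun_prop

/-- `1 - 0.6 z + 0.055 u² ≥ 0.4`. -/
theorem E3_s_ge (u : ℝ) : 0.4 ≤ 1 - 0.6 * Real.exp (-(u ^ 2 / 2)) + 0.055 * u ^ 2 := by
  have : Real.exp (-(u ^ 2 / 2)) ≤ 1 := Real.exp_le_one_iff.2 (by nlinarith [sq_nonneg u])
  nlinarith [sq_nonneg u]

theorem E3_inv_phi (u : ℝ) (_hu : 0 < u) :
    1 / phi u = u / (1 - 0.6 * Real.exp (-(u ^ 2 / 2)) + 0.055 * u ^ 2) := by
  unfold phi
  rw [one_div_div]

theorem E3_inv_phi_le (u : ℝ) (hu : 0 < u) : 1 / phi u ≤ 2.5 * u := by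
  rw [E3_inv_phi u hu]
  have h := E3_s_ge u
  rw [div_le_iff₀ (by linarith)]
  nlinarith

/-- the key pointwise inequality -/
theorem E3_pointwise (τ u : ℝ) (h0 : 0 < τ) (h1 : τ ≤ 1 / 2) (hu : 0 < u) :
    τ ^ 3 * ((0.79052 - 0.1458 * (τ * u) + 0.14331 * (τ * u) ^ 2) / phi u) + 0.261 * τ ^ 7 * u ≤
      DD τ u := by
  have hs := E3_s_ge u
  set s := 1 - 0.6 * Real.exp (-(u ^ 2 / 2)) + 0.055 * u ^ 2 with hsd
  set P := 0.79052 - 0.1458 * (τ * u) + 0.14331 * (τ * u) ^ 2 with hP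
  have hs0 : 0 < s := by linarith
  have key : ∀ Q : ℝ, τ ^ 2 * P ≤ s * (Q - 0.261 * τ ^ 6) →
      τ ^ 3 * (P / phi u) + 0.261 * τ ^ 7 * u ≤ (τ * u) * Q := by
    intro Q hQ
    have e1 : P / phi u = P * (u / s) := by
      rw [← E3_inv_phi u hu]; ring
    rw [e1]
    have e2 : τ ^ 3 * (P * (u / s)) = τ * u * (τ ^ 2 * P / s) := by ring
    have e3 : τ ^ 2 * P / s ≤ Q - 0.261 * τ ^ 6 := by
      rw [div_le_iff₀ hs0]; linarith
    have e4 : τ * u * (τ ^ 2 * P / s) ≤ τ * u * (Q - 0.261 * τ ^ 6) :=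
      mul_le_mul_of_nonneg_left e3 (by positivity)
    rw [e2]
    nlinarith
  rcases le_total u 2 with h2 | h2
  · exact (key _ (fin_small u τ hu.le h2 h0 h1)).trans (DD_poly τ u h0 h1 hu)
  · have := (key _ (fin_large u τ h2 h0 h1)).trans (le_of_eq (mul_comm _ _))
    exact this.trans (DD_ge τ u h0 h1 hu)

theorem E3_poly_exp (u : ℝ) (hu : 0 < u) (k : ℕ) (hk : k ≤ 3) : u ^ k ≤ 64 * Real.exp (u ^ 2 / 4) := by
  have h1 : 1 + u ^ 2 / 4 + (u ^ 2 / 4) ^ 2 / 2 ≤ Real.exp (u ^ 2 / 4) := by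
    have := Real.quadratic_le_exp_of_nonneg (show 0 ≤ u ^ 2 / 4 by positivity)
    linarith
  have h2 : 0 ≤ u ^ 2 := sq_nonneg u
  interval_cases k
  · nlinarith
  · nlinarith [sq_nonneg (u - 1)]
  · nlinarith
  · nlinarith [sq_nonneg (u ^ 2 - u), sq_nonneg (u - 1)]

theorem E3_P_bounds (w : ℝ) : 0 ≤ 0.79052 - 0.1458 * w + 0.14331 * w ^ 2 ∧
    0.79052 - 0.1458 * w + 0.14331 * w ^ 2 ≤ 0.9 + 0.25 * w ^ 2 :=
  ⟨by nlinarith [sq_nonneg (w - 0.5)], by nlinarith [sq_nonneg (w + 0.7)]⟩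

theorem E3_g_integrable (τ : ℝ) (h0 : 0 < τ) (h1 : τ ≤ 1 / 2) (f : ℝ → ℝ) (hf : Measurable f)
    (M : ℝ) (hb : ∀ u, |f u| ≤ M) :
    Integrable (fun u => (f u) ^ 2 *
      ((0.79052 - 0.1458 * (τ * u) + 0.14331 * (τ * u) ^ 2) / phi u)) nu := by
  have hφ := E3_phi_measurable
  refine integrable_nu _ (by fun_prop) (M ^ 2 * 400) ?_
  intro u hu
  have hP := E3_P_bounds (τ * u)
  have hφ0 : 0 < phi u := phi_pos u hu
  have h3 := E3_inv_phi_le u hu
  have h4 : (f u) ^ 2 ≤ M ^ 2 := by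
    rw [← sq_abs]; exact pow_le_pow_left₀ (abs_nonneg _) (hb u) 2
  set P := 0.79052 - 0.1458 * (τ * u) + 0.14331 * (τ * u) ^ 2 with hPd
  have h5 : P / phi u ≤ (0.9 + 0.25 * u ^ 2) * (2.5 * u) := by
    rw [div_eq_mul_one_div]
    apply mul_le_mul _ h3 (by positivity) (by positivity)
    refine hP.2.trans ?_
    have : (τ * u) ^ 2 ≤ u ^ 2 := by
      rw [mul_pow]
      have : τ ^ 2 ≤ 1 := by nlinarith
      nlinarith [sq_nonneg u]
    linarith
  have h6 : 0 ≤ P / phi u := div_nonneg hP.1 hφ0.le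
  rw [abs_of_nonneg (mul_nonneg (sq_nonneg _) h6)]
  have e1 := E3_poly_exp u hu 1 (by norm_num)
  have e3 := E3_poly_exp u hu 3 (by norm_num)
  calc (f u) ^ 2 * (P / phi u) ≤ M ^ 2 * ((0.9 + 0.25 * u ^ 2) * (2.5 * u)) :=
        mul_le_mul h4 h5 h6 (by positivity)
    _ = M ^ 2 * (2.25 * u ^ 1 + 0.625 * u ^ 3) := by ring
    _ ≤ M ^ 2 * (2.25 * (64 * Real.exp (u ^ 2 / 4)) + 0.625 * (64 * Real.exp (u ^ 2 / 4))) := by
        gcongr
    _ ≤ M ^ 2 * 400 * Real.exp (u ^ 2 / 4) := by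
        have : 0 ≤ M ^ 2 * Real.exp (u ^ 2 / 4) := by positivity
        nlinarith

theorem E3_A (τ : ℝ) (h0 : 0 < τ) (h1 : τ ≤ 1 / 2) (f : ℝ → ℝ) (hf : Measurable f)
    (M : ℝ) (hb : ∀ u, |f u| ≤ M) :
    Integrable (fun p : ℝ × ℝ => (1 - 0.18 * (τ * p.1 * p.2) + 0.12 * (τ * p.1 * p.2) ^ 2) *
      ((f p.1) ^ 2 * (1 / phi p.1) * phi p.2)) (nu.prod nu) ∧
    ∫ p : ℝ × ℝ, (1 - 0.18 * (τ * p.1 * p.2) + 0.12 * (τ * p.1 * p.2) ^ 2) *
      ((f p.1) ^ 2 * (1 / phi p.1) * phi p.2) ∂(nu.prod nu) ≤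
    ∫ u, (f u) ^ 2 * ((0.79052 - 0.1458 * (τ * u) + 0.14331 * (τ * u) ^ 2) / phi u) ∂nu := by
  have : IsProbabilityMeasure nu := nu_prob
  have hφ := E3_phi_measurable
  have hg := E3_g_integrable τ h0 h1 f hf M hb
  have hm : AEStronglyMeasurable (fun p : ℝ × ℝ =>
      (1 - 0.18 * (τ * p.1 * p.2) + 0.12 * (τ * p.1 * p.2) ^ 2) *
      ((f p.1) ^ 2 * (1 / phi p.1) * phi p.2)) (nu.prod nu) :=
    Measurable.aestronglyMeasurable (by fun_prop)
  have hle : ∀ u, 0 < u → Integrable (fun v => (1 - 0.18 * (τ * u * v) + 0.12 * (τ * u * v) ^ 2) *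
      ((f u) ^ 2 * (1 / phi u) * phi v)) nu ∧
      ∫ v, (1 - 0.18 * (τ * u * v) + 0.12 * (τ * u * v) ^ 2) *
      ((f u) ^ 2 * (1 / phi u) * phi v) ∂nu ≤ (f u) ^ 2 *
        ((0.79052 - 0.1458 * (τ * u) + 0.14331 * (τ * u) ^ 2) / phi u) := by
    intro u hu
    have h := phi_int τ u h0 h1 hu
    have hφ0 := phi_pos u hu
    have e : (fun v => (1 - 0.18 * (τ * u * v) + 0.12 * (τ * u * v) ^ 2) *
        ((f u) ^ 2 * (1 / phi u) * phi v)) = fun v => ((f u) ^ 2 * (1 / phi u)) *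
        ((1 - 0.18 * (τ * u * v) + 0.12 * (τ * u * v) ^ 2) * phi v) := by
      funext v; ring
    rw [e]
    refine ⟨h.1.const_mul _, ?_⟩
    rw [integral_const_mul]
    calc _ ≤ ((f u) ^ 2 * (1 / phi u)) * (0.79052 - 0.1458 * (τ * u) + 0.14331 * (τ * u) ^ 2) :=
          mul_le_mul_of_nonneg_left h.2 (by positivity)
      _ = _ := by ring
  have hint : Integrable (fun p : ℝ × ℝ =>
      (1 - 0.18 * (τ * p.1 * p.2) + 0.12 * (τ * p.1 * p.2) ^ 2) *
      ((f p.1) ^ 2 * (1 / phi p.1) * phi p.2)) (nu.prod nu) := by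
    rw [integrable_prod_iff hm]
    constructor
    · filter_upwards [nu_pos] with u hu
      exact (hle u hu).1
    · refine Integrable.mono' hg (hm.norm.integral_prod_right') ?_
      filter_upwards [nu_pos] with u hu
      rw [Real.norm_of_nonneg (integral_nonneg fun v => norm_nonneg _)]
      refine le_trans (le_of_eq ?_) (hle u hu).2
      apply integral_congr_ae
      filter_upwards [nu_pos] with v hv
      have hφu := phi_pos u hu
      have hφv := phi_pos v hv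
      have hK := E3_K0_nonneg (τ * u * v)
      rw [Real.norm_of_nonneg]
      positivity
  refine ⟨hint, ?_⟩
  rw [integral_prod _ hint]
  apply integral_mono_ae hint.integral_prod_left hg
  filter_upwards [nu_pos] with u hu
  exact (hle u hu).2

theorem E3_amgm (x y a b : ℝ) (ha : 0 < a) (hb : 0 < b) :
    x * y ≤ (x ^ 2 * (1 / a) * b + y ^ 2 * (1 / b) * a) / 2 := by
  have h : x ^ 2 * (1 / a) * b + y ^ 2 * (1 / b) * a - 2 * (x * y) = (x * b - y * a) ^ 2 / (a * b) := by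
    field_simp
    ring
  have h2 : 0 ≤ (x * b - y * a) ^ 2 / (a * b) := by positivity
  linarith

theorem E3_exp_le (τ u v : ℝ) (_h0 : 0 < τ) (h1 : τ ≤ 1 / 2) (hu : 0 < u) (hv : 0 < v) :
    Real.exp (τ * u * v / 2) ≤ Real.exp ((u ^ 2 + v ^ 2) / 4) := by
  apply Real.exp_le_exp.2
  have : τ * u * v ≤ u * v := by
    have := mul_pos hu hv
    nlinarith
  nlinarith [sq_nonneg (u - v)]

theorem E3_int3 (μ : Measure (ℝ × ℝ)) (a b c : ℝ × ℝ → ℝ) (ha : Integrable a μ)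
    (hb : Integrable b μ) (hc : Integrable c μ) :
    ∫ p, ((1 / 2 * a p + 1 / 2 * b p) + 0.45 * c p) ∂μ =
      1 / 2 * ∫ p, a p ∂μ + 1 / 2 * ∫ p, b p ∂μ + 0.45 * ∫ p, c p ∂μ := by
  have h1 : Integrable (fun p => 1 / 2 * a p + 1 / 2 * b p) μ :=
    (ha.const_mul _).add (hb.const_mul _)
  rw [integral_add h1 (hc.const_mul _), integral_add (ha.const_mul _) (hb.const_mul _),
    integral_const_mul, integral_const_mul, integral_const_mul]

/-- [R4] -/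
theorem E3 (τ : ℝ) (h0 : 0 < τ) (h1 : τ ≤ 1 / 2) (f : ℝ → ℝ) (hf : Measurable f) (M : ℝ)
    (hb : ∀ u, |f u| ≤ M) (hn : ∀ u, 0 ≤ f u) :
    τ ^ 3 * (∫ u, ∫ v, cF (τ * u * v) * (f u * f v) ∂nu ∂nu) ≤ ∫ u, DD τ u * (f u) ^ 2 ∂nu := by
  have : IsProbabilityMeasure nu := nu_prob
  have hM : 0 ≤ M := (abs_nonneg _).trans (hb 0)
  have hff : ∀ u v, |f u * f v| ≤ M ^ 2 := fun u v => by
    rw [abs_mul, sq]; exact mul_le_mul (hb u) (hb v) (abs_nonneg _) hM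
  have hcFm : Measurable cF := continuous_cF.measurable
  have hTm : Measurable T4 := by unfold T4; fun_prop
  have hcF : Integrable (fun p : ℝ × ℝ => cF (τ * p.1 * p.2) * (f p.1 * f p.2)) (nu.prod nu) := by
    refine integrable_nu_prod _ (by fun_prop) (M ^ 2) ?_
    intro u v hu hv
    have hl : 0 ≤ τ * u * v := by positivity
    rw [abs_mul, abs_of_nonneg (cF_nonneg _), mul_comm]
    exact mul_le_mul (hff u v) ((cF_le _ hl).trans (E3_exp_le τ u v h0 h1 hu hv))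
      (cF_nonneg _) (by positivity)
  have hT : Integrable (fun p : ℝ × ℝ => T4 (τ * p.1 * p.2) * (f p.1 * f p.2)) (nu.prod nu) := by
    refine integrable_nu_prod _ (by fun_prop) (M ^ 2) ?_
    intro u v hu hv
    have hl : 0 ≤ τ * u * v := by positivity
    rw [abs_mul, abs_of_nonneg (T4_nonneg _), mul_comm]
    exact mul_le_mul (hff u v) ((T4_le _ hl).trans (E3_exp_le τ u v h0 h1 hu hv))
      (T4_nonneg _) (by positivity)
  obtain ⟨hA, hAle⟩ := E3_A τ h0 h1 f hf M hb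
  have hg := E3_g_integrable τ h0 h1 f hf M hb
  -- bound of the double integral
  have hC : (∫ u, ∫ v, cF (τ * u * v) * (f u * f v) ∂nu ∂nu) ≤
      (∫ u, (f u) ^ 2 * ((0.79052 - 0.1458 * (τ * u) + 0.14331 * (τ * u) ^ 2) / phi u) ∂nu) +
        0.45 * (0.58 * τ ^ 4 * ∫ u, u * (f u) ^ 2 ∂nu) := by
    have e1 : (∫ u, ∫ v, cF (τ * u * v) * (f u * f v) ∂nu ∂nu) =
        ∫ p : ℝ × ℝ, cF (τ * p.1 * p.2) * (f p.1 * f p.2) ∂(nu.prod nu) :=
      (integral_prod _ hcF).symm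
    have e2 : (∫ u, ∫ v, T4 (τ * u * v) * (f u * f v) ∂nu ∂nu) =
        ∫ p : ℝ × ℝ, T4 (τ * p.1 * p.2) * (f p.1 * f p.2) ∂(nu.prod nu) :=
      (integral_prod _ hT).symm
    have e3 : (∫ u, ∫ v, T4 (τ * u * v) * (f u * f v) ∂nu ∂nu) ≤
        0.58 * τ ^ 4 * ∫ u, u * (f u) ^ 2 ∂nu := by
      have := T4_schur τ h0 h1 f hf M hb
      simp only [abs_of_nonneg (hn _)] at this
      exact this
    have hAs := hA.swap
    have e4 : ∫ p : ℝ × ℝ, ((fun p : ℝ × ℝ =>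
          (1 - 0.18 * (τ * p.1 * p.2) + 0.12 * (τ * p.1 * p.2) ^ 2) *
          ((f p.1) ^ 2 * (1 / phi p.1) * phi p.2)) ∘ Prod.swap) p ∂(nu.prod nu) =
        ∫ p : ℝ × ℝ, (1 - 0.18 * (τ * p.1 * p.2) + 0.12 * (τ * p.1 * p.2) ^ 2) *
          ((f p.1) ^ 2 * (1 / phi p.1) * phi p.2) ∂(nu.prod nu) :=
      integral_prod_swap (fun p : ℝ × ℝ =>
          (1 - 0.18 * (τ * p.1 * p.2) + 0.12 * (τ * p.1 * p.2) ^ 2) *
          ((f p.1) ^ 2 * (1 / phi p.1) * phi p.2))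
    have hpos : ∀ᵐ p : ℝ × ℝ ∂(nu.prod nu), 0 < p.1 ∧ 0 < p.2 := by
      filter_upwards [Measure.quasiMeasurePreserving_fst.ae nu_pos,
        Measure.quasiMeasurePreserving_snd.ae nu_pos] with p hp1 hp2
      exact ⟨hp1, hp2⟩
    have e5 : ∫ p : ℝ × ℝ, cF (τ * p.1 * p.2) * (f p.1 * f p.2) ∂(nu.prod nu) ≤
        ∫ p : ℝ × ℝ, (1 / 2 * ((1 - 0.18 * (τ * p.1 * p.2) + 0.12 * (τ * p.1 * p.2) ^ 2) *
          ((f p.1) ^ 2 * (1 / phi p.1) * phi p.2)) +
          1 / 2 * (((fun p : ℝ × ℝ =>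
          (1 - 0.18 * (τ * p.1 * p.2) + 0.12 * (τ * p.1 * p.2) ^ 2) *
          ((f p.1) ^ 2 * (1 / phi p.1) * phi p.2)) ∘ Prod.swap) p)) +
          0.45 * (T4 (τ * p.1 * p.2) * (f p.1 * f p.2)) ∂(nu.prod nu) := by
      refine integral_mono_ae hcF (((hA.const_mul _).add (hAs.const_mul _)).add
        (hT.const_mul _)) ?_
      filter_upwards [hpos] with p hp
      obtain ⟨hp1, hp2⟩ := hp
      simp only [Function.comp, Prod.fst_swap, Prod.snd_swap]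
      have hl : 0 ≤ τ * p.1 * p.2 := by positivity
      have hc := cF_upper _ hl
      have hfp : 0 ≤ f p.1 * f p.2 := mul_nonneg (hn _) (hn _)
      have ham := E3_amgm (f p.1) (f p.2) (phi p.1) (phi p.2) (phi_pos _ hp1) (phi_pos _ hp2)
      have hK := E3_K0_nonneg (τ * p.1 * p.2)
      have hcomm : τ * p.2 * p.1 = τ * p.1 * p.2 := by ring
      rw [hcomm]
      have s1 := mul_le_mul_of_nonneg_right hc hfp
      have s2 := mul_le_mul_of_nonneg_left ham hK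
      linarith
    rw [e1]
    refine e5.trans ?_
    have e6 := E3_int3 (nu.prod nu) _ _ _ hA hAs hT
    refine (le_of_eq e6).trans ?_
    rw [e4, ← e2]
    linarith
  -- integrability of the remaining terms
  have hX : Integrable (fun u => u * (f u) ^ 2) nu := by
    refine integrable_nu _ (by fun_prop) (M ^ 2 * 64) ?_
    intro u hu
    have h4 : (f u) ^ 2 ≤ M ^ 2 := by
      rw [← sq_abs]; exact pow_le_pow_left₀ (abs_nonneg _) (hb u) 2
    rw [abs_of_nonneg (by positivity)]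
    have e1 := E3_poly_exp u hu 1 (by norm_num)
    rw [pow_one] at e1
    calc u * (f u) ^ 2 ≤ (64 * Real.exp (u ^ 2 / 4)) * M ^ 2 :=
          mul_le_mul e1 h4 (by positivity) (by positivity)
      _ = _ := by ring
  have hDD : Integrable (fun u => DD τ u * (f u) ^ 2) nu := by
    have hDm := DD_measurable τ
    refine integrable_nu _ (by fun_prop) (4 * M ^ 2) ?_
    intro u hu
    have h4 : (f u) ^ 2 ≤ M ^ 2 := by
      rw [← sq_abs]; exact pow_le_pow_left₀ (abs_nonneg _) (hb u) 2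
    have hD0 : 0 ≤ DD τ u := le_trans (by positivity) (DD_ge τ u h0 h1 hu)
    rw [abs_of_nonneg (by positivity)]
    calc DD τ u * (f u) ^ 2 ≤ (4 * Real.exp (u ^ 2 / 4)) * M ^ 2 :=
          mul_le_mul (DD_le τ u h0 h1 hu) h4 (by positivity) (by positivity)
      _ = _ := by ring
  calc τ ^ 3 * (∫ u, ∫ v, cF (τ * u * v) * (f u * f v) ∂nu ∂nu)
      ≤ τ ^ 3 * ((∫ u, (f u) ^ 2 *
        ((0.79052 - 0.1458 * (τ * u) + 0.14331 * (τ * u) ^ 2) / phi u) ∂nu) +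
        0.45 * (0.58 * τ ^ 4 * ∫ u, u * (f u) ^ 2 ∂nu)) :=
        mul_le_mul_of_nonneg_left hC (by positivity)
    _ = (∫ u, (τ ^ 3 * ((f u) ^ 2 *
        ((0.79052 - 0.1458 * (τ * u) + 0.14331 * (τ * u) ^ 2) / phi u)) +
        0.261 * τ ^ 7 * (u * (f u) ^ 2)) ∂nu) := by
        rw [integral_add (hg.const_mul _) (hX.const_mul _), integral_const_mul, integral_const_mul]
        ring
    _ ≤ ∫ u, DD τ u * (f u) ^ 2 ∂nu := by
        refine integral_mono_ae ((hg.const_mul _).add (hX.const_mul _)) hDD ?_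
        filter_upwards [nu_pos] with u hu
        have h := E3_pointwise τ u h0 h1 hu
        have := mul_le_mul_of_nonneg_right h (sq_nonneg (f u))
        calc _ = (τ ^ 3 * ((0.79052 - 0.1458 * (τ * u) + 0.14331 * (τ * u) ^ 2) / phi u) +
              0.261 * τ ^ 7 * u) * (f u) ^ 2 := by ring
          _ ≤ _ := this

end Pool.Agent.SSC3N
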