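import Pool.Agent.SSC3N.RE0
import Pool.Agent.SSC3N.RE1
import Pool.Agent.SSC3N.RE3
import Pool.Agent.SSC3N.Cubic
import Pool.Agent.SSC3N.Decomp

set_option autoImplicit false
open MeasureTheory ProbabilityTheory Set Real
open scoped ENNReal

namespace Pool.Agent.SSC3N
open Pool.Agent.SSC3

private theorem kat_int_cF (τ : ℝ) (h0 : 0 < τ) (h1 : τ ≤ 1 / 2) (g : ℝ × ℝ → ℝ)
    (hg : Measurable g) (K : ℝ) (hb : ∀ p, |g p| ≤ K) :
    Integrable (fun p : ℝ × ℝ => cF (τ * p.1 * p.2) * g p) (nu.prod nu) := by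
  have hm : Measurable (fun p : ℝ × ℝ => cF (τ * p.1 * p.2) * g p) := by
    refine Measurable.mul ?_ hg
    exact (continuous_cF.comp (by fun_prop : Continuous fun p : ℝ × ℝ => τ * p.1 * p.2)).measurable
  refine integrable_nu_prod _ hm K ?_
  intro u v hu hv
  have hK : 0 ≤ K := (abs_nonneg _).trans (hb (u, v))
  have huv : 0 < u * v := mul_pos hu hv
  have hl : 0 ≤ τ * u * v := by rw [mul_assoc]; positivity
  show |cF (τ * u * v) * g (u, v)| ≤ _
  rw [abs_mul, abs_of_nonneg (cF_nonneg _), mul_comm K]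
  apply mul_le_mul _ (hb _) (abs_nonneg _) (Real.exp_pos _).le
  refine (cF_le _ hl).trans (Real.exp_le_exp.2 ?_)
  have h2 : τ * u * v ≤ 1 / 2 * (u * v) := by
    rw [mul_assoc]; exact mul_le_mul_of_nonneg_right h1 huv.le
  nlinarith [sq_nonneg (u - v), sq_nonneg u, sq_nonneg v]

private theorem kat_int_DD (τ : ℝ) (h0 : 0 < τ) (h1 : τ ≤ 1 / 2) (g : ℝ → ℝ)
    (hg : Measurable g) (K : ℝ) (hb : ∀ p, |g p| ≤ K) :
    Integrable (fun u : ℝ => DD τ u * g u) nu := by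
  refine integrable_nu _ ((DD_measurable τ).mul hg) (4 * K) ?_
  intro u hu
  have hK : 0 ≤ K := (abs_nonneg _).trans (hb u)
  have hD := DD_le τ u h0 h1 hu
  have hD0 : 0 ≤ DD τ u := le_trans (by positivity) (DD_ge τ u h0 h1 hu)
  rw [abs_mul, abs_of_nonneg hD0]
  calc DD τ u * |g u| ≤ (4 * Real.exp (u ^ 2 / 4)) * K :=
        mul_le_mul hD (hb u) (abs_nonneg _) (by positivity)
    _ = 4 * K * Real.exp (u ^ 2 / 4) := by ring

private theorem kat_DD_nonneg (τ : ℝ) (h0 : 0 < τ) (h1 : τ ≤ 1 / 2) :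
    ∀ᵐ u ∂nu, 0 ≤ DD τ u := by
  filter_upwards [nu_pos] with u hu
  exact le_trans (by positivity) (DD_ge τ u h0 h1 hu)

private theorem kat_zero {m : ℕ} (f : ℝ → (Fin m → ℝ) → ℝ) :
    0 ≤ (∫ u, ∫ v, cF (0 * u * v) * GG (-0) (f u) (f v) ∂nu ∂nu) +
      ∫ u, DD 0 u * (∫ y, (f u y) ^ 2 ∂(gam m)) ∂nu := by
  have hGG : ∀ g h : (Fin m → ℝ) → ℝ, GG (-0) g h = (∫ y, g y ∂(gam m)) * ∫ y, h y ∂(gam m) := by
    intro g h
    unfold GG
    simp only [neg_zero, zero_smul, zero_add, ne_eq, OfNat.ofNat_ne_zero, not_false_eq_true,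
      zero_pow, sub_zero, Real.sqrt_one, one_smul]
    simp only [integral_const_mul, integral_mul_const]
  have hDD : ∀ u, DD 0 u = 0 := by
    intro u
    unfold DD vF
    simp
  simp only [hGG, hDD, zero_mul, integral_zero, add_zero]
  simp only [integral_const_mul, integral_mul_const]
  exact mul_nonneg (cF_nonneg _) (mul_self_nonneg _)

private theorem kat_GG_meas {m : ℕ} (κ : ℝ) (f : ℝ → (Fin m → ℝ) → ℝ)
    (hf : Measurable (Function.uncurry f)) :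
    Measurable (fun p : ℝ × ℝ => GG κ (f p.1) (f p.2)) := by
  have := gam_prob m
  unfold GG
  have h1 : StronglyMeasurable (fun q : ((ℝ × ℝ) × (Fin m → ℝ)) × (Fin m → ℝ) =>
      f q.1.1.1 q.1.2 * f q.1.1.2 (κ • q.1.2 + Real.sqrt (1 - κ ^ 2) • q.2)) := by
    apply Measurable.stronglyMeasurable
    apply Measurable.mul
    · exact hf.comp (by fun_prop :
        Measurable fun q : ((ℝ × ℝ) × (Fin m → ℝ)) × (Fin m → ℝ) => (q.1.1.1, q.1.2))
    · exact hf.comp (by fun_prop :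
        Measurable fun q : ((ℝ × ℝ) × (Fin m → ℝ)) × (Fin m → ℝ) =>
          (q.1.1.2, κ • q.1.2 + Real.sqrt (1 - κ ^ 2) • q.2))
  have h2 : StronglyMeasurable (fun q : (ℝ × ℝ) × (Fin m → ℝ) =>
      ∫ z, f q.1.1 q.2 * f q.1.2 (κ • q.2 + Real.sqrt (1 - κ ^ 2) • z) ∂(gam m)) :=
    h1.integral_prod_right'
  exact h2.integral_prod_right'.measurable

private theorem kat_sq_meas {m : ℕ} (g : ℝ → (Fin m → ℝ) → ℝ)
    (hg : Measurable (Function.uncurry g)) :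
    Measurable (fun u : ℝ => ∫ y, (g u y) ^ 2 ∂(gam m)) := by
  have := gam_prob m
  have h1 : StronglyMeasurable (fun q : ℝ × (Fin m → ℝ) => (g q.1 q.2) ^ 2) :=
    (hg.pow_const 2).stronglyMeasurable
  exact h1.integral_prod_right'.measurable

private theorem kat_sq_bdd {m : ℕ} (g : (Fin m → ℝ) → ℝ) (hb : ∀ y, |g y| ≤ 1) :
    |∫ y, (g y) ^ 2 ∂(gam m)| ≤ 1 := by
  have := gam_prob m
  have := norm_integral_le_of_norm_le_const (μ := gam m) (f := fun y => (g y) ^ 2) (C := 1)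
    (Filter.Eventually.of_forall fun y => by
      rw [Real.norm_eq_abs, abs_pow]
      exact pow_le_one₀ (abs_nonneg _) (hb y))
  simpa using this

/-- the even part -/
private theorem kat_even {m : ℕ} (τ : ℝ) (h0 : 0 < τ) (h1 : τ ≤ 1 / 2)
    (e : ℝ → (Fin m → ℝ) → ℝ) (he : Measurable (Function.uncurry e)) (hb : ∀ u y, |e u y| ≤ 1) :
    Measurable (fun p : ℝ × ℝ => GG τ (e p.1) (e p.2)) ∧
    (∀ p : ℝ × ℝ, |GG τ (e p.1) (e p.2)| ≤ 1) ∧
    0 ≤ (∫ p, cF (τ * p.1 * p.2) * GG τ (e p.1) (e p.2) ∂(nu.prod nu)) +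
      ∫ u, DD τ u * (∫ y, (e u y) ^ 2 ∂(gam m)) ∂nu := by
  have := gam_prob m
  have := nu_prob
  set G : ℝ → (Fin m → ℝ) → ℝ := fun u => TT (Real.sqrt τ) (e u) with hGdef
  have hG : Measurable (Function.uncurry G) := TT_measurable (Real.sqrt τ) e he
  have hGb : ∀ u y, |G u y| ≤ 1 := fun u y => TT_bdd _ _ (hb u) y
  have hem : ∀ u, Measurable (e u) := fun u => he.of_uncurry_left
  have hGm : ∀ y, Measurable (fun u => G u y) := fun y => hG.of_uncurry_right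
  have hGG : ∀ u v, GG τ (e u) (e v) = ∫ y, G u y * G v y ∂(gam m) := fun u v =>
    GG_semigroup τ h0.le (by linarith) _ _ (hem u) (hem v) (hb u) (hb v)
  have hm : Measurable (fun p : ℝ × ℝ => GG τ (e p.1) (e p.2)) := kat_GG_meas τ e he
  have hbd : ∀ p : ℝ × ℝ, |GG τ (e p.1) (e p.2)| ≤ 1 := by
    intro p
    rw [hGG]
    have := norm_integral_le_of_norm_le_const (μ := gam m)
      (f := fun y => G p.1 y * G p.2 y) (C := 1)
      (Filter.Eventually.of_forall fun y => by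
        rw [Real.norm_eq_abs, abs_mul]
        exact mul_le_one₀ (hGb _ _) (abs_nonneg _) (hGb _ _))
    simpa using this
  refine ⟨hm, hbd, ?_⟩
  -- integrability on the product
  have hi1 : Integrable (fun p : ℝ × ℝ => cF (τ * p.1 * p.2)) (nu.prod nu) := by
    have := kat_int_cF τ h0 h1 (fun _ => 1) measurable_const 1 (by simp)
    simpa using this
  have hmeas3 : Measurable (fun q : (ℝ × ℝ) × (Fin m → ℝ) =>
      cF (τ * q.1.1 * q.1.2) * (G q.1.1 q.2 * G q.1.2 q.2)) := by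
    apply Measurable.mul
    · exact (continuous_cF.comp (by fun_prop :
        Continuous fun q : (ℝ × ℝ) × (Fin m → ℝ) => τ * q.1.1 * q.1.2)).measurable
    · apply Measurable.mul
      · exact hG.comp (by fun_prop : Measurable fun q : (ℝ × ℝ) × (Fin m → ℝ) => (q.1.1, q.2))
      · exact hG.comp (by fun_prop : Measurable fun q : (ℝ × ℝ) × (Fin m → ℝ) => (q.1.2, q.2))
  have hi3 : Integrable (fun q : (ℝ × ℝ) × (Fin m → ℝ) =>
      cF (τ * q.1.1 * q.1.2) * (G q.1.1 q.2 * G q.1.2 q.2)) ((nu.prod nu).prod (gam m)) := by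
    refine Integrable.mono' (hi1.comp_fst (gam m)) hmeas3.aestronglyMeasurable
      (Filter.Eventually.of_forall fun q => ?_)
    rw [Real.norm_eq_abs, abs_mul, abs_of_nonneg (cF_nonneg _), abs_mul]
    exact mul_le_of_le_one_right (cF_nonneg _) (mul_le_one₀ (hGb _ _) (abs_nonneg _) (hGb _ _))
  have hiD : Integrable (fun u => DD τ u) nu := by
    have := kat_int_DD τ h0 h1 (fun _ => 1) measurable_const 1 (by simp)
    simpa using this
  have hmeasD : Measurable (fun q : ℝ × (Fin m → ℝ) => DD τ q.1 * (G q.1 q.2) ^ 2) :=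
    ((DD_measurable τ).comp measurable_fst).mul (hG.pow_const 2)
  have hi4 : Integrable (fun q : ℝ × (Fin m → ℝ) => DD τ q.1 * (G q.1 q.2) ^ 2)
      (nu.prod (gam m)) := by
    refine Integrable.mono' ((hiD.abs).comp_fst (gam m)) hmeasD.aestronglyMeasurable
      (Filter.Eventually.of_forall fun q => ?_)
    rw [Real.norm_eq_abs, abs_mul, abs_pow]
    exact mul_le_of_le_one_right (abs_nonneg _) (pow_le_one₀ (abs_nonneg _) (hGb _ _))
  -- the first integral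
  have e1 : (∫ p, cF (τ * p.1 * p.2) * GG τ (e p.1) (e p.2) ∂(nu.prod nu)) =
      ∫ y, ∫ p : ℝ × ℝ, cF (τ * p.1 * p.2) * (G p.1 y * G p.2 y) ∂(nu.prod nu) ∂(gam m) := by
    rw [← integral_integral_swap (f := fun (p : ℝ × ℝ) (y : Fin m → ℝ) =>
      cF (τ * p.1 * p.2) * (G p.1 y * G p.2 y)) hi3]
    apply integral_congr_ae
    refine Filter.Eventually.of_forall fun p => ?_
    simp only [hGG, integral_const_mul]
  have e2 : ∫ u, DD τ u * (∫ y, (G u y) ^ 2 ∂(gam m)) ∂nu =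
      ∫ y, ∫ u, DD τ u * (G u y) ^ 2 ∂nu ∂(gam m) := by
    rw [← integral_integral_swap (f := fun (u : ℝ) (y : Fin m → ℝ) =>
      DD τ u * (G u y) ^ 2) hi4]
    apply integral_congr_ae
    refine Filter.Eventually.of_forall fun p => ?_
    simp only [integral_const_mul]
  have e3 : ∫ u, DD τ u * (∫ y, (G u y) ^ 2 ∂(gam m)) ∂nu ≤
      ∫ u, DD τ u * (∫ y, (e u y) ^ 2 ∂(gam m)) ∂nu := by
    apply integral_mono_ae
      (kat_int_DD τ h0 h1 _ (kat_sq_meas G hG) 1 fun u => kat_sq_bdd _ (hGb u))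
      (kat_int_DD τ h0 h1 _ (kat_sq_meas e he) 1 fun u => kat_sq_bdd _ (hb u))
    filter_upwards [kat_DD_nonneg τ h0 h1] with u hu
    apply mul_le_mul_of_nonneg_left _ hu
    refine TT_contr (Real.sqrt τ) (Real.sqrt_nonneg _) ?_ (e u) (hem u) (hb u)
    exact Real.sqrt_le_one.2 (by linarith)
  have e4 : 0 ≤ (∫ y, ∫ p : ℝ × ℝ, cF (τ * p.1 * p.2) * (G p.1 y * G p.2 y) ∂(nu.prod nu)
      ∂(gam m)) + ∫ y, ∫ u, DD τ u * (G u y) ^ 2 ∂nu ∂(gam m) := by
    rw [← integral_add hi3.integral_prod_right hi4.integral_prod_right]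
    apply integral_nonneg
    intro y
    have hE := E0 τ h0 h1 (fun u => G u y) (hGm y) 1 (fun u => hGb u y)
    have hint : Integrable (fun p : ℝ × ℝ => cF (τ * p.1 * p.2) * (G p.1 y * G p.2 y))
        (nu.prod nu) := by
      refine kat_int_cF τ h0 h1 (fun p => G p.1 y * G p.2 y) ?_ 1 ?_
      · exact ((hGm y).comp measurable_fst).mul ((hGm y).comp measurable_snd)
      · intro p
        rw [abs_mul]
        exact mul_le_one₀ (hGb _ _) (abs_nonneg _) (hGb _ _)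
    rw [← integral_prod (fun p : ℝ × ℝ => cF (τ * p.1 * p.2) * (G p.1 y * G p.2 y)) hint] at hE
    exact hE
  rw [e1]
  rw [e2] at e3
  linarith

theorem KAT {m : ℕ} (τ : ℝ) (h0 : 0 ≤ τ) (h1 : τ ≤ 1 / 2) (f : ℝ → (Fin m → ℝ) → ℝ)
    (hf : Measurable (Function.uncurry f)) (hb : ∀ u y, |f u y| ≤ 1)
    (hc : ∀ j, ∫ u, cj (f u) j * Real.exp (τ ^ 2 * u ^ 2 / 2) ∂nu = 0) :
    0 ≤ (∫ u, ∫ v, cF (τ * u * v) * GG (-τ) (f u) (f v) ∂nu ∂nu) +
      ∫ u, DD τ u * (∫ y, (f u y) ^ 2 ∂(gam m)) ∂nu := by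
  have := gam_prob m
  have := nu_prob
  rcases h0.eq_or_lt with rfl | h0
  · exact kat_zero f
  have hfm : ∀ u, Measurable (f u) := fun u => hf.of_uncurry_left
  -- even part
  have heu : Measurable (Function.uncurry (fun u => evp (f u))) := by
    have : Function.uncurry (fun u => evp (f u)) =
        fun p : ℝ × (Fin m → ℝ) => (f p.1 p.2 + f p.1 (-p.2)) / 2 := rfl
    rw [this]
    exact (hf.add (hf.comp (by fun_prop :
      Measurable fun p : ℝ × (Fin m → ℝ) => (p.1, -p.2)))).div_const 2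
  have heb : ∀ u y, |evp (f u) y| ≤ 1 := by
    intro u y
    unfold evp
    have a1 := abs_le.1 (hb u y)
    have a2 := abs_le.1 (hb u (-y))
    rw [abs_le]
    constructor <;> linarith
  obtain ⟨hEm, hEb, hE⟩ := kat_even τ h0 h1 (fun u => evp (f u)) heu heb
  -- linear coefficients
  have ham : ∀ j, Measurable (fun u => cj (f u) j) := fun j => cj_measurable f hf j
  have hab : ∀ j u, |cj (f u) j| ≤ 1 := fun j u =>
    (o3p_props (f u) (hfm u) (hb u)).2.2.2.2.1 j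
  -- o3 part
  have hNm : Measurable (fun u => ∫ y, (o3p (f u) y) ^ 2 ∂(gam m)) := o3_measurable f hf
  have hN0 : ∀ u, 0 ≤ ∫ y, (o3p (f u) y) ^ 2 ∂(gam m) := fun u =>
    (o3p_props (f u) (hfm u) (hb u)).2.2.2.2.2.1
  have hN1 : ∀ u, ∫ y, (o3p (f u) y) ^ 2 ∂(gam m) ≤ 1 := fun u =>
    (o3p_props (f u) (hfm u) (hb u)).2.2.2.2.2.2
  have hHm : Measurable (fun p : ℝ × ℝ => GG (-τ) (f p.1) (f p.2)) := kat_GG_meas (-τ) f hf
  have hdec : ∀ p : ℝ × ℝ, GG (-τ) (f p.1) (f p.2) = GG τ (evp (f p.1)) (evp (f p.2)) -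
      τ * ∑ j, cj (f p.1) j * cj (f p.2) j - GG τ (o3p (f p.1)) (o3p (f p.2)) := fun p =>
    GG_decomp τ h0.le (by linarith) _ _ (hfm _) (hfm _) (hb _) (hb _)
  have hsm : Measurable (fun p : ℝ × ℝ => ∑ j, cj (f p.1) j * cj (f p.2) j) := by
    apply Finset.measurable_sum
    intro j _
    exact ((ham j).comp measurable_fst).mul ((ham j).comp measurable_snd)
  have hQm : Measurable (fun p : ℝ × ℝ => GG τ (o3p (f p.1)) (o3p (f p.2))) := by
    have : (fun p : ℝ × ℝ => GG τ (o3p (f p.1)) (o3p (f p.2))) = fun p : ℝ × ℝ =>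
        GG τ (evp (f p.1)) (evp (f p.2)) - τ * ∑ j, cj (f p.1) j * cj (f p.2) j -
          GG (-τ) (f p.1) (f p.2) := by
      funext p
      rw [hdec p]; ring
    rw [this]
    exact (hEm.sub (hsm.const_mul τ)).sub hHm
  set N : ℝ → ℝ := fun u => Real.sqrt (∫ y, (o3p (f u) y) ^ 2 ∂(gam m)) with hNdef
  have hNN0 : ∀ u, 0 ≤ N u := fun u => Real.sqrt_nonneg _
  have hNN1 : ∀ u, N u ≤ 1 := fun u => Real.sqrt_le_one.2 (hN1 u)
  have hNNm : Measurable N := hNm.sqrt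
  have hNsq : ∀ u, (N u) ^ 2 = ∫ y, (o3p (f u) y) ^ 2 ∂(gam m) := fun u => Real.sq_sqrt (hN0 u)
  have hQ : ∀ p : ℝ × ℝ, |GG τ (o3p (f p.1)) (o3p (f p.2))| ≤ τ ^ 3 * (N p.1 * N p.2) := by
    intro p
    have q1 := o3p_props (f p.1) (hfm p.1) (hb p.1)
    have q2 := o3p_props (f p.2) (hfm p.2) (hb p.2)
    exact GG_cub τ 1 h0.le (by linarith) _ _ q1.1 q2.1 q1.2.1 q2.2.1 q1.2.2.1 q2.2.2.1
      q1.2.2.2.1 q2.2.2.2.1
  have hτ3 : τ ^ 3 ≤ 1 := pow_le_one₀ h0.le (by linarith)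
  have hQb : ∀ p : ℝ × ℝ, |GG τ (o3p (f p.1)) (o3p (f p.2))| ≤ 1 := by
    intro p
    refine (hQ p).trans ?_
    exact mul_le_one₀ hτ3 (mul_nonneg (hNN0 _) (hNN0 _)) (mul_le_one₀ (hNN1 _) (hNN0 _) (hNN1 _))
  -- integrability
  have iE := kat_int_cF τ h0 h1 _ hEm 1 hEb
  have iQ := kat_int_cF τ h0 h1 _ hQm 1 hQb
  have iA : ∀ j, Integrable (fun p : ℝ × ℝ => cF (τ * p.1 * p.2) *
      (cj (f p.1) j * cj (f p.2) j)) (nu.prod nu) := by
    intro j
    refine kat_int_cF τ h0 h1 (fun p => cj (f p.1) j * cj (f p.2) j) ?_ 1 ?_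
    · exact ((ham j).comp measurable_fst).mul ((ham j).comp measurable_snd)
    · intro p
      rw [abs_mul]
      exact mul_le_one₀ (hab _ _) (abs_nonneg _) (hab _ _)
  have iN : Integrable (fun p : ℝ × ℝ => cF (τ * p.1 * p.2) * (N p.1 * N p.2)) (nu.prod nu) := by
    refine kat_int_cF τ h0 h1 (fun p => N p.1 * N p.2) ?_ 1 ?_
    · exact (hNNm.comp measurable_fst).mul (hNNm.comp measurable_snd)
    · intro p
      rw [abs_of_nonneg (mul_nonneg (hNN0 _) (hNN0 _))]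
      exact mul_le_one₀ (hNN1 _) (hNN0 _) (hNN1 _)
  -- splitting
  have hsplit : ∀ p : ℝ × ℝ, cF (τ * p.1 * p.2) * GG (-τ) (f p.1) (f p.2) =
      (cF (τ * p.1 * p.2) * GG τ (evp (f p.1)) (evp (f p.2)) -
        τ * ∑ j, cF (τ * p.1 * p.2) * (cj (f p.1) j * cj (f p.2) j)) -
        cF (τ * p.1 * p.2) * GG τ (o3p (f p.1)) (o3p (f p.2)) := by
    intro p
    rw [hdec p, ← Finset.mul_sum]
    ring
  have iS : Integrable (fun p : ℝ × ℝ => τ * ∑ j, cF (τ * p.1 * p.2) *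
      (cj (f p.1) j * cj (f p.2) j)) (nu.prod nu) :=
    (integrable_finsetSum _ fun j _ => iA j).const_mul τ
  have iES : Integrable (fun p : ℝ × ℝ => cF (τ * p.1 * p.2) *
      GG τ (evp (f p.1)) (evp (f p.2)) - τ * ∑ j, cF (τ * p.1 * p.2) *
      (cj (f p.1) j * cj (f p.2) j)) (nu.prod nu) := iE.sub iS
  have iH : Integrable (fun p : ℝ × ℝ => cF (τ * p.1 * p.2) * GG (-τ) (f p.1) (f p.2))
      (nu.prod nu) := by
    simp_rw [hsplit]
    exact iES.sub iQ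
  have hI : ∫ u, ∫ v, cF (τ * u * v) * GG (-τ) (f u) (f v) ∂nu ∂nu =
      ((∫ p, cF (τ * p.1 * p.2) * GG τ (evp (f p.1)) (evp (f p.2)) ∂(nu.prod nu)) -
        τ * ∑ j, ∫ p, cF (τ * p.1 * p.2) * (cj (f p.1) j * cj (f p.2) j) ∂(nu.prod nu)) -
        ∫ p, cF (τ * p.1 * p.2) * GG τ (o3p (f p.1)) (o3p (f p.2)) ∂(nu.prod nu) := by
    rw [← integral_prod (fun p : ℝ × ℝ => cF (τ * p.1 * p.2) * GG (-τ) (f p.1) (f p.2)) iH]
    simp_rw [hsplit]
    rw [integral_sub iES iQ, integral_sub iE iS, integral_const_mul,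
      integral_finsetSum _ fun j _ => iA j]
  -- linear terms
  have hB : ∀ j, τ * ∫ p, cF (τ * p.1 * p.2) * (cj (f p.1) j * cj (f p.2) j) ∂(nu.prod nu) ≤
      ∫ u, DD τ u * (cj (f u) j) ^ 2 ∂nu := by
    intro j
    have := E1 τ h0 h1 (fun u => cj (f u) j) (ham j) 1 (hab j) (hc j)
    rw [← integral_prod (fun p : ℝ × ℝ => cF (τ * p.1 * p.2) *
      (cj (f p.1) j * cj (f p.2) j)) (iA j)] at this
    exact this
  -- cubic term
  have hC : ∫ p, cF (τ * p.1 * p.2) * GG τ (o3p (f p.1)) (o3p (f p.2)) ∂(nu.prod nu) ≤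
      ∫ u, DD τ u * (∫ y, (o3p (f u) y) ^ 2 ∂(gam m)) ∂nu := by
    have c1 := E3 τ h0 h1 N hNNm 1 (fun u => by rw [abs_of_nonneg (hNN0 u)]; exact hNN1 u) hNN0
    rw [← integral_prod (fun p : ℝ × ℝ => cF (τ * p.1 * p.2) * (N p.1 * N p.2)) iN] at c1
    simp_rw [hNsq] at c1
    refine le_trans ?_ c1
    rw [← integral_const_mul]
    apply integral_mono iQ (iN.const_mul _)
    intro p
    have h2 := (le_abs_self _).trans (hQ p)
    calc cF (τ * p.1 * p.2) * GG τ (o3p (f p.1)) (o3p (f p.2))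
        ≤ cF (τ * p.1 * p.2) * (τ ^ 3 * (N p.1 * N p.2)) :=
          mul_le_mul_of_nonneg_left h2 (cF_nonneg _)
      _ = τ ^ 3 * (cF (τ * p.1 * p.2) * (N p.1 * N p.2)) := by ring
  -- the diagonal
  have dE := kat_int_DD τ h0 h1 _ (kat_sq_meas (fun u => evp (f u)) heu) 1
    fun u => kat_sq_bdd _ (heb u)
  have dA : ∀ j, Integrable (fun u => DD τ u * (cj (f u) j) ^ 2) nu := fun j =>
    kat_int_DD τ h0 h1 _ ((ham j).pow_const 2) 1 fun u => by
      rw [abs_pow]; exact pow_le_one₀ (abs_nonneg _) (hab j u)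
  have dN := kat_int_DD τ h0 h1 _ hNm 1 fun u => by
    rw [abs_of_nonneg (hN0 u)]; exact hN1 u
  have hD : ∫ u, DD τ u * (∫ y, (f u y) ^ 2 ∂(gam m)) ∂nu =
      (∫ u, DD τ u * (∫ y, (evp (f u) y) ^ 2 ∂(gam m)) ∂nu) +
      (∑ j, ∫ u, DD τ u * (cj (f u) j) ^ 2 ∂nu) +
      ∫ u, DD τ u * (∫ y, (o3p (f u) y) ^ 2 ∂(gam m)) ∂nu := by
    have hs : ∀ u, DD τ u * (∫ y, (f u y) ^ 2 ∂(gam m)) =
        DD τ u * (∫ y, (evp (f u) y) ^ 2 ∂(gam m)) + (∑ j, DD τ u * (cj (f u) j) ^ 2) +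
          DD τ u * (∫ y, (o3p (f u) y) ^ 2 ∂(gam m)) := by
      intro u
      rw [norm_decomp (f u) (hfm u) (hb u), ← Finset.mul_sum]
      ring
    simp_rw [hs]
    have dS : Integrable (fun u => ∑ j, DD τ u * (cj (f u) j) ^ 2) nu :=
      integrable_finsetSum _ fun j _ => dA j
    have dES : Integrable (fun u => DD τ u * (∫ y, (evp (f u) y) ^ 2 ∂(gam m)) +
      ∑ j, DD τ u * (cj (f u) j) ^ 2) nu := dE.add dS
    rw [integral_add dES dN, integral_add dE dS, integral_finsetSum _ fun j _ => dA j]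
  rw [hI, hD]
  have hB' : τ * ∑ j, ∫ p, cF (τ * p.1 * p.2) * (cj (f p.1) j * cj (f p.2) j) ∂(nu.prod nu) ≤
      ∑ j, ∫ u, DD τ u * (cj (f u) j) ^ 2 ∂nu := by
    rw [Finset.mul_sum]
    exact Finset.sum_le_sum fun j _ => hB j
  linarith

end Pool.Agent.SSC3N
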