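import Pool.Agent.SSC3N.MomA

set_option autoImplicit false
open MeasureTheory ProbabilityTheory Set Real
open scoped ENNReal

namespace Pool.Agent.SSC3N
open Pool.Agent.SSC3

/-! Quintic minorant of `exp`. -/

private lemma q2_T5_hasDeriv (y : ℝ) :
    HasDerivAt (fun y : ℝ => (1 + y + y ^ 2 / 2 + y ^ 3 / 6 + y ^ 4 / 24 + y ^ 5 / 120) *
      Real.exp (-y)) (-(y ^ 5 / 120) * Real.exp (-y)) y := by
  have h1 : HasDerivAt (fun y : ℝ => 1 + y + y ^ 2 / 2 + y ^ 3 / 6 + y ^ 4 / 24 + y ^ 5 / 120)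
      (0 + 1 + (2:ℕ) * y ^ (2 - 1) / 2 + (3:ℕ) * y ^ (3 - 1) / 6 + (4:ℕ) * y ^ (4 - 1) / 24 +
        (5:ℕ) * y ^ (5 - 1) / 120) y := by
    exact (((((hasDerivAt_const y (1:ℝ)).add (hasDerivAt_id y)).add
      ((hasDerivAt_pow 2 y).div_const 2)).add ((hasDerivAt_pow 3 y).div_const 6)).add
      ((hasDerivAt_pow 4 y).div_const 24)).add ((hasDerivAt_pow 5 y).div_const 120)
  have h2 : HasDerivAt (fun y : ℝ => Real.exp (-y)) (Real.exp (-y) * (-1)) y :=
    (hasDerivAt_neg y).exp
  have h3 := h1.mul h2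
  refine h3.congr_deriv ?_
  push_cast
  ring

private lemma q2_T5_le (y : ℝ) :
    1 + y + y ^ 2 / 2 + y ^ 3 / 6 + y ^ 4 / 24 + y ^ 5 / 120 ≤ Real.exp y := by
  set f : ℝ → ℝ := fun y : ℝ => (1 + y + y ^ 2 / 2 + y ^ 3 / 6 + y ^ 4 / 24 + y ^ 5 / 120) *
      Real.exp (-y) with hf
  have hcont : Continuous f := by fun_prop
  have hderiv : ∀ y, deriv f y = -(y ^ 5 / 120) * Real.exp (-y) := fun y => (q2_T5_hasDeriv y).deriv
  have hdiff : Differentiable ℝ f := fun y => (q2_T5_hasDeriv y).differentiableAt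
  have key : f y ≤ f 0 := by
    rcases le_total 0 y with hy | hy
    · have : AntitoneOn f (Ici 0) := by
        apply antitoneOn_of_deriv_nonpos (convex_Ici 0) hcont.continuousOn
          hdiff.differentiableOn
        intro x hx
        rw [interior_Ici] at hx
        rw [hderiv]
        have hx' : (0:ℝ) < x := hx
        have := Real.exp_pos (-x)
        have h5 : 0 < x ^ 5 := by positivity
        nlinarith
      exact this (mem_Ici.2 le_rfl) hy hy
    · have : MonotoneOn f (Iic 0) := by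
        apply monotoneOn_of_deriv_nonneg (convex_Iic 0) hcont.continuousOn
          hdiff.differentiableOn
        intro x hx
        rw [interior_Iic] at hx
        rw [hderiv]
        have hx' : x < 0 := hx
        have := Real.exp_pos (-x)
        have h5 : x ^ 5 < 0 := by
          have : 0 < (-x) ^ 5 := by
            have : 0 < -x := by linarith
            positivity
          nlinarith [this]
        nlinarith
      exact this hy (mem_Iic.2 le_rfl) hy
  have h0 : f 0 = 1 := by simp [hf]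
  rw [h0] at key
  have hexp : Real.exp (-y) * Real.exp y = 1 := by rw [← Real.exp_add]; simp
  have hpos := Real.exp_pos y
  have := mul_le_mul_of_nonneg_right key hpos.le
  simp only [hf] at this
  rw [mul_assoc, hexp] at this
  linarith

private lemma q2_exp_lower (x : ℝ) :
    0.3678 * (163 / 60 - 65 / 24 * x + 4 / 3 * x ^ 2 - 5 / 12 * x ^ 3 + 1 / 12 * x ^ 4
      - 1 / 120 * x ^ 5) ≤ Real.exp (-x) := by
  set T : ℝ := 163 / 60 - 65 / 24 * x + 4 / 3 * x ^ 2 - 5 / 12 * x ^ 3 + 1 / 12 * x ^ 4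
      - 1 / 120 * x ^ 5 with hT
  have h1 : T ≤ Real.exp (1 - x) := by
    have h := q2_T5_le (1 - x)
    have e : 1 + (1 - x) + (1 - x) ^ 2 / 2 + (1 - x) ^ 3 / 6 + (1 - x) ^ 4 / 24 +
      (1 - x) ^ 5 / 120 = T := by rw [hT]; ring
    rw [e] at h
    exact h
  have h2 : Real.exp (-x) = Real.exp (-1) * Real.exp (1 - x) := by
    rw [← Real.exp_add]; congr 1; ring
  have h3 : (0.3678 : ℝ) ≤ Real.exp (-1) := by
    have := Real.exp_neg_one_gt_d9
    linarith
  have h4 := Real.exp_pos (1 - x)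
  rw [h2]
  rcases le_total 0 T with hT0 | hT0
  · calc (0.3678:ℝ) * T ≤ Real.exp (-1) * T := mul_le_mul_of_nonneg_right h3 hT0
      _ ≤ Real.exp (-1) * Real.exp (1 - x) := mul_le_mul_of_nonneg_left h1 (Real.exp_pos _).le
  · have : 0 < Real.exp (-1) * Real.exp (1 - x) := by positivity
    nlinarith

/-! The weight. -/

private lemma q2_vt_nonneg (t : ℝ) (h0 : 0 ≤ t) (h1 : t ≤ 1 / 3) : 0 ≤ vt t := by
  unfold vt; nlinarith

private lemma q2_sin_nonneg (t : ℝ) (h0 : 0 ≤ t) (h1 : t ≤ 1 / 3) : 0 ≤ Real.sin (2 * π * t) := by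
  apply Real.sin_nonneg_of_nonneg_of_le_pi
  · have := Real.pi_pos
    positivity
  · have := Real.pi_pos
    nlinarith

private lemma q2_w_nonneg (t : ℝ) (h0 : 0 ≤ t) (h1 : t ≤ 1 / 3) :
    0 ≤ 2 * π * Real.sin (2 * π * t) * vt t := by
  have := Real.pi_pos
  have h2 := q2_sin_nonneg t h0 h1
  have h3 := q2_vt_nonneg t h0 h1
  positivity

private lemma q2_vt_cont : Continuous vt := by unfold vt; fun_prop

private lemma q2_w_cont : Continuous (fun t : ℝ => 2 * π * Real.sin (2 * π * t) * vt t) := by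
  have := q2_vt_cont
  fun_prop

theorem LF_ge_PL (l : ℝ) (hl : 0 ≤ l) : PL l ≤ LF l := by
  set w : ℝ → ℝ := fun t => 2 * π * Real.sin (2 * π * t) * vt t with hw
  have hwc : Continuous w := q2_w_cont
  have hI : ∀ k : ℕ, IntervalIntegrable (fun t => w t * Real.cos (2 * π * t) ^ k) volume 0 (1 / 3) := by
    intro k
    apply Continuous.intervalIntegrable
    fun_prop
  have hm : ∀ k : ℕ, ∫ t in (0:ℝ)..(1 / 3), w t * Real.cos (2 * π * t) ^ k = mA k := by
    intro k; rfl
  have hsum : ∫ t in (0:ℝ)..(1 / 3), (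
      0.3678 * (163 / 60) * (w t * Real.cos (2 * π * t) ^ 0)
      + (-(0.3678 * (65 / 24) * l)) * (w t * Real.cos (2 * π * t) ^ 1)
      + (0.3678 * (4 / 3) * l ^ 2) * (w t * Real.cos (2 * π * t) ^ 2)
      + (-(0.3678 * (5 / 12) * l ^ 3)) * (w t * Real.cos (2 * π * t) ^ 3)
      + (0.3678 * (1 / 12) * l ^ 4) * (w t * Real.cos (2 * π * t) ^ 4)
      + (-(0.3678 * (1 / 120) * l ^ 5)) * (w t * Real.cos (2 * π * t) ^ 5)) =
      0.3678 * (163 / 60) * mA 0 + (-(0.3678 * (65 / 24) * l)) * mA 1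
      + (0.3678 * (4 / 3) * l ^ 2) * mA 2 + (-(0.3678 * (5 / 12) * l ^ 3)) * mA 3
      + (0.3678 * (1 / 12) * l ^ 4) * mA 4 + (-(0.3678 * (1 / 120) * l ^ 5)) * mA 5 := by
    rw [intervalIntegral.integral_add (((((hI 0).const_mul _).add ((hI 1).const_mul _)).add
        ((hI 2).const_mul _)).add ((hI 3).const_mul _) |>.add ((hI 4).const_mul _))
        ((hI 5).const_mul _),
      intervalIntegral.integral_add (((((hI 0).const_mul _).add ((hI 1).const_mul _)).add
        ((hI 2).const_mul _)).add ((hI 3).const_mul _)) ((hI 4).const_mul _),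
      intervalIntegral.integral_add ((((hI 0).const_mul _).add ((hI 1).const_mul _)).add
        ((hI 2).const_mul _)) ((hI 3).const_mul _),
      intervalIntegral.integral_add (((hI 0).const_mul _).add ((hI 1).const_mul _))
        ((hI 2).const_mul _),
      intervalIntegral.integral_add ((hI 0).const_mul _) ((hI 1).const_mul _)]
    simp only [intervalIntegral.integral_const_mul, hm]
  have hmono : ∫ t in (0:ℝ)..(1 / 3), (
      0.3678 * (163 / 60) * (w t * Real.cos (2 * π * t) ^ 0)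
      + (-(0.3678 * (65 / 24) * l)) * (w t * Real.cos (2 * π * t) ^ 1)
      + (0.3678 * (4 / 3) * l ^ 2) * (w t * Real.cos (2 * π * t) ^ 2)
      + (-(0.3678 * (5 / 12) * l ^ 3)) * (w t * Real.cos (2 * π * t) ^ 3)
      + (0.3678 * (1 / 12) * l ^ 4) * (w t * Real.cos (2 * π * t) ^ 4)
      + (-(0.3678 * (1 / 120) * l ^ 5)) * (w t * Real.cos (2 * π * t) ^ 5)) ≤ LF l := by
    unfold LF
    have hvt := q2_vt_cont
    apply intervalIntegral.integral_mono_on (by norm_num)
    · apply Continuous.intervalIntegrable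
      fun_prop
    · apply Continuous.intervalIntegrable
      fun_prop
    · intro t ht
      have hwn : 0 ≤ w t := q2_w_nonneg t ht.1 ht.2
      have he := q2_exp_lower (l * Real.cos (2 * π * t))
      have := mul_le_mul_of_nonneg_left he hwn
      calc _ = w t * (0.3678 * (163 / 60 - 65 / 24 * (l * Real.cos (2 * π * t))
            + 4 / 3 * (l * Real.cos (2 * π * t)) ^ 2 - 5 / 12 * (l * Real.cos (2 * π * t)) ^ 3
            + 1 / 12 * (l * Real.cos (2 * π * t)) ^ 4
            - 1 / 120 * (l * Real.cos (2 * π * t)) ^ 5)) := by ring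
        _ ≤ _ := this
  rw [hsum] at hmono
  refine le_trans ?_ hmono
  obtain ⟨h0, h1, h2, h3, h4, h5⟩ := mA_bounds
  rw [abs_le] at h0 h1 h2 h3 h4 h5
  unfold PL
  have e0 : (0.23367:ℝ) ≤ 0.3678 * (163 / 60) * mA 0 := by nlinarith [h0.1]
  have e1 : 0.3678 * (65 / 24) * mA 1 ≤ 0.06096 := by nlinarith [h1.2]
  have e2 : (0.02526:ℝ) ≤ 0.3678 * (4 / 3) * mA 2 := by nlinarith [h2.1]
  have e3 : 0.3678 * (5 / 12) * mA 3 ≤ 0.004762 := by nlinarith [h3.2]
  have e4 : (0.000774:ℝ) ≤ 0.3678 * (1 / 12) * mA 4 := by nlinarith [h4.1]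
  have e5 : 0.3678 * (1 / 120) * mA 5 ≤ 0.00005875 := by nlinarith [h5.2]
  have f1 := mul_le_mul_of_nonneg_left e1 hl
  have f2 := mul_le_mul_of_nonneg_left e2 (by positivity : (0:ℝ) ≤ l ^ 2)
  have f3 := mul_le_mul_of_nonneg_left e3 (by positivity : (0:ℝ) ≤ l ^ 3)
  have f4 := mul_le_mul_of_nonneg_left e4 (by positivity : (0:ℝ) ≤ l ^ 4)
  have f5 := mul_le_mul_of_nonneg_left e5 (by positivity : (0:ℝ) ≤ l ^ 5)
  linarith

private lemma q2_PL_ge (l : ℝ) (hl : 0 ≤ l) (h6 : l ≤ 6) : 0.1849 ≤ PL l := by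
  have hq : 0 ≤ 0.014064697703645625 - 0.0024920283690625 * l + 0.00055539125 * l ^ 2
      - 0.00005875 * l ^ 3 := by
    have h1 : 0 ≤ l ^ 2 * (6 - l) := mul_nonneg (by positivity) (by linarith)
    nlinarith [sq_nonneg (l - 5)]
  have h2 := mul_nonneg (sq_nonneg (l - 1.8605)) hq
  have hr : (0:ℝ) ≤ 0.00008560797056438897 + 0.0000007972966475441406 * l := by positivity
  unfold PL
  nlinarith

private lemma q2_int (l : ℝ) (hl : 0 < l) :
    ∫ t in (1 / 4:ℝ)..(1 / 3), 2 * π * Real.sin (2 * π * t) * Real.exp (-(l * Real.cos (2 * π * t)))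
      = (Real.exp (l / 2) - 1) / l := by
  have hd : ∀ t ∈ uIcc (1 / 4:ℝ) (1 / 3), HasDerivAt
      (fun t : ℝ => Real.exp (-(l * Real.cos (2 * π * t))) / l)
      (2 * π * Real.sin (2 * π * t) * Real.exp (-(l * Real.cos (2 * π * t)))) t := by
    intro t _
    have h1 : HasDerivAt (fun t : ℝ => 2 * π * t) (2 * π * 1) t := (hasDerivAt_id t).const_mul _
    have h2 : HasDerivAt (fun t : ℝ => Real.cos (2 * π * t)) (-Real.sin (2 * π * t) * (2 * π * 1)) t :=
      h1.cos
    have h3 := ((h2.const_mul l).neg).exp.div_const l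
    refine h3.congr_deriv ?_
    rw [div_eq_iff hl.ne']
    simp only [Pi.neg_apply]
    ring
  rw [intervalIntegral.integral_eq_sub_of_hasDerivAt hd]
  · have e1 : 2 * π * (1 / 3) = π - π / 3 := by ring
    have e2 : 2 * π * (1 / 4) = π / 2 := by ring
    rw [e1, e2, Real.cos_pi_sub, Real.cos_pi_div_three, Real.cos_pi_div_two]
    have e3 : -(l * -(1 / 2)) = l / 2 := by ring
    rw [e3]
    simp
    ring
  · apply Continuous.intervalIntegrable
    fun_prop

theorem LF_ge (l : ℝ) (hl : 0 ≤ l) : 0.1849 ≤ LF l := by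
  rcases le_total l 6 with h6 | h6
  · exact (q2_PL_ge l hl h6).trans (LF_ge_PL l hl)
  · have hl0 : 0 < l := by linarith
    have hvt := q2_vt_cont
    have hcont : Continuous (fun t : ℝ => 2 * π * Real.sin (2 * π * t) * vt t *
        Real.exp (-(l * Real.cos (2 * π * t)))) := by fun_prop
    have h1 : LF l = (∫ t in (0:ℝ)..(1 / 4), 2 * π * Real.sin (2 * π * t) * vt t *
        Real.exp (-(l * Real.cos (2 * π * t)))) + ∫ t in (1 / 4:ℝ)..(1 / 3),
        2 * π * Real.sin (2 * π * t) * vt t * Real.exp (-(l * Real.cos (2 * π * t))) := by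
      unfold LF
      rw [intervalIntegral.integral_add_adjacent_intervals]
      · exact hcont.intervalIntegrable _ _
      · exact hcont.intervalIntegrable _ _
    have h2 : 0 ≤ ∫ t in (0:ℝ)..(1 / 4), 2 * π * Real.sin (2 * π * t) * vt t *
        Real.exp (-(l * Real.cos (2 * π * t))) := by
      apply intervalIntegral.integral_nonneg (by norm_num)
      intro t ht
      have := q2_w_nonneg t ht.1 (by linarith [ht.2])
      have := Real.exp_pos (-(l * Real.cos (2 * π * t)))
      positivity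
    have h3 : (1 / 12) * ((Real.exp (l / 2) - 1) / l) ≤ ∫ t in (1 / 4:ℝ)..(1 / 3),
        2 * π * Real.sin (2 * π * t) * vt t * Real.exp (-(l * Real.cos (2 * π * t))) := by
      rw [← q2_int l hl0, ← intervalIntegral.integral_const_mul]
      apply intervalIntegral.integral_mono_on (by norm_num)
      · apply Continuous.intervalIntegrable
        fun_prop
      · exact hcont.intervalIntegrable _ _
      · intro t ht
        have hs := q2_sin_nonneg t (by linarith [ht.1]) ht.2
        have hv : 1 / 12 ≤ vt t := by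
          unfold vt
          nlinarith [ht.1, ht.2]
        have he := Real.exp_pos (-(l * Real.cos (2 * π * t)))
        have hp := Real.pi_pos
        have : 0 ≤ 2 * π * Real.sin (2 * π * t) * Real.exp (-(l * Real.cos (2 * π * t))) := by
          positivity
        have h := mul_le_mul_of_nonneg_left hv this
        linarith
    have h4 : 1 + l / 2 + (l / 2) ^ 2 / 2 + (l / 2) ^ 3 / 6 + (l / 2) ^ 4 / 24 +
        (l / 2) ^ 5 / 120 ≤ Real.exp (l / 2) := q2_T5_le (l / 2)
    have h5 : 1 / 2 + l / 8 + l ^ 2 / 48 + l ^ 3 / 384 ≤ (Real.exp (l / 2) - 1) / l := by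
      rw [le_div_iff₀ hl0]
      have : 0 ≤ l ^ 5 := by positivity
      nlinarith
    have h6' : (6:ℝ) ^ 3 ≤ l ^ 3 := pow_le_pow_left₀ (by norm_num) h6 3
    have h6'' : (6:ℝ) ^ 2 ≤ l ^ 2 := pow_le_pow_left₀ (by norm_num) h6 2
    rw [h1]
    linarith

end Pool.Agent.SSC3N
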