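import Pool.Agent.SSC3.Polar
import Pool.Agent.SSC3N.Defs

set_option autoImplicit false
open MeasureTheory ProbabilityTheory Set Real
open scoped ENNReal

namespace Pool.Agent.SSC3N
open Pool.Agent.SSC3

private theorem polar2_lint_nu (f : ℝ → ℝ≥0∞) (hf : Measurable f) :
    ∫⁻ u, f u ∂nu = ∫⁻ u in Ioi (0:ℝ), ENNReal.ofReal (u * Real.exp (-(u ^ 2 / 2))) * f u := by
  unfold nu
  rw [lintegral_withDensity_eq_lintegral_mul _ (by fun_prop) hf]
  rfl

private theorem polar2_scale (κ : ℝ) (hκ : 0 < κ) (f : ℝ → ℝ≥0∞) (hf : Measurable f) :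
    ∫⁻ r in Ioi (0:ℝ), f r = ENNReal.ofReal κ * ∫⁻ u in Ioi (0:ℝ), f (κ * u) := by
  rw [← lintegral_indicator measurableSet_Ioi, ← lintegral_indicator measurableSet_Ioi]
  conv_lhs => rw [← Real.smul_map_volume_mul_left hκ.ne']
  rw [lintegral_smul_measure, lintegral_map (hf.indicator measurableSet_Ioi) (by fun_prop),
    abs_of_pos hκ, smul_eq_mul]
  congr 1
  apply lintegral_congr
  intro u
  by_cases hu : 0 < u
  · rw [indicator_of_mem (show κ * u ∈ Ioi (0:ℝ) from mul_pos hκ hu),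
      indicator_of_mem (show u ∈ Ioi (0:ℝ) from hu)]
  · rw [indicator_of_notMem, indicator_of_notMem]
    · exact hu
    · intro h
      exact hu (pos_of_mul_pos_right h hκ.le)

private theorem polar2_E2_lt_top (l : ℝ) (A B : Set ℝ) : E2 l A B < ⊤ := by
  unfold E2
  have h1 : ∀ θ φ : ℝ, ENNReal.ofReal (ker l (θ - φ)) ≤ ENNReal.ofReal (Real.exp |l|) := by
    intro θ φ
    apply ENNReal.ofReal_le_ofReal
    unfold ker
    apply Real.exp_le_exp.mpr
    have h2 := abs_le.mp (Real.abs_cos_le_one (θ - φ))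
    have h3 : |l * Real.cos (θ - φ)| ≤ |l| := by
      rw [abs_mul]
      exact mul_le_of_le_one_right (abs_nonneg _) (Real.abs_cos_le_one _)
    have h4 := abs_le.mp h3
    linarith
  have hv : volume (Ioo (-π) π) < ⊤ := by
    rw [Real.volume_Ioo]
    exact ENNReal.ofReal_lt_top
  calc ∫⁻ θ in A ∩ Ioo (-π) π, ∫⁻ φ in B ∩ Ioo (-π) π, ENNReal.ofReal (ker l (θ - φ))
      ≤ ∫⁻ _θ in A ∩ Ioo (-π) π, ∫⁻ _φ in B ∩ Ioo (-π) π, ENNReal.ofReal (Real.exp |l|) :=
        lintegral_mono fun θ => lintegral_mono fun φ => h1 θ φ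
    _ = ENNReal.ofReal (Real.exp |l|) * volume (B ∩ Ioo (-π) π) * volume (A ∩ Ioo (-π) π) := by
        simp only [lintegral_const, Measure.restrict_apply_univ]
    _ < ⊤ := by
        apply ENNReal.mul_lt_top (ENNReal.mul_lt_top ENNReal.ofReal_lt_top _) _
        · exact (measure_mono inter_subset_right).trans_lt hv
        · exact (measure_mono inter_subset_right).trans_lt hv

private theorem polar2_sfinite_nu : SFinite nu := by
  unfold nu
  infer_instance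

theorem polar2 (τ : ℝ) (h0 : 0 ≤ τ) (h1 : τ ≤ 1 / 2) (A B : Set (Fin 2 → ℝ))
    (hA : MeasurableSet A) (hB : MeasurableSet B) :
    ((g2.prod g2) {p : (Fin 2 → ℝ) × (Fin 2 → ℝ) |
        p.1 ∈ A ∧ (-τ) • p.1 + Real.sqrt (1 - (-τ) ^ 2) • p.2 ∈ B}).toReal
      = (1 - τ ^ 2) * ∫ u, ∫ v, (E2 (τ * u * v) (slice A (Real.sqrt (1 - τ ^ 2) * u))
          (slice B (Real.sqrt (1 - τ ^ 2) * v))).toReal / (2 * π) ^ 2 ∂nu ∂nu := by
  have hsf := polar2_sfinite_nu
  have hp : 0 < 1 - τ ^ 2 := by nlinarith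
  set κ := Real.sqrt (1 - τ ^ 2) with hκdef
  have hκ : 0 < κ := Real.sqrt_pos.mpr hp
  have hκ2 : κ ^ 2 = 1 - τ ^ 2 := Real.sq_sqrt hp.le
  set h : ℝ → ℝ → ℝ≥0∞ := fun u v => ENNReal.ofReal (1 / (2 * π) ^ 2) *
    E2 (τ * u * v) (slice A (κ * u)) (slice B (κ * v)) with hh
  have hE : ∀ u v : ℝ, E2 (-(-τ) / (1 - (-τ) ^ 2) * (κ * u) * (κ * v)) (slice A (κ * u))
      (slice B (κ * v)) = E2 (τ * u * v) (slice A (κ * u)) (slice B (κ * v)) := by
    intro u v
    congr 1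
    have e1 : 1 - (-τ) ^ 2 = κ ^ 2 := by rw [hκ2]; ring
    rw [e1]
    field_simp
  -- measurability
  have mE0 := measurable_E2 (-(-τ) / (1 - (-τ) ^ 2)) A B hA hB
  have mE : Measurable (fun p : ℝ × ℝ =>
      E2 (τ * p.1 * p.2) (slice A (κ * p.1)) (slice B (κ * p.2))) := by
    have m1 : Measurable (fun p : ℝ × ℝ => ((κ * p.1, κ * p.2) : ℝ × ℝ)) := by fun_prop
    have m2 := mE0.comp m1
    have m3 : (fun p : ℝ × ℝ => E2 (τ * p.1 * p.2) (slice A (κ * p.1)) (slice B (κ * p.2))) =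
        (fun p : ℝ × ℝ => E2 (-(-τ) / (1 - (-τ) ^ 2) * p.1 * p.2) (slice A p.1) (slice B p.2)) ∘
          (fun p : ℝ × ℝ => ((κ * p.1, κ * p.2) : ℝ × ℝ)) := by
      funext p
      exact (hE p.1 p.2).symm
    rw [m3]
    exact m2
  have mh : Measurable (fun p : ℝ × ℝ => h p.1 p.2) := mE.const_mul _
  have mh1 : ∀ u, Measurable (h u) := by
    intro u
    have m4 : Measurable (fun v : ℝ => ((u, v) : ℝ × ℝ)) := measurable_const.prodMk measurable_id
    have m5 := mh.comp m4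
    exact m5
  have mH : Measurable (fun u => ∫⁻ v, h u v ∂nu) :=
    Measurable.lintegral_prod_right' (f := fun p : ℝ × ℝ => h p.1 p.2) mh
  -- the identity in `ℝ≥0∞`
  have key : (g2.prod g2) {p : (Fin 2 → ℝ) × (Fin 2 → ℝ) |
        p.1 ∈ A ∧ (-τ) • p.1 + Real.sqrt (1 - (-τ) ^ 2) • p.2 ∈ B} =
      ENNReal.ofReal (1 - τ ^ 2) * ∫⁻ u, ∫⁻ v, h u v ∂nu ∂nu := by
    rw [polar (-τ) (by linarith) (by linarith) A B hA hB]
    have mG : Measurable (fun p : ℝ × ℝ =>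
        ENNReal.ofReal (p.1 * p.2 * Real.exp (-(1 / (2 * (1 - (-τ) ^ 2)) * (p.1 ^ 2 + p.2 ^ 2)))) *
          E2 (-(-τ) / (1 - (-τ) ^ 2) * p.1 * p.2) (slice A p.1) (slice B p.2)) := by
      refine Measurable.mul ?_ mE0
      fun_prop
    rw [Measure.volume_eq_prod, setLIntegral_prod _ mG.aemeasurable]
    have mG1 : Measurable (fun r : ℝ => ∫⁻ s in Ioi (0:ℝ),
        ENNReal.ofReal (r * s * Real.exp (-(1 / (2 * (1 - (-τ) ^ 2)) * (r ^ 2 + s ^ 2)))) *
          E2 (-(-τ) / (1 - (-τ) ^ 2) * r * s) (slice A r) (slice B s)) :=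
      Measurable.lintegral_prod_right' (f := fun p : ℝ × ℝ =>
        ENNReal.ofReal (p.1 * p.2 * Real.exp (-(1 / (2 * (1 - (-τ) ^ 2)) * (p.1 ^ 2 + p.2 ^ 2)))) *
          E2 (-(-τ) / (1 - (-τ) ^ 2) * p.1 * p.2) (slice A p.1) (slice B p.2)) mG
    rw [polar2_scale κ hκ _ mG1]
    have c1 : ENNReal.ofReal (1 / (4 * π ^ 2 * (1 - (-τ) ^ 2))) * ENNReal.ofReal κ ≠ ⊤ :=
      ENNReal.mul_ne_top ENNReal.ofReal_ne_top ENNReal.ofReal_ne_top
    have c2 : ENNReal.ofReal (1 - τ ^ 2) ≠ ⊤ := ENNReal.ofReal_ne_top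
    rw [polar2_lint_nu _ mH, ← mul_assoc, ← lintegral_const_mul' _ _ c1,
      ← lintegral_const_mul' _ _ c2]
    refine setLIntegral_congr_fun measurableSet_Ioi fun u hu => ?_
    rw [mem_Ioi] at hu
    have mG2 : Measurable (fun s : ℝ =>
        ENNReal.ofReal (κ * u * s * Real.exp (-(1 / (2 * (1 - (-τ) ^ 2)) * ((κ * u) ^ 2 + s ^ 2)))) *
          E2 (-(-τ) / (1 - (-τ) ^ 2) * (κ * u) * s) (slice A (κ * u)) (slice B s)) :=
      mG.comp (measurable_const.prodMk measurable_id)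
    have c3 := ENNReal.mul_ne_top c1 (ENNReal.ofReal_ne_top (r := κ))
    have c4 := ENNReal.mul_ne_top c2 (ENNReal.ofReal_ne_top (r := u * Real.exp (-(u ^ 2 / 2))))
    rw [polar2_scale κ hκ _ mG2, polar2_lint_nu _ (mh1 u),
      ← mul_assoc (ENNReal.ofReal (1 / (4 * π ^ 2 * (1 - (-τ) ^ 2))) * ENNReal.ofReal κ)
        (ENNReal.ofReal κ),
      ← mul_assoc (ENNReal.ofReal (1 - τ ^ 2)), ← lintegral_const_mul' _ _ c3, ← lintegral_const_mul' _ _ c4]
    refine setLIntegral_congr_fun measurableSet_Ioi fun v hv => ?_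
    rw [mem_Ioi] at hv
    simp only [hh]
    rw [hE]
    have e2 : ENNReal.ofReal (1 / (4 * π ^ 2 * (1 - (-τ) ^ 2))) * ENNReal.ofReal κ *
        ENNReal.ofReal κ * ENNReal.ofReal (κ * u * (κ * v) *
          Real.exp (-(1 / (2 * (1 - (-τ) ^ 2)) * ((κ * u) ^ 2 + (κ * v) ^ 2)))) =
        ENNReal.ofReal (1 - τ ^ 2) * ENNReal.ofReal (u * Real.exp (-(u ^ 2 / 2))) *
          ENNReal.ofReal (v * Real.exp (-(v ^ 2 / 2))) * ENNReal.ofReal (1 / (2 * π) ^ 2) := by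
      have p1 : 0 < Real.exp (-(u ^ 2 / 2)) := Real.exp_pos _
      have p2 : 0 < Real.exp (-(v ^ 2 / 2)) := Real.exp_pos _
      have e1 : 1 - (-τ) ^ 2 = κ ^ 2 := by rw [hκ2]; ring
      rw [e1, ← hκ2]
      rw [← ENNReal.ofReal_mul (by positivity), ← ENNReal.ofReal_mul (by positivity),
        ← ENNReal.ofReal_mul (by positivity), ← ENNReal.ofReal_mul (by positivity),
        ← ENNReal.ofReal_mul (by positivity), ← ENNReal.ofReal_mul (by positivity)]
      congr 1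
      have e3 : Real.exp (-(1 / (2 * κ ^ 2) * ((κ * u) ^ 2 + (κ * v) ^ 2))) =
          Real.exp (-(u ^ 2 / 2)) * Real.exp (-(v ^ 2 / 2)) := by
        rw [← Real.exp_add]
        congr 1
        field_simp
        ring
      rw [e3]
      field_simp
      ring
    calc _ = (ENNReal.ofReal (1 / (4 * π ^ 2 * (1 - (-τ) ^ 2))) * ENNReal.ofReal κ *
        ENNReal.ofReal κ * ENNReal.ofReal (κ * u * (κ * v) *
          Real.exp (-(1 / (2 * (1 - (-τ) ^ 2)) * ((κ * u) ^ 2 + (κ * v) ^ 2))))) *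
          E2 (τ * u * v) (slice A (κ * u)) (slice B (κ * v)) := by ring
      _ = _ := by
        rw [e2]
        ring
  -- finiteness
  have hprob : IsProbabilityMeasure g2 := by
    unfold g2
    infer_instance
  have hfin : (g2.prod g2) {p : (Fin 2 → ℝ) × (Fin 2 → ℝ) |
        p.1 ∈ A ∧ (-τ) • p.1 + Real.sqrt (1 - (-τ) ^ 2) • p.2 ∈ B} ≠ ⊤ := measure_ne_top _ _
  have hI : ∫⁻ u, ∫⁻ v, h u v ∂nu ∂nu ≠ ⊤ := by
    intro htop
    rw [key, htop] at hfin
    apply hfin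
    apply ENNReal.mul_top
    rw [Ne, ENNReal.ofReal_eq_zero]
    linarith
  have hae : ∀ᵐ u ∂nu, ∫⁻ v, h u v ∂nu < ⊤ := ae_lt_top mH hI
  rw [key, ENNReal.toReal_mul, ENNReal.toReal_ofReal hp.le]
  congr 1
  rw [← integral_toReal mH.aemeasurable hae]
  apply integral_congr_ae
  filter_upwards with u
  rw [← integral_toReal (mh1 u).aemeasurable
    (Filter.Eventually.of_forall fun v => ENNReal.mul_lt_top ENNReal.ofReal_lt_top
      (polar2_E2_lt_top _ _ _))]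
  apply integral_congr_ae
  filter_upwards with v
  simp only [hh]
  rw [ENNReal.toReal_mul, ENNReal.toReal_ofReal (by positivity)]
  ring

end Pool.Agent.SSC3N
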