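import Pool.Agent.SSC3N.Noise
import Pool.Agent.SSC3N.Polar2

/-! Row R5: the noise stability as an integral of planar angular energies (Fubini). -/

set_option autoImplicit false
open MeasureTheory ProbabilityTheory Set Real
open scoped ENNReal

namespace Pool.Agent.SSC3N
open Pool.Agent.SSC3

private theorem g2_prob : IsProbabilityMeasure g2 := by
  unfold g2; infer_instance

/-- Fubini for the set of a noise stability pairing. -/
private theorem stab_eq_lint {m : ℕ} (a b : ℝ) (A B : Set ((Fin 2 → ℝ) × (Fin m → ℝ)))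
    (hA : MeasurableSet A) (hB : MeasurableSet B) :
    Measurable (fun q : (Fin m → ℝ) × (Fin m → ℝ) =>
      (g2.prod g2) {p : (Fin 2 → ℝ) × (Fin 2 → ℝ) |
        p.1 ∈ ySl A q.1 ∧ a • p.1 + b • p.2 ∈ ySl B (a • q.1 + b • q.2)}) ∧
    ((g2.prod (gam m)).prod (g2.prod (gam m)))
      {p : ((Fin 2 → ℝ) × (Fin m → ℝ)) × ((Fin 2 → ℝ) × (Fin m → ℝ)) |
        p.1 ∈ A ∧ a • p.1 + b • p.2 ∈ B} =
      ∫⁻ y, ∫⁻ z, (g2.prod g2) {p : (Fin 2 → ℝ) × (Fin 2 → ℝ) |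
        p.1 ∈ ySl A y ∧ a • p.1 + b • p.2 ∈ ySl B (a • y + b • z)} ∂(gam m) ∂(gam m) := by
  have := g2_prob
  have := gam_prob m
  -- the set
  set S : Set (((Fin 2 → ℝ) × (Fin m → ℝ)) × ((Fin 2 → ℝ) × (Fin m → ℝ))) :=
    {p | p.1 ∈ A ∧ a • p.1 + b • p.2 ∈ B} with hSdef
  have hlin : Measurable (fun p : ((Fin 2 → ℝ) × (Fin m → ℝ)) × ((Fin 2 → ℝ) × (Fin m → ℝ)) =>
      a • p.1 + b • p.2) := by fun_prop
  have hS : MeasurableSet S := (measurable_fst hA).inter (hlin hB)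
  have hind : Measurable (S.indicator (fun _ => (1 : ℝ≥0∞))) := measurable_const.indicator hS
  -- rearranged indicator
  have hre : Measurable (fun r : ((Fin m → ℝ) × (Fin m → ℝ)) × ((Fin 2 → ℝ) × (Fin 2 → ℝ)) =>
      S.indicator (fun _ => (1 : ℝ≥0∞)) ((r.2.1, r.1.1), (r.2.2, r.1.2))) :=
    hind.comp (by fun_prop)
  have hinner : ∀ (y z : Fin m → ℝ), (g2.prod g2) {p : (Fin 2 → ℝ) × (Fin 2 → ℝ) |
        p.1 ∈ ySl A y ∧ a • p.1 + b • p.2 ∈ ySl B (a • y + b • z)} =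
      ∫⁻ p, S.indicator (fun _ => (1 : ℝ≥0∞)) ((p.1, y), (p.2, z)) ∂(g2.prod g2) := by
    intro y z
    have hT : MeasurableSet {p : (Fin 2 → ℝ) × (Fin 2 → ℝ) |
        p.1 ∈ ySl A y ∧ a • p.1 + b • p.2 ∈ ySl B (a • y + b • z)} := by
      have : Measurable (fun p : (Fin 2 → ℝ) × (Fin 2 → ℝ) => ((p.1, y), (p.2, z))) := by fun_prop
      exact this hS
    rw [← lintegral_indicator_one hT]
    rfl
  constructor
  · simp only [hinner]
    exact hre.lintegral_prod_right'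
  · simp only [hinner]
    rw [← lintegral_indicator_one hS]
    change ∫⁻ p, S.indicator (fun _ => (1 : ℝ≥0∞)) p ∂((g2.prod (gam m)).prod (g2.prod (gam m))) = _
    rw [lintegral_prod _ hind.aemeasurable]
    have hK : Measurable (fun p1 : (Fin 2 → ℝ) × (Fin m → ℝ) =>
        ∫⁻ p2, S.indicator (fun _ => (1 : ℝ≥0∞)) (p1, p2) ∂(g2.prod (gam m))) :=
      hind.lintegral_prod_right'
    rw [lintegral_prod_symm _ hK.aemeasurable]
    refine lintegral_congr fun y => ?_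
    have h1 : ∀ x : Fin 2 → ℝ,
        ∫⁻ p2, S.indicator (fun _ => (1 : ℝ≥0∞)) ((x, y), p2) ∂(g2.prod (gam m)) =
        ∫⁻ z, ∫⁻ x2, S.indicator (fun _ => (1 : ℝ≥0∞)) ((x, y), (x2, z)) ∂g2 ∂(gam m) := by
      intro x
      rw [lintegral_prod_symm]
      exact (hind.comp (by fun_prop)).aemeasurable
    simp only [h1]
    rw [lintegral_lintegral_swap]
    · refine lintegral_congr fun z => ?_
      rw [lintegral_prod]
      exact (hind.comp (by fun_prop)).aemeasurable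
    · apply Measurable.aemeasurable
      have : Measurable (fun r : ((Fin 2 → ℝ) × (Fin m → ℝ)) × (Fin 2 → ℝ) =>
          S.indicator (fun _ => (1 : ℝ≥0∞)) ((r.1.1, y), (r.2, r.1.2))) := hind.comp (by fun_prop)
      exact this.lintegral_prod_right'

theorem stab_eq {m : ℕ} (τ : ℝ) (h0 : 0 ≤ τ) (h1 : τ ≤ 1 / 2)
    (A B : Set ((Fin 2 → ℝ) × (Fin m → ℝ))) (hA : MeasurableSet A) (hB : MeasurableSet B) :
    (stab (-τ) A B).toReal = (1 - τ ^ 2) * ∫ y, ∫ z, ∫ u, ∫ v,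
      ee τ A B u v y ((-τ) • y + Real.sqrt (1 - (-τ) ^ 2) • z) ∂nu ∂nu ∂(gam m) ∂(gam m) := by
  have := g2_prob
  have := gam_prob m
  obtain ⟨hm, he⟩ := stab_eq_lint (-τ) (Real.sqrt (1 - (-τ) ^ 2)) A B hA hB
  set H : (Fin m → ℝ) × (Fin m → ℝ) → ℝ≥0∞ := fun q =>
      (g2.prod g2) {p : (Fin 2 → ℝ) × (Fin 2 → ℝ) | p.1 ∈ ySl A q.1 ∧
        (-τ) • p.1 + Real.sqrt (1 - (-τ) ^ 2) • p.2 ∈
          ySl B ((-τ) • q.1 + Real.sqrt (1 - (-τ) ^ 2) • q.2)} with hH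
  have hH1 : ∀ q, H q ≤ 1 := fun q => prob_le_one
  have hsl : ∀ (C : Set ((Fin 2 → ℝ) × (Fin m → ℝ))) (_ : MeasurableSet C) (y : Fin m → ℝ),
      MeasurableSet (ySl C y) := by
    intro C hC y
    have : Measurable (fun x : Fin 2 → ℝ => (x, y)) := by fun_prop
    exact this hC
  have hHr : ∀ q : (Fin m → ℝ) × (Fin m → ℝ), (H q).toReal = (1 - τ ^ 2) * ∫ u, ∫ v,
      ee τ A B u v q.1 ((-τ) • q.1 + Real.sqrt (1 - (-τ) ^ 2) • q.2) ∂nu ∂nu := by
    intro q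
    exact polar2 τ h0 h1 (ySl A q.1) (ySl B _) (hsl A hA _) (hsl B hB _)
  have e1 : stab (-τ) A B = ∫⁻ y, ∫⁻ z, H (y, z) ∂(gam m) ∂(gam m) := he
  have e2 : ∀ y, ∫ z, (H (y, z)).toReal ∂(gam m) = (∫⁻ z, H (y, z) ∂(gam m)).toReal := by
    intro y
    rw [integral_toReal]
    · exact (hm.comp (by fun_prop : Measurable (fun z : Fin m → ℝ => (y, z)))).aemeasurable
    · exact Filter.Eventually.of_forall fun z => (hH1 (y, z)).trans_lt ENNReal.one_lt_top
  have e3 : ∫ y, (∫⁻ z, H (y, z) ∂(gam m)).toReal ∂(gam m) =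
      (∫⁻ y, ∫⁻ z, H (y, z) ∂(gam m) ∂(gam m)).toReal := by
    rw [integral_toReal]
    · exact hm.lintegral_prod_right'.aemeasurable
    · refine Filter.Eventually.of_forall fun y => ?_
      calc ∫⁻ z, H (y, z) ∂(gam m) ≤ ∫⁻ _, 1 ∂(gam m) := lintegral_mono fun z => hH1 (y, z)
        _ = 1 := by simp
        _ < ⊤ := ENNReal.one_lt_top
  rw [e1, ← e3]
  simp only [← e2, hHr]
  rw [← integral_const_mul]
  refine integral_congr_ae (Filter.Eventually.of_forall fun y => ?_)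
  simp only
  rw [← integral_const_mul]

end Pool.Agent.SSC3N
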