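import Pool.Agent.SSC3.Main
import Pool.Agent.SSC3N.Kat
import Pool.Agent.SSC3N.StabEq
import Pool.Agent.SSC3N.Circle2
import Pool.Agent.SSC3N.Centroid

set_option autoImplicit false
open MeasureTheory ProbabilityTheory Set Real
open scoped ENNReal

namespace Pool.Agent.SSC3N
open Pool.Agent.SSC3

attribute [local instance] nu_prob gam_prob

/-- the big measure -/
private noncomputable abbrev M1mu (m : ℕ) : Measure ((ℝ × ℝ) × ((Fin m → ℝ) × (Fin m → ℝ))) :=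
  (nu.prod nu).prod ((gam m).prod (gam m))

private theorem M1_dom (C : ℝ) :
    Integrable (fun p : ℝ × ℝ => C * Real.exp ((p.1 ^ 2 + p.2 ^ 2) / 4)) (nu.prod nu) := by
  refine integrable_nu_prod _ (by fun_prop) |C| ?_
  intro u v _ _
  rw [abs_mul, abs_of_pos (Real.exp_pos _)]

private theorem M1_pos : ∀ᵐ p ∂(nu.prod nu), 0 < p.1 ∧ 0 < p.2 := by
  have h1 : ∀ᵐ p ∂(nu.prod nu), 0 < p.1 :=
    (Measure.quasiMeasurePreserving_fst (μ := nu) (ν := nu)).ae nu_pos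
  have h2 : ∀ᵐ p ∂(nu.prod nu), 0 < p.2 :=
    (Measure.quasiMeasurePreserving_snd (μ := nu) (ν := nu)).ae nu_pos
  filter_upwards [h1, h2] with p hp1 hp2 using ⟨hp1, hp2⟩

private theorem M1_pos' (m : ℕ) : ∀ᵐ p ∂(M1mu m), 0 < p.1.1 ∧ 0 < p.1.2 :=
  (Measure.quasiMeasurePreserving_fst (μ := nu.prod nu) (ν := (gam m).prod (gam m))).ae M1_pos

private theorem M1_int {m : ℕ} (F : (ℝ × ℝ) × ((Fin m → ℝ) × (Fin m → ℝ)) → ℝ) (hF : Measurable F)
    (C : ℝ)
    (h : ∀ u v y z, 0 < u → 0 < v → |F ((u, v), (y, z))| ≤ C * Real.exp ((u ^ 2 + v ^ 2) / 4)) :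
    Integrable F (M1mu m) := by
  have h2 : Integrable (fun p : (ℝ × ℝ) × ((Fin m → ℝ) × (Fin m → ℝ)) =>
      C * Real.exp ((p.1.1 ^ 2 + p.1.2 ^ 2) / 4)) (M1mu m) :=
    (M1_dom C).comp_fst _
  refine h2.mono' hF.aestronglyMeasurable ?_
  filter_upwards [M1_pos' m] with p hp
  obtain ⟨⟨u, v⟩, ⟨y, z⟩⟩ := p
  exact h u v y z hp.1 hp.2

/-- order `y z u v` -/
private theorem M1_iter1 {m : ℕ} (F : (ℝ × ℝ) × ((Fin m → ℝ) × (Fin m → ℝ)) → ℝ)
    (hF : Measurable F) (C : ℝ)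
    (h : ∀ u v y z, 0 < u → 0 < v → |F ((u, v), (y, z))| ≤ C * Real.exp ((u ^ 2 + v ^ 2) / 4)) :
    ∫ y, ∫ z, ∫ u, ∫ v, F ((u, v), (y, z)) ∂nu ∂nu ∂(gam m) ∂(gam m) = ∫ p, F p ∂(M1mu m) := by
  have hI := M1_int F hF C h
  rw [integral_prod_symm F hI]
  rw [integral_prod _ hI.integral_prod_right]
  congr 1
  funext y
  congr 1
  funext z
  rw [integral_prod (fun p : ℝ × ℝ => F (p, (y, z)))]
  exact integrable_nu_prod _ (hF.comp (by fun_prop)) C (fun u v hu hv => h u v y z hu hv)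

/-- order `u v y z` -/
private theorem M1_iter2 {m : ℕ} (F : (ℝ × ℝ) × ((Fin m → ℝ) × (Fin m → ℝ)) → ℝ)
    (hF : Measurable F) (C : ℝ)
    (h : ∀ u v y z, 0 < u → 0 < v → |F ((u, v), (y, z))| ≤ C * Real.exp ((u ^ 2 + v ^ 2) / 4)) :
    ∫ u, ∫ v, ∫ y, ∫ z, F ((u, v), (y, z)) ∂(gam m) ∂(gam m) ∂nu ∂nu = ∫ p, F p ∂(M1mu m) := by
  have hI := M1_int F hF C h
  rw [integral_prod F hI]
  rw [integral_prod _ hI.integral_prod_left]
  refine integral_congr_ae ?_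
  filter_upwards [nu_pos] with u hu
  refine integral_congr_ae ?_
  filter_upwards [nu_pos] with v hv
  rw [integral_prod (fun q : (Fin m → ℝ) × (Fin m → ℝ) => F ((u, v), q))]
  refine Integrable.of_bound (C := C * Real.exp ((u ^ 2 + v ^ 2) / 4))
    (hF.comp (by fun_prop)).aestronglyMeasurable ?_
  exact Filter.Eventually.of_forall (fun q => h u v q.1 q.2 hu hv)


/-- the centred profile -/
private noncomputable def M1f {m : ℕ} (τ : ℝ) (A : Set ((Fin 2 → ℝ) × (Fin m → ℝ))) (u : ℝ)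
    (y : Fin m → ℝ) : ℝ := xl τ A u y - 1 / 3

private noncomputable def M1th (u v : ℝ) : ℝ := (1 + Real.exp (-u ^ 2) - Real.exp (-v ^ 2)) / 2

private noncomputable def M1sh {m : ℕ} (τ : ℝ) (y z : Fin m → ℝ) : Fin m → ℝ :=
  (-τ) • y + Real.sqrt (1 - (-τ) ^ 2) • z

private theorem M1th_nonneg (u v : ℝ) : 0 ≤ M1th u v := by
  unfold M1th
  have h1 : 0 < Real.exp (-u ^ 2) := Real.exp_pos _
  have h2 : Real.exp (-v ^ 2) ≤ 1 := by
    rw [Real.exp_le_one_iff]; nlinarith [sq_nonneg v]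
  linarith

private theorem M1th_le (u v : ℝ) : M1th u v ≤ 1 := by
  unfold M1th
  have h1 : 0 < Real.exp (-v ^ 2) := Real.exp_pos _
  have h2 : Real.exp (-u ^ 2) ≤ 1 := by
    rw [Real.exp_le_one_iff]; nlinarith [sq_nonneg u]
  linarith

private theorem M1th_swap (u v : ℝ) : 1 - M1th v u = M1th u v := by
  unfold M1th; ring

private theorem M1f_abs {m : ℕ} (τ : ℝ) (A : Set ((Fin 2 → ℝ) × (Fin m → ℝ))) (u : ℝ)
    (y : Fin m → ℝ) : |M1f τ A u y| ≤ 1 := by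
  unfold M1f
  have h1 := xl_nonneg τ A u y
  have h2 := xl_le τ A u y
  rw [abs_le]; constructor <;> linarith

private theorem M1f_meas {m : ℕ} (τ : ℝ) (A : Set ((Fin 2 → ℝ) × (Fin m → ℝ)))
    (hA : MeasurableSet A) : Measurable (Function.uncurry (M1f τ A)) := by
  have := xl_measurable τ A hA
  exact this.sub_const _

private theorem M1_l (τ : ℝ) (h0 : 0 ≤ τ) (h1 : τ ≤ 1 / 2) {u v : ℝ} (hu : 0 < u) (hv : 0 < v) :
    0 ≤ τ * u * v ∧ τ * u * v ≤ (u ^ 2 + v ^ 2) / 4 := by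
  constructor
  · positivity
  · have : τ * u * v ≤ 1 / 2 * (u * v) := by
      rw [mul_assoc]
      exact mul_le_mul_of_nonneg_right h1 (by positivity)
    nlinarith [sq_nonneg (u - v)]

private theorem M1_cF (τ : ℝ) (h0 : 0 ≤ τ) (h1 : τ ≤ 1 / 2) {u v : ℝ} (hu : 0 < u) (hv : 0 < v) :
    |cF (τ * u * v)| ≤ 1 * Real.exp ((u ^ 2 + v ^ 2) / 4) := by
  obtain ⟨ha, hb⟩ := M1_l τ h0 h1 hu hv
  rw [abs_of_nonneg (cF_nonneg _), one_mul]
  refine (cF_le _ ha).trans (Real.exp_le_exp.mpr ?_)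
  linarith

private theorem M1_vF (τ : ℝ) (h0 : 0 ≤ τ) (h1 : τ ≤ 1 / 2) {u v : ℝ} (hu : 0 < u) (hv : 0 < v) :
    |vF (τ * u * v)| ≤ 1 * Real.exp ((u ^ 2 + v ^ 2) / 4) := by
  obtain ⟨ha, hb⟩ := M1_l τ h0 h1 hu hv
  set l := τ * u * v with hl
  have hv0 : vF l = l * LF l := rfl
  rw [hv0, abs_of_nonneg (mul_nonneg ha (LF_nonneg _)), one_mul]
  have h2 : l ≤ Real.exp (l / 2) := by
    have := Real.quadratic_le_exp_of_nonneg (x := l / 2) (by linarith)
    nlinarith [sq_nonneg (l - 2)]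
  calc l * LF l ≤ Real.exp (l / 2) * Real.exp (l / 2) :=
        mul_le_mul h2 (LF_le l ha) (LF_nonneg l) (Real.exp_pos _).le
    _ = Real.exp l := by rw [← Real.exp_add]; congr 1; ring
    _ ≤ _ := Real.exp_le_exp.mpr hb

private theorem M1_W (τ : ℝ) (h0 : 0 ≤ τ) (h1 : τ ≤ 1 / 2) {u v : ℝ} (hu : 0 < u) (hv : 0 < v) :
    |3 * W (τ * u * v) (2 * π / 3) / (2 * π) ^ 2| ≤ 3 * Real.exp ((u ^ 2 + v ^ 2) / 4) := by
  obtain ⟨ha, hb⟩ := M1_l τ h0 h1 hu hv
  set l := τ * u * v with hl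
  have hp := Real.pi_pos
  have hW : W l (2 * π / 3) ≤ (2 * π) ^ 2 * Real.exp l := by
    unfold W
    have h3 : (∫ u in (0:ℝ)..(2 * π / 3), (2 * π / 3 - u) * ker l u) ≤
        ∫ u in (0:ℝ)..(2 * π / 3), (2 * π / 3) * Real.exp l := by
      apply intervalIntegral.integral_mono_on (by positivity)
      · apply Continuous.intervalIntegrable
        exact (continuous_const.sub continuous_id).mul (continuous_ker l)
      · apply Continuous.intervalIntegrable; exact continuous_const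
      · intro x hx
        apply mul_le_mul
        · linarith [hx.1]
        · unfold ker
          apply Real.exp_le_exp.mpr
          nlinarith [Real.neg_one_le_cos x]
        · unfold ker; exact (Real.exp_pos _).le
        · positivity
    rw [intervalIntegral.integral_const] at h3
    simp only [smul_eq_mul, sub_zero] at h3
    have h4 : 0 < Real.exp l := Real.exp_pos _
    nlinarith [mul_pos (mul_pos hp hp) h4]
  rw [abs_of_nonneg (by have := W_nonneg l (x := 2 * π / 3) (by positivity); positivity)]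
  rw [div_le_iff₀ (by positivity)]
  have h5 : Real.exp l ≤ Real.exp ((u ^ 2 + v ^ 2) / 4) := Real.exp_le_exp.mpr hb
  have h6 : (2 * π) ^ 2 * Real.exp l ≤ (2 * π) ^ 2 * Real.exp ((u ^ 2 + v ^ 2) / 4) :=
    mul_le_mul_of_nonneg_left h5 (by positivity)
  nlinarith

private theorem M1sh_meas {m : ℕ} (τ : ℝ) :
    Measurable (fun p : (ℝ × ℝ) × ((Fin m → ℝ) × (Fin m → ℝ)) => M1sh τ p.2.1 p.2.2) := by
  unfold M1sh
  fun_prop

private theorem vF_continuous : Continuous vF := by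
  unfold vF
  exact continuous_id.mul continuous_LF

theorem stab_lower {m : ℕ} (τ : ℝ) (h0 : 0 ≤ τ) (h1 : τ ≤ 1 / 2)
    (A : Fin 3 → Set ((Fin 2 → ℝ) × (Fin m → ℝ)))
    (hAm : ∀ i, MeasurableSet (A i)) (hA : ∀ p, ∃! i, p ∈ A i)
    (hc : ∀ i j, ∫ p, (A i).indicator (fun p : (Fin 2 → ℝ) × (Fin m → ℝ) => p.2 j) p
      ∂(g2.prod (gam m)) = 0) :
    (1 - τ ^ 2) * (∫ u, ∫ v, 3 * W (τ * u * v) (2 * π / 3) / (2 * π) ^ 2 ∂nu ∂nu) ≤
      ∑ i, (stab (-τ) (A i) (A i)).toReal := by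
  -- the five functions
  let Fw : (ℝ × ℝ) × ((Fin m → ℝ) × (Fin m → ℝ)) → ℝ := fun p =>
    3 * W (τ * p.1.1 * p.1.2) (2 * π / 3) / (2 * π) ^ 2
  let Fe : Fin 3 → (ℝ × ℝ) × ((Fin m → ℝ) × (Fin m → ℝ)) → ℝ := fun i p =>
    ee τ (A i) (A i) p.1.1 p.1.2 p.2.1 (M1sh τ p.2.1 p.2.2)
  let Fc : Fin 3 → (ℝ × ℝ) × ((Fin m → ℝ) × (Fin m → ℝ)) → ℝ := fun i p =>
    cF (τ * p.1.1 * p.1.2) * (M1f τ (A i) p.1.1 p.2.1 * M1f τ (A i) p.1.2 (M1sh τ p.2.1 p.2.2))
  let Fa : Fin 3 → (ℝ × ℝ) × ((Fin m → ℝ) × (Fin m → ℝ)) → ℝ := fun i p =>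
    vF (τ * p.1.1 * p.1.2) * (M1th p.1.1 p.1.2 * (M1f τ (A i) p.1.1 p.2.1) ^ 2)
  let Fb : Fin 3 → (ℝ × ℝ) × ((Fin m → ℝ) × (Fin m → ℝ)) → ℝ := fun i p =>
    vF (τ * p.1.1 * p.1.2) * ((1 - M1th p.1.1 p.1.2) *
      (M1f τ (A i) p.1.2 (M1sh τ p.2.1 p.2.2)) ^ 2)
  have hthm : Measurable (fun p : (ℝ × ℝ) × ((Fin m → ℝ) × (Fin m → ℝ)) => M1th p.1.1 p.1.2) := by
    unfold M1th; fun_prop
  have hlm : Measurable (fun p : (ℝ × ℝ) × ((Fin m → ℝ) × (Fin m → ℝ)) => τ * p.1.1 * p.1.2) := by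
    fun_prop
  have hcm : Measurable (fun p : (ℝ × ℝ) × ((Fin m → ℝ) × (Fin m → ℝ)) =>
      cF (τ * p.1.1 * p.1.2)) := continuous_cF.measurable.comp hlm
  have hvm : Measurable (fun p : (ℝ × ℝ) × ((Fin m → ℝ) × (Fin m → ℝ)) =>
      vF (τ * p.1.1 * p.1.2)) := vF_continuous.measurable.comp hlm
  have hf1m : ∀ i, Measurable (fun p : (ℝ × ℝ) × ((Fin m → ℝ) × (Fin m → ℝ)) =>
      M1f τ (A i) p.1.1 p.2.1) := fun i =>
    (M1f_meas τ (A i) (hAm i)).comp (f := fun p : (ℝ × ℝ) × ((Fin m → ℝ) × (Fin m → ℝ)) =>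
      (p.1.1, p.2.1)) (by fun_prop)
  have hf2m : ∀ i, Measurable (fun p : (ℝ × ℝ) × ((Fin m → ℝ) × (Fin m → ℝ)) =>
      M1f τ (A i) p.1.2 (M1sh τ p.2.1 p.2.2)) := fun i =>
    (M1f_meas τ (A i) (hAm i)).comp (f := fun p : (ℝ × ℝ) × ((Fin m → ℝ) × (Fin m → ℝ)) =>
      (p.1.2, M1sh τ p.2.1 p.2.2)) ((by fun_prop : Measurable (fun p : (ℝ × ℝ) × ((Fin m → ℝ) × (Fin m → ℝ)) => p.1.2)).prodMk (M1sh_meas τ))
  have hFwm : Measurable Fw := by
    have : Measurable (fun p : (ℝ × ℝ) × ((Fin m → ℝ) × (Fin m → ℝ)) =>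
      W (τ * p.1.1 * p.1.2) (2 * π / 3)) := (continuous_W (2 * π / 3)).measurable.comp hlm
    exact (this.const_mul 3).div_const _
  have hFem : ∀ i, Measurable (Fe i) := fun i =>
    (ee_measurable τ (A i) (A i) (hAm i) (hAm i)).comp
      (f := fun p : (ℝ × ℝ) × ((Fin m → ℝ) × (Fin m → ℝ)) => (p.1, (p.2.1, M1sh τ p.2.1 p.2.2)))
      (measurable_fst.prodMk ((by fun_prop : Measurable (fun p : (ℝ × ℝ) × ((Fin m → ℝ) × (Fin m → ℝ)) => p.2.1)).prodMk (M1sh_meas τ)))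
  have hFcm : ∀ i, Measurable (Fc i) := fun i => hcm.mul ((hf1m i).mul (hf2m i))
  have hFam : ∀ i, Measurable (Fa i) := fun i => hvm.mul (hthm.mul ((hf1m i).pow_const 2))
  have hFbm : ∀ i, Measurable (Fb i) := fun i =>
    hvm.mul ((measurable_const.sub hthm).mul ((hf2m i).pow_const 2))
  have hsq : ∀ (B : Set ((Fin 2 → ℝ) × (Fin m → ℝ))) (u : ℝ) (y : Fin m → ℝ),
      |(M1f τ B u y) ^ 2| ≤ 1 := by
    intro B u y
    rw [abs_pow]
    exact pow_le_one₀ (abs_nonneg _) (M1f_abs _ _ _ _)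
  have hFwb : ∀ u v y z, 0 < u → 0 < v → |Fw ((u, v), (y, z))| ≤
      3 * Real.exp ((u ^ 2 + v ^ 2) / 4) := fun u v y z hu hv => M1_W τ h0 h1 hu hv
  have hFeb : ∀ i, ∀ u v y z, 0 < u → 0 < v → |Fe i ((u, v), (y, z))| ≤
      1 * Real.exp ((u ^ 2 + v ^ 2) / 4) := by
    intro i u v y z hu hv
    obtain ⟨ha, hb⟩ := M1_l τ h0 h1 hu hv
    simp only [Fe]
    rw [abs_of_nonneg (ee_nonneg _ _ _ _ _ _ _), one_mul]
    exact (ee_le τ (A i) (A i) u v ha _ _).trans (Real.exp_le_exp.mpr hb)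
  have hFcb : ∀ i, ∀ u v y z, 0 < u → 0 < v → |Fc i ((u, v), (y, z))| ≤
      1 * Real.exp ((u ^ 2 + v ^ 2) / 4) := by
    intro i u v y z hu hv
    simp only [Fc]
    rw [abs_mul, abs_mul]
    calc |cF (τ * u * v)| * (|M1f τ (A i) u y| * |M1f τ (A i) v (M1sh τ y z)|)
        ≤ (1 * Real.exp ((u ^ 2 + v ^ 2) / 4)) * (1 * 1) := by
          apply mul_le_mul (M1_cF τ h0 h1 hu hv) _ (by positivity) (by positivity)
          exact mul_le_mul (M1f_abs _ _ _ _) (M1f_abs _ _ _ _) (abs_nonneg _) zero_le_one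
      _ = _ := by ring
  have hFab : ∀ i, ∀ u v y z, 0 < u → 0 < v → |Fa i ((u, v), (y, z))| ≤
      1 * Real.exp ((u ^ 2 + v ^ 2) / 4) := by
    intro i u v y z hu hv
    simp only [Fa]
    rw [abs_mul, abs_mul]
    calc |vF (τ * u * v)| * (|M1th u v| * |M1f τ (A i) u y ^ 2|)
        ≤ (1 * Real.exp ((u ^ 2 + v ^ 2) / 4)) * (1 * 1) := by
          apply mul_le_mul (M1_vF τ h0 h1 hu hv) _ (by positivity) (by positivity)
          refine mul_le_mul ?_ (hsq _ _ _) (abs_nonneg _) zero_le_one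
          rw [abs_of_nonneg (M1th_nonneg _ _)]; exact M1th_le _ _
      _ = _ := by ring
  have hFbb : ∀ i, ∀ u v y z, 0 < u → 0 < v → |Fb i ((u, v), (y, z))| ≤
      1 * Real.exp ((u ^ 2 + v ^ 2) / 4) := by
    intro i u v y z hu hv
    simp only [Fb]
    rw [abs_mul, abs_mul]
    calc |vF (τ * u * v)| * (|1 - M1th u v| * |M1f τ (A i) v (M1sh τ y z) ^ 2|)
        ≤ (1 * Real.exp ((u ^ 2 + v ^ 2) / 4)) * (1 * 1) := by
          apply mul_le_mul (M1_vF τ h0 h1 hu hv) _ (by positivity) (by positivity)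
          refine mul_le_mul ?_ (hsq _ _ _) (abs_nonneg _) zero_le_one
          rw [M1th_swap v u, abs_of_nonneg (M1th_nonneg _ _)]
          exact M1th_le _ _
      _ = _ := by ring
  -- pointwise inequality
  have hpt : ∀ᵐ p ∂(M1mu m), Fw p + (∑ i, Fc i p + (∑ i, Fa i p + ∑ i, Fb i p)) ≤ ∑ i, Fe i p := by
    filter_upwards [M1_pos' m] with p hp
    obtain ⟨⟨u, v⟩, ⟨y, z⟩⟩ := p
    obtain ⟨hu, hv⟩ := hp
    simp only at hu hv
    obtain ⟨ha, hb⟩ := M1_l τ h0 h1 hu hv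
    have hyS : ∀ (y : Fin m → ℝ) (i : Fin 3), MeasurableSet (ySl (A i) y) := by
      intro y i
      exact (measurable_prodMk_right (y := y)) (hAm i)
    have hyP : ∀ (y : Fin m → ℝ) (x : Fin 2 → ℝ), ∃! i, x ∈ ySl (A i) y := fun y x => hA (x, y)
    have key := circle2 (τ * u * v) ha (M1th u v) (M1th_nonneg _ _) (M1th_le _ _)
      (fun i => slice (ySl (A i) y) (Real.sqrt (1 - τ ^ 2) * u))
      (fun i => slice (ySl (A i) (M1sh τ y z)) (Real.sqrt (1 - τ ^ 2) * v))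
      (fun i => slice_measurable _ (hyS _ i) _) (fun i => slice_measurable _ (hyS _ i) _)
      (fun i => slice_per _ _) (fun i => slice_per _ _)
      (len_sum _ (hyS _) (hyP _) _) (len_sum _ (hyS _) (hyP _) _)
    have e1 : ∑ i, Fc i ((u, v), (y, z)) = cF (τ * u * v) *
        ∑ i, (len (slice (ySl (A i) y) (Real.sqrt (1 - τ ^ 2) * u)) / (2 * π) - 1 / 3) *
          (len (slice (ySl (A i) (M1sh τ y z)) (Real.sqrt (1 - τ ^ 2) * v)) / (2 * π) - 1 / 3) := by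
      rw [Finset.mul_sum]; rfl
    have e2 : ∑ i, Fa i ((u, v), (y, z)) = vF (τ * u * v) * (M1th u v *
        ∑ i, (len (slice (ySl (A i) y) (Real.sqrt (1 - τ ^ 2) * u)) / (2 * π) - 1 / 3) ^ 2) := by
      rw [Finset.mul_sum, Finset.mul_sum]; rfl
    have e3 : ∑ i, Fb i ((u, v), (y, z)) = vF (τ * u * v) * ((1 - M1th u v) *
        ∑ i, (len (slice (ySl (A i) (M1sh τ y z)) (Real.sqrt (1 - τ ^ 2) * v)) / (2 * π)
          - 1 / 3) ^ 2) := by
      rw [Finset.mul_sum, Finset.mul_sum]; rfl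
    have e4 : ∑ i, Fe i ((u, v), (y, z)) = ∑ i, (E2 (τ * u * v)
        (slice (ySl (A i) y) (Real.sqrt (1 - τ ^ 2) * u))
        (slice (ySl (A i) (M1sh τ y z)) (Real.sqrt (1 - τ ^ 2) * v))).toReal / (2 * π) ^ 2 := rfl
    rw [e1, e2, e3, e4, ← mul_add]
    exact key
  have iw := M1_int Fw hFwm 3 hFwb
  have ie := fun i => M1_int (Fe i) (hFem i) 1 (hFeb i)
  have ic := fun i => M1_int (Fc i) (hFcm i) 1 (hFcb i)
  have ia := fun i => M1_int (Fa i) (hFam i) 1 (hFab i)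
  have ib := fun i => M1_int (Fb i) (hFbm i) 1 (hFbb i)
  have hint : ∫ p, Fw p ∂(M1mu m) + (∑ i, ∫ p, Fc i p ∂(M1mu m) +
      (∑ i, ∫ p, Fa i p ∂(M1mu m) + ∑ i, ∫ p, Fb i p ∂(M1mu m))) ≤ ∑ i, ∫ p, Fe i p ∂(M1mu m) := by
    have hm := integral_mono_ae
      (f := fun p => Fw p + (∑ i, Fc i p + (∑ i, Fa i p + ∑ i, Fb i p)))
      (g := fun p => ∑ i, Fe i p)
      (iw.add ((integrable_finsetSum _ (fun i _ => ic i)).add
        ((integrable_finsetSum _ (fun i _ => ia i)).add (integrable_finsetSum _ (fun i _ => ib i)))))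
      (integrable_finsetSum _ (fun i _ => ie i)) hpt
    rw [integral_add (f := Fw) (g := fun p => ∑ i, Fc i p + (∑ i, Fa i p + ∑ i, Fb i p)) iw
        ((integrable_finsetSum _ (fun i _ => ic i)).add
        ((integrable_finsetSum _ (fun i _ => ia i)).add (integrable_finsetSum _ (fun i _ => ib i)))),
      integral_add (f := fun p => ∑ i, Fc i p) (g := fun p => ∑ i, Fa i p + ∑ i, Fb i p)
        (integrable_finsetSum _ (fun i _ => ic i))
        ((integrable_finsetSum _ (fun i _ => ia i)).add (integrable_finsetSum _ (fun i _ => ib i))),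
      integral_add (f := fun p => ∑ i, Fa i p) (g := fun p => ∑ i, Fb i p)
        (integrable_finsetSum _ (fun i _ => ia i)) (integrable_finsetSum _ (fun i _ => ib i)),
      integral_finsetSum _ (fun i _ => ic i), integral_finsetSum _ (fun i _ => ia i),
      integral_finsetSum _ (fun i _ => ib i), integral_finsetSum _ (fun i _ => ie i)] at hm
    exact hm
  -- identify the integrals
  have sw : ∫ p, Fw p ∂(M1mu m) =
      ∫ u, ∫ v, 3 * W (τ * u * v) (2 * π / 3) / (2 * π) ^ 2 ∂nu ∂nu := by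
    rw [← M1_iter2 Fw hFwm 3 hFwb]
    simp [Fw]
  have se : ∀ i, (stab (-τ) (A i) (A i)).toReal = (1 - τ ^ 2) * ∫ p, Fe i p ∂(M1mu m) := by
    intro i
    rw [stab_eq τ h0 h1 (A i) (A i) (hAm i) (hAm i), ← M1_iter1 (Fe i) (hFem i) 1 (hFeb i)]
    rfl
  have sc : ∀ i, ∫ p, Fc i p ∂(M1mu m) =
      ∫ u, ∫ v, cF (τ * u * v) * GG (-τ) (M1f τ (A i) u) (M1f τ (A i) v) ∂nu ∂nu := by
    intro i
    rw [← M1_iter2 (Fc i) (hFcm i) 1 (hFcb i)]
    congr 1; funext u; congr 1; funext v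
    unfold GG
    rw [← integral_const_mul]
    congr 1; funext y
    rw [← integral_const_mul]
    rfl
  let N : Fin 3 → ℝ → ℝ := fun i u => ∫ y, (M1f τ (A i) u y) ^ 2 ∂(gam m)
  have sa : ∀ i, ∫ p, Fa i p ∂(M1mu m) =
      ∫ u, ∫ v, vF (τ * u * v) * (M1th u v * N i u) ∂nu ∂nu := by
    intro i
    rw [← M1_iter2 (Fa i) (hFam i) 1 (hFab i)]
    congr 1; funext u; congr 1; funext v
    simp only [Fa, N]
    rw [← integral_const_mul, ← integral_const_mul]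
    congr 1; funext y
    simp
  have sN : ∀ i v, ∫ y, ∫ z, (M1f τ (A i) v (M1sh τ y z)) ^ 2 ∂(gam m) ∂(gam m) = N i v := by
    intro i v
    have hmp := gam_ou m (-τ) (by linarith) (by linarith)
    have hmf : Measurable (fun y => (M1f τ (A i) v y) ^ 2) :=
      ((M1f_meas τ (A i) (hAm i)).comp (f := fun y => (v, y)) (by fun_prop)).pow_const 2
    have hI : Integrable (fun y => (M1f τ (A i) v y) ^ 2) (gam m) :=
      Integrable.of_bound hmf.aestronglyMeasurable (C := 1)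
        (Filter.Eventually.of_forall (fun y => hsq _ _ _))
    have hI2 : Integrable (fun q : (Fin m → ℝ) × (Fin m → ℝ) =>
        (M1f τ (A i) v (M1sh τ q.1 q.2)) ^ 2) ((gam m).prod (gam m)) :=
      hmp.integrable_comp_of_integrable hI
    have h3 := integral_prod _ hI2
    rw [← h3]
    have h4 := integral_map (μ := (gam m).prod (gam m)) (φ := fun p : (Fin m → ℝ) × (Fin m → ℝ) =>
      (-τ) • p.1 + Real.sqrt (1 - (-τ) ^ 2) • p.2) hmp.measurable.aemeasurable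
      (f := fun y => (M1f τ (A i) v y) ^ 2) (by rw [hmp.map_eq]; exact hmf.aestronglyMeasurable)
    rw [hmp.map_eq] at h4
    exact h4.symm
  have sb : ∀ i, ∫ p, Fb i p ∂(M1mu m) =
      ∫ u, ∫ v, vF (τ * u * v) * ((1 - M1th u v) * N i v) ∂nu ∂nu := by
    intro i
    rw [← M1_iter2 (Fb i) (hFbm i) 1 (hFbb i)]
    congr 1; funext u; congr 1; funext v
    simp only [Fb]
    rw [← sN i v, ← integral_const_mul, ← integral_const_mul]
    congr 1; funext y
    rw [← integral_const_mul, ← integral_const_mul]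
  have hNm : ∀ i, Measurable (N i) := by
    intro i
    have h5 : Measurable (Function.uncurry (fun u y => (M1f τ (A i) u y) ^ 2)) :=
      (M1f_meas τ (A i) (hAm i)).pow_const 2
    exact (h5.stronglyMeasurable.integral_prod_right' (ν := gam m)).measurable
  have hNb : ∀ i u, |N i u| ≤ 1 := by
    intro i u
    have h6 : ‖∫ y, (M1f τ (A i) u y) ^ 2 ∂(gam m)‖ ≤ 1 * (gam m).real Set.univ :=
      norm_integral_le_of_norm_le_const (Filter.Eventually.of_forall (fun y => hsq _ _ _))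
    simpa using h6
  have sb2 : ∀ i, ∫ u, ∫ v, vF (τ * u * v) * ((1 - M1th u v) * N i v) ∂nu ∂nu =
      ∫ u, ∫ v, vF (τ * u * v) * (M1th u v * N i u) ∂nu ∂nu := by
    intro i
    rw [integral_integral_swap]
    · congr 1; funext u; congr 1; funext v
      rw [M1th_swap, show τ * v * u = τ * u * v by ring]
    · refine integrable_nu_prod _ ?_ 1 ?_
      · have g1 : Measurable (fun p : ℝ × ℝ => vF (τ * p.1 * p.2)) :=
          vF_continuous.measurable.comp (by fun_prop)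
        have g2 : Measurable (fun p : ℝ × ℝ => 1 - M1th p.1 p.2) := by unfold M1th; fun_prop
        exact g1.mul (g2.mul ((hNm i).comp measurable_snd))
      · intro u v hu hv
        simp only [Function.uncurry_apply_pair]
        rw [abs_mul, abs_mul]
        calc |vF (τ * u * v)| * (|1 - M1th u v| * |N i v|)
            ≤ (1 * Real.exp ((u ^ 2 + v ^ 2) / 4)) * (1 * 1) := by
              apply mul_le_mul (M1_vF τ h0 h1 hu hv) _ (by positivity) (by positivity)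
              refine mul_le_mul ?_ (hNb _ _) (abs_nonneg _) zero_le_one
              rw [M1th_swap v u, abs_of_nonneg (M1th_nonneg _ _)]
              exact M1th_le _ _
          _ = _ := by ring
  have sab : ∀ i, ∫ p, Fa i p ∂(M1mu m) + ∫ p, Fb i p ∂(M1mu m) =
      ∫ u, DD τ u * (∫ y, (M1f τ (A i) u y) ^ 2 ∂(gam m)) ∂nu := by
    intro i
    rw [sb, sb2, sa, ← two_mul, ← integral_const_mul]
    congr 1; funext u
    unfold DD
    rw [← integral_const_mul, ← integral_mul_const]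
    congr 1; funext v
    simp only [N]
    unfold M1th
    ring
  have hkat : ∀ i, 0 ≤ ∫ p, Fc i p ∂(M1mu m) + (∫ p, Fa i p ∂(M1mu m) + ∫ p, Fb i p ∂(M1mu m)) := by
    intro i
    rw [sab, sc]
    refine KAT τ h0 h1 (M1f τ (A i)) (M1f_meas τ (A i) (hAm i)) (M1f_abs τ (A i)) ?_
    intro j
    exact centroid τ h0 h1 (A i) (hAm i) j (hc i j)
  have hsum : 0 ≤ ∑ i, ∫ p, Fc i p ∂(M1mu m) +
      (∑ i, ∫ p, Fa i p ∂(M1mu m) + ∑ i, ∫ p, Fb i p ∂(M1mu m)) := by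
    rw [← Finset.sum_add_distrib, ← Finset.sum_add_distrib]
    exact Finset.sum_nonneg (fun i _ => hkat i)
  simp_rw [se]
  rw [← Finset.mul_sum, ← sw]
  have ht : 0 ≤ 1 - τ ^ 2 := by nlinarith
  exact mul_le_mul_of_nonneg_left (by linarith) ht

end Pool.Agent.SSC3N
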