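import Pool.Agent.SSC3.Simplex

set_option autoImplicit false
open MeasureTheory ProbabilityTheory Set Real
open scoped ENNReal

namespace Pool.Agent.SSC3N
open Pool.Agent.SSC3

/-- two planar simplex partitions with the same directions -/
theorem simplex2 (l : ℝ) (B B' : Fin 3 → Set (Fin 2 → ℝ)) (a : Fin 3 → Fin 2 → ℝ)
    (ha : ∀ i, ∑ k, a i k * a i k = 1)
    (hab : ∀ i j, i ≠ j → ∑ k, a i k * a j k = -1 / ((3 : ℝ) - 1))
    (hBm : ∀ i, MeasurableSet (B i)) (hB : ∀ x : Fin 2 → ℝ, ∃! i, x ∈ B i)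
    (hBs : ∀ i, {x : Fin 2 → ℝ | ∀ j, j ≠ i → ∑ k, a j k * x k < ∑ k, a i k * x k} ⊆ B i)
    (hBm' : ∀ i, MeasurableSet (B' i)) (hB' : ∀ x : Fin 2 → ℝ, ∃! i, x ∈ B' i)
    (hBs' : ∀ i, {x : Fin 2 → ℝ | ∀ j, j ≠ i → ∑ k, a j k * x k < ∑ k, a i k * x k} ⊆ B' i)
    (r s : ℝ) (hr : 0 < r) (hs : 0 < s) :
    ∑ i, E2 l (slice (B i) r) (slice (B' i) s) ≤ ENNReal.ofReal (3 * W l (2 * π / 3)) := by
  have h1 : ∀ i ∈ (Finset.univ : Finset (Fin 3)),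
      E2 l (slice (B i) r) (slice (B' i) s) ≤ ENNReal.ofReal (W l (2 * π / 3)) := by
    intro i _
    obtain ⟨ψ, h0, h1⟩ := exists_angle (a i) (ha i)
    exact E2_le l ψ _ _ (slice_subset B a ha hab hB hBs i ψ h0 h1 r hr)
      (slice_subset B' a ha hab hB' hBs' i ψ h0 h1 s hs)
  refine (Finset.sum_le_sum h1).trans ?_
  rw [Finset.sum_const, Finset.card_univ, Fintype.card_fin, nsmul_eq_mul,
    ENNReal.ofReal_mul (by norm_num)]
  simp

end Pool.Agent.SSC3N
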