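import Pool.Agent.SSC3N.Meas
import Pool.Agent.SSC3.Circle
import Pool.Agent.SSC3N.StabEq
import Pool.Agent.SSC3N.NuBasic
import Pool.Agent.SSC3N.Simplex2

set_option autoImplicit false
open MeasureTheory ProbabilityTheory Set Real
open scoped ENNReal

namespace Pool.Agent.SSC3N
open Pool.Agent.SSC3

private theorem stabSimplex_W (l : ℝ) (hl : 0 ≤ l) :
    |3 * W l (2 * π / 3) / (2 * π) ^ 2| ≤ Real.exp l := by
  have hpi := Real.pi_pos
  have h1 : |W l (2 * π / 3)| ≤ 2 * ((2 * π / 3) * Real.exp l * (2 * π / 3)) := by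
    unfold W
    rw [abs_mul, abs_of_pos (by norm_num : (0:ℝ) < 2)]
    refine mul_le_mul_of_nonneg_left ?_ (by norm_num)
    have h2 := intervalIntegral.norm_integral_le_of_norm_le_const (a := 0) (b := 2 * π / 3)
      (f := fun u => (2 * π / 3 - u) * ker l u) (C := (2 * π / 3) * Real.exp l) (by
        intro x hx
        rw [uIoc_of_le (by positivity)] at hx
        rw [norm_mul, Real.norm_eq_abs, Real.norm_eq_abs, abs_of_nonneg (by linarith [hx.2]),
          abs_of_pos (ker_pos l x)]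
        refine mul_le_mul (by linarith [hx.1]) ?_ (ker_pos l x).le (by positivity)
        unfold ker
        apply Real.exp_le_exp.2
        nlinarith [Real.neg_one_le_cos x])
    rwa [sub_zero, abs_of_pos (by positivity : (0:ℝ) < 2 * π / 3)] at h2
  have h3 : |3 * W l (2 * π / 3) / (2 * π) ^ 2| = 3 * |W l (2 * π / 3)| / (2 * π) ^ 2 := by
    rw [abs_div, abs_mul, abs_of_pos (by norm_num : (0:ℝ) < 3), abs_of_pos (by positivity :
      (0:ℝ) < (2 * π) ^ 2)]
  rw [h3, div_le_iff₀ (by positivity)]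
  have he : 0 ≤ Real.exp l := (Real.exp_pos l).le
  nlinarith [mul_nonneg he (sq_nonneg π)]

private theorem stabSimplex_exp (τ u v : ℝ) (h0 : 0 ≤ τ) (h1 : τ ≤ 1 / 2) (hu : 0 < u)
    (hv : 0 < v) : Real.exp (τ * u * v) ≤ Real.exp ((u ^ 2 + v ^ 2) / 4) := by
  apply Real.exp_le_exp.2
  have huv : 0 < u * v := mul_pos hu hv
  nlinarith [sq_nonneg (u - v)]

private theorem stabSimplex_pt {m : ℕ} (τ : ℝ) (h0 : 0 ≤ τ) (h1 : τ ≤ 1 / 2)
    (B : Fin 3 → Set ((Fin 2 → ℝ) × (Fin m → ℝ))) (a : Fin 3 → Fin 2 → ℝ)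
    (ha : ∀ i, ∑ k, a i k * a i k = 1)
    (hab : ∀ i j, i ≠ j → ∑ k, a i k * a j k = -1 / ((3 : ℝ) - 1))
    (hBm : ∀ i, MeasurableSet (B i)) (hB : ∀ p, ∃! i, p ∈ B i)
    (hBs : ∀ i, {p : (Fin 2 → ℝ) × (Fin m → ℝ) |
      ∀ j, j ≠ i → ∑ k, a j k * p.1 k < ∑ k, a i k * p.1 k} ⊆ B i)
    (u v : ℝ) (hu : 0 < u) (hv : 0 < v) (y y' : Fin m → ℝ) :
    ∑ i, ee τ (B i) (B i) u v y y' ≤ 3 * W (τ * u * v) (2 * π / 3) / (2 * π) ^ 2 := by
  have hs : 0 < Real.sqrt (1 - τ ^ 2) := Real.sqrt_pos.2 (by nlinarith)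
  have hm : ∀ i (y : Fin m → ℝ), MeasurableSet (ySl (B i) y) := fun i y =>
    (measurable_id.prodMk measurable_const : Measurable fun x : Fin 2 → ℝ => (x, y)) (hBm i)
  have h := simplex2 (τ * u * v) (fun i => ySl (B i) y) (fun i => ySl (B i) y') a ha hab
    (fun i => hm i y) (fun x => hB (x, y)) (fun i x hx => hBs i (show (x, y) ∈ _ from hx))
    (fun i => hm i y') (fun x => hB (x, y')) (fun i x hx => hBs i (show (x, y') ∈ _ from hx))
    (Real.sqrt (1 - τ ^ 2) * u) (Real.sqrt (1 - τ ^ 2) * v) (mul_pos hs hu) (mul_pos hs hv)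
  have hW : 0 ≤ 3 * W (τ * u * v) (2 * π / 3) :=
    mul_nonneg (by norm_num) (W_nonneg _ (by positivity))
  have hne : ∀ i ∈ Finset.univ, E2 (τ * u * v) (slice (ySl (B i) y) (Real.sqrt (1 - τ ^ 2) * u))
      (slice (ySl (B i) y') (Real.sqrt (1 - τ ^ 2) * v)) ≠ ∞ := by
    intro i hi
    refine ne_top_of_le_ne_top ENNReal.ofReal_ne_top (le_trans ?_ h)
    exact Finset.single_le_sum (f := fun i => E2 (τ * u * v)
      (slice (ySl (B i) y) (Real.sqrt (1 - τ ^ 2) * u))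
      (slice (ySl (B i) y') (Real.sqrt (1 - τ ^ 2) * v))) (fun _ _ => zero_le) hi
  unfold ee
  rw [← Finset.sum_div, ← ENNReal.toReal_sum hne]
  refine div_le_div_of_nonneg_right ?_ (by positivity)
  exact ENNReal.toReal_le_of_le_ofReal hW h

/-! ## [S2] uses stab_eq, simplex2 -/
theorem stab_simplex {m : ℕ} (τ : ℝ) (h0 : 0 ≤ τ) (h1 : τ ≤ 1 / 2)
    (B : Fin 3 → Set ((Fin 2 → ℝ) × (Fin m → ℝ))) (a : Fin 3 → Fin 2 → ℝ)
    (ha : ∀ i, ∑ k, a i k * a i k = 1)
    (hab : ∀ i j, i ≠ j → ∑ k, a i k * a j k = -1 / ((3 : ℝ) - 1))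
    (hBm : ∀ i, MeasurableSet (B i)) (hB : ∀ p, ∃! i, p ∈ B i)
    (hBs : ∀ i, {p : (Fin 2 → ℝ) × (Fin m → ℝ) |
      ∀ j, j ≠ i → ∑ k, a j k * p.1 k < ∑ k, a i k * p.1 k} ⊆ B i) :
    ∑ i, (stab (-τ) (B i) (B i)).toReal ≤
      (1 - τ ^ 2) * ∫ u, ∫ v, 3 * W (τ * u * v) (2 * π / 3) / (2 * π) ^ 2 ∂nu ∂nu := by
  have := nu_prob
  have := gam_prob m
  set R : ℝ × ℝ → ℝ := fun p => 3 * W (τ * p.1 * p.2) (2 * π / 3) / (2 * π) ^ 2 with hR
  have hRm : Measurable R := by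
    have h2 : Continuous R := by
      have h3 := (continuous_W (2 * π / 3)).comp
        (show Continuous (fun p : ℝ × ℝ => τ * p.1 * p.2) by fun_prop)
      exact (continuous_const.mul h3).div_const _
    exact h2.measurable
  have hRi : Integrable R (nu.prod nu) := by
    refine integrable_nu_prod R hRm 1 fun u v hu hv => ?_
    rw [one_mul]
    exact (stabSimplex_W _ (by positivity)).trans (stabSimplex_exp τ u v h0 h1 hu hv)
  have hC : ∫ u, ∫ v, 3 * W (τ * u * v) (2 * π / 3) / (2 * π) ^ 2 ∂nu ∂nu =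
      ∫ p, R p ∂(nu.prod nu) := (integral_prod R hRi).symm
  have hpos : ∀ᵐ p ∂(nu.prod nu), 0 < p.1 ∧ 0 < p.2 := by
    filter_upwards [Measure.quasiMeasurePreserving_fst.ae nu_pos,
      Measure.quasiMeasurePreserving_snd.ae nu_pos] with p hp1 hp2 using ⟨hp1, hp2⟩
  set e : Fin 3 → ((Fin m → ℝ) × (Fin m → ℝ)) → ℝ × ℝ → ℝ := fun i q p =>
    ee τ (B i) (B i) p.1 p.2 q.1 ((-τ) • q.1 + Real.sqrt (1 - (-τ) ^ 2) • q.2) with he
  have he_meas : ∀ i, Measurable (Function.uncurry (e i)) := by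
    intro i
    have h2 := ee_measurable τ (B i) (B i) (hBm i) (hBm i)
    have h4 : Measurable (fun q : (Fin m → ℝ) × (Fin m → ℝ) =>
        (-τ) • q.1 + Real.sqrt (1 - (-τ) ^ 2) • q.2) :=
      (measurable_fst.const_smul (-τ)).add (measurable_snd.const_smul (Real.sqrt (1 - (-τ) ^ 2)))
    have h3 : Measurable (fun z : ((Fin m → ℝ) × (Fin m → ℝ)) × (ℝ × ℝ) =>
        ((z.2, (z.1.1, (-τ) • z.1.1 + Real.sqrt (1 - (-τ) ^ 2) • z.1.2)) :
          (ℝ × ℝ) × ((Fin m → ℝ) × (Fin m → ℝ)))) :=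
      measurable_snd.prodMk ((measurable_fst.comp measurable_fst).prodMk (h4.comp measurable_fst))
    have h5 := h2.comp h3
    exact h5
  have hKi : Integrable (fun p : ℝ × ℝ => Real.exp (τ * p.1 * p.2)) (nu.prod nu) := by
    refine integrable_nu_prod _ (by fun_prop) 1 fun u v hu hv => ?_
    rw [one_mul, abs_of_pos (Real.exp_pos _)]
    exact stabSimplex_exp τ u v h0 h1 hu hv
  have he_bd : ∀ i q, ∀ᵐ p ∂(nu.prod nu), ‖e i q p‖ ≤ Real.exp (τ * p.1 * p.2) := by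
    intro i q
    filter_upwards [hpos] with p hp
    have hp1 := hp.1
    have hp2 := hp.2
    rw [Real.norm_eq_abs, abs_of_nonneg (ee_nonneg _ _ _ _ _ _ _)]
    exact ee_le _ _ _ _ _ (by positivity) _ _
  have he_int : ∀ i q, Integrable (e i q) (nu.prod nu) := by
    intro i q
    refine hKi.mono' ?_ (he_bd i q)
    exact ((he_meas i).comp (measurable_const.prodMk measurable_id)).aestronglyMeasurable
  set F : Fin 3 → ((Fin m → ℝ) × (Fin m → ℝ)) → ℝ := fun i q =>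
    ∫ p, e i q p ∂(nu.prod nu) with hFdef
  have hF_meas : ∀ i, StronglyMeasurable (F i) := fun i =>
    (he_meas i).stronglyMeasurable.integral_prod_right
  have hF_bd : ∀ i q, ‖F i q‖ ≤ ∫ p, Real.exp (τ * p.1 * p.2) ∂(nu.prod nu) := fun i q =>
    norm_integral_le_of_norm_le hKi (he_bd i q)
  have hF_int : ∀ i, Integrable (F i) ((gam m).prod (gam m)) := fun i =>
    Integrable.of_bound (hF_meas i).aestronglyMeasurable _ (Filter.Eventually.of_forall (hF_bd i))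
  have hF : ∀ i, (stab (-τ) (B i) (B i)).toReal =
      (1 - τ ^ 2) * ∫ q, F i q ∂((gam m).prod (gam m)) := by
    intro i
    rw [stab_eq τ h0 h1 (B i) (B i) (hBm i) (hBm i), integral_prod _ (hF_int i)]
    congr 1
    refine integral_congr_ae (Filter.Eventually.of_forall fun y => ?_)
    refine integral_congr_ae (Filter.Eventually.of_forall fun z => ?_)
    exact (integral_prod _ (he_int i (y, z))).symm
  have hpt : ∀ q, ∑ i, F i q ≤ ∫ p, R p ∂(nu.prod nu) := by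
    intro q
    rw [hFdef]
    simp only
    rw [← integral_finsetSum _ (fun i _ => he_int i q)]
    refine integral_mono_ae (integrable_finsetSum _ fun i _ => he_int i q) hRi ?_
    filter_upwards [hpos] with p hp
    exact stabSimplex_pt τ h0 h1 B a ha hab hBm hB hBs p.1 p.2 hp.1 hp.2 _ _
  rw [hC]
  simp only [hF]
  rw [← Finset.mul_sum, ← integral_finsetSum _ (fun i _ => hF_int i)]
  refine mul_le_mul_of_nonneg_left ?_ (by nlinarith)
  calc ∫ q, ∑ i, F i q ∂((gam m).prod (gam m))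
      ≤ ∫ _, (∫ p, R p ∂(nu.prod nu)) ∂((gam m).prod (gam m)) :=
        integral_mono (integrable_finsetSum _ fun i _ => hF_int i) (integrable_const _) hpt
    _ = ∫ p, R p ∂(nu.prod nu) := by simp

end Pool.Agent.SSC3N
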