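import Pool.Agent.SSC3N.StabRot
import Pool.Agent.SSC3N.ExistsRot
import Pool.Agent.SSC3N.StabLower
import Pool.Agent.SSC3N.StabSimplex

set_option autoImplicit false
open MeasureTheory ProbabilityTheory Set Real
open scoped ENNReal

namespace Pool.Agent.SSC3N
open Pool.Agent.SSC3

/-- noise stability in `ℝ^n` -/
noncomputable def stn (n : ℕ) (ρ : ℝ) (A : Set (Fin n → ℝ)) : ℝ≥0∞ :=
  ((Measure.pi (fun _ : Fin n => gaussianReal 0 1)).prod
    (Measure.pi (fun _ : Fin n => gaussianReal 0 1)))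
    {p : (Fin n → ℝ) × (Fin n → ℝ) | p.1 ∈ A ∧ ρ • p.1 + Real.sqrt (1 - ρ ^ 2) • p.2 ∈ A}

theorem stn_ne_top (n : ℕ) (ρ : ℝ) (A : Set (Fin n → ℝ)) : stn n ρ A ≠ ∞ := by
  unfold stn; exact measure_ne_top _ _

theorem stab_ne_top {m : ℕ} (ρ : ℝ) (A B : Set ((Fin 2 → ℝ) × (Fin m → ℝ))) : stab ρ A B ≠ ∞ := by
  have := gam_prob m
  have : IsProbabilityMeasure g2 := by unfold g2; infer_instance
  unfold stab; exact measure_ne_top _ _

theorem append_measurable (m : ℕ) :
    Measurable (fun q : (Fin 2 → ℝ) × (Fin m → ℝ) => (Fin.append q.1 q.2 : Fin (2 + m) → ℝ)) := by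
  apply measurable_pi_lambda
  intro i
  refine Fin.addCases (fun i => ?_) (fun i => ?_) i
  · simp only [Fin.append_left]; fun_prop
  · simp only [Fin.append_right]; fun_prop

/-- simplex upper bound in `ℝ^(2+m)` -/
theorem simplex_upper (m : ℕ) (τ : ℝ) (h0 : 0 ≤ τ) (h1 : τ ≤ 1 / 2)
    (B : Fin 3 → Set (Fin (2 + m) → ℝ)) (a : Fin 3 → Fin (2 + m) → ℝ)
    (ha : ∀ i, ∑ k, a i k * a i k = 1)
    (hab : ∀ i j, i ≠ j → ∑ k, a i k * a j k = -1 / ((3 : ℝ) - 1))
    (hBm : ∀ i, MeasurableSet (B i)) (hB : ∀ x, ∃! i, x ∈ B i)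
    (hBs : ∀ i, {x : Fin (2 + m) → ℝ | ∀ j, j ≠ i → ∑ k, a j k * x k < ∑ k, a i k * x k} ⊆ B i) :
    ∑ i, (stn (2 + m) (-τ) (B i)).toReal ≤
      (1 - τ ^ 2) * ∫ u, ∫ v, 3 * W (τ * u * v) (2 * π / 3) / (2 * π) ^ 2 ∂nu ∂nu := by
  obtain ⟨Q, hQ, hQk⟩ := exists_rot (2 + m) (by omega) (a 0) (a 1)
  have hQT : Q.transpose * Q = 1 := by
    have := (Matrix.mem_orthogonalGroup_iff' (Fin (2 + m)) ℝ).mp hQ
    simpa [Matrix.star_eq_conjTranspose, Matrix.conjTranspose_eq_transpose_of_trivial] using this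
  have hQT' : Q * Q.transpose = 1 := by
    have := (Matrix.mem_orthogonalGroup_iff (Fin (2 + m)) ℝ).mp hQ
    simpa [Matrix.star_eq_conjTranspose, Matrix.conjTranspose_eq_transpose_of_trivial] using this
  have hdot : ∀ x y : Fin (2 + m) → ℝ, ∑ k, Q.mulVec x k * Q.mulVec y k = ∑ k, x k * y k := by
    intro x y
    have h : Q.mulVec x ⬝ᵥ Q.mulVec y = x ⬝ᵥ y := by
      rw [Matrix.dotProduct_mulVec, Matrix.vecMul_mulVec, hQT, Matrix.vecMul_one]
    simpa [dotProduct] using h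
  -- the three vectors sum to zero
  have hsum : ∀ k, a 0 k + a 1 k + a 2 k = 0 := by
    have h2 : ∑ k, (a 0 k + a 1 k + a 2 k) ^ 2 = 0 := by
      have e : ∀ k, (a 0 k + a 1 k + a 2 k) ^ 2 = a 0 k * a 0 k + a 1 k * a 1 k + a 2 k * a 2 k
          + 2 * (a 0 k * a 1 k) + 2 * (a 0 k * a 2 k) + 2 * (a 1 k * a 2 k) := fun k => by ring
      simp_rw [e, Finset.sum_add_distrib, ← Finset.mul_sum]
      rw [ha 0, ha 1, ha 2, hab 0 1 (by decide), hab 0 2 (by decide), hab 1 2 (by decide)]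
      norm_num
    intro k
    have := (Finset.sum_eq_zero_iff_of_nonneg (fun k _ => sq_nonneg (a 0 k + a 1 k + a 2 k))).mp h2
      k (Finset.mem_univ k)
    exact pow_eq_zero_iff (two_ne_zero) |>.mp this
  have hQ2 : ∀ i : Fin 3, ∀ k : Fin (2 + m), 2 ≤ (k : ℕ) → Q.mulVec (a i) k = 0 := by
    intro i k hk
    fin_cases i
    · exact (hQk k hk).1
    · exact (hQk k hk).2
    · have e : a 2 = -(a 0) - a 1 := by
        funext k; have := hsum k; simp only [Pi.sub_apply, Pi.neg_apply]; linarith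
      show Q.mulVec (a 2) k = 0
      rw [e, Matrix.mulVec_sub, Matrix.mulVec_neg]
      simp [(hQk k hk).1, (hQk k hk).2]
  -- rotated partition
  set Qi : (Fin (2 + m) → ℝ) → (Fin (2 + m) → ℝ) := fun x => Q.transpose.mulVec x with hQi
  have hQtm : Q.transpose ∈ Matrix.orthogonalGroup (Fin (2 + m)) ℝ := by
    rw [Matrix.mem_orthogonalGroup_iff]
    simpa [Matrix.star_eq_conjTranspose, Matrix.conjTranspose_eq_transpose_of_trivial] using hQT
  have hQim : Measurable Qi := by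
    apply Continuous.measurable
    exact Continuous.matrix_mulVec continuous_const continuous_id
  set C : Fin 3 → Set (Fin (2 + m) → ℝ) := fun i => Qi ⁻¹' (B i) with hC
  have hCm : ∀ i, MeasurableSet (C i) := fun i => hQim (hBm i)
  have e1 : ∀ i, stn (2 + m) (-τ) (B i) = stn (2 + m) (-τ) (C i) := fun i =>
    stab_rot (2 + m) (-τ) Q.transpose hQtm (B i) (hBm i)
  have e2 : ∀ i, stn (2 + m) (-τ) (C i) = stab (-τ)
      {q : (Fin 2 → ℝ) × (Fin m → ℝ) | Fin.append q.1 q.2 ∈ C i}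
      {q : (Fin 2 → ℝ) × (Fin m → ℝ) | Fin.append q.1 q.2 ∈ C i} := fun i =>
    stab_transfer m (-τ) (C i) (hCm i)
  simp_rw [e1, e2]
  set a' : Fin 3 → Fin 2 → ℝ := fun i k => Q.mulVec (a i) (Fin.castAdd m k) with ha'
  have hsplit : ∀ (i : Fin 3) (x : Fin (2 + m) → ℝ),
      ∑ k, Q.mulVec (a i) k * x k = ∑ k, a' i k * x (Fin.castAdd m k) := by
    intro i x
    rw [Fin.sum_univ_add]
    have : ∀ j : Fin m, Q.mulVec (a i) (Fin.natAdd 2 j) = 0 := fun j =>
      hQ2 i _ (by simp)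
    simp [this, ha']
  refine stab_simplex τ h0 h1 _ a' ?_ ?_ ?_ ?_ ?_
  · intro i
    rw [← ha i, ← hdot (a i) (a i), hsplit i]
  · intro i j hij
    rw [← hab i j hij, ← hdot (a i) (a j), hsplit i]
  · intro i
    exact (append_measurable m) (hCm i)
  · intro p
    exact hB (Qi (Fin.append p.1 p.2))
  · intro i p hp
    simp only [mem_ofPred_eq] at hp ⊢
    show Qi (Fin.append p.1 p.2) ∈ B i
    apply hBs i
    simp only [mem_ofPred_eq]
    intro j hj
    have key : ∀ i : Fin 3, ∑ k, a i k * Qi (Fin.append p.1 p.2) k = ∑ k, a' i k * p.1 k := by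
      intro i
      rw [← hdot (a i)]
      have : Q.mulVec (Qi (Fin.append p.1 p.2)) = Fin.append p.1 p.2 := by
        rw [hQi]; simp only [Matrix.mulVec_mulVec, hQT', Matrix.one_mulVec]
      rw [this, hsplit i]
      simp
    rw [key, key]
    exact hp j hj

theorem gam_coord_integrable (n : ℕ) (k : Fin n) : Integrable (fun x : Fin n → ℝ => x k) (gam n) := by
  have h : MeasurePreserving (Function.eval k) (gam n) (gaussianReal 0 1) := by
    unfold gam; exact measurePreserving_eval _ k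
  have h2 : Integrable (fun x : ℝ => x) (gaussianReal 0 1) :=
    (memLp_id_gaussianReal (μ := 0) (v := 1) 1).integrable (by norm_num)
  exact h.integrable_comp_of_integrable h2

theorem gam_coord_integral (n : ℕ) (k : Fin n) : ∫ x : Fin n → ℝ, x k ∂(gam n) = 0 := by
  have h : MeasurePreserving (Function.eval k) (gam n) (gaussianReal 0 1) := by
    unfold gam; exact measurePreserving_eval _ k
  have h2 : ∫ x : Fin n → ℝ, x k ∂(gam n) = ∫ x : ℝ, x ∂(gaussianReal 0 1) := by
    rw [← h.map_eq, integral_map h.measurable.aemeasurable (by fun_prop)]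
  rw [h2, integral_id_gaussianReal]

/-- lower bound in `ℝ^(2+m)` -/
theorem lower_all (m : ℕ) (τ : ℝ) (h0 : 0 ≤ τ) (h1 : τ ≤ 1 / 2)
    (A : Fin 3 → Set (Fin (2 + m) → ℝ))
    (hAm : ∀ i, MeasurableSet (A i)) (hA : ∀ x, ∃! i, x ∈ A i) :
    (1 - τ ^ 2) * (∫ u, ∫ v, 3 * W (τ * u * v) (2 * π / 3) / (2 * π) ^ 2 ∂nu ∂nu) ≤
      ∑ i, (stn (2 + m) (-τ) (A i)).toReal := by
  have := gam_prob (2 + m)
  -- centroids
  set b : Fin 3 → Fin (2 + m) → ℝ := fun i k => ∫ x in A i, x k ∂(gam (2 + m)) with hb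
  have hbsum : ∀ k, b 0 k + b 1 k + b 2 k = 0 := by
    intro k
    have hint := gam_coord_integrable (2 + m) k
    have hd : Pairwise (Function.onFun Disjoint A) := by
      intro i j hij
      rw [Function.onFun, Set.disjoint_left]
      intro x hxi hxj
      exact hij ((hA x).unique hxi hxj)
    have hU : (⋃ i, A i) = univ := by
      ext x; simp only [mem_iUnion, mem_univ, iff_true]
      obtain ⟨i, hi, _⟩ := hA x
      exact ⟨i, hi⟩
    have h3 := integral_iUnion (μ := gam (2 + m)) (f := fun x : Fin (2 + m) → ℝ => x k) hAm hd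
      hint.integrableOn
    rw [hU, setIntegral_univ, gam_coord_integral, tsum_fintype, Fin.sum_univ_three] at h3
    exact h3.symm
  obtain ⟨Q, hQ, hQk⟩ := exists_rot (2 + m) (by omega) (b 0) (b 1)
  have hQT : Q.transpose * Q = 1 := by
    have := (Matrix.mem_orthogonalGroup_iff' (Fin (2 + m)) ℝ).mp hQ
    simpa [Matrix.star_eq_conjTranspose, Matrix.conjTranspose_eq_transpose_of_trivial] using this
  have hQ2 : ∀ i : Fin 3, ∀ k : Fin (2 + m), 2 ≤ (k : ℕ) → Q.mulVec (b i) k = 0 := by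
    intro i k hk
    fin_cases i
    · exact (hQk k hk).1
    · exact (hQk k hk).2
    · have e : b 2 = -(b 0) - b 1 := by
        funext k; have := hbsum k; simp only [Pi.sub_apply, Pi.neg_apply]; linarith
      show Q.mulVec (b 2) k = 0
      rw [e, Matrix.mulVec_sub, Matrix.mulVec_neg]
      simp [(hQk k hk).1, (hQk k hk).2]
  set Qi : (Fin (2 + m) → ℝ) → (Fin (2 + m) → ℝ) := fun x => Q.transpose.mulVec x with hQi
  have hQtm : Q.transpose ∈ Matrix.orthogonalGroup (Fin (2 + m)) ℝ := by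
    rw [Matrix.mem_orthogonalGroup_iff]
    simpa [Matrix.star_eq_conjTranspose, Matrix.conjTranspose_eq_transpose_of_trivial] using hQT
  have hQim : Measurable Qi := by
    apply Continuous.measurable
    exact Continuous.matrix_mulVec continuous_const continuous_id
  set C : Fin 3 → Set (Fin (2 + m) → ℝ) := fun i => Qi ⁻¹' (A i) with hC
  have hCm : ∀ i, MeasurableSet (C i) := fun i => hQim (hAm i)
  have e1 : ∀ i, stn (2 + m) (-τ) (A i) = stn (2 + m) (-τ) (C i) := fun i =>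
    stab_rot (2 + m) (-τ) Q.transpose hQtm (A i) (hAm i)
  have e2 : ∀ i, stn (2 + m) (-τ) (C i) = stab (-τ)
      {q : (Fin 2 → ℝ) × (Fin m → ℝ) | Fin.append q.1 q.2 ∈ C i}
      {q : (Fin 2 → ℝ) × (Fin m → ℝ) | Fin.append q.1 q.2 ∈ C i} := fun i =>
    stab_transfer m (-τ) (C i) (hCm i)
  simp_rw [e1, e2]
  have hCs : ∀ i, MeasurableSet {q : (Fin 2 → ℝ) × (Fin m → ℝ) | Fin.append q.1 q.2 ∈ C i} :=
    fun i => (append_measurable m) (hCm i)
  refine stab_lower τ h0 h1 _ hCs ?_ ?_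
  · intro p
    exact hA (Qi (Fin.append p.1 p.2))
  · intro i j
    have hs := split_mp m
    rw [← hs.map_eq, integral_map hs.measurable.aemeasurable]
    · -- integral over `C i`
      have hap : ∀ x : Fin (2 + m) → ℝ,
          (Fin.append (fun i : Fin 2 => x (Fin.castAdd m i)) (fun j : Fin m => x (Fin.natAdd 2 j))
            : Fin (2 + m) → ℝ) = x := by
        intro x
        funext k
        refine Fin.addCases (fun k => ?_) (fun k => ?_) k
        · simp
        · simp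
      have h3 : (fun x : Fin (2 + m) → ℝ =>
          ({q : (Fin 2 → ℝ) × (Fin m → ℝ) | Fin.append q.1 q.2 ∈ C i}).indicator
            (fun p : (Fin 2 → ℝ) × (Fin m → ℝ) => p.2 j)
            ((fun i : Fin 2 => x (Fin.castAdd m i)), (fun j : Fin m => x (Fin.natAdd 2 j)))) =
          fun x => (A i).indicator (fun y => Q.mulVec y (Fin.natAdd 2 j)) (Qi x) := by
        funext x
        have hx : (((fun i : Fin 2 => x (Fin.castAdd m i)), (fun j : Fin m => x (Fin.natAdd 2 j)))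
            : (Fin 2 → ℝ) × (Fin m → ℝ)) ∈
            {q : (Fin 2 → ℝ) × (Fin m → ℝ) | Fin.append q.1 q.2 ∈ C i} ↔ Qi x ∈ A i := by
          show Fin.append (fun i : Fin 2 => x (Fin.castAdd m i))
            (fun j : Fin m => x (Fin.natAdd 2 j)) ∈ C i ↔ _
          rw [hap x]; rfl
        have hQQ : Q.mulVec (Qi x) = x := by
          have hQT' : Q * Q.transpose = 1 := by
            have := (Matrix.mem_orthogonalGroup_iff (Fin (2 + m)) ℝ).mp hQ
            simpa [Matrix.star_eq_conjTranspose,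
              Matrix.conjTranspose_eq_transpose_of_trivial] using this
          rw [hQi]; simp only [Matrix.mulVec_mulVec, hQT', Matrix.one_mulVec]
        by_cases h : Qi x ∈ A i
        · rw [indicator_of_mem (hx.mpr h), indicator_of_mem h, hQQ]
        · rw [indicator_of_notMem (fun h' => h (hx.mp h')), indicator_of_notMem h]
      rw [h3]
      have hrot := gauss_rot (2 + m) Q.transpose hQtm
      have h4 : ∫ x, (A i).indicator (fun y => Q.mulVec y (Fin.natAdd 2 j)) (Qi x) ∂(gam (2 + m)) =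
          ∫ y, (A i).indicator (fun y => Q.mulVec y (Fin.natAdd 2 j)) y ∂(gam (2 + m)) := by
        conv_rhs => rw [← hrot.map_eq]
        rw [integral_map hrot.measurable.aemeasurable]
        refine AEStronglyMeasurable.indicator ?_ (hAm i)
        apply Continuous.aestronglyMeasurable
        exact (continuous_apply _).comp (Continuous.matrix_mulVec continuous_const continuous_id)
      rw [h4, integral_indicator (hAm i)]
      have h5 : ∫ y in A i, Q.mulVec y (Fin.natAdd 2 j) ∂(gam (2 + m)) =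
          Q.mulVec (b i) (Fin.natAdd 2 j) := by
        simp only [Matrix.mulVec, dotProduct, hb]
        rw [integral_finsetSum]
        · refine Finset.sum_congr rfl fun k _ => ?_
          rw [integral_const_mul]
        · intro k _
          exact ((gam_coord_integrable (2 + m) k).const_mul _).integrableOn
      rw [h5]
      exact hQ2 i _ (by simp)
    · refine AEStronglyMeasurable.indicator ?_ (hCs i)
      fun_prop

theorem mainN (n : ℕ) (hn : 2 ≤ n) (ρ : ℝ) (h1 : -1 / 2 ≤ ρ) (h2 : ρ ≤ 0)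
    (A B : Fin 3 → Set (Fin n → ℝ)) (a : Fin 3 → Fin n → ℝ)
    (hAm : ∀ i, MeasurableSet (A i)) (hA : ∀ x : Fin n → ℝ, ∃! i, x ∈ A i)
    (ha : ∀ i, ∑ k, a i k * a i k = 1)
    (hab : ∀ i j, i ≠ j → ∑ k, a i k * a j k = -1 / ((3 : ℝ) - 1))
    (hBm : ∀ i, MeasurableSet (B i))
    (hB : ∀ x : Fin n → ℝ, ∃! i, x ∈ B i)
    (hBs : ∀ i, {x : Fin n → ℝ | ∀ j, j ≠ i → ∑ k, a j k * x k < ∑ k, a i k * x k} ⊆ B i) :
    ∑ i, ((Measure.pi (fun _ : Fin n => gaussianReal 0 1)).prod
            (Measure.pi (fun _ : Fin n => gaussianReal 0 1)))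
          {p : (Fin n → ℝ) × (Fin n → ℝ) |
            p.1 ∈ B i ∧ ρ • p.1 + Real.sqrt (1 - ρ ^ 2) • p.2 ∈ B i}
      ≤
    ∑ i, ((Measure.pi (fun _ : Fin n => gaussianReal 0 1)).prod
            (Measure.pi (fun _ : Fin n => gaussianReal 0 1)))
          {p : (Fin n → ℝ) × (Fin n → ℝ) |
            p.1 ∈ A i ∧ ρ • p.1 + Real.sqrt (1 - ρ ^ 2) • p.2 ∈ A i} := by
  obtain ⟨m, rfl⟩ : ∃ m, n = 2 + m := ⟨n - 2, by omega⟩
  obtain ⟨τ, rfl⟩ : ∃ τ, ρ = -τ := ⟨-ρ, by ring⟩
  have h0 : 0 ≤ τ := by linarith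
  have h1' : τ ≤ 1 / 2 := by linarith
  have hx := simplex_upper m τ h0 h1' B a ha hab hBm hB hBs
  have hy := lower_all m τ h0 h1' A hAm hA
  have hxy := hx.trans hy
  rw [← ENNReal.toReal_sum (fun i _ => stn_ne_top _ _ _),
    ← ENNReal.toReal_sum (fun i _ => stn_ne_top _ _ _)] at hxy
  exact (ENNReal.toReal_le_toReal
    (ENNReal.sum_ne_top.mpr (fun i _ => stn_ne_top _ _ _))
    (ENNReal.sum_ne_top.mpr (fun i _ => stn_ne_top _ _ _))).mp hxy

end Pool.Agent.SSC3N
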