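import Pool.Agent.SSC3.Polar
import Pool.Agent.SSC3N.Defs

/-! Row P2: measurability of the sections and trivial bounds. -/

set_option autoImplicit false
open MeasureTheory ProbabilityTheory Set Real
open scoped ENNReal

namespace Pool.Agent.SSC3N
open Pool.Agent.SSC3

/-- indicator of a set of the product in polar coordinates -/
private noncomputable def JA {m : ℕ} (A : Set ((Fin 2 → ℝ) × (Fin m → ℝ)))
    (q : (ℝ × ℝ) × (Fin m → ℝ)) : ℝ≥0∞ :=
  A.indicator (fun _ => (1 : ℝ≥0∞)) (![q.1.1 * Real.cos q.1.2, q.1.1 * Real.sin q.1.2], q.2)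

@[fun_prop]
private theorem measurable_JA {m : ℕ} {A : Set ((Fin 2 → ℝ) × (Fin m → ℝ))}
    (hA : MeasurableSet A) : Measurable (JA A) :=
  (measurable_const.indicator hA).comp
    ((measurable_pt.comp measurable_fst).prodMk measurable_snd)

private theorem ySl_meas {m : ℕ} {A : Set ((Fin 2 → ℝ) × (Fin m → ℝ))} (hA : MeasurableSet A)
    (y : Fin m → ℝ) : MeasurableSet (ySl A y) := by
  have : Measurable (fun x : Fin 2 → ℝ => (x, y)) := by fun_prop
  exact this hA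

private theorem IA_ySl {m : ℕ} (A : Set ((Fin 2 → ℝ) × (Fin m → ℝ))) (y : Fin m → ℝ)
    (q : ℝ × ℝ) : IA (ySl A y) q = JA A (q, y) := rfl

theorem ee_measurable {m : ℕ} (τ : ℝ) (A B : Set ((Fin 2 → ℝ) × (Fin m → ℝ)))
    (hA : MeasurableSet A) (hB : MeasurableSet B) :
    Measurable (fun p : (ℝ × ℝ) × ((Fin m → ℝ) × (Fin m → ℝ)) =>
      ee τ A B p.1.1 p.1.2 p.2.1 p.2.2) := by
  unfold ee
  refine Measurable.div_const (ENNReal.measurable_toReal.comp ?_) _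
  have h1 : (fun p : (ℝ × ℝ) × ((Fin m → ℝ) × (Fin m → ℝ)) =>
      E2 (τ * p.1.1 * p.1.2) (slice (ySl A p.2.1) (Real.sqrt (1 - τ ^ 2) * p.1.1))
        (slice (ySl B p.2.2) (Real.sqrt (1 - τ ^ 2) * p.1.2))) =
      fun p => ∫⁻ θ in Ioo (-π) π, ∫⁻ φ in Ioo (-π) π,
        JA A ((Real.sqrt (1 - τ ^ 2) * p.1.1, θ), p.2.1) *
          (JA B ((Real.sqrt (1 - τ ^ 2) * p.1.2, φ), p.2.2) *
            ENNReal.ofReal (ker (τ * p.1.1 * p.1.2) (θ - φ))) := by
    funext p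
    exact E2_eq_polar _ _ _ (ySl_meas hA _) (ySl_meas hB _) _ _
  rw [h1]
  have mA := measurable_JA hA
  have mB := measurable_JA hB
  have h2 : Measurable (fun q : ((ℝ × ℝ) × ((Fin m → ℝ) × (Fin m → ℝ))) × ℝ =>
      ∫⁻ φ in Ioo (-π) π,
        JA A ((Real.sqrt (1 - τ ^ 2) * q.1.1.1, q.2), q.1.2.1) *
          (JA B ((Real.sqrt (1 - τ ^ 2) * q.1.1.2, φ), q.1.2.2) *
            ENNReal.ofReal (ker (τ * q.1.1.1 * q.1.1.2) (q.2 - φ)))) := by
    apply Measurable.lintegral_prod_right'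
      (f := fun z : (((ℝ × ℝ) × ((Fin m → ℝ) × (Fin m → ℝ))) × ℝ) × ℝ =>
        JA A ((Real.sqrt (1 - τ ^ 2) * z.1.1.1.1, z.1.2), z.1.1.2.1) *
          (JA B ((Real.sqrt (1 - τ ^ 2) * z.1.1.1.2, z.2), z.1.1.2.2) *
            ENNReal.ofReal (ker (τ * z.1.1.1.1 * z.1.1.1.2) (z.1.2 - z.2))))
    unfold ker
    fun_prop
  exact Measurable.lintegral_prod_right'
    (f := fun q : ((ℝ × ℝ) × ((Fin m → ℝ) × (Fin m → ℝ))) × ℝ =>
      ∫⁻ φ in Ioo (-π) π,
        JA A ((Real.sqrt (1 - τ ^ 2) * q.1.1.1, q.2), q.1.2.1) *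
          (JA B ((Real.sqrt (1 - τ ^ 2) * q.1.1.2, φ), q.1.2.2) *
            ENNReal.ofReal (ker (τ * q.1.1.1 * q.1.1.2) (q.2 - φ)))) h2

theorem xl_measurable {m : ℕ} (τ : ℝ) (A : Set ((Fin 2 → ℝ) × (Fin m → ℝ)))
    (hA : MeasurableSet A) :
    Measurable (Function.uncurry (fun (u : ℝ) (y : Fin m → ℝ) => xl τ A u y)) := by
  unfold xl len
  refine Measurable.div_const (f := fun p : ℝ × (Fin m → ℝ) =>
    (volume (slice (ySl A p.2) (Real.sqrt (1 - τ ^ 2) * p.1) ∩ Ioo (-π) π)).toReal) ?_ _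
  apply ENNReal.measurable_toReal.comp
  have h : MeasurableSet {q : (ℝ × (Fin m → ℝ)) × ℝ |
      ((![(Real.sqrt (1 - τ ^ 2) * q.1.1) * Real.cos q.2,
        (Real.sqrt (1 - τ ^ 2) * q.1.1) * Real.sin q.2] : Fin 2 → ℝ), q.1.2) ∈ A ∧
        q.2 ∈ Ioo (-π) π} := by
    have h1 : Measurable (fun q : (ℝ × (Fin m → ℝ)) × ℝ =>
        (Real.sqrt (1 - τ ^ 2) * q.1.1, q.2)) := by fun_prop
    have h2 : Measurable (fun q : (ℝ × (Fin m → ℝ)) × ℝ =>
      ((![(Real.sqrt (1 - τ ^ 2) * q.1.1) * Real.cos q.2,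
        (Real.sqrt (1 - τ ^ 2) * q.1.1) * Real.sin q.2] : Fin 2 → ℝ), q.1.2)) :=
      (measurable_pt.comp h1).prodMk (measurable_snd.comp measurable_fst)
    exact (h2 hA).inter (measurable_snd measurableSet_Ioo)
  exact measurable_measure_prodMk_left h

theorem ee_nonneg {m : ℕ} (τ : ℝ) (A B : Set ((Fin 2 → ℝ) × (Fin m → ℝ))) (u v : ℝ)
    (y y' : Fin m → ℝ) : 0 ≤ ee τ A B u v y y' := by
  unfold ee
  positivity

theorem ee_le {m : ℕ} (τ : ℝ) (A B : Set ((Fin 2 → ℝ) × (Fin m → ℝ))) (u v : ℝ)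
    (h : 0 ≤ τ * u * v) (y y' : Fin m → ℝ) : ee τ A B u v y y' ≤ Real.exp (τ * u * v) := by
  unfold ee
  rw [div_le_iff₀ (by positivity)]
  apply ENNReal.toReal_le_of_le_ofReal (by positivity)
  unfold E2
  have h1 : ∀ θ φ : ℝ, ENNReal.ofReal (ker (τ * u * v) (θ - φ)) ≤
      ENNReal.ofReal (Real.exp (τ * u * v)) := by
    intro θ φ
    apply ENNReal.ofReal_le_ofReal
    unfold ker
    apply Real.exp_le_exp.mpr
    have := Real.neg_one_le_cos (θ - φ)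
    nlinarith
  have hvol : ∀ C : Set ℝ, volume (C ∩ Ioo (-π) π) ≤ ENNReal.ofReal (2 * π) := by
    intro C
    calc volume (C ∩ Ioo (-π) π) ≤ volume (Ioo (-π) π) := measure_mono inter_subset_right
      _ = ENNReal.ofReal (2 * π) := by rw [Real.volume_Ioo]; congr 1; ring
  calc ∫⁻ θ in slice (ySl A y) (Real.sqrt (1 - τ ^ 2) * u) ∩ Ioo (-π) π,
        ∫⁻ φ in slice (ySl B y') (Real.sqrt (1 - τ ^ 2) * v) ∩ Ioo (-π) π,
          ENNReal.ofReal (ker (τ * u * v) (θ - φ))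
      ≤ ∫⁻ θ in slice (ySl A y) (Real.sqrt (1 - τ ^ 2) * u) ∩ Ioo (-π) π,
        ∫⁻ φ in slice (ySl B y') (Real.sqrt (1 - τ ^ 2) * v) ∩ Ioo (-π) π,
          ENNReal.ofReal (Real.exp (τ * u * v)) :=
        lintegral_mono fun θ => lintegral_mono fun φ => h1 θ φ
    _ = ENNReal.ofReal (Real.exp (τ * u * v)) *
          volume (slice (ySl B y') (Real.sqrt (1 - τ ^ 2) * v) ∩ Ioo (-π) π) *
          volume (slice (ySl A y) (Real.sqrt (1 - τ ^ 2) * u) ∩ Ioo (-π) π) := by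
        rw [setLIntegral_const, setLIntegral_const]
    _ ≤ ENNReal.ofReal (Real.exp (τ * u * v)) * ENNReal.ofReal (2 * π) *
          ENNReal.ofReal (2 * π) := by
        gcongr
        · exact hvol _
        · exact hvol _
    _ = ENNReal.ofReal (Real.exp (τ * u * v) * (2 * π) ^ 2) := by
        rw [← ENNReal.ofReal_mul (by positivity), ← ENNReal.ofReal_mul (by positivity)]
        congr 1
        ring

theorem xl_nonneg {m : ℕ} (τ : ℝ) (A : Set ((Fin 2 → ℝ) × (Fin m → ℝ))) (u : ℝ)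
    (y : Fin m → ℝ) : 0 ≤ xl τ A u y := by
  unfold xl len
  positivity

theorem xl_le {m : ℕ} (τ : ℝ) (A : Set ((Fin 2 → ℝ) × (Fin m → ℝ))) (u : ℝ)
    (y : Fin m → ℝ) : xl τ A u y ≤ 1 := by
  unfold xl len
  rw [div_le_one (by positivity)]
  apply ENNReal.toReal_le_of_le_ofReal (by positivity)
  calc volume (slice (ySl A y) (Real.sqrt (1 - τ ^ 2) * u) ∩ Ioo (-π) π)
      ≤ volume (Ioo (-π) π) := measure_mono inter_subset_right
    _ = ENNReal.ofReal (2 * π) := by rw [Real.volume_Ioo]; congr 1; ring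

end Pool.Agent.SSC3N
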