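import Pool.Agent.SSC3N.Defs

set_option autoImplicit false
open MeasureTheory ProbabilityTheory Set Real
open scoped ENNReal

namespace Pool.Agent.SSC3N
open Pool.Agent.SSC3

private theorem momA_cos (t : ℝ) :
    HasDerivAt (fun t : ℝ => Real.cos (2 * π * t)) (-(2 * π) * Real.sin (2 * π * t)) t := by
  have h1 : HasDerivAt (fun t : ℝ => 2 * π * t) (2 * π) t := by
    simpa using (hasDerivAt_id t).const_mul (2 * π)
  have h2 := h1.cos
  convert h2 using 1
  ring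

private theorem momA_sin (t : ℝ) :
    HasDerivAt (fun t : ℝ => Real.sin (2 * π * t)) (2 * π * Real.cos (2 * π * t)) t := by
  have h1 : HasDerivAt (fun t : ℝ => 2 * π * t) (2 * π) t := by
    simpa using (hasDerivAt_id t).const_mul (2 * π)
  have h2 := h1.sin
  convert h2 using 1
  ring

private theorem momA_id (t : ℝ) : HasDerivAt (fun t : ℝ => t) 1 t := hasDerivAt_id t

private theorem momA_sq (t : ℝ) : HasDerivAt (fun t : ℝ => t ^ 2) (2 * t) t := by
  simpa using hasDerivAt_pow 2 t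

private theorem momA_vt (t : ℝ) : HasDerivAt vt (2 - 21 / 2 * t) t := by
  have h := ((momA_id t).const_mul 2).sub ((momA_sq t).const_mul (21 / 4))
  have e : vt = fun t : ℝ => 2 * t - 21 / 4 * t ^ 2 := rfl
  rw [e]
  exact HasDerivAt.congr_deriv h (by ring)

/-- General form of the moment. -/
private theorem momA_gen (m : ℕ) (P Q : ℝ → ℝ)
    (hP : ∀ t, HasDerivAt P (Real.cos (2 * π * t) ^ (m + 1)) t) (hQ : ∀ t, HasDerivAt Q (P t) t) :
    mA m = (1 / (m + 1 : ℝ)) * ((-1 / 2) * (Real.sqrt 3 * 0 + 3 * P (1 / 3)) + 21 / 2 * Q (1 / 3)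
      - (1 / 12) * (-(1 / 2)) ^ (m + 1) - 2 * P 0 - 21 / 2 * Q 0) := by
  have hm : (m + 1 : ℝ) ≠ 0 := by positivity
  set F : ℝ → ℝ := fun t => (1 / (m + 1 : ℝ)) *
    ((2 - 21 / 2 * t) * P t + 21 / 2 * Q t - vt t * Real.cos (2 * π * t) ^ (m + 1)) with hF
  have hd : ∀ t ∈ Set.uIcc (0 : ℝ) (1 / 3), HasDerivAt F
      (2 * π * Real.sin (2 * π * t) * vt t * Real.cos (2 * π * t) ^ m) t := by
    intro t _
    have h1 : HasDerivAt (fun t : ℝ => 2 - 21 / 2 * t) (-(21 / 2)) t := by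
      have := ((momA_id t).const_mul (21 / 2)).const_sub 2
      simpa using this
    have h2 := h1.mul (hP t)
    have h3 := (hQ t).const_mul (21 / 2)
    have h4 := (momA_vt t).mul ((momA_cos t).pow (m + 1))
    have h5 := ((h2.add h3).sub h4).const_mul (1 / (m + 1 : ℝ))
    refine HasDerivAt.congr_deriv h5 ?_
    simp only [Pi.pow_apply, Nat.add_sub_cancel]
    push_cast
    field_simp
    ring
  have hint : IntervalIntegrable
      (fun t => 2 * π * Real.sin (2 * π * t) * vt t * Real.cos (2 * π * t) ^ m)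
      volume (0 : ℝ) (1 / 3) := by
    apply Continuous.intervalIntegrable
    unfold vt
    fun_prop
  have h := intervalIntegral.integral_eq_sub_of_hasDerivAt hd hint
  unfold mA
  rw [h, hF]
  have hc : Real.cos (2 * π * (1 / 3)) = -(1 / 2) := by
    have : 2 * π * (1 / 3) = π - π / 3 := by ring
    rw [this, Real.cos_pi_sub, Real.cos_pi_div_three]
  have hc0 : Real.cos (2 * π * 0) = 1 := by simp
  have hv : vt (1 / 3) = 1 / 12 := by unfold vt; norm_num
  have hv0 : vt 0 = 0 := by unfold vt; norm_num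
  simp only [hc, hc0, hv, hv0]
  ring

private theorem momA_c3 : Real.cos (2 * π * (1 / 3)) = -(1 / 2) := by
  have : 2 * π * (1 / 3) = π - π / 3 := by ring
  rw [this, Real.cos_pi_sub, Real.cos_pi_div_three]

private theorem momA_s3 : Real.sin (2 * π * (1 / 3)) = Real.sqrt 3 / 2 := by
  have : 2 * π * (1 / 3) = π - π / 3 := by ring
  rw [this, Real.sin_pi_sub, Real.sin_pi_div_three]

/-- A convenient derivative: `sin θ * p(cos θ)` where everything is divided by `2π`. -/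
private theorem momA_P (a0 a1 a2 a3 a4 a5 c : ℝ) (t : ℝ) :
    HasDerivAt (fun t : ℝ => (Real.sin (2 * π * t) * (a0 + a1 * Real.cos (2 * π * t)
        + a2 * Real.cos (2 * π * t) ^ 2 + a3 * Real.cos (2 * π * t) ^ 3
        + a4 * Real.cos (2 * π * t) ^ 4 + a5 * Real.cos (2 * π * t) ^ 5)) / (2 * π) + c * t)
      ((a0 * Real.cos (2 * π * t) + a1 * Real.cos (2 * π * t) ^ 2
        + a2 * Real.cos (2 * π * t) ^ 3 + a3 * Real.cos (2 * π * t) ^ 4
        + a4 * Real.cos (2 * π * t) ^ 5 + a5 * Real.cos (2 * π * t) ^ 6)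
        - (1 - Real.cos (2 * π * t) ^ 2) * (a1 + 2 * a2 * Real.cos (2 * π * t)
        + 3 * a3 * Real.cos (2 * π * t) ^ 2 + 4 * a4 * Real.cos (2 * π * t) ^ 3
        + 5 * a5 * Real.cos (2 * π * t) ^ 4) + c) t := by
  have hπ : (2 * π : ℝ) ≠ 0 := by positivity
  have hC := momA_cos t
  have hS := momA_sin t
  have hp := ((((((hC.const_mul a1).const_add a0).add ((hC.pow 2).const_mul a2)).add
    ((hC.pow 3).const_mul a3)).add ((hC.pow 4).const_mul a4)).add ((hC.pow 5).const_mul a5))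
  have h := ((hS.mul hp).div_const (2 * π)).add ((momA_id t).const_mul c)
  have hss : Real.sin (2 * π * t) ^ 2 = 1 - Real.cos (2 * π * t) ^ 2 := by
    have := Real.sin_sq_add_cos_sq (2 * π * t)
    linarith
  refine HasDerivAt.congr_deriv h ?_
  rw [← hss]
  simp only [Pi.pow_apply, Pi.add_apply]
  field_simp
  ring

/-- The second antiderivative. -/
private theorem momA_Q (a0 a1 a2 a3 a4 a5 c : ℝ) (t : ℝ) :
    HasDerivAt (fun t : ℝ => -(a0 * Real.cos (2 * π * t) + a1 / 2 * Real.cos (2 * π * t) ^ 2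
        + a2 / 3 * Real.cos (2 * π * t) ^ 3 + a3 / 4 * Real.cos (2 * π * t) ^ 4
        + a4 / 5 * Real.cos (2 * π * t) ^ 5 + a5 / 6 * Real.cos (2 * π * t) ^ 6)
          / (4 * π ^ 2) + c / 2 * t ^ 2)
      ((Real.sin (2 * π * t) * (a0 + a1 * Real.cos (2 * π * t)
        + a2 * Real.cos (2 * π * t) ^ 2 + a3 * Real.cos (2 * π * t) ^ 3
        + a4 * Real.cos (2 * π * t) ^ 4 + a5 * Real.cos (2 * π * t) ^ 5)) / (2 * π) + c * t) t := by
  have hπ : (π : ℝ) ≠ 0 := by positivity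
  have hC := momA_cos t
  have hp := ((((((hC.const_mul a0)).add ((hC.pow 2).const_mul (a1 / 2))).add
    ((hC.pow 3).const_mul (a2 / 3))).add ((hC.pow 4).const_mul (a3 / 4))).add
    ((hC.pow 5).const_mul (a4 / 5))).add ((hC.pow 6).const_mul (a5 / 6))
  have h := ((hp.neg).div_const (4 * π ^ 2)).add ((momA_sq t).const_mul (c / 2))
  refine HasDerivAt.congr_deriv h ?_
  field_simp
  ring

private theorem momA_form (m : ℕ) (a0 a1 a2 a3 a4 a5 c : ℝ)
    (h : ∀ C : ℝ, (a0 * C + a1 * C ^ 2 + a2 * C ^ 3 + a3 * C ^ 4 + a4 * C ^ 5 + a5 * C ^ 6)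
        - (1 - C ^ 2) * (a1 + 2 * a2 * C + 3 * a3 * C ^ 2 + 4 * a4 * C ^ 3 + 5 * a5 * C ^ 4) + c
        = C ^ (m + 1)) :
    mA m = (1 / (m + 1 : ℝ)) * (
      -(3 / 8) * (Real.sqrt 3 / π) * (a0 - a1 / 2 + a2 / 4 - a3 / 8 + a4 / 16 - a5 / 32)
      - c / 2 + 7 / 12 * c
      + 21 / 8 * (1 / π ^ 2) * ((a0 + a1 / 2 + a2 / 3 + a3 / 4 + a4 / 5 + a5 / 6)
        - (-(a0 / 2) + a1 / 8 - a2 / 24 + a3 / 64 - a4 / 160 + a5 / 384))
      - (1 / 12) * (-(1 / 2)) ^ (m + 1)) := by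
  have hπ : (π : ℝ) ≠ 0 := by positivity
  have e := momA_gen m _ _ (fun t => by
    have := momA_P a0 a1 a2 a3 a4 a5 c t
    rw [h] at this
    exact this) (momA_Q a0 a1 a2 a3 a4 a5 c)
  rw [e]
  simp only [momA_c3, momA_s3, mul_zero, Real.cos_zero, Real.sin_zero]
  field_simp
  ring

theorem mA_bounds : |mA 0 - 0.2338705| ≤ 0.0000001 ∧ |mA 1 - 0.0611947| ≤ 0.0000001 ∧
    |mA 2 - 0.0515232| ≤ 0.0000001 ∧ |mA 3 - 0.0310634| ≤ 0.0000001 ∧
    |mA 4 - 0.0252627| ≤ 0.0000001 ∧ |mA 5 - 0.0191554| ≤ 0.0000001 := by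
  have hπ1 := Real.pi_gt_d20
  have hπ2 := Real.pi_lt_d20
  have hπ0 : 0 < π := Real.pi_pos
  have hs0 : 0 ≤ Real.sqrt 3 := Real.sqrt_nonneg 3
  have hs : Real.sqrt 3 ^ 2 = 3 := Real.sq_sqrt (by norm_num)
  have hs1 : 1.7320508075 < Real.sqrt 3 := by
    apply lt_of_pow_lt_pow_left₀ 2 hs0
    rw [hs]; norm_num
  have hs2 : Real.sqrt 3 < 1.7320508076 := by
    apply lt_of_pow_lt_pow_left₀ 2 (by norm_num)
    rw [hs]; norm_num
  have hx1 : 0.551328895 < Real.sqrt 3 / π := by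
    rw [lt_div_iff₀ hπ0]
    nlinarith
  have hx2 : Real.sqrt 3 / π < 0.551328896 := by
    rw [div_lt_iff₀ hπ0]
    nlinarith
  have hy1 : 0.101321183 < 1 / π ^ 2 := by
    rw [lt_div_iff₀ (by positivity)]
    nlinarith
  have hy2 : 1 / π ^ 2 < 0.101321184 := by
    rw [div_lt_iff₀ (by positivity)]
    nlinarith
  have e0 := momA_form 0 1 0 0 0 0 0 0 (by intro C; ring)
  have e1 := momA_form 1 0 (1 / 2) 0 0 0 0 (1 / 2) (by intro C; ring)
  have e2 := momA_form 2 (2 / 3) 0 (1 / 3) 0 0 0 0 (by intro C; ring)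
  have e3 := momA_form 3 0 (3 / 8) 0 (1 / 4) 0 0 (3 / 8) (by intro C; ring)
  have e4 := momA_form 4 (8 / 15) 0 (4 / 15) 0 (1 / 5) 0 0 (by intro C; ring)
  have e5 := momA_form 5 0 (5 / 16) 0 (5 / 24) 0 (1 / 6) (5 / 16) (by intro C; ring)
  rw [e0, e1, e2, e3, e4, e5]
  generalize Real.sqrt 3 / π = x at hx1 hx2
  generalize 1 / π ^ 2 = y at hy1 hy2
  refine ⟨?_, ?_, ?_, ?_, ?_, ?_⟩ <;> · rw [abs_le]; norm_num; constructor <;> linarith

end Pool.Agent.SSC3N
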