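import Pool.Agent.SSC3N.Defs

set_option autoImplicit false
open MeasureTheory ProbabilityTheory Set Real
open scoped ENNReal

namespace Pool.Agent.SSC3N
open Pool.Agent.SSC3

private theorem momB_multi (x : ℝ) :
    Real.cos (2 * x) = 2 * Real.cos x ^ 2 - 1 ∧
    Real.sin (2 * x) = Real.sin x * (2 * Real.cos x) ∧
    Real.cos (3 * x) = 4 * Real.cos x ^ 3 - 3 * Real.cos x ∧
    Real.sin (3 * x) = Real.sin x * (4 * Real.cos x ^ 2 - 1) ∧
    Real.cos (4 * x) = 8 * Real.cos x ^ 4 - 8 * Real.cos x ^ 2 + 1 ∧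
    Real.sin (4 * x) = Real.sin x * (8 * Real.cos x ^ 3 - 4 * Real.cos x) ∧
    Real.cos (5 * x) = 16 * Real.cos x ^ 5 - 20 * Real.cos x ^ 3 + 5 * Real.cos x ∧
    Real.sin (5 * x) = Real.sin x * (16 * Real.cos x ^ 4 - 12 * Real.cos x ^ 2 + 1) := by
  have hs : Real.sin x ^ 2 = 1 - Real.cos x ^ 2 := by
    have := Real.sin_sq_add_cos_sq x; linarith
  have c2 : Real.cos (2 * x) = 2 * Real.cos x ^ 2 - 1 := Real.cos_two_mul x
  have s2 : Real.sin (2 * x) = Real.sin x * (2 * Real.cos x) := by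
    rw [Real.sin_two_mul]; ring
  have c3 : Real.cos (3 * x) = 4 * Real.cos x ^ 3 - 3 * Real.cos x := Real.cos_three_mul x
  have s3 : Real.sin (3 * x) = Real.sin x * (4 * Real.cos x ^ 2 - 1) := by
    rw [Real.sin_three_mul]
    have : Real.sin x ^ 3 = Real.sin x * Real.sin x ^ 2 := by ring
    rw [this, hs]; ring
  have c4 : Real.cos (4 * x) = 8 * Real.cos x ^ 4 - 8 * Real.cos x ^ 2 + 1 := by
    rw [show 4 * x = 2 * (2 * x) by ring, Real.cos_two_mul, c2]; ring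
  have s4 : Real.sin (4 * x) = Real.sin x * (8 * Real.cos x ^ 3 - 4 * Real.cos x) := by
    rw [show 4 * x = 2 * (2 * x) by ring, Real.sin_two_mul, c2, s2]; ring
  refine ⟨c2, s2, c3, s3, c4, s4, ?_, ?_⟩
  · rw [show 5 * x = 4 * x + x by ring, Real.cos_add, c4, s4]
    have : Real.sin x * (8 * Real.cos x ^ 3 - 4 * Real.cos x) * Real.sin x
      = Real.sin x ^ 2 * (8 * Real.cos x ^ 3 - 4 * Real.cos x) := by ring
    rw [this, hs]; ring
  · rw [show 5 * x = 4 * x + x by ring, Real.sin_add, c4, s4]; ring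

/-- antiderivative of `(2 + 3 t) cos (2 π j t)` -/
private noncomputable def momBF (j : ℝ) (t : ℝ) : ℝ :=
  (2 + 3 * t) * Real.sin (j * (2 * π * t)) / (j * (2 * π)) +
    3 * Real.cos (j * (2 * π * t)) / (j * (2 * π)) ^ 2

private theorem momBF_deriv {j : ℝ} (hj : j ≠ 0) (t : ℝ) :
    HasDerivAt (momBF j) ((2 + 3 * t) * Real.cos (j * (2 * π * t))) t := by
  have hπ : (π : ℝ) ≠ 0 := Real.pi_ne_zero
  have h1 : HasDerivAt (fun t : ℝ => j * (2 * π * t)) (j * (2 * π)) t := by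
    have := (hasDerivAt_id t).const_mul (2 * π)
    have := this.const_mul j
    simpa using this
  have h2 : HasDerivAt (fun t : ℝ => 2 + 3 * t) 3 t := by
    have := ((hasDerivAt_id t).const_mul (3 : ℝ)).const_add 2
    simpa using this
  have h3 := ((h2.mul h1.sin).div_const (j * (2 * π))).add
    ((h1.cos.const_mul 3).div_const ((j * (2 * π)) ^ 2))
  unfold momBF
  refine h3.congr_deriv ?_
  field_simp
  ring

private theorem momB_int (a b a0 a1 a2 a3 a4 a5 : ℝ) :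
    ∫ t in a..b, (a0 * (2 + 3 * t) + a1 * ((2 + 3 * t) * Real.cos (1 * (2 * π * t))) +
      a2 * ((2 + 3 * t) * Real.cos (2 * (2 * π * t))) +
      a3 * ((2 + 3 * t) * Real.cos (3 * (2 * π * t))) +
      a4 * ((2 + 3 * t) * Real.cos (4 * (2 * π * t))) +
      a5 * ((2 + 3 * t) * Real.cos (5 * (2 * π * t)))) =
    (a0 * (2 * b + 3 / 2 * b ^ 2) + a1 * momBF 1 b + a2 * momBF 2 b + a3 * momBF 3 b +
      a4 * momBF 4 b + a5 * momBF 5 b) -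
    (a0 * (2 * a + 3 / 2 * a ^ 2) + a1 * momBF 1 a + a2 * momBF 2 a + a3 * momBF 3 a +
      a4 * momBF 4 a + a5 * momBF 5 a) := by
  refine intervalIntegral.integral_eq_sub_of_hasDerivAt (f := fun b =>
    a0 * (2 * b + 3 / 2 * b ^ 2) + a1 * momBF 1 b + a2 * momBF 2 b + a3 * momBF 3 b +
      a4 * momBF 4 b + a5 * momBF 5 b) ?_ ?_
  · intro t _
    have h0 : HasDerivAt (fun b : ℝ => 2 * b + 3 / 2 * b ^ 2) (2 + 3 * t) t := by
      have h1 := (hasDerivAt_id t).const_mul (2 : ℝ)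
      have h2 := (hasDerivAt_pow 2 t).const_mul (3 / 2 : ℝ)
      refine (h1.add h2).congr_deriv ?_
      simp; ring
    exact (((((h0.const_mul a0).add ((momBF_deriv one_ne_zero t).const_mul a1)).add
      ((momBF_deriv two_ne_zero t).const_mul a2)).add
      ((momBF_deriv three_ne_zero t).const_mul a3)).add
      ((momBF_deriv four_ne_zero t).const_mul a4)).add
      ((momBF_deriv (by norm_num : (5 : ℝ) ≠ 0) t).const_mul a5)
  · apply Continuous.intervalIntegrable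
    fun_prop

private theorem momB_val13 :
    Real.cos (2 * π * (1 / 3)) = -(1 / 2) ∧ Real.sin (2 * π * (1 / 3)) = √3 / 2 := by
  have h : 2 * π * (1 / 3) = π - π / 3 := by ring
  constructor
  · rw [h, Real.cos_pi_sub, Real.cos_pi_div_three]
  · rw [h, Real.sin_pi_sub, Real.sin_pi_div_three]

private theorem momB_val14 :
    Real.cos (2 * π * (1 / 4)) = 0 ∧ Real.sin (2 * π * (1 / 4)) = 1 := by
  have h : 2 * π * (1 / 4) = π / 2 := by ring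
  constructor
  · rw [h, Real.cos_pi_div_two]
  · rw [h, Real.sin_pi_div_two]

private theorem momB_F13 :
    momBF 1 (1 / 3) = 3 * (√3 / 2) / (2 * π) - (3 / 2) / (2 * π) ^ 2 ∧
    momBF 2 (1 / 3) = -(3 * (√3 / 2)) / (2 * (2 * π)) - (3 / 2) / (2 * (2 * π)) ^ 2 ∧
    momBF 3 (1 / 3) = 3 / (3 * (2 * π)) ^ 2 ∧
    momBF 4 (1 / 3) = 3 * (√3 / 2) / (4 * (2 * π)) - (3 / 2) / (4 * (2 * π)) ^ 2 ∧
    momBF 5 (1 / 3) = -(3 * (√3 / 2)) / (5 * (2 * π)) - (3 / 2) / (5 * (2 * π)) ^ 2 := by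
  obtain ⟨c2, s2, c3, s3, c4, s4, c5, s5⟩ := momB_multi (2 * π * (1 / 3))
  obtain ⟨hc, hs⟩ := momB_val13
  have hπ : (π : ℝ) ≠ 0 := Real.pi_ne_zero
  unfold momBF
  rw [one_mul, c2, s2, c3, s3, c4, s4, c5, s5, hc, hs]
  refine ⟨?_, ?_, ?_, ?_, ?_⟩ <;> ring

private theorem momB_F14 :
    momBF 1 (1 / 4) = 11 / 4 / (2 * π) ∧
    momBF 2 (1 / 4) = -3 / (2 * (2 * π)) ^ 2 ∧
    momBF 3 (1 / 4) = -(11 / 4) / (3 * (2 * π)) ∧
    momBF 4 (1 / 4) = 3 / (4 * (2 * π)) ^ 2 ∧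
    momBF 5 (1 / 4) = 11 / 4 / (5 * (2 * π)) := by
  obtain ⟨c2, s2, c3, s3, c4, s4, c5, s5⟩ := momB_multi (2 * π * (1 / 4))
  obtain ⟨hc, hs⟩ := momB_val14
  unfold momBF
  rw [one_mul, c2, s2, c3, s3, c4, s4, c5, s5, hc, hs]
  refine ⟨?_, ?_, ?_, ?_, ?_⟩ <;> ring

private theorem momB_pi : 0.31830988618 ≤ π⁻¹ ∧ π⁻¹ ≤ 0.31830988619 := by
  have h1 := Real.pi_gt_d20
  have h2 := Real.pi_lt_d20
  constructor
  · rw [le_inv_comm₀ (by norm_num) Real.pi_pos]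
    refine h2.le.trans (by norm_num)
  · rw [inv_le_comm₀ Real.pi_pos (by norm_num)]
    refine le_trans (by norm_num) h1.le

private theorem momB_s3 : 1.73205080756 ≤ √3 ∧ √3 ≤ 1.73205080757 := by
  constructor
  · apply Real.le_sqrt_of_sq_le; norm_num
  · rw [Real.sqrt_le_left (by norm_num)]; norm_num

private theorem momB_prods :
    0.5513288954 ≤ √3 * π⁻¹ ∧ √3 * π⁻¹ ≤ 0.5513288955 ∧
    0.1013211836 ≤ π⁻¹ ^ 2 ∧ π⁻¹ ^ 2 ≤ 0.1013211837 := by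
  obtain ⟨a1, a2⟩ := momB_pi
  obtain ⟨b1, b2⟩ := momB_s3
  refine ⟨?_, ?_, ?_, ?_⟩
  · refine le_trans ?_ (mul_le_mul b1 a1 (by norm_num) (by positivity))
    norm_num
  · refine (mul_le_mul b2 a2 (by positivity) (by norm_num)).trans ?_
    norm_num
  · refine le_trans ?_ (pow_le_pow_left₀ (by norm_num) a1 2)
    norm_num
  · refine (pow_le_pow_left₀ (by positivity) a2 2).trans ?_
    norm_num

private theorem momB_cast (k : ℕ) (a0 a1 a2 a3 a4 a5 : ℝ)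
    (h : ∀ t : ℝ, (-Real.cos (2 * π * t)) ^ k = a0 + a1 * Real.cos (1 * (2 * π * t)) +
      a2 * Real.cos (2 * (2 * π * t)) + a3 * Real.cos (3 * (2 * π * t)) +
      a4 * Real.cos (4 * (2 * π * t)) + a5 * Real.cos (5 * (2 * π * t))) :
    mB k = (a0 * (2 * (1 / 3) + 3 / 2 * (1 / 3) ^ 2) +
      a1 * (3 * (√3 / 2) / (2 * π) - (3 / 2) / (2 * π) ^ 2) +
      a2 * (-(3 * (√3 / 2)) / (2 * (2 * π)) - (3 / 2) / (2 * (2 * π)) ^ 2) +
      a3 * (3 / (3 * (2 * π)) ^ 2) +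
      a4 * (3 * (√3 / 2) / (4 * (2 * π)) - (3 / 2) / (4 * (2 * π)) ^ 2) +
      a5 * (-(3 * (√3 / 2)) / (5 * (2 * π)) - (3 / 2) / (5 * (2 * π)) ^ 2)) -
      (a0 * (2 * (1 / 4) + 3 / 2 * (1 / 4) ^ 2) + a1 * (11 / 4 / (2 * π)) +
      a2 * (-3 / (2 * (2 * π)) ^ 2) + a3 * (-(11 / 4) / (3 * (2 * π))) +
      a4 * (3 / (4 * (2 * π)) ^ 2) + a5 * (11 / 4 / (5 * (2 * π)))) + (1 / 2) ^ k / 6 := by
  unfold mB
  obtain ⟨x1, x2, x3, x4, x5⟩ := momB_F13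
  obtain ⟨y1, y2, y3, y4, y5⟩ := momB_F14
  rw [← x1, ← x2, ← x3, ← x4, ← x5, ← y1, ← y2, ← y3, ← y4, ← y5, ← momB_int]
  congr 1
  apply intervalIntegral.integral_congr
  intro t _
  show (2 + 3 * t) * (-Real.cos (2 * π * t)) ^ k = _
  rw [h t]
  ring

/-! ## [N5] -/
theorem mB_bounds : mB 0 = 0.40625 ∧ |mB 1 - 0.145508| ≤ 0.000001 ∧
    |mB 2 - 0.062834| ≤ 0.000001 ∧ |mB 3 - 0.028881| ≤ 0.000001 ∧
    |mB 4 - 0.013667| ≤ 0.000001 ∧ |mB 5 - 0.006572| ≤ 0.000001 := by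
  obtain ⟨p1, p2, p3, p4⟩ := momB_prods
  obtain ⟨q1, q2⟩ := momB_pi
  have hd : ∀ (x c : ℝ), x / (c * π) = x / c * π⁻¹ := by
    intro x c
    rw [div_mul_eq_div_div, div_eq_mul_inv (x / c)]
  refine ⟨?_, ?_, ?_, ?_, ?_, ?_⟩
  · rw [momB_cast 0 1 0 0 0 0 0 (by intro t; simp)]
    norm_num
  · have e : mB 1 = _ := momB_cast 1 0 (-1) 0 0 0 0 (by intro t; rw [one_mul]; ring)
    have e' : mB 1 = -(3 / 4 * (√3 * π⁻¹)) + 3 / 8 * π⁻¹ ^ 2 + 11 / 8 * π⁻¹ + 1 / 12 := by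
      rw [e]; simp only [div_eq_mul_inv, mul_inv, mul_pow, inv_pow]; ring
    rw [e', abs_le]
    constructor <;> linarith
  · have e : mB 2 = _ := momB_cast 2 (1 / 2) 0 (1 / 2) 0 0 0 (by
      intro t
      obtain ⟨c2, s2, c3, s3, c4, s4, c5, s5⟩ := momB_multi (2 * π * t)
      rw [c2]; ring)
    have e' : mB 2 = 1 / 2 * (5 / 6 - 19 / 32) + 1 / 2 * (-(3 / 8 * (√3 * π⁻¹)) - 3 / 32 * π⁻¹ ^ 2
        + 3 / 16 * π⁻¹ ^ 2) + 1 / 24 := by
      rw [e]; simp only [div_eq_mul_inv, mul_inv, mul_pow, inv_pow]; ring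
    rw [e', abs_le]
    constructor <;> linarith
  · have e : mB 3 = _ := momB_cast 3 0 (-(3 / 4)) 0 (-(1 / 4)) 0 0 (by
      intro t
      obtain ⟨c2, s2, c3, s3, c4, s4, c5, s5⟩ := momB_multi (2 * π * t)
      rw [c3, one_mul]; ring)
    have e' : mB 3 = -(3 / 4) * ((3 / 4 * (√3 * π⁻¹)) - 3 / 8 * π⁻¹ ^ 2 - 11 / 8 * π⁻¹)
        - 1 / 4 * (1 / 12 * π⁻¹ ^ 2 + 11 / 24 * π⁻¹) + 1 / 48 := by
      rw [e]; simp only [div_eq_mul_inv, mul_inv, mul_pow, inv_pow]; ring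
    rw [e', abs_le]
    constructor <;> linarith
  · have e : mB 4 = _ := momB_cast 4 (3 / 8) 0 (1 / 2) 0 (1 / 8) 0 (by
      intro t
      obtain ⟨c2, s2, c3, s3, c4, s4, c5, s5⟩ := momB_multi (2 * π * t)
      rw [c2, c4]; ring)
    have e' : mB 4 = 3 / 8 * (5 / 6 - 19 / 32) + 1 / 2 * (-(3 / 8 * (√3 * π⁻¹)) - 3 / 32 * π⁻¹ ^ 2
        + 3 / 16 * π⁻¹ ^ 2) + 1 / 8 * ((3 / 16 * (√3 * π⁻¹)) - 3 / 128 * π⁻¹ ^ 2
        - 3 / 64 * π⁻¹ ^ 2) + 1 / 96 := by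
      rw [e]; simp only [div_eq_mul_inv, mul_inv, mul_pow, inv_pow]; ring
    rw [e', abs_le]
    constructor <;> linarith
  · have e : mB 5 = _ := momB_cast 5 0 (-(5 / 8)) 0 (-(5 / 16)) 0 (-(1 / 16)) (by
      intro t
      obtain ⟨c2, s2, c3, s3, c4, s4, c5, s5⟩ := momB_multi (2 * π * t)
      rw [c3, c5, one_mul]; ring)
    have e' : mB 5 = -(5 / 8) * ((3 / 4 * (√3 * π⁻¹)) - 3 / 8 * π⁻¹ ^ 2 - 11 / 8 * π⁻¹)
        - 5 / 16 * (1 / 12 * π⁻¹ ^ 2 + 11 / 24 * π⁻¹)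
        - 1 / 16 * (-(3 / 20 * (√3 * π⁻¹)) - 3 / 200 * π⁻¹ ^ 2 - 11 / 40 * π⁻¹) + 1 / 192 := by
      rw [e]; simp only [div_eq_mul_inv, mul_inv, mul_pow, inv_pow]; ring
    rw [e', abs_le]
    constructor <;> linarith

end Pool.Agent.SSC3N
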