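import Pool.Agent.SSC3N.DDrow
import Pool.Agent.SSC3N.CLower
import Pool.Agent.SSC3N.CUpper
import Pool.Agent.SSC3N.T4Schur

set_option autoImplicit false
open MeasureTheory ProbabilityTheory Set Real
open scoped ENNReal

namespace Pool.Agent.SSC3N
open Pool.Agent.SSC3

/-! ### moments of `nu` -/

theorem re0_sqrt_lt : Real.sqrt (π / 2) ≤ 1.25332 := by
  have h := Real.pi_lt_d6
  rw [Real.sqrt_le_left (by norm_num)]
  nlinarith

theorem re0_pow (k : ℕ) : ∫ u, u ^ k ∂nu = Jc (k + 1) ∧ Integrable (fun u : ℝ => u ^ k) nu := by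
  have h := integral_Jc (k + 1) 1 one_pos
  have e : ∀ u : ℝ, u ^ (k + 1) * Real.exp (-(1 * u ^ 2 / 2)) =
      u ^ k * (u * Real.exp (-(u ^ 2 / 2))) := by
    intro u; rw [one_mul]; ring
  constructor
  · rw [integral_nu]
    have h1 := h.1
    simp only [e, one_rpow, mul_one] at h1
    exact h1
  · rw [integrable_nu_iff _ (by fun_prop)]
    have h2 := h.2
    simp only [e] at h2
    exact h2

theorem re0_inv : ∫ u, u⁻¹ ∂nu = Real.sqrt (π / 2) ∧ Integrable (fun u : ℝ => u⁻¹) nu := by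
  have h := integral_Jc 0 1 one_pos
  have e : ∀ u ∈ Ioi (0:ℝ), u ^ 0 * Real.exp (-(1 * u ^ 2 / 2)) =
      u⁻¹ * (u * Real.exp (-(u ^ 2 / 2))) := by
    intro u hu
    have : u ≠ 0 := ne_of_gt hu
    field_simp
  constructor
  · rw [integral_nu, ← setIntegral_congr_fun measurableSet_Ioi e]
    rw [h.1]; simp [Jc]
  · rw [integrable_nu_iff _ (by fun_prop)]
    exact h.2.congr_fun e measurableSet_Ioi

theorem re0_one : ∫ u, u ∂nu = Real.sqrt (π / 2) ∧ Integrable (fun u : ℝ => u) nu := by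
  have h := re0_pow 1
  simp only [pow_one] at h
  refine ⟨?_, h.2⟩
  rw [h.1]; simp [Jc]

theorem re0_three : ∫ u, u ^ 3 ∂nu = 3 * Real.sqrt (π / 2) ∧
    Integrable (fun u : ℝ => u ^ 3) nu := by
  have h := re0_pow 3
  refine ⟨?_, h.2⟩
  rw [h.1]; simp [Jc]; norm_num

/-! ### Cauchy-Schwarz -/

theorem re0_int_sq (f : ℝ → ℝ) (hf : Measurable f) (M : ℝ) (hb : ∀ u, |f u| ≤ M) :
    Integrable (fun u => u * (f u) ^ 2) nu := by
  have h1 := re0_one.2.const_mul (M ^ 2)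
  refine h1.mono (by fun_prop) ?_
  filter_upwards [nu_pos] with u hu
  have hM : 0 ≤ M := (abs_nonneg _).trans (hb u)
  have h2 : (f u) ^ 2 ≤ M ^ 2 := by
    rw [← sq_abs]; exact pow_le_pow_left₀ (abs_nonneg _) (hb u) 2
  rw [Real.norm_eq_abs, Real.norm_eq_abs, abs_of_nonneg (by positivity),
    abs_of_nonneg (by positivity)]
  nlinarith

theorem re0_int_mul (f h : ℝ → ℝ) (hf : Measurable f) (hh : Measurable h) (M : ℝ)
    (hb : ∀ u, |f u| ≤ M) (hi : Integrable (fun u => (h u) ^ 2 / u) nu) :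
    Integrable (fun u => h u * f u) nu := by
  have h1 := hi.add (re0_int_sq f hf M hb)
  refine h1.mono (by fun_prop) ?_
  filter_upwards [nu_pos] with u hu
  have hpos : 0 ≤ (h u) ^ 2 / u + u * (f u) ^ 2 := by positivity
  simp only [Pi.add_apply]
  rw [Real.norm_eq_abs, Real.norm_eq_abs, abs_of_nonneg hpos, abs_le]
  have e : (h u) ^ 2 / u + u * (f u) ^ 2 = u * ((h u / u) ^ 2 + (f u) ^ 2) := by
    field_simp
  have e2 : h u * f u = u * ((h u / u) * f u) := by field_simp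
  rw [e, e2, ← mul_neg]
  constructor
  · apply mul_le_mul_of_nonneg_left _ hu.le
    nlinarith [sq_nonneg (h u / u + f u), sq_nonneg (h u / u), sq_nonneg (f u)]
  · apply mul_le_mul_of_nonneg_left _ hu.le
    nlinarith [sq_nonneg (h u / u - f u), sq_nonneg (h u / u), sq_nonneg (f u)]

theorem re0_cs (f h : ℝ → ℝ) (hf : Measurable f) (hh : Measurable h) (M : ℝ)
    (hb : ∀ u, |f u| ≤ M) (hi : Integrable (fun u => (h u) ^ 2 / u) nu) :
    (∫ u, h u * f u ∂nu) ^ 2 ≤ (∫ u, (h u) ^ 2 / u ∂nu) * ∫ u, u * (f u) ^ 2 ∂nu := by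
  have h1 := re0_int_sq f hf M hb
  have h2 := re0_int_mul f h hf hh M hb hi
  have key : ∀ t : ℝ, 0 ≤ (∫ u, u * (f u) ^ 2 ∂nu) * (t * t) + (2 * ∫ u, h u * f u ∂nu) * t +
      ∫ u, (h u) ^ 2 / u ∂nu := by
    intro t
    have e : (∫ u, u * (f u) ^ 2 ∂nu) * (t * t) + (2 * ∫ u, h u * f u ∂nu) * t +
      ∫ u, (h u) ^ 2 / u ∂nu = ∫ u, ((t * t) * (u * (f u) ^ 2) + (2 * t) * (h u * f u) +
        (h u) ^ 2 / u) ∂nu := by
      rw [integral_add, integral_add, integral_const_mul, integral_const_mul]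
      · ring
      · exact h1.const_mul _
      · exact h2.const_mul _
      · exact (h1.const_mul _).add (h2.const_mul _)
      · exact hi
    rw [e]
    apply integral_nonneg_of_ae
    filter_upwards [nu_pos] with u hu
    have e3 : (t * t) * (u * (f u) ^ 2) + (2 * t) * (h u * f u) + (h u) ^ 2 / u =
      u * (t * f u + h u / u) ^ 2 := by field_simp; ring
    simp only [Pi.zero_apply]
    rw [e3]; positivity
  have := discrim_le_zero key
  unfold discrim at this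
  nlinarith

/-! ### the approximation of the form -/

theorem re0_prod_pos : ∀ᵐ z ∂(nu.prod nu), 0 < z.1 ∧ 0 < z.2 := by
  have := nu_prob
  have h1 : ∀ᵐ z ∂(nu.prod nu), 0 < z.1 :=
    Measure.quasiMeasurePreserving_fst.ae nu_pos
  have h2 : ∀ᵐ z ∂(nu.prod nu), 0 < z.2 :=
    Measure.quasiMeasurePreserving_snd.ae nu_pos
  filter_upwards [h1, h2] with z a b using ⟨a, b⟩

theorem re0_exp_le (τ u v : ℝ) (h1 : τ ≤ 1 / 2) (hu : 0 < u) (hv : 0 < v) :
    Real.exp (τ * u * v / 2) ≤ Real.exp ((u ^ 2 + v ^ 2) / 4) := by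
  apply Real.exp_le_exp.2
  have : τ * u * v ≤ 1 / 2 * (u * v) := by
    rw [mul_assoc]; exact mul_le_mul_of_nonneg_right h1 (by positivity)
  nlinarith [sq_nonneg (u - v), sq_nonneg u, sq_nonneg v]

theorem re0_int_c (τ : ℝ) (h0 : 0 < τ) (h1 : τ ≤ 1 / 2) (f g : ℝ → ℝ) (hf : Measurable f)
    (hg : Measurable g) (M : ℝ)
    (hb : ∀ u, |f u| ≤ M) (hgb : ∀ u, |g u| ≤ M) :
    Integrable (fun z : ℝ × ℝ => cF (τ * z.1 * z.2) * (f z.1 * g z.2)) (nu.prod nu) := by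
  have hm : Measurable cF := continuous_cF.measurable
  refine integrable_nu_prod _ (by fun_prop) (M * M) ?_
  intro u v hu hv
  have hM : 0 ≤ M := (abs_nonneg _).trans (hb u)
  have hl : 0 ≤ τ * u * v := by positivity
  simp only
  rw [abs_mul, abs_mul, abs_of_nonneg (cF_nonneg _), mul_comm]
  have h2 := (cF_le _ hl).trans (re0_exp_le τ u v h1 hu hv)
  exact mul_le_mul (mul_le_mul (hb u) (hgb v) (abs_nonneg _) hM) h2 (cF_nonneg _) (by positivity)

theorem re0_int_T (τ : ℝ) (h0 : 0 < τ) (h1 : τ ≤ 1 / 2) (f g : ℝ → ℝ) (hf : Measurable f)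
    (hg : Measurable g) (M : ℝ)
    (hb : ∀ u, |f u| ≤ M) (hgb : ∀ u, |g u| ≤ M) :
    Integrable (fun z : ℝ × ℝ => T4 (τ * z.1 * z.2) * (f z.1 * g z.2)) (nu.prod nu) := by
  have hm : Measurable T4 := by unfold T4; fun_prop
  refine integrable_nu_prod _ (by fun_prop) (M * M) ?_
  intro u v hu hv
  have hM : 0 ≤ M := (abs_nonneg _).trans (hb u)
  have hl : 0 ≤ τ * u * v := by positivity
  simp only
  rw [abs_mul, abs_mul, abs_of_nonneg (T4_nonneg _), mul_comm]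
  have h2 := (T4_le _ hl).trans (re0_exp_le τ u v h1 hu hv)
  exact mul_le_mul (mul_le_mul (hb u) (hgb v) (abs_nonneg _) hM) h2 (T4_nonneg _) (by positivity)

theorem re0_int_pf (k : ℕ) (f : ℝ → ℝ) (hf : Measurable f) (M : ℝ) (hb : ∀ u, |f u| ≤ M) :
    Integrable (fun u => u ^ k * f u) nu := by
  have h1 := (re0_pow k).2.const_mul M
  refine h1.mono (by fun_prop) ?_
  filter_upwards [nu_pos] with u hu
  have hM : 0 ≤ M := (abs_nonneg _).trans (hb u)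
  rw [Real.norm_eq_abs, Real.norm_eq_abs, abs_mul, abs_mul, abs_of_nonneg hM, mul_comm]
  exact mul_le_mul_of_nonneg_right (hb u) (abs_nonneg _)

theorem re0_int_pp (k : ℕ) (f : ℝ → ℝ) (hf : Measurable f) (M : ℝ) (hb : ∀ u, |f u| ≤ M) :
    Integrable (fun z : ℝ × ℝ => (z.1 ^ k * f z.1) * (z.2 ^ k * f z.2)) (nu.prod nu) ∧
    ∫ z : ℝ × ℝ, (z.1 ^ k * f z.1) * (z.2 ^ k * f z.2) ∂(nu.prod nu) =
      (∫ u, u ^ k * f u ∂nu) ^ 2 := by
  have := nu_prob
  have h := re0_int_pf k f hf M hb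
  refine ⟨h.mul_prod h, ?_⟩
  rw [integral_prod_mul (fun u => u ^ k * f u) (fun u => u ^ k * f u)]
  ring

/-- the quadratic form with kernel `c` is close to a form of rank three -/
theorem re0_form (τ : ℝ) (h0 : 0 < τ) (h1 : τ ≤ 1 / 2) (f : ℝ → ℝ) (hf : Measurable f) (M : ℝ)
    (hb : ∀ u, |f u| ≤ M) :
    |(∫ u, ∫ v, cF (τ * u * v) * (f u * f v) ∂nu ∂nu) -
      ((∫ u, f u ∂nu) ^ 2 - 0.2 * τ * (∫ u, u * f u ∂nu) ^ 2 +
        0.1125 * τ ^ 2 * (∫ u, u ^ 2 * f u ∂nu) ^ 2)| ≤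
      (0.0250664 * τ + 0.0282 * τ ^ 2 + 0.261 * τ ^ 4) * ∫ u, u * (f u) ^ 2 ∂nu := by
  have := nu_prob
  set X := ∫ u, u * (f u) ^ 2 ∂nu with hX
  have hfa : Measurable (fun u => |f u|) := by fun_prop
  have hba : ∀ u, |(fun u => |f u|) u| ≤ M := by intro u; simpa using hb u
  have ic := re0_int_c τ h0 h1 f f hf hf M hb hb
  have iT := re0_int_T τ h0 h1 _ _ hfa hfa M hba hba
  have p0 := re0_int_pp 0 f hf M hb
  have p1 := re0_int_pp 1 f hf M hb
  have p2 := re0_int_pp 2 f hf M hb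
  have a1 := re0_int_pp 1 _ hfa M hba
  have a2 := re0_int_pp 2 _ hfa M hba
  simp only [pow_zero, one_mul, pow_one] at p0 p1 a1
  have hT := T4_schur τ h0 h1 f hf M hb
  have eT : ∫ u, ∫ v, T4 (τ * u * v) * (|f u| * |f v|) ∂nu ∂nu =
      ∫ z : ℝ × ℝ, T4 (τ * z.1 * z.2) * (|f z.1| * |f z.2|) ∂(nu.prod nu) :=
    (integral_prod _ iT).symm
  have ec : ∫ u, ∫ v, cF (τ * u * v) * (f u * f v) ∂nu ∂nu =
      ∫ z : ℝ × ℝ, cF (τ * z.1 * z.2) * (f z.1 * f z.2) ∂(nu.prod nu) :=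
    (integral_prod _ ic).symm
  have hX0 : 0 ≤ X := by
    apply integral_nonneg_of_ae
    filter_upwards [nu_pos] with u hu
    simp only [Pi.zero_apply]; positivity
  -- Cauchy-Schwarz bounds
  have c1 : (∫ u, u * |f u| ∂nu) ^ 2 ≤ 1.25332 * X := by
    have e : ∀ᵐ u ∂nu, (u:ℝ) = u ^ 2 / u := by
      filter_upwards [nu_pos] with u hu; field_simp
    have hi : Integrable (fun u : ℝ => u ^ 2 / u) nu := re0_one.2.congr e
    have h2 := re0_cs (fun u => |f u|) (fun u => u) hfa (by fun_prop) M hba hi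
    have h3 : ∫ u, (u:ℝ) ^ 2 / u ∂nu = Real.sqrt (π / 2) := by
      rw [← re0_one.1]; exact (integral_congr_ae e).symm
    simp only [sq_abs] at h2
    rw [h3] at h2
    exact h2.trans (mul_le_mul_of_nonneg_right re0_sqrt_lt hX0)
  have c2 : (∫ u, u ^ 2 * |f u| ∂nu) ^ 2 ≤ 3 * 1.25332 * X := by
    have e : ∀ᵐ u ∂nu, (u:ℝ) ^ 3 = (u ^ 2) ^ 2 / u := by
      filter_upwards [nu_pos] with u hu; field_simp
    have hi : Integrable (fun u : ℝ => (u ^ 2) ^ 2 / u) nu := re0_three.2.congr e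
    have h2 := re0_cs (fun u => |f u|) (fun u => u ^ 2) hfa (by fun_prop) M hba hi
    have h3 : ∫ u, ((u:ℝ) ^ 2) ^ 2 / u ∂nu = 3 * Real.sqrt (π / 2) := by
      rw [← re0_three.1]; exact (integral_congr_ae e).symm
    simp only [sq_abs] at h2
    rw [h3] at h2
    refine h2.trans (mul_le_mul_of_nonneg_right ?_ hX0)
    linarith [re0_sqrt_lt]
  -- the main comparison
  set P : ℝ × ℝ → ℝ := fun z => (f z.1 * f z.2) - 0.2 * τ * ((z.1 * f z.1) * (z.2 * f z.2)) +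
    0.1125 * τ ^ 2 * ((z.1 ^ 2 * f z.1) * (z.2 ^ 2 * f z.2)) with hP
  set Q : ℝ × ℝ → ℝ := fun z => 0.02 * τ * ((z.1 * |f z.1|) * (z.2 * |f z.2|)) +
    0.0075 * τ ^ 2 * ((z.1 ^ 2 * |f z.1|) * (z.2 ^ 2 * |f z.2|)) +
    0.45 * (T4 (τ * z.1 * z.2) * (|f z.1| * |f z.2|)) with hQ
  have iP : Integrable P (nu.prod nu) :=
    (p0.1.sub (p1.1.const_mul _)).add (p2.1.const_mul _)
  have iQ : Integrable Q (nu.prod nu) :=
    ((a1.1.const_mul _).add (a2.1.const_mul _)).add (iT.const_mul _)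
  have eP : ∫ z, P z ∂(nu.prod nu) = (∫ u, f u ∂nu) ^ 2 - 0.2 * τ * (∫ u, u * f u ∂nu) ^ 2 +
        0.1125 * τ ^ 2 * (∫ u, u ^ 2 * f u ∂nu) ^ 2 := by
    have s1 : Integrable (fun z : ℝ × ℝ => 0.2 * τ * ((z.1 * f z.1) * (z.2 * f z.2)))
      (nu.prod nu) := p1.1.const_mul _
    have s2 : Integrable (fun z : ℝ × ℝ => 0.1125 * τ ^ 2 * ((z.1 ^ 2 * f z.1) *
      (z.2 ^ 2 * f z.2))) (nu.prod nu) := p2.1.const_mul _
    have s3 : Integrable (fun z : ℝ × ℝ => (f z.1 * f z.2) -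
      0.2 * τ * ((z.1 * f z.1) * (z.2 * f z.2))) (nu.prod nu) := p0.1.sub s1
    simp only [hP]
    rw [integral_add s3 s2, integral_sub p0.1 s1, integral_const_mul, integral_const_mul,
      p0.2, p1.2, p2.2]
  have eQ : ∫ z, Q z ∂(nu.prod nu) = 0.02 * τ * (∫ u, u * |f u| ∂nu) ^ 2 +
        0.0075 * τ ^ 2 * (∫ u, u ^ 2 * |f u| ∂nu) ^ 2 +
        0.45 * ∫ u, ∫ v, T4 (τ * u * v) * (|f u| * |f v|) ∂nu ∂nu := by
    have s1 : Integrable (fun z : ℝ × ℝ => 0.02 * τ * ((z.1 * |f z.1|) * (z.2 * |f z.2|)))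
      (nu.prod nu) := a1.1.const_mul _
    have s2 : Integrable (fun z : ℝ × ℝ => 0.0075 * τ ^ 2 * ((z.1 ^ 2 * |f z.1|) *
      (z.2 ^ 2 * |f z.2|))) (nu.prod nu) := a2.1.const_mul _
    have s3 : Integrable (fun z : ℝ × ℝ => 0.02 * τ * ((z.1 * |f z.1|) * (z.2 * |f z.2|)) +
      0.0075 * τ ^ 2 * ((z.1 ^ 2 * |f z.1|) * (z.2 ^ 2 * |f z.2|))) (nu.prod nu) := s1.add s2
    have s4 : Integrable (fun z : ℝ × ℝ => 0.45 * (T4 (τ * z.1 * z.2) * (|f z.1| * |f z.2|)))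
      (nu.prod nu) := iT.const_mul _
    simp only [hQ]
    rw [integral_add s3 s4, integral_add s1 s2, integral_const_mul,
      integral_const_mul, integral_const_mul, a1.2, a2.2, eT]
  have hQle : ∫ z, Q z ∂(nu.prod nu) ≤ (0.0250664 * τ + 0.0282 * τ ^ 2 + 0.261 * τ ^ 4) * X := by
    rw [eQ]
    have t1 : 0.02 * τ * (∫ u, u * |f u| ∂nu) ^ 2 ≤ 0.02 * τ * (1.25332 * X) :=
      mul_le_mul_of_nonneg_left c1 (by positivity)
    have t2 : 0.0075 * τ ^ 2 * (∫ u, u ^ 2 * |f u| ∂nu) ^ 2 ≤ 0.0075 * τ ^ 2 * (3 * 1.25332 * X) :=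
      mul_le_mul_of_nonneg_left c2 (by positivity)
    have q : 0 ≤ τ ^ 2 * X := by positivity
    nlinarith
  have hle : ∀ᵐ z ∂(nu.prod nu), |cF (τ * z.1 * z.2) * (f z.1 * f z.2) - P z| ≤ Q z := by
    filter_upwards [re0_prod_pos] with z hz
    obtain ⟨u, v⟩ := z
    obtain ⟨hu, hv⟩ := hz
    simp only at hu hv
    have hl : 0 ≤ τ * u * v := by positivity
    have k1 := cF_lower _ hl
    have k2 := cF_upper _ hl
    have k3 := T4_nonneg (τ * u * v)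
    have e1 : cF (τ * u * v) * (f u * f v) - P (u, v) =
        (cF (τ * u * v) - (1 - 0.2 * (τ * u * v) + 0.1125 * (τ * u * v) ^ 2)) * (f u * f v) := by
      simp only [hP]; ring
    have e2 : Q (u, v) = (0.02 * (τ * u * v) + 0.0075 * (τ * u * v) ^ 2 + 0.45 * T4 (τ * u * v)) *
        |f u * f v| := by
      simp only [hQ, abs_mul]; ring
    simp only
    rw [e1, e2, abs_mul]
    generalize τ * u * v = l at *
    have k4 : |cF l - (1 - 0.2 * l + 0.1125 * l ^ 2)| ≤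
        0.02 * l + 0.0075 * l ^ 2 + 0.45 * T4 l := by
      rw [abs_le]
      constructor <;> linarith
    exact mul_le_mul_of_nonneg_right k4 (abs_nonneg _)
  have hfin : |∫ z : ℝ × ℝ, (cF (τ * z.1 * z.2) * (f z.1 * f z.2) - P z) ∂(nu.prod nu)| ≤
      ∫ z, Q z ∂(nu.prod nu) := by
    refine (abs_integral_le_integral_abs).trans ?_
    exact integral_mono_ae (ic.sub iP).abs iQ hle
  rw [integral_sub ic iP, eP, ← ec] at hfin
  exact hfin.trans hQle

theorem re0_DD (τ : ℝ) (h0 : 0 < τ) (h1 : τ ≤ 1 / 2) (f : ℝ → ℝ) (hf : Measurable f) (M : ℝ)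
    (hb : ∀ u, |f u| ≤ M) :
    Integrable (fun u => DD τ u * (f u) ^ 2) nu ∧
    0.187 * τ * (∫ u, u * (f u) ^ 2 ∂nu) ≤ ∫ u, DD τ u * (f u) ^ 2 ∂nu := by
  have hm := DD_measurable τ
  have hi : Integrable (fun u => DD τ u * (f u) ^ 2) nu := by
    refine integrable_nu _ (by fun_prop) (4 * M ^ 2) ?_
    intro u hu
    have h2 := DD_ge τ u h0 h1 hu
    have h3 := DD_le τ u h0 h1 hu
    have h4 : 0 ≤ DD τ u := le_trans (by positivity) h2
    have h5 : (f u) ^ 2 ≤ M ^ 2 := by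
      rw [← sq_abs]; exact pow_le_pow_left₀ (abs_nonneg _) (hb u) 2
    rw [abs_of_nonneg (by positivity)]
    calc DD τ u * (f u) ^ 2 ≤ (4 * Real.exp (u ^ 2 / 4)) * M ^ 2 :=
          mul_le_mul h3 h5 (sq_nonneg _) (by positivity)
      _ = 4 * M ^ 2 * Real.exp (u ^ 2 / 4) := by ring
  refine ⟨hi, ?_⟩
  rw [← integral_const_mul]
  refine integral_mono_ae ((re0_int_sq f hf M hb).const_mul _) hi ?_
  filter_upwards [nu_pos] with u hu
  have h2 := DD_ge τ u h0 h1 hu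
  calc 0.187 * τ * (u * (f u) ^ 2) = (0.187 * (τ * u)) * (f u) ^ 2 := by ring
    _ ≤ DD τ u * (f u) ^ 2 := mul_le_mul_of_nonneg_right h2 (sq_nonneg _)

/-! ## [R2] uses cF_lower, cF_upper, T4_schur, DD_ge -/
theorem E0 (τ : ℝ) (h0 : 0 < τ) (h1 : τ ≤ 1 / 2) (f : ℝ → ℝ) (hf : Measurable f) (M : ℝ)
    (hb : ∀ u, |f u| ≤ M) :
    0 ≤ (∫ u, ∫ v, cF (τ * u * v) * (f u * f v) ∂nu ∂nu) + ∫ u, DD τ u * (f u) ^ 2 ∂nu := by
  have := nu_prob
  have hA := re0_form τ h0 h1 f hf M hb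
  have hD := (re0_DD τ h0 h1 f hf M hb).2
  set X := ∫ u, u * (f u) ^ 2 ∂nu with hX
  set C := ∫ u, ∫ v, cF (τ * u * v) * (f u * f v) ∂nu ∂nu
  set F0 := ∫ u, f u ∂nu with hF0
  set F1 := ∫ u, u * f u ∂nu with hF1
  set F2 := ∫ u, u ^ 2 * f u ∂nu with hF2
  have hX0 : 0 ≤ X := by
    apply integral_nonneg_of_ae
    filter_upwards [nu_pos] with u hu
    simp only [Pi.zero_apply]; positivity
  -- F1 = A + 0.8 F0
  have i0 : Integrable f nu := by simpa using re0_int_pf 0 f hf M hb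
  have i1 : Integrable (fun u => u * f u) nu := by simpa using re0_int_pf 1 f hf M hb
  have hi : Integrable (fun u : ℝ => (u - 0.8) ^ 2 / u) nu ∧
      ∫ u, (u - 0.8) ^ 2 / u ∂nu = 1.64 * Real.sqrt (π / 2) - 1.6 := by
    have e : ∀ᵐ u ∂nu, (u:ℝ) - 1.6 + 0.64 * u⁻¹ = (u - 0.8) ^ 2 / u := by
      filter_upwards [nu_pos] with u hu; field_simp; ring
    have j1 : Integrable (fun u : ℝ => (u:ℝ) - 1.6 + 0.64 * u⁻¹) nu :=
      (re0_one.2.sub (integrable_const _)).add (re0_inv.2.const_mul _)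
    refine ⟨j1.congr e, ?_⟩
    have s1 : Integrable (fun u : ℝ => (u:ℝ) - 1.6) nu := re0_one.2.sub (integrable_const _)
    have s2 : Integrable (fun u : ℝ => 0.64 * u⁻¹) nu := re0_inv.2.const_mul _
    rw [← integral_congr_ae e, integral_add s1 s2, integral_sub re0_one.2 (integrable_const _),
      integral_const_mul, re0_one.1, re0_inv.1]
    simp
    ring
  have hcs := re0_cs f (fun u => u - 0.8) hf (by fun_prop) M hb hi.1
  rw [hi.2] at hcs
  have eA : ∫ u, (u - 0.8) * f u ∂nu = F1 - 0.8 * F0 := by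
    rw [hF1, hF0, ← integral_const_mul, ← integral_sub i1 (i0.const_mul _)]
    congr 1; ext u; ring
  rw [eA] at hcs
  have hcs2 : (F1 - 0.8 * F0) ^ 2 ≤ 0.45545 * X := by
    refine hcs.trans (mul_le_mul_of_nonneg_right ?_ hX0)
    linarith [re0_sqrt_lt]
  have hF1b : F1 ^ 2 ≤ 9 / 8 * (F1 - 0.8 * F0) ^ 2 + 9 * 0.64 * F0 ^ 2 := by
    nlinarith [sq_nonneg ((F1 - 0.8 * F0) - 8 * (0.8 * F0))]
  rw [abs_le] at hA
  have hA1 := hA.1
  have t1 : 0.2 * τ * F1 ^ 2 ≤ 0.2 * τ * (9 / 8 * (0.45545 * X) + 9 * 0.64 * F0 ^ 2) := by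
    apply mul_le_mul_of_nonneg_left _ (by positivity)
    linarith
  have t2 : 0.2 * τ * (9 * 0.64 * F0 ^ 2) ≤ F0 ^ 2 := by
    nlinarith [sq_nonneg F0]
  have t3 : 0 ≤ 0.1125 * τ ^ 2 * F2 ^ 2 := by positivity
  have t4 : 0.0282 * τ ^ 2 * X ≤ 0.0141 * τ * X := by
    apply mul_le_mul_of_nonneg_right _ hX0
    nlinarith
  have t5 : 0.261 * τ ^ 4 * X ≤ 0.032625 * τ * X := by
    apply mul_le_mul_of_nonneg_right _ hX0
    have : τ ^ 3 ≤ (1 / 2) ^ 3 := pow_le_pow_left₀ h0.le h1 3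
    nlinarith
  have hτX : 0 ≤ τ * X := by positivity
  nlinarith

end Pool.Agent.SSC3N
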