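import Pool.Agent.SSC3N.Noise
import Pool.Agent.SSC3N.GaussRot

set_option autoImplicit false
open MeasureTheory ProbabilityTheory Set Real
open scoped ENNReal

namespace Pool.Agent.SSC3N
open Pool.Agent.SSC3

theorem stab_transfer (m : ℕ) (ρ : ℝ) (A : Set (Fin (2 + m) → ℝ)) (hA : MeasurableSet A) :
    ((Measure.pi (fun _ : Fin (2 + m) => gaussianReal 0 1)).prod
        (Measure.pi (fun _ : Fin (2 + m) => gaussianReal 0 1)))
      {p : (Fin (2 + m) → ℝ) × (Fin (2 + m) → ℝ) |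
        p.1 ∈ A ∧ ρ • p.1 + Real.sqrt (1 - ρ ^ 2) • p.2 ∈ A} =
    stab ρ {q : (Fin 2 → ℝ) × (Fin m → ℝ) | Fin.append q.1 q.2 ∈ A}
      {q : (Fin 2 → ℝ) × (Fin m → ℝ) | Fin.append q.1 q.2 ∈ A} := by
  have hap : ∀ x : Fin (2 + m) → ℝ,
      (Fin.append (fun i : Fin 2 => x (Fin.castAdd m i)) (fun j : Fin m => x (Fin.natAdd 2 j))
        : Fin (2 + m) → ℝ) = x := by
    intro x
    funext k
    refine Fin.addCases (fun k => ?_) (fun k => ?_) k
    · simp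
    · simp
  have happ : Measurable (fun q : (Fin 2 → ℝ) × (Fin m → ℝ) =>
      (Fin.append q.1 q.2 : Fin (2 + m) → ℝ)) := by
    apply measurable_pi_lambda
    intro i
    refine Fin.addCases (fun i => ?_) (fun i => ?_) i
    · simp only [Fin.append_left]; fun_prop
    · simp only [Fin.append_right]; fun_prop
  have h1 := split_mp m
  have hg : IsProbabilityMeasure (gam (2 + m)) := gam_prob (2 + m)
  have hg' : IsProbabilityMeasure (gam m) := gam_prob m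
  have hg2 : IsProbabilityMeasure g2 := by unfold g2; infer_instance
  have h2 := h1.prod h1
  have hC : MeasurableSet {q : (Fin 2 → ℝ) × (Fin m → ℝ) | Fin.append q.1 q.2 ∈ A} := happ hA
  unfold stab
  have hS : MeasurableSet {p : ((Fin 2 → ℝ) × (Fin m → ℝ)) × ((Fin 2 → ℝ) × (Fin m → ℝ)) |
      p.1 ∈ {q : (Fin 2 → ℝ) × (Fin m → ℝ) | Fin.append q.1 q.2 ∈ A} ∧
        ρ • p.1 + Real.sqrt (1 - ρ ^ 2) • p.2 ∈
          {q : (Fin 2 → ℝ) × (Fin m → ℝ) | Fin.append q.1 q.2 ∈ A}} := by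
    refine MeasurableSet.inter (measurable_fst hC) ?_
    have : Measurable (fun p : ((Fin 2 → ℝ) × (Fin m → ℝ)) × ((Fin 2 → ℝ) × (Fin m → ℝ)) =>
      ρ • p.1 + Real.sqrt (1 - ρ ^ 2) • p.2) := by fun_prop
    exact this hC
  rw [← h2.measure_preimage hS.nullMeasurableSet]
  change ((gam (2 + m)).prod (gam (2 + m))) _ = _
  congr 1
  ext ⟨x, y⟩
  simp only [mem_ofPred_eq, mem_preimage, Prod.map_apply]
  have e1 : (Fin.append (fun i : Fin 2 => x (Fin.castAdd m i)) (fun j : Fin m => x (Fin.natAdd 2 j))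
        : Fin (2 + m) → ℝ) = x := hap x
  have e2 : (Fin.append
      ((ρ • (((fun i : Fin 2 => x (Fin.castAdd m i)), (fun j : Fin m => x (Fin.natAdd 2 j))) :
        (Fin 2 → ℝ) × (Fin m → ℝ)) + Real.sqrt (1 - ρ ^ 2) •
        (((fun i : Fin 2 => y (Fin.castAdd m i)), (fun j : Fin m => y (Fin.natAdd 2 j))) :
        (Fin 2 → ℝ) × (Fin m → ℝ))).1)
      ((ρ • (((fun i : Fin 2 => x (Fin.castAdd m i)), (fun j : Fin m => x (Fin.natAdd 2 j))) :
        (Fin 2 → ℝ) × (Fin m → ℝ)) + Real.sqrt (1 - ρ ^ 2) •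
        (((fun i : Fin 2 => y (Fin.castAdd m i)), (fun j : Fin m => y (Fin.natAdd 2 j))) :
        (Fin 2 → ℝ) × (Fin m → ℝ))).2)
        : Fin (2 + m) → ℝ) = ρ • x + Real.sqrt (1 - ρ ^ 2) • y := by
    have := hap (ρ • x + Real.sqrt (1 - ρ ^ 2) • y)
    rw [← this]
    rfl
  rw [e1, e2]

theorem stab_rot (n : ℕ) (ρ : ℝ) (Q : Matrix (Fin n) (Fin n) ℝ)
    (hQ : Q ∈ Matrix.orthogonalGroup (Fin n) ℝ) (A : Set (Fin n → ℝ)) (hA : MeasurableSet A) :
    ((Measure.pi (fun _ : Fin n => gaussianReal 0 1)).prod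
        (Measure.pi (fun _ : Fin n => gaussianReal 0 1)))
      {p : (Fin n → ℝ) × (Fin n → ℝ) |
        p.1 ∈ A ∧ ρ • p.1 + Real.sqrt (1 - ρ ^ 2) • p.2 ∈ A} =
    ((Measure.pi (fun _ : Fin n => gaussianReal 0 1)).prod
        (Measure.pi (fun _ : Fin n => gaussianReal 0 1)))
      {p : (Fin n → ℝ) × (Fin n → ℝ) |
        p.1 ∈ (fun x => Q.mulVec x) ⁻¹' A ∧
          ρ • p.1 + Real.sqrt (1 - ρ ^ 2) • p.2 ∈ (fun x => Q.mulVec x) ⁻¹' A} := by
  have h1 := gauss_rot n Q hQ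
  have hg : IsProbabilityMeasure (gam n) := gam_prob n
  have h2 := h1.prod h1
  change ((gam n).prod (gam n)) _ = ((gam n).prod (gam n)) _
  have hS : MeasurableSet {p : (Fin n → ℝ) × (Fin n → ℝ) |
        p.1 ∈ A ∧ ρ • p.1 + Real.sqrt (1 - ρ ^ 2) • p.2 ∈ A} := by
    refine MeasurableSet.inter (measurable_fst hA) ?_
    have : Measurable (fun p : (Fin n → ℝ) × (Fin n → ℝ) =>
      ρ • p.1 + Real.sqrt (1 - ρ ^ 2) • p.2) := by fun_prop
    exact this hA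
  rw [← h2.measure_preimage hS.nullMeasurableSet]
  congr 1
  ext ⟨x, y⟩
  simp only [mem_ofPred_eq, mem_preimage, Prod.map_apply]
  rw [Matrix.mulVec_add, Matrix.mulVec_smul, Matrix.mulVec_smul]

end Pool.Agent.SSC3N
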