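import Mathlib

set_option autoImplicit false
open MeasureTheory ProbabilityTheory Set Real
open scoped ENNReal

namespace Pool.Agent.SSC3N

/-! ## [N8] -/

private theorem N8_log_up (u : ℝ) (hu : 0 ≤ u) :
    Real.log (1 + u) ≤ u - u ^ 2 / 2 + u ^ 3 / 3 - u ^ 4 / 4 + u ^ 5 / 5 := by
  have hmono : MonotoneOn (fun u : ℝ => u - u ^ 2 / 2 + u ^ 3 / 3 - u ^ 4 / 4 + u ^ 5 / 5
      - Real.log (1 + u)) (Ici 0) := by
    have hd : ∀ x : ℝ, 0 ≤ x → HasDerivAt (fun u : ℝ => u - u ^ 2 / 2 + u ^ 3 / 3 - u ^ 4 / 4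
        + u ^ 5 / 5 - Real.log (1 + u)) (x ^ 5 / (1 + x)) x := by
      intro x hx
      have h1 : (1 + x) ≠ 0 := by positivity
      have hlog : HasDerivAt (fun u : ℝ => Real.log (1 + u)) (1 / (1 + x)) x := by
        have := (((hasDerivAt_id x).const_add 1).log h1)
        simpa using this
      have hp : HasDerivAt (fun u : ℝ => u - u ^ 2 / 2 + u ^ 3 / 3 - u ^ 4 / 4 + u ^ 5 / 5)
          (1 - (2 * x) / 2 + (3 * x ^ 2) / 3 - (4 * x ^ 3) / 4 + (5 * x ^ 4) / 5) x := by
        have a1 := hasDerivAt_id x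
        have a2 := (hasDerivAt_pow 2 x).div_const 2
        have a3 := (hasDerivAt_pow 3 x).div_const 3
        have a4 := (hasDerivAt_pow 4 x).div_const 4
        have a5 := (hasDerivAt_pow 5 x).div_const 5
        have := (((a1.sub a2).add a3).sub a4).add a5
        refine HasDerivAt.congr_deriv this ?_
        norm_num
      refine (hp.sub hlog).congr_deriv ?_
      field_simp
      ring
    refine monotoneOn_of_deriv_nonneg (convex_Ici 0) ?_ ?_ ?_
    · intro x hx
      exact (hd x hx).continuousAt.continuousWithinAt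
    · intro x hx
      rw [interior_Ici] at hx
      exact (hd x (le_of_lt hx)).differentiableAt.differentiableWithinAt
    · intro x hx
      rw [interior_Ici] at hx
      have hx' : (0 : ℝ) < x := hx
      rw [(hd x hx'.le).deriv]
      positivity
  have := hmono (mem_Ici.mpr le_rfl) (mem_Ici.mpr hu) hu
  simp only [] at this
  norm_num at this
  linarith

private theorem N8_log_down (t : ℝ) (ht : 0 ≤ t) : t - t ^ 2 / 2 ≤ Real.log (1 + t) := by
  refine le_trans ?_ (Real.le_log_one_add_of_nonneg ht)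
  rw [le_div_iff₀ (by positivity)]
  nlinarith [pow_nonneg ht 3]

private theorem N8_c : (0.547543 : ℝ) ≤ Real.log 1.729 := by
  rw [Real.le_log_iff_exp_le (by norm_num)]
  refine (Real.exp_bound' (by norm_num) (by norm_num) (n := 9) (by norm_num)).trans ?_
  norm_num [Finset.sum_range_succ, Nat.factorial]

private theorem N8_poly (u : ℝ) (h0 : 0 ≤ u) (h1 : u ≤ 0.729) :
    0 ≤ 0.02031 * 1.729 ^ 4 - 1.729 * (1 + u) ^ 3 + (1 + 0.547543) * (1 + u) ^ 4
      - (1 + u) ^ 4 * (u - u ^ 2 / 2 + u ^ 3 / 3 - u ^ 4 / 4 + u ^ 5 / 5) := by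
  have p2 : u ^ 2 ≤ 0.729 * u := by nlinarith
  have p3 : u ^ 3 ≤ 0.729 ^ 2 * u := by nlinarith [mul_le_mul_of_nonneg_left p2 h0]
  have p4 : u ^ 4 ≤ 0.729 ^ 3 * u := by nlinarith [mul_le_mul_of_nonneg_left p3 h0]
  have p5 : u ^ 5 ≤ 0.729 ^ 4 * u := by nlinarith [mul_le_mul_of_nonneg_left p4 h0]
  have p6 : u ^ 6 ≤ 0.729 ^ 5 * u := by nlinarith [mul_le_mul_of_nonneg_left p5 h0]
  have p7 : u ^ 7 ≤ 0.729 ^ 6 * u := by nlinarith [mul_le_mul_of_nonneg_left p6 h0]
  have hr : 0 ≤ 0.598258 + 0.1278 * u - 0.5358 * u ^ 2 - 0.2 * u ^ 3 - 0.13334 * u ^ 4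
      - 0.53334 * u ^ 5 - 0.55 * u ^ 6 - 0.2 * u ^ 7 := by
    norm_num at *
    linarith
  have hm := mul_nonneg (pow_nonneg h0 2) hr
  have q2 := pow_nonneg h0 2
  have q3 := pow_nonneg h0 3
  have q4 := pow_nonneg h0 4
  have q5 := pow_nonneg h0 5
  have q6 := pow_nonneg h0 6
  have q7 := pow_nonneg h0 7
  have q8 := pow_nonneg h0 8
  have q9 := pow_nonneg h0 9
  nlinarith

/-- the sup is `0.0203050...`, attained near `x = 2.19`. -/
theorem sup_T4 (x : ℝ) (hx : 0 ≤ x) :
    (Real.exp (x / 4) - 1 - x / 4) * Real.exp (-x) ≤ 0.02031 := by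
  have hc := N8_c
  have hlog := Real.log_exp (x / 4)
  have hy4 : Real.exp x = Real.exp (x / 4) ^ 4 := by
    rw [← Real.exp_nat_mul]
    congr 1
    push_cast
    ring
  have hy1 : 1 ≤ Real.exp (x / 4) := Real.one_le_exp (by positivity)
  rw [Real.exp_neg, ← div_eq_mul_inv, div_le_iff₀ (Real.exp_pos x), hy4]
  generalize Real.exp (x / 4) = y at *
  have hy0 : 0 < y := by linarith
  rcases le_total y 1.729 with h | h
  · obtain ⟨u, hu⟩ : ∃ u, u = 1.729 / y - 1 := ⟨_, rfl⟩
    have hyu : y * (1 + u) = 1.729 := by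
      rw [hu]
      field_simp
      ring
    have hu0 : 0 ≤ u := by
      rw [hu, sub_nonneg, one_le_div hy0]
      exact h
    have hu1 : u ≤ 0.729 := by nlinarith
    have hl : Real.log (1 + u) = Real.log 1.729 - Real.log y := by
      rw [← hyu, Real.log_mul hy0.ne' (by positivity)]
      ring
    have h1 := N8_log_up u hu0
    have h2 := N8_poly u hu0 hu1
    have hpos : 0 < (1 + u) ^ 4 := by positivity
    have key : 0 ≤ (0.02031 * y ^ 4 - y + 1 + x / 4) * (1 + u) ^ 4 := by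
      have e1 : y ^ 4 * (1 + u) ^ 4 = 1.729 ^ 4 := by rw [← mul_pow, hyu]
      have e2 : y * (1 + u) ^ 4 = 1.729 * (1 + u) ^ 3 := by rw [← hyu]; ring
      have e3 : (0.547543 - (u - u ^ 2 / 2 + u ^ 3 / 3 - u ^ 4 / 4 + u ^ 5 / 5)) * (1 + u) ^ 4
          ≤ x / 4 * (1 + u) ^ 4 := by
        refine mul_le_mul_of_nonneg_right ?_ hpos.le
        linarith
      nlinarith
    have := nonneg_of_mul_nonneg_left key hpos
    linarith
  · obtain ⟨t, ht⟩ : ∃ t, t = y / 1.729 - 1 := ⟨_, rfl⟩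
    have hyt : y = 1.729 * (1 + t) := by
      rw [ht]
      ring
    have ht0 : 0 ≤ t := by
      have : 1.729 * t ≥ 0 := by nlinarith
      linarith
    have hl : Real.log y = Real.log 1.729 + Real.log (1 + t) := by
      rw [hyt, Real.log_mul (by norm_num) (by positivity)]
    have h1 := N8_log_down t ht0
    have h3 : x / 4 ≥ 0.547543 + (t - t ^ 2 / 2) := by linarith
    rw [hyt]
    have t2 := pow_nonneg ht0 2
    have t3 := pow_nonneg ht0 3
    have t4 := pow_nonneg ht0 4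
    nlinarith [sq_nonneg (t - 0.0027)]

end Pool.Agent.SSC3N
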