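import Pool.Agent.SSC3N.FtGe

set_option autoImplicit false
open MeasureTheory ProbabilityTheory Set Real
open scoped ENNReal

namespace Pool.Agent.SSC3N
open Pool.Agent.SSC3

theorem ft_nonneg (t x y : ℝ) (ht0 : 0 ≤ t) (ht : t ≤ 1 / 2) (hx0 : 0 ≤ x) (hx : x ≤ 1)
    (hy0 : 0 ≤ y) (hy : y ≤ 1) : 0 ≤ ft t x y := by
  have h := ft_ge t x y 0 ht0 ht hx hy0 hy le_rfl hx0 (by linarith)
  simpa using h

private theorem quad_nonneg (κ β γ X x : ℝ) (hκ : 0 ≤ κ) (h0 : 0 ≤ γ)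
    (hX : 0 ≤ -κ * X ^ 2 + β * X + γ) (hx0 : 0 ≤ x) (hxX : x ≤ X) :
    0 ≤ -κ * x ^ 2 + β * x + γ := by
  rcases (hx0.trans hxX).eq_or_lt with hX0 | hX0
  · have : x = 0 := le_antisymm (hxX.trans hX0.symm.le) hx0
    subst this
    nlinarith
  · have e : X * (-κ * x ^ 2 + β * x + γ)
        = (X - x) * γ + x * (-κ * X ^ 2 + β * X + γ) + κ * x * X * (X - x) := by ring
    have h1 : 0 ≤ X * (-κ * x ^ 2 + β * x + γ) := by
      rw [e]
      have := sub_nonneg.mpr hxX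
      positivity
    exact nonneg_of_mul_nonneg_right h1 hX0

/-- concave quadratic on an interval -/
private theorem quad_nonneg' (κ β γ X Y x : ℝ) (hκ : 0 ≤ κ)
    (hX : 0 ≤ -κ * X ^ 2 + β * X + γ) (hY : 0 ≤ -κ * Y ^ 2 + β * Y + γ) (hx0 : Y ≤ x) (hxX : x ≤ X) :
    0 ≤ -κ * x ^ 2 + β * x + γ := by
  rcases (hx0.trans hxX).eq_or_lt with hX0 | hX0
  · have : x = X := le_antisymm hxX (hX0.symm.le.trans hx0)
    subst this
    exact hX
  · have e : (X - Y) * (-κ * x ^ 2 + β * x + γ)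
        = (X - x) * (-κ * Y ^ 2 + β * Y + γ) + (x - Y) * (-κ * X ^ 2 + β * X + γ)
          + κ * (x - Y) * (X - Y) * (X - x) := by ring
    have h2 := sub_nonneg.mpr hxX
    have h3 := sub_nonneg.mpr hx0
    have h4 := sub_pos.mpr hX0
    have h1 : 0 ≤ (X - Y) * (-κ * x ^ 2 + β * x + γ) := by
      rw [e]
      positivity
    exact nonneg_of_mul_nonneg_right h1 h4

private theorem g_nonneg (t c a v M : ℝ) (ht0 : 0 ≤ t) (ht : t ≤ 1 / 3)
    (hc : c = 1 - 2 * t - 3 / 2 * t ^ 2) (ha : a = 2 * t + 3 / 2 * t ^ 2)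
    (hv : v = 2 * t - 21 / 4 * t ^ 2) (hM : M = t - a / 3) (x : ℝ) (hx0 : 0 ≤ x) (hx : c * x ≤ M) :
    0 ≤ -3 * (c * x) ^ 2 + 6 * M * (c * x) + (v - 2 * t * c)
      + (a * c - v) * ((3 * x ^ 2 - 2 * x + 1) / 2) := by
  have hc6 : 1 / 6 ≤ c := by rw [hc]; nlinarith
  have hc0 : 0 < c := by linarith
  have hκ : 0 ≤ 3 * c ^ 2 - 3 / 2 * (a * c - v) := by
    have e : 3 * c ^ 2 - 3 / 2 * (a * c - v)
        = 3 / 4 * ((1 - 3 * t) * (4 - 4 * t - 27 / 2 * t ^ 2 - 9 / 2 * t ^ 3)) := by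
      rw [hc, ha, hv]; ring
    rw [e]
    have h1 : 0 ≤ 1 - 3 * t := by linarith
    have h2 : 0 ≤ 4 - 4 * t - 27 / 2 * t ^ 2 - 9 / 2 * t ^ 3 := by
      have h3 : t ^ 2 ≤ 1 / 9 := by nlinarith
      have h4 : t ^ 3 ≤ 1 / 27 := by
        have : t ^ 3 = t ^ 2 * t := by ring
        rw [this]; nlinarith [sq_nonneg t]
      linarith
    positivity
  have h0 : 0 ≤ (v - 2 * t * c) + (a * c - v) / 2 := by
    have e : (v - 2 * t * c) + (a * c - v) / 2 = t ^ 2 * (1 - 9 * t ^ 2) / 8 := by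
      rw [hc, ha, hv]; ring
    rw [e]
    have : 0 ≤ 1 - 9 * t ^ 2 := by nlinarith
    positivity
  have hav : 0 ≤ a * c - v := by
    have e : a * c - v = t ^ 2 * (11 / 4 - 6 * t - 9 / 4 * t ^ 2) := by rw [hc, ha, hv]; ring
    rw [e]
    have : 0 ≤ 11 / 4 - 6 * t - 9 / 4 * t ^ 2 := by nlinarith
    positivity
  have hid : 3 * M ^ 2 + (v - 2 * t * c) + (a * c - v) / 3 = 0 := by
    rw [hM, hc, ha, hv]; ring
  have hX : 0 ≤ -(3 * c ^ 2 - 3 / 2 * (a * c - v)) * (M / c) ^ 2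
      + (6 * M * c - (a * c - v)) * (M / c) + ((v - 2 * t * c) + (a * c - v) / 2) := by
    have hcM : c * (M / c) = M := by field_simp
    have e : -(3 * c ^ 2 - 3 / 2 * (a * c - v)) * (M / c) ^ 2
      + (6 * M * c - (a * c - v)) * (M / c) + ((v - 2 * t * c) + (a * c - v) / 2)
      = -3 * (c * (M / c)) ^ 2 + 6 * M * (c * (M / c)) + (v - 2 * t * c)
        + (a * c - v) * ((3 * (M / c) ^ 2 - 2 * (M / c) + 1) / 2) := by ring
    rw [e, hcM]
    have e2 : -3 * M ^ 2 + 6 * M * M + (v - 2 * t * c)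
        + (a * c - v) * ((3 * (M / c) ^ 2 - 2 * (M / c) + 1) / 2)
        = (3 * M ^ 2 + (v - 2 * t * c) + (a * c - v) / 3)
          + (a * c - v) * (3 / 2 * (M / c - 1 / 3) ^ 2) := by ring
    rw [e2, hid]
    positivity
  have hxX : x ≤ M / c := by
    rw [le_div_iff₀ hc0]; linarith
  have h := quad_nonneg _ _ _ _ x hκ h0 hX hx0 hxX
  have e : -3 * (c * x) ^ 2 + 6 * M * (c * x) + (v - 2 * t * c)
      + (a * c - v) * ((3 * x ^ 2 - 2 * x + 1) / 2)
      = -(3 * c ^ 2 - 3 / 2 * (a * c - v)) * x ^ 2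
      + (6 * M * c - (a * c - v)) * x + ((v - 2 * t * c) + (a * c - v) / 2) := by ring
  rw [e]; exact h

private theorem a4_nonneg (t c a v : ℝ) (ht0 : 0 ≤ t) (ht : t ≤ 1 / 3)
    (hc : c = 1 - 2 * t - 3 / 2 * t ^ 2) (ha : a = 2 * t + 3 / 2 * t ^ 2)
    (hv : v = 2 * t - 21 / 4 * t ^ 2) (y T : ℝ) (hy0 : 0 ≤ y) (hy : 2 * t ≤ a * (1 - y))
    (hT : y ^ 2 / 2 ≤ T) :
    0 ≤ v * (1 - ((1 - y) ^ 2 + T)) - c * (2 * t * y - a * T) := by
  have hav : 0 ≤ a * c - v := by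
    have e : a * c - v = t ^ 2 * (11 / 4 - 6 * t - 9 / 4 * t ^ 2) := by rw [hc, ha, hv]; ring
    rw [e]
    have : 0 ≤ 11 / 4 - 6 * t - 9 / 4 * t ^ 2 := by nlinarith
    positivity
  have e1 : v * (1 - ((1 - y) ^ 2 + T)) - c * (2 * t * y - a * T)
      = y * (2 * (v - t * c) - y * ((3 * v - a * c) / 2)) + (a * c - v) * (T - y ^ 2 / 2) := by ring
  rw [e1]
  have h2 : 0 ≤ (a * c - v) * (T - y ^ 2 / 2) := mul_nonneg hav (by linarith)
  rcases ht0.eq_or_lt with h0 | h0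
  · subst h0
    have hv0 : v = 0 := by rw [hv]; norm_num
    have ha0 : a = 0 := by rw [ha]; norm_num
    subst hv0; subst ha0
    simp
  -- y ≤ 3t/(4+3t)
  have hy1 : y * (4 + 3 * t) ≤ 3 * t := by
    rw [ha] at hy
    have : t * (y * (4 + 3 * t)) ≤ t * (3 * t) := by nlinarith
    exact le_of_mul_le_mul_left this h0
  have hvt : 0 ≤ v - t * c := by
    have : v - t * c = t * (1 - 13 / 4 * t + 3 / 2 * t ^ 2) := by rw [hv, hc]; ring
    rw [this]
    have : 0 ≤ 1 - 13 / 4 * t + 3 / 2 * t ^ 2 := by nlinarith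
    positivity
  have h3 : 0 ≤ 2 * (v - t * c) - y * ((3 * v - a * c) / 2) := by
    -- multiply by (4+3t)
    have h4 : 0 ≤ (4 + 3 * t) * (2 * (v - t * c)) - 3 * t * ((3 * v - a * c) / 2) := by
      have : (4 + 3 * t) * (2 * (v - t * c)) - 3 * t * ((3 * v - a * c) / 2)
          = t * (8 - 26 * t + 12 * t ^ 2 + 6 * t - 39 / 2 * t ^ 2 + 9 * t ^ 3
            - 3 / 2 * t * (4 - 53 / 4 * t + 6 * t ^ 2 + 9 / 4 * t ^ 3)) := by
        rw [hv, hc, ha]; ring
      rw [this]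
      have h5 : 0 ≤ 8 - 26 * t + 12 * t ^ 2 + 6 * t - 39 / 2 * t ^ 2 + 9 * t ^ 3
            - 3 / 2 * t * (4 - 53 / 4 * t + 6 * t ^ 2 + 9 / 4 * t ^ 3) := by
        nlinarith [mul_nonneg ht0 ht0, mul_nonneg (mul_nonneg ht0 ht0) ht0,
          mul_nonneg (mul_nonneg ht0 ht0) (sub_nonneg.mpr ht), mul_nonneg ht0 (sub_nonneg.mpr ht),
          mul_nonneg (mul_nonneg (mul_nonneg ht0 ht0) ht0) (sub_nonneg.mpr ht)]
      positivity
    rcases le_total (3 * v - a * c) 0 with h6 | h6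
    · have : y * ((3 * v - a * c) / 2) ≤ 0 := by
        apply mul_nonpos_of_nonneg_of_nonpos hy0; linarith
      linarith
    · have h7 : 0 ≤ (4 + 3 * t) * (2 * (v - t * c) - y * ((3 * v - a * c) / 2)) := by
        nlinarith [mul_le_mul_of_nonneg_right hy1 h6]
      exact nonneg_of_mul_nonneg_right h7 (by linarith)
  have h8 := mul_nonneg hy0 h3
  linarith

private theorem h3_nonneg (t c a v M : ℝ) (ht0 : 0 ≤ t) (ht : t ≤ 1 / 3)
    (hc : c = 1 - 2 * t - 3 / 2 * t ^ 2) (ha : a = 2 * t + 3 / 2 * t ^ 2)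
    (hv : v = 2 * t - 21 / 4 * t ^ 2) (hM : M = t - a / 3) (z : ℝ) (hm0 : 0 ≤ 2 * t - a * z)
    (hmM : 2 * t - a * z ≤ M) :
    0 ≤ -3 * (2 * t - a * z) ^ 2 + 6 * M * (2 * t - a * z) + (v - 2 * t * c)
      + (a * c - v) * ((3 * z ^ 2 - 2 * z + 1) / 2) := by
  rcases ht0.eq_or_lt with h0 | h0
  · subst h0
    have hv0 : v = 0 := by rw [hv]; norm_num
    have ha0 : a = 0 := by rw [ha]; norm_num
    subst hv0; subst ha0
    simp
  have ha0 : 0 < a := by rw [ha]; positivity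
  have hav : 0 ≤ a * c - v := by
    have e : a * c - v = t ^ 2 * (11 / 4 - 6 * t - 9 / 4 * t ^ 2) := by rw [hc, ha, hv]; ring
    rw [e]
    have : 0 ≤ 11 / 4 - 6 * t - 9 / 4 * t ^ 2 := by nlinarith
    positivity
  have hid : 3 * M ^ 2 + (v - 2 * t * c) + (a * c - v) / 3 = 0 := by
    rw [hM, hc, ha, hv]; ring
  have hκ : 0 ≤ 3 * a ^ 2 - 3 / 2 * (a * c - v) := by
    have e : 3 * a ^ 2 - 3 / 2 * (a * c - v) = 3 / 2 * (21 / 4 * t ^ 2 + 18 * t ^ 3 + 27 / 4 * t ^ 4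
      + 3 / 2 * t ^ 2 + (9 / 4) * t ^ 2 * 0 - 3 / 2 * t ^ 2) := by
      rw [hc, ha, hv]; ring
    rw [e]
    have : 0 ≤ 21 / 4 * t ^ 2 + 18 * t ^ 3 + 27 / 4 * t ^ 4
      + 3 / 2 * t ^ 2 + (9 / 4) * t ^ 2 * 0 - 3 / 2 * t ^ 2 := by
      have h1 : 0 < t ^ 2 := by positivity
      have h2 : 0 < t ^ 3 := by positivity
      have h3 : 0 < t ^ 4 := by positivity
      linarith
    positivity
  have e0 : ∀ z : ℝ, -3 * (2 * t - a * z) ^ 2 + 6 * M * (2 * t - a * z) + (v - 2 * t * c)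
      + (a * c - v) * ((3 * z ^ 2 - 2 * z + 1) / 2)
      = -(3 * a ^ 2 - 3 / 2 * (a * c - v)) * z ^ 2 + (12 * t * a - 6 * M * a - (a * c - v)) * z
        + (-12 * t ^ 2 + 12 * M * t + (v - 2 * t * c) + (a * c - v) / 2) := by
    intro z; ring
  rw [e0]
  apply quad_nonneg' _ _ _ (2 * t / a) (1 / 3 + t / a) z hκ
  · rw [← e0]
    have haX : a * (2 * t / a) = 2 * t := by field_simp
    have hX1 : 2 * t / a ≤ 1 := by
      rw [div_le_one ha0, ha]; nlinarith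
    have h := a4_nonneg t c a v ht0 ht hc ha hv (1 - 2 * t / a) ((1 - 2 * t / a) ^ 2 / 2)
      (by linarith) (by rw [sub_sub_cancel, haX]) le_rfl
    have e2 : -3 * (2 * t - a * (2 * t / a)) ^ 2 + 6 * M * (2 * t - a * (2 * t / a)) + (v - 2 * t * c)
      + (a * c - v) * ((3 * (2 * t / a) ^ 2 - 2 * (2 * t / a) + 1) / 2)
      = v * (1 - ((1 - (1 - 2 * t / a)) ^ 2 + (1 - 2 * t / a) ^ 2 / 2))
        - c * (2 * t * (1 - 2 * t / a) - a * ((1 - 2 * t / a) ^ 2 / 2))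
        + (2 * t - a * (2 * t / a)) * (-3 * (2 * t - a * (2 * t / a)) + 6 * M
          - c * (2 * t / a)) := by ring
    rw [e2]
    have e3 : 2 * t - a * (2 * t / a) = 0 := by rw [haX]; ring
    rw [e3]
    linarith
  · rw [← e0]
    have e4 : 2 * t - a * (1 / 3 + t / a) = M := by rw [hM]; field_simp; ring
    rw [e4]
    have e2 : -3 * M ^ 2 + 6 * M * M + (v - 2 * t * c)
        + (a * c - v) * ((3 * (1 / 3 + t / a) ^ 2 - 2 * (1 / 3 + t / a) + 1) / 2)
        = (3 * M ^ 2 + (v - 2 * t * c) + (a * c - v) / 3)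
          + (a * c - v) * (3 / 2 * (t / a) ^ 2) := by ring
    rw [e2, hid]
    positivity
  · have e5 : a * (1 / 3 + t / a) = a / 3 + t := by field_simp
    have : a * (1 / 3 + t / a) ≤ a * z := by rw [e5]; linarith
    exact le_of_mul_le_mul_left this ha0
  · rw [le_div_iff₀ ha0]; linarith

private theorem key (t c a v : ℝ) (ht0 : 0 ≤ t) (ht : t ≤ 1 / 3)
    (hc : c = 1 - 2 * t - 3 / 2 * t ^ 2) (ha : a = 2 * t + 3 / 2 * t ^ 2)
    (hv : v = 2 * t - 21 / 4 * t ^ 2) (x y z : ℝ) (hx : 0 ≤ x) (hxy : x ≤ y) (hyz : y ≤ z)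
    (hs : x + y + z = 1) :
    ∃ m, 0 ≤ m ∧ m ≤ c * x ∧ m + (c * x - m) * max (2 * t - m - a * x) 0
      + (c * y - m) * max (2 * t - m - a * y) 0 + (c * z - m) * max (2 * t - m - a * z) 0
      ≤ v * (1 - (x ^ 2 + y ^ 2 + z ^ 2)) := by
  have hc6 : 1 / 6 ≤ c := by rw [hc]; nlinarith
  have hc0 : 0 < c := by linarith
  have ha0 : 0 ≤ a := by rw [ha]; positivity
  have ha3 : a ≤ 5 / 2 * t := by rw [ha]; nlinarith
  have hav : 0 ≤ a * c - v := by
    have e : a * c - v = t ^ 2 * (11 / 4 - 6 * t - 9 / 4 * t ^ 2) := by rw [hc, ha, hv]; ring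
    rw [e]
    have : 0 ≤ 11 / 4 - 6 * t - 9 / 4 * t ^ 2 := by nlinarith
    positivity
  set M := t - a / 3 with hM
  have hM0 : 0 ≤ M := by rw [hM]; linarith
  have hid : 3 * M ^ 2 + (v - 2 * t * c) + (a * c - v) / 3 = 0 := by
    rw [hM, hc, ha, hv]; ring
  have hca : c = 1 - a := by rw [hc, ha]; ring
  have hz : z = 1 - x - y := by linarith
  have hx3 : x ≤ 1 / 3 := by linarith
  have hy2 : y ≤ 1 / 2 := by linarith
  have hz3 : 1 / 3 ≤ z := by linarith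
  rcases le_or_gt (a * z) (2 * t) with hcase | hcase
  · have hazx : a * x ≤ a * z := mul_le_mul_of_nonneg_left (hxy.trans hyz) ha0
    have hazy : a * y ≤ a * z := mul_le_mul_of_nonneg_left hyz ha0
    have hΦ : ∀ m, m ≤ 2 * t - a * z →
        v * (1 - (x ^ 2 + y ^ 2 + z ^ 2)) - (m + (c * x - m) * max (2 * t - m - a * x) 0
        + (c * y - m) * max (2 * t - m - a * y) 0 + (c * z - m) * max (2 * t - m - a * z) 0)
        = -3 * m ^ 2 + 6 * M * m + (v - 2 * t * c) + (a * c - v) * (x ^ 2 + y ^ 2 + z ^ 2) := by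
      intro m hm
      rw [max_eq_left (by linarith), max_eq_left (by linarith), max_eq_left (by linarith), hM, hz, hca]
      ring
    rcases le_total M (c * x) with h1 | h1
    · rcases le_total M (2 * t - a * z) with h2 | h2
      · -- A1
        refine ⟨M, hM0, h1, ?_⟩
        have h := hΦ M h2
        have h3 : 0 ≤ (a * c - v) * (x ^ 2 + y ^ 2 + z ^ 2 - 1 / 3) := by
          apply mul_nonneg hav
          have e5 : x ^ 2 + y ^ 2 + z ^ 2 - 1 / 3
              = (x - 1 / 3) ^ 2 + (y - 1 / 3) ^ 2 + (z - 1 / 3) ^ 2 := by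
            rw [hz]; ring
          rw [e5]; positivity
        have e : -3 * M ^ 2 + 6 * M * M + (v - 2 * t * c)
            + (a * c - v) * (x ^ 2 + y ^ 2 + z ^ 2)
            = (3 * M ^ 2 + (v - 2 * t * c) + (a * c - v) / 3)
              + (a * c - v) * (x ^ 2 + y ^ 2 + z ^ 2 - 1 / 3) := by ring
        rw [e, hid] at h
        linarith
      · -- A3
        refine ⟨2 * t - a * z, by linarith, by linarith, ?_⟩
        have h := hΦ (2 * t - a * z) le_rfl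
        have h3 := h3_nonneg t c a v M ht0 ht hc ha hv hM z (by linarith) (by linarith)
        have h4 : 0 ≤ (a * c - v) * (x ^ 2 + y ^ 2 + z ^ 2 - (3 * z ^ 2 - 2 * z + 1) / 2) := by
          apply mul_nonneg hav
          have e5 : x ^ 2 + y ^ 2 + z ^ 2 - (3 * z ^ 2 - 2 * z + 1) / 2 = (2 * x - (1 - z)) ^ 2 / 2 := by
            have : y = 1 - x - z := by linarith
            rw [this]; ring
          rw [e5]; positivity
        have e : -3 * (2 * t - a * z) ^ 2 + 6 * M * (2 * t - a * z) + (v - 2 * t * c)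
            + (a * c - v) * (x ^ 2 + y ^ 2 + z ^ 2)
            = (-3 * (2 * t - a * z) ^ 2 + 6 * M * (2 * t - a * z) + (v - 2 * t * c)
              + (a * c - v) * ((3 * z ^ 2 - 2 * z + 1) / 2))
              + (a * c - v) * (x ^ 2 + y ^ 2 + z ^ 2 - (3 * z ^ 2 - 2 * z + 1) / 2) := by ring
        rw [e] at h
        linarith
    · rcases le_total (c * x) (2 * t - a * z) with h2 | h2
      · -- A2
        refine ⟨c * x, by positivity, le_rfl, ?_⟩
        have h := hΦ (c * x) h2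
        have h3 := g_nonneg t c a v M ht0 ht hc ha hv hM x hx h1
        have h4 : 0 ≤ (a * c - v) * (x ^ 2 + y ^ 2 + z ^ 2 - (3 * x ^ 2 - 2 * x + 1) / 2) := by
          apply mul_nonneg hav
          have e5 : x ^ 2 + y ^ 2 + z ^ 2 - (3 * x ^ 2 - 2 * x + 1) / 2 = (2 * y - (1 - x)) ^ 2 / 2 := by
            rw [hz]; ring
          rw [e5]; positivity
        have e : -3 * (c * x) ^ 2 + 6 * M * (c * x) + (v - 2 * t * c)
            + (a * c - v) * (x ^ 2 + y ^ 2 + z ^ 2)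
            = (-3 * (c * x) ^ 2 + 6 * M * (c * x) + (v - 2 * t * c)
              + (a * c - v) * ((3 * x ^ 2 - 2 * x + 1) / 2))
              + (a * c - v) * (x ^ 2 + y ^ 2 + z ^ 2 - (3 * x ^ 2 - 2 * x + 1) / 2) := by ring
        rw [e] at h
        linarith
      · refine ⟨2 * t - a * z, by linarith, by linarith, ?_⟩
        have h := hΦ (2 * t - a * z) le_rfl
        have h3 := h3_nonneg t c a v M ht0 ht hc ha hv hM z (by linarith) (by linarith)
        have h4 : 0 ≤ (a * c - v) * (x ^ 2 + y ^ 2 + z ^ 2 - (3 * z ^ 2 - 2 * z + 1) / 2) := by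
          apply mul_nonneg hav
          have e5 : x ^ 2 + y ^ 2 + z ^ 2 - (3 * z ^ 2 - 2 * z + 1) / 2 = (2 * x - (1 - z)) ^ 2 / 2 := by
            have : y = 1 - x - z := by linarith
            rw [this]; ring
          rw [e5]; positivity
        have e : -3 * (2 * t - a * z) ^ 2 + 6 * M * (2 * t - a * z) + (v - 2 * t * c)
            + (a * c - v) * (x ^ 2 + y ^ 2 + z ^ 2)
            = (-3 * (2 * t - a * z) ^ 2 + 6 * M * (2 * t - a * z) + (v - 2 * t * c)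
              + (a * c - v) * ((3 * z ^ 2 - 2 * z + 1) / 2))
              + (a * c - v) * (x ^ 2 + y ^ 2 + z ^ 2 - (3 * z ^ 2 - 2 * z + 1) / 2) := by ring
        rw [e] at h
        linarith
  · refine ⟨0, le_rfl, by positivity, ?_⟩
    rw [max_eq_right (by linarith : 2 * t - 0 - a * z ≤ 0), max_eq_left (by nlinarith : 0 ≤ 2 * t - 0 - a * x),
      max_eq_left (by nlinarith : 0 ≤ 2 * t - 0 - a * y)]
    have h := a4_nonneg t c a v ht0 ht hc ha hv (x + y) (x ^ 2 + y ^ 2) (by linarith)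
      (by have : 1 - (x + y) = z := by linarith
          rw [this]; linarith) (by nlinarith [sq_nonneg (x - y)])
    have e : v * (1 - ((1 - (x + y)) ^ 2 + (x ^ 2 + y ^ 2))) = v * (1 - (x ^ 2 + y ^ 2 + z ^ 2)) := by
      rw [hz]; ring
    rw [e] at h
    nlinarith

private theorem thr_sorted (t : ℝ) (ht0 : 0 ≤ t) (ht : t ≤ 1 / 3) (x y z x' y' z' : ℝ)
    (hx : 0 ≤ x) (hxy : x ≤ y) (hyz : y ≤ z) (hs : x + y + z = 1)
    (hx' : 0 ≤ x') (hy' : 0 ≤ y') (hz' : 0 ≤ z') (hs' : x' + y' + z' = 1) :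
    ct t * (x * x' + y * y' + z * z') - vt t * (1 - (x ^ 2 + y ^ 2 + z ^ 2))
      ≤ ft t x x' + ft t y y' + ft t z z' := by
  obtain ⟨m, hm0, hmc, hm⟩ := key t (ct t) (2 * t + 3 / 2 * t ^ 2) (vt t) ht0 ht rfl rfl rfl
    x y z hx hxy hyz hs
  have hca : ct t = 1 - (2 * t + 3 / 2 * t ^ 2) := by unfold ct; ring
  have hc6 : 1 / 6 ≤ ct t := by unfold ct; nlinarith
  have hc1 : ct t ≤ 1 - 2 * t := by unfold ct; nlinarith [sq_nonneg t]
  have hstep : ∀ w w' : ℝ, x ≤ w → w ≤ 1 → 0 ≤ w' → w' ≤ 1 →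
      ct t * w * w' - m * w' - (ct t * w - m) * max (2 * t - m - (2 * t + 3 / 2 * t ^ 2) * w) 0
        ≤ ft t w w' := by
    intro w w' hw hw1 hw0' hw1'
    have hw0 : 0 ≤ w := hx.trans hw
    have hb0 : 0 ≤ ct t * w - m := by
      have : ct t * x ≤ ct t * w := mul_le_mul_of_nonneg_left hw (by linarith)
      linarith
    have hcw : ct t * w ≤ ct t := by nlinarith
    have hcw' : ct t * w ≤ w := by nlinarith
    have h := ft_ge t w w' (ct t * w - m) ht0 (by linarith) hw1 hw0' hw1' hb0 (by linarith)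
      (by linarith)
    have e : ct t * w - m + 2 * t - w = 2 * t - m - (2 * t + 3 / 2 * t ^ 2) * w := by
      rw [hca]; ring
    rw [e] at h
    linarith
  have h1 := hstep x x' le_rfl (by linarith) hx' (by linarith)
  have h2 := hstep y y' hxy (by linarith) hy' (by linarith)
  have h3 := hstep z z' (hxy.trans hyz) (by linarith) hz' (by linarith)
  have h4 : m * x' + m * y' + m * z' = m := by
    have : m * x' + m * y' + m * z' = m * (x' + y' + z') := by ring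
    rw [this, hs', mul_one]
  linarith

theorem thr (t : ℝ) (ht0 : 0 ≤ t) (ht : t ≤ 1 / 3) (x y : Fin 3 → ℝ) (hx : ∀ i, 0 ≤ x i)
    (hy : ∀ i, 0 ≤ y i) (hxs : ∑ i, x i = 1) (hys : ∑ i, y i = 1) :
    3 * (1 / 3 - t) ^ 2 + ct t * ∑ i, (x i - 1 / 3) * (y i - 1 / 3) + vt t * ∑ i, (x i - 1 / 3) ^ 2
      ≤ ∑ i, ft t (x i) (y i) := by
  rw [Fin.sum_univ_three] at hxs hys ⊢
  rw [Fin.sum_univ_three, Fin.sum_univ_three]
  have e : 3 * (1 / 3 - t) ^ 2 + ct t * ((x 0 - 1 / 3) * (y 0 - 1 / 3) + (x 1 - 1 / 3) * (y 1 - 1 / 3)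
      + (x 2 - 1 / 3) * (y 2 - 1 / 3)) + vt t * ((x 0 - 1 / 3) ^ 2 + (x 1 - 1 / 3) ^ 2 + (x 2 - 1 / 3) ^ 2)
      = ct t * (x 0 * y 0 + x 1 * y 1 + x 2 * y 2) - vt t * (1 - (x 0 ^ 2 + x 1 ^ 2 + x 2 ^ 2)) := by
    have h1 : x 2 = 1 - x 0 - x 1 := by linarith
    have h2 : y 2 = 1 - y 0 - y 1 := by linarith
    rw [h1, h2]; unfold ct vt; ring
  rw [e]
  have a0 := hx 0
  have a1 := hx 1
  have a2 := hx 2
  have b0 := hy 0
  have b1 := hy 1
  have b2 := hy 2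
  rcases le_total (x 0) (x 1) with h01 | h01
  · rcases le_total (x 1) (x 2) with h12 | h12
    · have h := thr_sorted t ht0 ht _ _ _ _ _ _ a0 h01 h12 (by linarith) b0 b1 b2 (by linarith)
      linarith
    · rcases le_total (x 0) (x 2) with h02 | h02
      · have h := thr_sorted t ht0 ht _ _ _ _ _ _ a0 h02 h12 (by linarith) b0 b2 b1 (by linarith)
        linarith
      · have h := thr_sorted t ht0 ht _ _ _ _ _ _ a2 h02 h01 (by linarith) b2 b0 b1 (by linarith)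
        linarith
  · rcases le_total (x 0) (x 2) with h02 | h02
    · have h := thr_sorted t ht0 ht _ _ _ _ _ _ a1 h01 h02 (by linarith) b1 b0 b2 (by linarith)
      linarith
    · rcases le_total (x 1) (x 2) with h12 | h12
      · have h := thr_sorted t ht0 ht _ _ _ _ _ _ a1 h12 h02 (by linarith) b1 b2 b0 (by linarith)
        linarith
      · have h := thr_sorted t ht0 ht _ _ _ _ _ _ a2 h12 h01 (by linarith) b2 b1 b0 (by linarith)
        linarith

end Pool.Agent.SSC3N
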